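import Mathlib

set_option linter.all false

section

set_option autoImplicit false

namespace Pool.Agent.MP_5499e5_ag.W

open Filter

/-- `f s ≤ (E + o(1)) s^k / k!`. -/
def UB (f : ℕ → ℕ) (k : ℕ) (E : ℝ) : Prop :=
  ∀ ε : ℝ, 0 < ε → ∀ᶠ s : ℕ in atTop, (f s : ℝ) * (k.factorial : ℝ) ≤ (E + ε) * (s : ℝ) ^ k

/-- `f s ≥ (E - o(1)) s^k / k!`. -/
def LB (f : ℕ → ℕ) (k : ℕ) (E : ℝ) : Prop :=
  ∀ ε : ℝ, 0 < ε → ∀ᶠ s : ℕ in atTop, (E - ε) * (s : ℝ) ^ k ≤ (f s : ℝ) * (k.factorial : ℝ)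

/-- `f s = O(s^k)`. -/
def Bdd (f : ℕ → ℕ) (k : ℕ) : Prop := ∃ E, UB f k E

/-- The upper limit of `k! f s / s^k`. -/
noncomputable def up (f : ℕ → ℕ) (k : ℕ) : ℝ := sInf {E | UB f k E}

/-- The lower limit of `k! f s / s^k`. -/
noncomputable def lo (f : ℕ → ℕ) (k : ℕ) : ℝ := sSup {E | LB f k E}

variable {f g : ℕ → ℕ} {k : ℕ} {E E' : ℝ}

theorem UB.mono (h : UB f k E) (hE : E ≤ E') : UB f k E' := fun ε hε =>
  (h ε hε).mono fun s hs => hs.trans (by gcongr)

theorem LB.mono (h : LB f k E) (hE : E' ≤ E) : LB f k E' := fun ε hε =>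
  (h ε hε).mono fun s hs => le_trans (by gcongr) hs

theorem LB.le_of_UB (h : LB f k E) (h' : UB f k E') : E ≤ E' := by
  by_contra hlt
  push Not at hlt
  have hε : 0 < (E - E') / 3 := by linarith
  obtain ⟨s, h1, h2, h3⟩ := ((h _ hε).and ((h' _ hε).and (eventually_gt_atTop 0))).exists
  have hs : (0 : ℝ) < (s : ℝ) ^ k := by positivity
  have := le_of_mul_le_mul_right (h1.trans h2) hs
  linarith

theorem LB_zero (f : ℕ → ℕ) (k : ℕ) : LB f k 0 := fun ε hε =>
  Eventually.of_forall fun s => le_trans (mul_nonpos_of_nonpos_of_nonneg (by linarith)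
    (by positivity)) (by positivity)

theorem UB.nonneg (h : UB f k E) : 0 ≤ E := (LB_zero f k).le_of_UB h

theorem UB.up_le (h : UB f k E) : up f k ≤ E :=
  csInf_le ⟨0, fun _ hx => UB.nonneg hx⟩ h

theorem up_nonneg (f : ℕ → ℕ) (k : ℕ) : 0 ≤ up f k :=
  Real.sInf_nonneg fun _ hx => UB.nonneg hx

theorem lo_nonneg (f : ℕ → ℕ) (k : ℕ) : 0 ≤ lo f k :=
  Real.sSup_nonneg' ⟨0, LB_zero f k, le_rfl⟩

theorem Bdd.ub_up (h : Bdd f k) : UB f k (up f k) := by
  intro ε hε
  obtain ⟨E, hE, hlt⟩ := exists_lt_of_csInf_lt (s := {E | UB f k E}) h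
    (show up f k < up f k + ε / 2 by linarith)
  exact (hE (ε / 2) (by linarith)).mono fun s hs =>
    hs.trans (mul_le_mul_of_nonneg_right (by linarith) (by positivity))

theorem Bdd.le_lo (h : Bdd f k) (h' : LB f k E) : E ≤ lo f k := by
  obtain ⟨E', hE'⟩ := h
  exact le_csSup ⟨E', fun _ hx => LB.le_of_UB hx hE'⟩ h'

theorem lb_lo (f : ℕ → ℕ) (k : ℕ) : LB f k (lo f k) := by
  intro ε hε
  obtain ⟨E, hE, hlt⟩ := exists_lt_of_lt_csSup (s := {E | LB f k E}) ⟨0, LB_zero f k⟩
    (show lo f k - ε / 2 < lo f k by linarith)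
  exact (hE (ε / 2) (by linarith)).mono fun s hs =>
    le_trans (mul_le_mul_of_nonneg_right (by linarith) (by positivity)) hs

theorem Bdd.le_up (h : Bdd f k) (h' : LB f k E) : E ≤ up f k := h'.le_of_UB h.ub_up

theorem UB.lo_le (h : UB f k E) : lo f k ≤ E := (lb_lo f k).le_of_UB h

theorem UB.of_le (h : UB g k E) (hfg : ∀ᶠ s in atTop, f s ≤ g s) : UB f k E := fun ε hε =>
  ((h ε hε).and hfg).mono fun s hs => le_trans (by gcongr; exact hs.2) hs.1

theorem LB.of_le (h : LB f k E) (hfg : ∀ᶠ s in atTop, f s ≤ g s) : LB g k E := fun ε hε =>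
  ((h ε hε).and hfg).mono fun s hs => le_trans hs.1 (by gcongr; exact hs.2)

theorem Bdd.of_le (h : Bdd g k) (hfg : ∀ᶠ s in atTop, f s ≤ g s) : Bdd f k :=
  h.imp fun _ hE => hE.of_le hfg

theorem UB.add (h : UB f k E) (h' : UB g k E') : UB (fun s => f s + g s) k (E + E') := by
  intro ε hε
  refine ((h (ε / 2) (by linarith)).and (h' (ε / 2) (by linarith))).mono fun s hs => ?_
  push_cast
  nlinarith [hs.1, hs.2]

theorem LB.add (h : LB f k E) (h' : LB g k E') : LB (fun s => f s + g s) k (E + E') := by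
  intro ε hε
  refine ((h (ε / 2) (by linarith)).and (h' (ε / 2) (by linarith))).mono fun s hs => ?_
  push_cast
  nlinarith [hs.1, hs.2]

theorem UB_zero (k : ℕ) : UB (fun _ => 0) k 0 := fun ε hε =>
  Eventually.of_forall fun s => by simp; positivity

theorem UB.sum {ι : Type*} (T : Finset ι) (f : ι → ℕ → ℕ) (E : ι → ℝ)
    (h : ∀ i ∈ T, UB (f i) k (E i)) : UB (fun s => ∑ i ∈ T, f i s) k (∑ i ∈ T, E i) := by
  classical
  induction T using Finset.induction_on with
  | empty => simpa using UB_zero k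
  | insert a T ha ih =>
    simp only [Finset.sum_insert ha]
    exact (h a (Finset.mem_insert_self _ _)).add
      (ih fun i hi => h i (Finset.mem_insert_of_mem hi))

theorem tendsto_shift_pow (c : ℝ) (k : ℕ) :
    Tendsto (fun s : ℕ => (((s : ℝ) + c) / s) ^ k) atTop (nhds 1) := by
  have h1 : Tendsto (fun s : ℕ => 1 + c / (s : ℝ)) atTop (nhds (1 + 0)) :=
    tendsto_const_nhds.add (tendsto_const_div_atTop_nhds_zero_nat c)
  have h2 := h1.pow k
  simp only [add_zero, one_pow] at h2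
  refine h2.congr' ((eventually_gt_atTop 0).mono fun s hs => ?_)
  have : (s : ℝ) ≠ 0 := by positivity
  simp only []
  congr 1
  field_simp

/-- `E (s+c)^k + C ≤ (E + ε) s^k` eventually, when `k ≥ 1` or `C = 0`. -/
theorem ev_shift_le (E c ε : ℝ) (k : ℕ) (hε : 0 < ε) :
    ∀ᶠ s : ℕ in atTop, E * ((s : ℝ) + c) ^ k ≤ (E + ε) * (s : ℝ) ^ k := by
  have h := (tendsto_shift_pow c k).const_mul E
  rw [mul_one] at h
  have h2 := h.eventually (gt_mem_nhds (show E < E + ε by linarith))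
  refine (h2.and (eventually_gt_atTop 0)).mono fun s hs => ?_
  have hs0 : (0 : ℝ) < (s : ℝ) ^ k := by have := hs.2; positivity
  have h3 := hs.1
  rw [div_pow, ← mul_div_assoc, div_lt_iff₀ hs0] at h3
  exact h3.le

theorem ev_shift_ge (E c ε : ℝ) (k : ℕ) (hε : 0 < ε) :
    ∀ᶠ s : ℕ in atTop, (E - ε) * (s : ℝ) ^ k ≤ E * ((s : ℝ) + c) ^ k := by
  refine (ev_shift_le (-E) c ε k hε).mono fun s hs => ?_
  linarith

theorem ev_const_le (C ε : ℝ) (k : ℕ) (hε : 0 < ε) :
    ∀ᶠ s : ℕ in atTop, C ≤ ε * (s : ℝ) ^ (k + 1) := by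
  have h : Tendsto (fun s : ℕ => ε * (s : ℝ) ^ (k + 1)) atTop atTop :=
    Tendsto.const_mul_atTop hε
      ((tendsto_pow_atTop (Nat.succ_ne_zero k)).comp tendsto_natCast_atTop_atTop)
  exact h.eventually_ge_atTop C

theorem LB.shift (h : LB f k E) (d : ℕ) : LB (fun s => f (s - d)) k E := by
  intro ε hε
  have h1 := (tendsto_sub_atTop_nat d).eventually (h (ε / 2) (by linarith))
  have h2 := ev_shift_ge (E - ε / 2) (-(d : ℝ)) (ε / 2) k (by linarith)
  refine (h1.and (h2.and (eventually_ge_atTop d))).mono fun s hs => ?_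
  obtain ⟨a, b, c⟩ := hs
  rw [Nat.cast_sub c] at a
  rw [← sub_eq_add_neg] at b
  have : E - ε / 2 - ε / 2 = E - ε := by ring
  rw [this] at b
  exact b.trans a

theorem UB.shift (h : UB f k E) (d : ℕ) : UB (fun s => f (s + d)) k E := by
  intro ε hε
  have h1 := (tendsto_add_atTop_nat d).eventually (h (ε / 2) (by linarith))
  have h2 := ev_shift_le (E + ε / 2) (d : ℝ) (ε / 2) k (by linarith)
  refine (h1.and h2).mono fun s hs => ?_
  obtain ⟨a, b⟩ := hs
  push_cast at a
  have : E + ε / 2 + ε / 2 = E + ε := by ring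
  rw [this] at b
  exact a.trans b

theorem Bdd.succ_zero (h : Bdd f k) : UB f (k + 1) 0 := by
  obtain ⟨E, hE⟩ := h
  intro ε hε
  have h2 := ev_const_le ((E + 1) * (k + 1)) ε 0 hε
  refine ((hE 1 one_pos).and h2).mono fun s hs => ?_
  obtain ⟨a, b⟩ := hs
  rw [Nat.factorial_succ]
  push_cast
  have hs0 : (0 : ℝ) ≤ (s : ℝ) ^ k := by positivity
  calc (f s : ℝ) * ((k + 1) * (k.factorial : ℝ)) = (k + 1) * (f s * (k.factorial : ℝ)) := by ring
    _ ≤ (k + 1) * ((E + 1) * (s : ℝ) ^ k) := by gcongr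
    _ = ((E + 1) * (k + 1)) * (s : ℝ) ^ k := by ring
    _ ≤ (ε * (s : ℝ) ^ (0 + 1)) * (s : ℝ) ^ k := by gcongr
    _ = (0 + ε) * (s : ℝ) ^ (k + 1) := by ring

theorem Bdd.succ (h : Bdd f k) : Bdd f (k + 1) := ⟨0, h.succ_zero⟩

theorem Bdd.mono (h : Bdd f k) {k' : ℕ} (hk : k ≤ k') : Bdd f k' := by
  induction hk with
  | refl => exact h
  | step _ ih => exact ih.succ

theorem pow_succ_add_ge (s a : ℝ) (hs : 0 ≤ s) (ha : 0 ≤ a) (k : ℕ) :
    s ^ (k + 1) + (k + 1) * a * s ^ k ≤ (s + a) ^ (k + 1) := by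
  induction k with
  | zero => simp
  | succ k ih =>
    have h1 : (s + a) ^ (k + 1 + 1) = (s + a) * (s + a) ^ (k + 1) := by ring
    have h2 : (s + a) * (s ^ (k + 1) + (k + 1) * a * s ^ k) ≤ (s + a) * (s + a) ^ (k + 1) := by
      gcongr
    have h3 : 0 ≤ (k + 1) * a * a * s ^ k := by positivity
    rw [h1]
    push_cast
    have h4 : (s + a) * (s ^ (k + 1) + (k + 1) * a * s ^ k) =
        s ^ (k + 1 + 1) + (k + 1 + 1) * a * s ^ (k + 1) + (k + 1) * a * a * s ^ k := by ring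
    linarith

theorem pow_succ_add_le (s a : ℝ) (hs : 0 ≤ s) (ha : 0 ≤ a) (k : ℕ) :
    (s + a) ^ (k + 1) ≤ s ^ (k + 1) + (k + 1) * a * (s + a) ^ k := by
  induction k with
  | zero => simp
  | succ k ih =>
    have h1 : (s + a) ^ (k + 1 + 1) = s * (s + a) ^ (k + 1) + a * (s + a) ^ (k + 1) := by ring
    have h2 : s * (s + a) ^ (k + 1) ≤ s * (s ^ (k + 1) + (k + 1) * a * (s + a) ^ k) := by gcongr
    have h3 : s * ((k + 1) * a * (s + a) ^ k) ≤ (s + a) * ((k + 1) * a * (s + a) ^ k) := by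
      gcongr; linarith
    rw [h1]
    push_cast
    have h4 : (s + a) * ((k + 1) * a * (s + a) ^ k) = (k + 1) * a * (s + a) ^ (k + 1) := by ring
    have h5 : s * (s ^ (k + 1) + (k + 1) * a * (s + a) ^ k) =
        s ^ (k + 1 + 1) + s * ((k + 1) * a * (s + a) ^ k) := by ring
    linarith

/-- Summation of an upper bound along an arithmetic progression. -/
theorem UB.slice (h : UB g k E) {a : ℕ} (ha : 0 < a) (hf : ∀ s, f (s + a) ≤ g (s + a) + f s) :
    UB f (k + 1) (E / a) := by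
  intro ε hε
  have ha' : (0 : ℝ) < a := by exact_mod_cast ha
  have hE := h.nonneg
  obtain ⟨s₀, hs₀⟩ := eventually_atTop.1 (h (ε / 3 * a) (by positivity))
  set E1 : ℝ := E / a + ε / 3 with hE1
  have hE1' : E + ε / 3 * a = E1 * a := by rw [hE1]; field_simp
  have hE10 : 0 ≤ E1 := by positivity
  set C : ℝ := ∑ s ∈ Finset.range (s₀ + a), (f s : ℝ) * ((k + 1).factorial : ℝ) with hC
  have key : ∀ s : ℕ, (f s : ℝ) * ((k + 1).factorial : ℝ) ≤ E1 * ((s : ℝ) + a) ^ (k + 1) + C := by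
    intro s
    induction s using Nat.strong_induction_on with
    | _ s ih =>
      by_cases hs : s < s₀ + a
      · have h1 : (f s : ℝ) * ((k + 1).factorial : ℝ) ≤ C :=
          Finset.single_le_sum (f := fun s => (f s : ℝ) * ((k + 1).factorial : ℝ))
            (fun i _ => by positivity) (Finset.mem_range.2 hs)
        have h2 : 0 ≤ E1 * ((s : ℝ) + a) ^ (k + 1) := by positivity
        linarith
      · obtain ⟨t, rfl⟩ : ∃ t, s = t + a := ⟨s - a, by omega⟩
        have h1 := ih t (by omega)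
        have h2 := hs₀ (t + a) (by omega)
        have h3 : (f (t + a) : ℝ) ≤ g (t + a) + f t := by exact_mod_cast hf t
        have h4 := pow_succ_add_ge ((t : ℝ) + a) a (by positivity) ha'.le k
        rw [hE1'] at h2
        push_cast at h2 ⊢
        have h5 : (((k + 1).factorial : ℕ) : ℝ) = (k + 1) * (k.factorial : ℝ) := by
          rw [Nat.factorial_succ]; push_cast; ring
        have h6 : (g (t + a) : ℝ) * ((k + 1).factorial : ℝ) ≤
            E1 * ((k + 1) * a * ((t : ℝ) + a) ^ k) := by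
          rw [h5]
          calc (g (t + a) : ℝ) * ((k + 1) * (k.factorial : ℝ))
              = (k + 1) * (g (t + a) * (k.factorial : ℝ)) := by ring
            _ ≤ (k + 1) * (E1 * a * ((t : ℝ) + a) ^ k) := by gcongr
            _ = _ := by ring
        have h7 : (f (t + a) : ℝ) * ((k + 1).factorial : ℝ) ≤
            (g (t + a) + f t) * ((k + 1).factorial : ℝ) := by gcongr
        have h8 := mul_le_mul_of_nonneg_left h4 hE10
        nlinarith
  have e1 := ev_shift_le E1 a (ε / 3) (k + 1) (by linarith)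
  have e2 := ev_const_le C (ε / 3) k (by linarith)
  refine (e1.and e2).mono fun s hs => (key s).trans ?_
  have : (E / a + ε) = (E1 + ε / 3) + ε / 3 := by rw [hE1]; ring
  rw [this]
  nlinarith [hs.1, hs.2]

/-- Summation of a lower bound along an arithmetic progression. -/
theorem LB.slice (h : LB g k E) {d : ℕ} (hd : 0 < d) (hf : ∀ s, g (s + d) + f s ≤ f (s + d)) :
    LB f (k + 1) (E / d) := by
  intro ε hε
  have hd' : (0 : ℝ) < d := by exact_mod_cast hd
  by_cases hneg : E / d - ε / 2 ≤ 0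
  · exact Eventually.of_forall fun s => le_trans (mul_nonpos_of_nonpos_of_nonneg (by linarith)
      (by positivity)) (by positivity)
  push Not at hneg
  obtain ⟨s₀, hs₀⟩ := eventually_atTop.1 (h (ε / 2 * d) (by positivity))
  set E1 : ℝ := E / d - ε / 2 with hE1
  have hE1' : E - ε / 2 * d = E1 * d := by rw [hE1]; field_simp
  set C : ℝ := E1 * ((s₀ : ℝ) + d) ^ (k + 1) with hC
  have h5 : (((k + 1).factorial : ℕ) : ℝ) = (k + 1) * (k.factorial : ℝ) := by
    rw [Nat.factorial_succ]; push_cast; ring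
  have key : ∀ s : ℕ, E1 * (s : ℝ) ^ (k + 1) - C ≤ (f s : ℝ) * ((k + 1).factorial : ℝ) := by
    intro s
    induction s using Nat.strong_induction_on with
    | _ s ih =>
      by_cases hs : s < s₀ + d
      · have h1 : (s : ℝ) ≤ s₀ + d := by exact_mod_cast hs.le
        have h2 : E1 * (s : ℝ) ^ (k + 1) ≤ C := by rw [hC]; gcongr
        have h3 : (0 : ℝ) ≤ (f s : ℝ) * ((k + 1).factorial : ℝ) := by positivity
        linarith
      · obtain ⟨t, rfl⟩ : ∃ t, s = t + d := ⟨s - d, by omega⟩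
        have h1 := ih t (by omega)
        have h2 := hs₀ (t + d) (by omega)
        have h3 : (g (t + d) : ℝ) + f t ≤ f (t + d) := by exact_mod_cast hf t
        have h4 := pow_succ_add_le (t : ℝ) d (by positivity) hd'.le k
        rw [hE1'] at h2
        push_cast at h2 ⊢
        have h6 : E1 * ((k + 1) * d * ((t : ℝ) + d) ^ k) ≤
            (g (t + d) : ℝ) * ((k + 1).factorial : ℝ) := by
          rw [h5]
          calc E1 * ((k + 1) * d * ((t : ℝ) + d) ^ k)
              = (k + 1) * (E1 * d * ((t : ℝ) + d) ^ k) := by ring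
            _ ≤ (k + 1) * (g (t + d) * (k.factorial : ℝ)) := by gcongr
            _ = _ := by ring
        have h7 : ((g (t + d) : ℝ) + f t) * ((k + 1).factorial : ℝ) ≤
            (f (t + d) : ℝ) * ((k + 1).factorial : ℝ) := by gcongr
        have h8 := mul_le_mul_of_nonneg_left h4 hneg.le
        nlinarith
  have e2 := ev_const_le C (ε / 2) k (by linarith)
  refine e2.mono fun s hs => le_trans ?_ (key s)
  have : (E / d - ε) = E1 - ε / 2 := by rw [hE1]; ring
  rw [this]
  nlinarith [hs]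

theorem Bdd.slice (h : Bdd f (k + 1)) (hg : Monotone g) {d : ℕ} (hd : 0 < d)
    (hf : ∀ s, g (s + d) + f s ≤ f (s + d)) : Bdd g k := by
  obtain ⟨E, hE⟩ := h
  have hE0 := hE.nonneg
  have key : ∀ n s : ℕ, n * g s ≤ f (s + n * d) := by
    intro n s
    induction n with
    | zero => simp
    | succ n ih =>
      have h1 := hf (s + n * d)
      have h2 : g s ≤ g (s + n * d + d) := hg (by omega)
      have h3 : s + (n + 1) * d = s + n * d + d := by ring
      rw [h3, Nat.succ_mul]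
      omega
  obtain ⟨s₀, hs₀⟩ := eventually_atTop.1 (hE 1 one_pos)
  refine ⟨(E + 1) * (1 + d) ^ (k + 1), fun ε hε => ?_⟩
  refine ((eventually_ge_atTop s₀).and (eventually_gt_atTop 0)).mono fun s hs => ?_
  have h1 := hs₀ (s + s * d) (by have := hs.1; omega)
  have h2 : (s : ℝ) * g s ≤ f (s + s * d) := by exact_mod_cast key s s
  have hs0 : (0 : ℝ) < s := by exact_mod_cast hs.2
  have h3 : (k.factorial : ℝ) ≤ ((k + 1).factorial : ℝ) := by
    exact_mod_cast Nat.factorial_le (Nat.le_succ k)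
  push_cast at h1
  have h4 : (s : ℝ) * (g s * (k.factorial : ℝ)) ≤
      s * ((E + 1) * (1 + d) ^ (k + 1) * (s : ℝ) ^ k) := by
    calc (s : ℝ) * (g s * (k.factorial : ℝ)) = (s * g s) * (k.factorial : ℝ) := by ring
      _ ≤ f (s + s * d) * ((k + 1).factorial : ℝ) := by gcongr
      _ ≤ (E + 1) * ((s : ℝ) + s * d) ^ (k + 1) := h1
      _ = _ := by rw [show (s : ℝ) + s * d = s * (1 + d) by ring, mul_pow]; ring
  refine (le_of_mul_le_mul_left h4 hs0).trans ?_
  gcongr
  linarith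

/-- Comparison at two scales. -/
theorem ev_lt_of_lt {δ M ρ : ℝ} (h : LB f k δ) (h' : UB g k M) (hρ : 0 < ρ)
    (hlt : M < ρ ^ k * δ) : ∀ᶠ n : ℕ in atTop, g n < f ⌊ρ * n⌋₊ := by
  have hρk : 0 < ρ ^ k := by positivity
  set η : ℝ := (ρ ^ k * δ - M) / 4 with hη
  have hη0 : 0 < η := by rw [hη]; linarith
  have hM := h'.nonneg
  have t1 : Tendsto (fun n : ℕ => ⌊ρ * n⌋₊) atTop atTop :=
    tendsto_nat_floor_atTop.comp (Tendsto.const_mul_atTop hρ tendsto_natCast_atTop_atTop)
  have e1 := t1.eventually (h (η / ρ ^ k) (by positivity))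
  have e2 := h' η hη0
  have e3 := ev_shift_ge (ρ ^ k * δ - η) (-(1 / ρ)) η k hη0
  have e4 : ∀ᶠ n : ℕ in atTop, 1 / ρ ≤ (n : ℝ) :=
    tendsto_natCast_atTop_atTop.eventually_ge_atTop _
  refine (e1.and (e2.and (e3.and (e4.and (eventually_gt_atTop 0))))).mono fun n hn => ?_
  obtain ⟨a, b, c, e, hn0⟩ := hn
  have hn1 : (0 : ℝ) < (n : ℝ) ^ k := by positivity
  have h1 : ρ * ((n : ℝ) + -(1 / ρ)) ≤ (⌊ρ * n⌋₊ : ℝ) := by
    have := Nat.lt_floor_add_one (ρ * n)
    have h2 : ρ * ((n : ℝ) + -(1 / ρ)) = ρ * n - 1 := by field_simp; ring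
    linarith
  have h2 : (ρ * ((n : ℝ) + -(1 / ρ))) ^ k ≤ (⌊ρ * n⌋₊ : ℝ) ^ k :=
    pow_le_pow_left₀ (mul_nonneg hρ.le (by linarith)) h1 k
  have h3 : 0 ≤ δ - η / ρ ^ k := by
    rw [sub_nonneg, div_le_iff₀ hρk]; rw [hη]; nlinarith
  have h4 : (ρ ^ k * δ - η) * ((n : ℝ) + -(1 / ρ)) ^ k =
      (δ - η / ρ ^ k) * (ρ * ((n : ℝ) + -(1 / ρ))) ^ k := by
    rw [mul_pow]; field_simp
  have h5 : (M + η) * (n : ℝ) ^ k < (ρ ^ k * δ - η - η) * (n : ℝ) ^ k := by
    gcongr; rw [hη]; linarith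
  have h6 : (g n : ℝ) * (k.factorial : ℝ) < (f ⌊ρ * n⌋₊ : ℝ) * (k.factorial : ℝ) := by
    calc (g n : ℝ) * (k.factorial : ℝ) ≤ _ := b
      _ < _ := h5
      _ ≤ _ := c
      _ = _ := h4
      _ ≤ (δ - η / ρ ^ k) * (⌊ρ * n⌋₊ : ℝ) ^ k := by gcongr
      _ ≤ _ := a
  have h7 := lt_of_mul_lt_mul_right h6 (by positivity)
  exact_mod_cast h7

theorem UB_choose (a k : ℕ) : UB (fun s => (s + a).choose k) k 1 := by
  intro ε hε
  refine (ev_shift_le 1 a ε k hε).mono fun s hs => le_trans ?_ hs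
  have h1 : (s + a).choose k * k.factorial ≤ (s + a) ^ k := by
    rw [mul_comm, ← Nat.descFactorial_eq_factorial_mul_choose]
    exact Nat.descFactorial_le_pow _ _
  rw [one_mul]
  exact_mod_cast h1

theorem LB_choose (k : ℕ) : LB (fun s => s.choose k) k 1 := by
  intro ε hε
  refine ((ev_shift_ge 1 (-(k : ℝ)) ε k hε).and (eventually_ge_atTop k)).mono fun s hs =>
    le_trans hs.1 ?_
  have h1 : (s - k) ^ k ≤ s.choose k * k.factorial := by
    rw [mul_comm, ← Nat.descFactorial_eq_factorial_mul_choose]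
    exact le_trans (Nat.pow_le_pow_left (by omega) _) (Nat.pow_sub_le_descFactorial s k)
  have h2 : (((s - k : ℕ) : ℝ)) ^ k ≤ (s.choose k : ℝ) * (k.factorial : ℝ) := by exact_mod_cast h1
  rw [Nat.cast_sub hs.2] at h2
  rw [one_mul, ← sub_eq_add_neg]
  exact h2

theorem UB.const_mul (h : UB f k E) (c : ℕ) : UB (fun s => c * f s) k (c * E) := by
  have := UB.sum (Finset.range c) (fun _ => f) (fun _ => E) fun _ _ => h
  simpa using this

theorem LB.const_mul (h : LB f k E) (c : ℕ) : LB (fun s => c * f s) k (c * E) := by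
  induction c with
  | zero => simpa using LB_zero _ k
  | succ c ih =>
    have := ih.add h
    push_cast
    simpa [add_mul] using this

end Pool.Agent.MP_5499e5_ag.W

end

section

set_option autoImplicit false

namespace Pool.Agent.MP_5499e5_ag.W

open Filter MvPolynomial

/-- The polynomial ring of affine `N`-space. -/
abbrev A (N : ℕ) (K : Type) [Field K] := MvPolynomial (Fin N) K

variable {N : ℕ} {K : Type} [Field K]

/-- Polynomials of degree at most `t`. -/
noncomputable abbrev Le (N : ℕ) (K : Type) [Field K] (t : ℕ) : Submodule K (A N K) :=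
  restrictTotalDegree (Fin N) K t

/-- The quotient map as a `K`-linear map. -/
noncomputable abbrev mkL (J : Ideal (A N K)) : A N K →ₗ[K] (A N K ⧸ J) :=
  (Ideal.Quotient.mkₐ K J).toLinearMap

/-- Affine Hilbert function. -/
noncomputable def hf (J : Ideal (A N K)) (t : ℕ) : ℕ :=
  Module.finrank K ((Le N K t).map (mkL J))

/-- Maximal ideal of a point. -/
noncomputable def mx (p : Fin N → K) : Ideal (A N K) := RingHom.ker (eval p)

/-- Hilbert-Samuel function at a point. -/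
noncomputable def lf (p : Fin N → K) (J : Ideal (A N K)) (s : ℕ) : ℕ :=
  Module.finrank K (A N K ⧸ (J ⊔ mx p ^ s))

/-- Growth dimension at most `w`. -/
def Dim (J : Ideal (A N K)) (w : ℕ) : Prop := Bdd (hf J) w

/-- Degree in dimension `w`. -/
noncomputable def dg (w : ℕ) (J : Ideal (A N K)) : ℝ := lo (hf J) w

/-- Multiplicity at `p` in dimension `w`. -/
noncomputable def mu (p : Fin N → K) (w : ℕ) (J : Ideal (A N K)) : ℝ := up (lf p J) w

/-- The coordinates of the points are algebraically independent. -/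
def Gen {ι : Type} (p : ι → Fin N → K) : Prop :=
  AlgebraicIndependent ℤ (fun q : ι × Fin N => p q.1 q.2)

/-- The colon ideal `J : g`. -/
def col {R : Type*} [CommRing R] (J : Ideal R) (g : R) : Ideal R :=
  Submodule.comap (LinearMap.toSpanSingleton R R g) J

theorem mem_col {R : Type*} [CommRing R] {J : Ideal R} {g h : R} : h ∈ col J g ↔ h * g ∈ J := by
  simp [col]

theorem le_col {R : Type*} [CommRing R] (J : Ideal R) (g : R) : J ≤ col J g :=
  fun _ hh => mem_col.2 (J.mul_mem_right _ hh)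

theorem col_prime {R : Type*} [CommRing R] {J : Ideal R} (hJ : J.IsPrime) {g : R} (hg : g ∉ J) :
    col J g = J :=
  le_antisymm (fun _ hh => (hJ.mem_or_mem (mem_col.1 hh)).resolve_right hg) (le_col J g)

/-- Noetherian induction down to prime ideals. -/
theorem ideal_ind {R : Type*} [CommRing R] [IsNoetherianRing R] (P : Ideal R → Prop)
    (J₀ : Ideal R) (htop : P ⊤) (hprime : ∀ q : Ideal R, q.IsPrime → J₀ ≤ q → P q)
    (hstep : ∀ (J : Ideal R) (g : R), J₀ ≤ J → P (J ⊔ Ideal.span {g}) → P (col J g) → P J) :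
    P J₀ := by
  have key : ∀ J : Ideal R, J₀ ≤ J → P J := by
    intro J
    induction J using IsNoetherian.induction with
    | _ J ih =>
      intro hJ
      by_cases h1 : J = ⊤
      · rw [h1]; exact htop
      by_cases h2 : Ideal.IsPrime J
      · exact hprime J h2 hJ
      obtain ⟨a, ha, b, hb, hab⟩ := (Ideal.not_isPrime_iff.1 h2).resolve_left h1
      refine hstep J a hJ (ih _ ?_ (hJ.trans le_sup_left)) (ih _ ?_ (hJ.trans (le_col J a)))
      · refine lt_of_le_of_ne le_sup_left fun h => ha ?_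
        rw [h]; exact Ideal.mem_sup_right (Ideal.mem_span_singleton_self a)
      · refine lt_of_le_of_ne (le_col J a) fun h => hb ?_
        rw [h]; exact mem_col.2 (by rw [mul_comm]; exact hab)
  exact key J₀ le_rfl

theorem mem_Le {t : ℕ} {f : A N K} : f ∈ Le N K t ↔ f.totalDegree ≤ t :=
  mem_restrictTotalDegree _ _ _

theorem Le_mono {t t' : ℕ} (h : t ≤ t') : Le N K t ≤ Le N K t' :=
  fun _ hf => mem_Le.2 ((mem_Le.1 hf).trans h)

instance fin_map (J : Ideal (A N K)) (t : ℕ) : Module.Finite K ((Le N K t).map (mkL J)) :=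
  Module.Finite.map _ _

theorem mem_mx {p : Fin N → K} {f : A N K} : f ∈ mx p ↔ eval p f = 0 := RingHom.mem_ker

theorem X_sub_mem_mx (p : Fin N → K) (u : Fin N) : (X u - C (p u) : A N K) ∈ mx p := by
  simp [mem_mx]

theorem mx_eq_span (p : Fin N → K) :
    mx p = Ideal.span (Set.range fun u => (X u - C (p u) : A N K)) := by
  refine le_antisymm (fun f hf => ?_) (Ideal.span_le.2 ?_)
  · have key : ∀ g : A N K, g - C (eval p g) ∈
        Ideal.span (Set.range fun u => (X u - C (p u) : A N K)) := by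
      intro g
      induction g using MvPolynomial.induction_on with
      | C a => simp
      | add a b ha hb =>
        have := Ideal.add_mem _ ha hb
        rw [map_add, map_add]
        rwa [show a - C (eval p a) + (b - C (eval p b)) = a + b - (C (eval p a) + C (eval p b)) by
          ring] at this
      | mul_X a u ha =>
        have h1 := Ideal.mul_mem_right (X u) _ ha
        have h2 : C (eval p a) * (X u - C (p u) : A N K) ∈
            Ideal.span (Set.range fun u => (X u - C (p u) : A N K)) :=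
          Ideal.mul_mem_left _ _ (Ideal.subset_span ⟨u, rfl⟩)
        have := Ideal.add_mem _ h1 h2
        rw [map_mul, eval_X, map_mul]
        rwa [show (a - C (eval p a)) * X u + C (eval p a) * (X u - C (p u)) =
          a * X u - C (eval p a) * C (p u) by ring] at this
    have := key f
    rwa [mem_mx.1 hf, map_zero, sub_zero] at this
  · rintro _ ⟨u, rfl⟩
    exact X_sub_mem_mx p u

theorem mx_isMaximal (p : Fin N → K) : (mx p).IsMaximal :=
  RingHom.ker_isMaximal_of_surjective _ fun a => ⟨C a, eval_C a⟩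

/-- Every polynomial is congruent modulo `m_p^s` to one of degree at most `s - 1`. -/
theorem exists_Le_sub_mem (p : Fin N → K) (s : ℕ) (f : A N K) :
    ∃ g ∈ Le N K (s - 1), f - g ∈ mx p ^ s := by
  induction s generalizing f with
  | zero => exact ⟨0, zero_mem _, by simp⟩
  | succ s ih =>
    have h1 : f - C (eval p f) ∈ mx p := by simp [mem_mx]
    rw [mx_eq_span, Ideal.mem_span_range_iff_exists_fun] at h1
    obtain ⟨c, hc⟩ := h1
    choose g hg hg' using fun u => ih (c u)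
    rcases Nat.eq_zero_or_pos s with rfl | hs
    · exact ⟨C (eval p f), mem_Le.2 (by simp), by simp [mem_mx]⟩
    refine ⟨C (eval p f) + ∑ u, g u * (X u - C (p u)), add_mem (mem_Le.2 (by simp))
      (Submodule.sum_mem _ fun u _ => mem_Le.2 ?_), ?_⟩
    · refine (totalDegree_mul _ _).trans ?_
      have h2 : (X u - C (p u) : A N K).totalDegree ≤ 1 :=
        (totalDegree_sub _ _).trans (by simp)
      have := mem_Le.1 (hg u)
      omega
    · have : f - (C (eval p f) + ∑ u, g u * (X u - C (p u))) =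
          ∑ u, (c u - g u) * (X u - C (p u)) := by
        rw [← sub_sub, ← hc, ← Finset.sum_sub_distrib]
        exact Finset.sum_congr rfl fun u _ => by ring
      rw [this, pow_succ]
      exact Ideal.sum_mem _ fun u _ => Ideal.mul_mem_mul (hg' u) (X_sub_mem_mx p u)

theorem map_Le_eq_top (p : Fin N → K) (J : Ideal (A N K)) (s : ℕ) :
    (Le N K (s - 1)).map (mkL (J ⊔ mx p ^ s)) = ⊤ := by
  refine eq_top_iff.2 fun x _ => ?_
  obtain ⟨f, rfl⟩ := Ideal.Quotient.mk_surjective x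
  obtain ⟨g, hg, hg'⟩ := exists_Le_sub_mem p s f
  exact ⟨g, hg, (Ideal.Quotient.eq.2 (Ideal.mem_sup_right hg')).symm⟩

instance fin_quot (p : Fin N → K) (J : Ideal (A N K)) (s : ℕ) :
    Module.Finite K (A N K ⧸ (J ⊔ mx p ^ s)) := by
  have := fin_map (J ⊔ mx p ^ s) (s - 1)
  rw [map_Le_eq_top] at this
  exact Module.Finite.of_surjective (⊤ : Submodule K _).subtype fun x => ⟨⟨x, trivial⟩, rfl⟩

theorem lf_eq_hf (p : Fin N → K) (J : Ideal (A N K)) (s : ℕ) :
    lf p J s = hf (J ⊔ mx p ^ s) (s - 1) := by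
  rw [lf, hf, map_Le_eq_top, finrank_top]

/-- The factor map between quotients as a `K`-linear map. -/
noncomputable def facL {J J' : Ideal (A N K)} (h : J ≤ J') : (A N K ⧸ J) →ₗ[K] (A N K ⧸ J') :=
  (Ideal.Quotient.factorₐ K h).toLinearMap

@[simp] theorem facL_mk {J J' : Ideal (A N K)} (h : J ≤ J') (f : A N K) :
    facL h (mkL J f) = mkL J' f := rfl

theorem mkL_eq_zero {J : Ideal (A N K)} {f : A N K} : mkL J f = 0 ↔ f ∈ J :=
  Ideal.Quotient.eq_zero_iff_mem

theorem mkL_surj (J : Ideal (A N K)) : Function.Surjective (mkL J) := Ideal.Quotient.mk_surjective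

theorem hf_mono (J : Ideal (A N K)) : Monotone (hf J) := fun _ _ h =>
  Submodule.finrank_mono (Submodule.map_mono (Le_mono h))

theorem hf_anti {J J' : Ideal (A N K)} (h : J ≤ J') (t : ℕ) : hf J' t ≤ hf J t := by
  have : (Le N K t).map (mkL J') = ((Le N K t).map (mkL J)).map (facL h) := by
    rw [← Submodule.map_comp]; rfl
  rw [hf, this]
  exact Submodule.finrank_map_le _ _

theorem lf_anti (p : Fin N → K) {J J' : Ideal (A N K)} (h : J ≤ J') (s : ℕ) :
    lf p J' s ≤ lf p J s := by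
  rw [lf_eq_hf, lf_eq_hf]
  exact hf_anti (sup_le_sup_right h _) _

theorem lf_le_hf (p : Fin N → K) (J : Ideal (A N K)) (s : ℕ) : lf p J s ≤ hf J s := by
  rw [lf_eq_hf]
  exact (hf_anti le_sup_left _).trans (hf_mono J (Nat.sub_le _ _))

theorem hf_top (t : ℕ) : hf (⊤ : Ideal (A N K)) t = 0 := by
  have : Subsingleton (A N K ⧸ (⊤ : Ideal (A N K))) := Ideal.Quotient.subsingleton_iff.2 rfl
  exact Module.finrank_zero_of_subsingleton

theorem lf_eq_zero {p : Fin N → K} {J : Ideal (A N K)} (h : ¬ J ≤ mx p) (s : ℕ) :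
    lf p J s = 0 := by
  have h1 : J ⊔ mx p = ⊤ := by
    refine (mx_isMaximal p).out.2 _ (lt_of_le_of_ne le_sup_right fun h2 => h ?_)
    rw [h2]; exact le_sup_left
  have h2 : J ⊔ mx p ^ s = ⊤ := Ideal.sup_pow_eq_top h1
  rw [lf_eq_hf, h2, hf_top]

theorem hf_add_finrank (J : Ideal (A N K)) (t : ℕ) :
    hf J t + Module.finrank K (Le N K t ⊓ J.restrictScalars K : Submodule K (A N K)) =
      Module.finrank K (Le N K t) := by
  have h := LinearMap.finrank_range_add_finrank_ker ((mkL J).domRestrict (Le N K t))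
  rw [LinearMap.range_domRestrict, LinearMap.ker_domRestrict] at h
  rw [← h, hf]
  congr 1
  have h2 : LinearMap.ker (mkL J) = J.restrictScalars K := by
    ext x; exact mkL_eq_zero
  rw [h2, ← Submodule.finrank_map_subtype_eq, Submodule.map_comap_subtype]

/-- Exact sequence, Hilbert function. -/
theorem hf_es (J : Ideal (A N K)) {g : A N K} {d : ℕ} (hg : g.totalDegree ≤ d) (t : ℕ) :
    hf (J ⊔ Ideal.span {g}) (t + d) + hf (col J g) t ≤ hf J (t + d) := by
  set V := (Le N K (t + d)).map (mkL J) with hV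
  set φ := (facL (le_sup_left : J ≤ J ⊔ Ideal.span {g})).domRestrict V with hφ
  have h1 := LinearMap.finrank_range_add_finrank_ker φ
  have h2 : LinearMap.range φ = (Le N K (t + d)).map (mkL (J ⊔ Ideal.span {g})) := by
    rw [hφ, LinearMap.range_domRestrict, hV, ← Submodule.map_comp]; rfl
  let ψ : (A N K ⧸ col J g) →ₗ[K] (A N K ⧸ J) :=
    (Submodule.mapQ (col J g) J (LinearMap.toSpanSingleton _ _ g) le_rfl).restrictScalars K
  have hψ : ∀ f : A N K, ψ (mkL _ f) = mkL J (f * g) := fun f => rfl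
  have hinj : Function.Injective ψ := by
    rw [← LinearMap.ker_eq_bot, eq_bot_iff]
    intro x hx
    obtain ⟨f, rfl⟩ := mkL_surj _ x
    rw [LinearMap.mem_ker, hψ, mkL_eq_zero] at hx
    exact mkL_eq_zero.2 (mem_col.2 hx)
  have h3 : ((Le N K t).map (mkL (col J g))).map ψ ≤ (LinearMap.ker φ).map V.subtype := by
    rintro _ ⟨_, ⟨f, hf, rfl⟩, rfl⟩
    refine ⟨⟨mkL J (f * g), ⟨f * g, mem_Le.2 ((totalDegree_mul _ _).trans
      (add_le_add (mem_Le.1 hf) hg)), rfl⟩⟩, ?_, (hψ f).symm⟩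
    change facL le_sup_left (mkL J (f * g)) = 0
    rw [facL_mk, mkL_eq_zero]
    exact Ideal.mem_sup_right (Ideal.mul_mem_left _ _ (Ideal.mem_span_singleton_self g))
  have h4 := Submodule.finrank_mono h3
  rw [Submodule.finrank_map_subtype_eq, ← (Submodule.equivMapOfInjective ψ hinj _).finrank_eq] at h4
  rw [h2] at h1
  unfold hf
  rw [← hV]
  omega

/-- Exact sequence, Hilbert-Samuel function. -/
theorem lf_es (p : Fin N → K) (J : Ideal (A N K)) {g : A N K} {a : ℕ} (hg : g ∈ J ⊔ mx p ^ a)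
    (s : ℕ) : lf p J (s + a) ≤ lf p (J ⊔ Ideal.span {g}) (s + a) + lf p (col J g) s := by
  have hle : J ⊔ mx p ^ (s + a) ≤ (J ⊔ Ideal.span {g}) ⊔ mx p ^ (s + a) :=
    sup_le_sup_right le_sup_left _
  have h1 := LinearMap.finrank_range_add_finrank_ker (facL hle)
  have h2 : LinearMap.range (facL hle) = ⊤ := by
    refine eq_top_iff.2 fun x _ => ?_
    obtain ⟨f, rfl⟩ := mkL_surj _ x
    exact ⟨mkL _ f, rfl⟩
  have hle2 : col J g ⊔ mx p ^ s ≤
      Submodule.comap (LinearMap.toSpanSingleton _ _ g) (J ⊔ mx p ^ (s + a)) := by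
    refine sup_le (fun f hf => Ideal.mem_sup_left (mem_col.1 hf)) fun f hf => ?_
    obtain ⟨j, hj, m, hm, rfl⟩ := Submodule.mem_sup.1 hg
    change f * (j + m) ∈ J ⊔ mx p ^ (s + a)
    rw [mul_add, pow_add]
    exact add_mem (Ideal.mem_sup_left (J.mul_mem_left _ hj))
      (Ideal.mem_sup_right (Ideal.mul_mem_mul hf hm))
  let ψ : (A N K ⧸ (col J g ⊔ mx p ^ s)) →ₗ[K] (A N K ⧸ (J ⊔ mx p ^ (s + a))) :=
    (Submodule.mapQ _ _ (LinearMap.toSpanSingleton _ _ g) hle2).restrictScalars K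
  have hψ : ∀ f : A N K, ψ (mkL _ f) = mkL _ (f * g) := fun f => rfl
  have h3 : LinearMap.ker (facL hle) ≤ LinearMap.range ψ := by
    intro x hx
    obtain ⟨f, rfl⟩ := mkL_surj _ x
    rw [LinearMap.mem_ker, facL_mk, mkL_eq_zero, sup_right_comm] at hx
    obtain ⟨j, hj, m, hm, rfl⟩ := Submodule.mem_sup.1 hx
    obtain ⟨c, rfl⟩ := Ideal.mem_span_singleton'.1 hm
    refine ⟨mkL _ c, ?_⟩
    rw [hψ, map_add, mkL_eq_zero.2 hj, zero_add]
  have h4 := (Submodule.finrank_mono h3).trans (LinearMap.finrank_range_le ψ)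
  rw [h2, finrank_top] at h1
  unfold lf
  omega

theorem Dim.anti {J J' : Ideal (A N K)} {w : ℕ} (h : Dim J w) (hJ : J ≤ J') : Dim J' w :=
  Bdd.of_le h (Eventually.of_forall (hf_anti hJ))

theorem Dim.mono {J : Ideal (A N K)} {w w' : ℕ} (h : Dim J w) (hw : w ≤ w') : Dim J w' :=
  Bdd.mono h hw

theorem Dim.bdd_lf {J : Ideal (A N K)} {w : ℕ} (h : Dim J w) (p : Fin N → K) :
    Bdd (lf p J) w := Bdd.of_le h (Eventually.of_forall (lf_le_hf p J))

theorem Dim.ub_mu {J : Ideal (A N K)} {w : ℕ} (h : Dim J w) (p : Fin N → K) :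
    UB (lf p J) w (mu p w J) := (h.bdd_lf p).ub_up

theorem lb_dg (J : Ideal (A N K)) (w : ℕ) : LB (hf J) w (dg w J) := lb_lo _ _

theorem dg_nonneg (w : ℕ) (J : Ideal (A N K)) : 0 ≤ dg w J := lo_nonneg _ _

theorem mu_nonneg (p : Fin N → K) (w : ℕ) (J : Ideal (A N K)) : 0 ≤ mu p w J := up_nonneg _ _

theorem Dim.dg_anti {J J' : Ideal (A N K)} {w : ℕ} (h : Dim J w) (hJ : J ≤ J') :
    dg w J' ≤ dg w J :=
  Bdd.le_lo h ((lb_dg J' w).of_le (Eventually.of_forall (hf_anti hJ)))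

theorem Dim.mu_anti {J J' : Ideal (A N K)} {w : ℕ} (h : Dim J w) (hJ : J ≤ J') (p : Fin N → K) :
    mu p w J' ≤ mu p w J :=
  ((h.ub_mu p).of_le (Eventually.of_forall (lf_anti p hJ))).up_le

theorem Dim.dg_succ {J : Ideal (A N K)} {w : ℕ} (h : Dim J w) : dg (w + 1) J = 0 :=
  le_antisymm (Bdd.succ_zero h).lo_le (dg_nonneg _ _)

theorem Dim.mu_succ {J : Ideal (A N K)} {w : ℕ} (h : Dim J w) (p : Fin N → K) :
    mu p (w + 1) J = 0 :=
  le_antisymm (h.bdd_lf p).succ_zero.up_le (mu_nonneg _ _ _)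

theorem mu_eq_zero {p : Fin N → K} {J : Ideal (A N K)} (h : ¬ J ≤ mx p) (w : ℕ) :
    mu p w J = 0 :=
  le_antisymm ((UB_zero w).of_le (Eventually.of_forall fun s => (lf_eq_zero h s).le)).up_le
    (mu_nonneg _ _ _)

theorem mu_top (p : Fin N → K) (w : ℕ) : mu p w (⊤ : Ideal (A N K)) = 0 :=
  mu_eq_zero (fun h => (mx_isMaximal p).ne_top (top_le_iff.1 h)) w

theorem dim_top (w : ℕ) : Dim (⊤ : Ideal (A N K)) w :=
  ⟨0, (UB_zero w).of_le (Eventually.of_forall fun s => (hf_top s).le)⟩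

theorem dg_top (w : ℕ) : dg w (⊤ : Ideal (A N K)) = 0 :=
  le_antisymm ((UB_zero w).of_le (Eventually.of_forall fun s => (hf_top s).le)).lo_le
    (dg_nonneg _ _)

/-- The degree is superadditive. -/
theorem Dim.dg_es {J : Ideal (A N K)} {w : ℕ} (h : Dim J w) (g : A N K) :
    dg w (J ⊔ Ideal.span {g}) + dg w (col J g) ≤ dg w J := by
  refine Bdd.le_lo h (((lb_dg _ w).add ((lb_dg (col J g) w).shift g.totalDegree)).of_le ?_)
  refine (eventually_ge_atTop g.totalDegree).mono fun s hs => ?_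
  have := hf_es J (le_refl g.totalDegree) (s - g.totalDegree)
  rwa [Nat.sub_add_cancel hs] at this

/-- The multiplicity is subadditive. -/
theorem Dim.mu_es {J : Ideal (A N K)} {w : ℕ} (h : Dim J w) (p : Fin N → K) (g : A N K) :
    mu p w J ≤ mu p w (J ⊔ Ideal.span {g}) + mu p w (col J g) := by
  refine UB.up_le ((((h.anti le_sup_left).ub_mu p).add ((h.anti (le_col J g)).ub_mu p)).of_le ?_)
  exact Eventually.of_forall fun s => lf_es p J (a := 0) (by simp) s

theorem hf_slice {q : Ideal (A N K)} (hq : q.IsPrime) {g : A N K} (hg : g ∉ q) {d : ℕ}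
    (hd : g.totalDegree ≤ d) (t : ℕ) :
    hf (q ⊔ Ideal.span {g}) (t + d) + hf q t ≤ hf q (t + d) := by
  have := hf_es q hd t
  rwa [col_prime hq hg] at this

/-- Cutting a prime by an element outside lowers the dimension. -/
theorem Dim.slice {q : Ideal (A N K)} {w : ℕ} (h : Dim q (w + 1)) (hq : q.IsPrime) {g : A N K}
    (hg : g ∉ q) : Dim (q ⊔ Ideal.span {g}) w :=
  Bdd.slice h (hf_mono _) (Nat.succ_pos g.totalDegree) (hf_slice hq hg (Nat.le_succ _))

theorem Dim.of_lt {q J : Ideal (A N K)} {w : ℕ} (h : Dim q (w + 1)) (hq : q.IsPrime)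
    (hlt : q < J) : Dim J w := by
  obtain ⟨g, hg, hg'⟩ := SetLike.exists_of_lt hlt
  exact (h.slice hq hg').anti (sup_le hlt.le ((Ideal.span_singleton_le_iff_mem _).2 hg))

/-- Bezout inequality for the degree. -/
theorem Dim.dg_slice {q : Ideal (A N K)} {w : ℕ} (h : Dim q (w + 1)) (hq : q.IsPrime) {g : A N K}
    (hg : g ∉ q) {d : ℕ} (hd : g.totalDegree ≤ d) :
    dg w (q ⊔ Ideal.span {g}) ≤ d * dg (w + 1) q := by
  rcases Nat.eq_zero_or_pos d with rfl | hd0
  · have h1 : g = C (coeff 0 g) := totalDegree_eq_zero_iff_eq_C.1 (Nat.le_zero.1 hd)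
    have h2 : coeff 0 g ≠ 0 := fun h0 => hg (by rw [h1, h0, map_zero]; exact zero_mem _)
    have h3 : Ideal.span {g} = ⊤ := by
      rw [Ideal.span_singleton_eq_top, h1]
      exact (IsUnit.mk0 _ h2).map C
    rw [h3, sup_top_eq, dg_top]; simp
  · have h1 := Bdd.le_lo h ((lb_dg (q ⊔ Ideal.span {g}) w).slice hd0 (hf_slice hq hg hd))
    have hd' : (0 : ℝ) < d := by exact_mod_cast hd0
    rw [div_le_iff₀ hd'] at h1
    rw [mul_comm]; exact h1

/-- Upper bound form of the multiplicity inequality. -/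
theorem UB_lf_slice {p : Fin N → K} {J : Ideal (A N K)} {g : A N K} {a w : ℕ} {E : ℝ}
    (ha : 0 < a) (hg : g ∈ J ⊔ mx p ^ a) (h : UB (lf p (J ⊔ Ideal.span {g})) w E) :
    UB (lf p J) (w + 1) (E / a) :=
  h.slice ha fun s => (lf_es p J hg s).trans
    (Nat.add_le_add_left (lf_anti p (le_col J g) s) _)

/-- Bezout inequality for the multiplicity. -/
theorem mu_slice (p : Fin N → K) {J : Ideal (A N K)} {g : A N K} {a w : ℕ}
    (hg : g ∈ J ⊔ mx p ^ a) (h : Dim (J ⊔ Ideal.span {g}) w) :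
    a * mu p (w + 1) J ≤ mu p w (J ⊔ Ideal.span {g}) := by
  rcases Nat.eq_zero_or_pos a with rfl | ha
  · simpa using mu_nonneg _ _ _
  · have h1 := (UB_lf_slice ha hg (h.ub_mu p)).up_le
    have ha' : (0 : ℝ) < a := by exact_mod_cast ha
    rw [le_div_iff₀ ha'] at h1
    rw [mul_comm]; exact h1

/-- Reduction to primes of an inequality `F ≤ c * degree` with `F` subadditive. -/
theorem reduce_prime {w : ℕ} {c : ℝ} (hc : 0 ≤ c) (F : Ideal (A N K) → ℝ) (hF0 : F ⊤ ≤ 0)
    (hF : ∀ (J : Ideal (A N K)) (g : A N K), Dim J w →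
      F J ≤ F (J ⊔ Ideal.span {g}) + F (col J g))
    {J₀ : Ideal (A N K)} (hJ : Dim J₀ w)
    (hp : ∀ q : Ideal (A N K), q.IsPrime → J₀ ≤ q → Dim q w → F q ≤ c * dg w q) :
    F J₀ ≤ c * dg w J₀ := by
  refine ideal_ind (fun J => F J ≤ c * dg w J) J₀ (by simpa [dg_top] using hF0)
    (fun q hq hle => hp q hq hle (hJ.anti hle)) fun J g hle h1 h2 => ?_
  have h3 := hF J g (hJ.anti hle)
  have h4 := mul_le_mul_of_nonneg_left ((hJ.anti hle).dg_es g) hc
  linarith

/-- Reduction to primes for a sum of multiplicities. -/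
theorem reduce_sum {ι : Type} (T : Finset ι) (p : ι → Fin N → K) {w : ℕ} {c : ℝ} (hc : 0 ≤ c)
    {J₀ : Ideal (A N K)} (hJ : Dim J₀ w)
    (hp : ∀ q : Ideal (A N K), q.IsPrime → J₀ ≤ q → Dim q w →
      ∑ i ∈ T, mu (p i) w q ≤ c * dg w q) :
    ∑ i ∈ T, mu (p i) w J₀ ≤ c * dg w J₀ := by
  refine reduce_prime hc (fun J => ∑ i ∈ T, mu (p i) w J) (by simp [mu_top]) ?_ hJ hp
  intro J g h
  rw [← Finset.sum_add_distrib]
  exact Finset.sum_le_sum fun i _ => h.mu_es (p i) g

/-- Reduction to primes for a sum of truncated multiplicities. -/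
theorem reduce_min {ι : Type} (T : Finset ι) (p : ι → Fin N → K) {w : ℕ} {c B : ℝ} (hc : 0 ≤ c)
    (hB : 0 ≤ B) {J₀ : Ideal (A N K)} (hJ : Dim J₀ w)
    (hp : ∀ q : Ideal (A N K), q.IsPrime → J₀ ≤ q → Dim q w →
      ∑ i ∈ T, min (mu (p i) w q) B ≤ c * dg w q) :
    ∑ i ∈ T, min (mu (p i) w J₀) B ≤ c * dg w J₀ := by
  refine reduce_prime hc (fun J => ∑ i ∈ T, min (mu (p i) w J) B) (by simp [mu_top, hB]) ?_ hJ hp
  intro J g h
  rw [← Finset.sum_add_distrib]
  refine Finset.sum_le_sum fun i _ => ?_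
  have h1 := h.mu_es (p i) g
  have h2 := mu_nonneg (p i) w (J ⊔ Ideal.span {g})
  have h3 := mu_nonneg (p i) w (col J g)
  simp only [min_def]
  split_ifs <;> linarith

end Pool.Agent.MP_5499e5_ag.W

end
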