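import Pool.Agent.Mg.F5499e5ap.G658e11

set_option linter.all false

section

set_option autoImplicit false

namespace Pool.Agent.MP_5499e5_ag.W

open Filter MvPolynomial

theorem core_Exch {R B : Type} [Field R] [CommRing B] [IsDomain B] [Algebra R B] {N : ℕ}
    (x y : Fin N → B) (S : Finset (Fin N)) (hx : AlgebraicIndependent R x)
    (hb : IsTranscendenceBasis R (Sum.elim (fun u : S => x u) y)) :
    ∃ T : Finset (Fin N), T.card = S.card ∧
      ∀ b : B, IsAlgebraic (Algebra.adjoin R (Set.range x ∪ y '' (T : Set (Fin N)))) b := by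
  classical
  have hy : Function.Injective y := hb.1.injective.comp Sum.inr_injective
  have h1 : Algebra.adjoin R (Set.range (Sum.elim (fun u : S => x u) y)) ≤
      Algebra.adjoin R (Set.range x ∪ Set.range y) := by
    refine Algebra.adjoin_mono ?_
    rintro _ ⟨u | u, rfl⟩
    · exact Or.inl ⟨u, rfl⟩
    · exact Or.inr ⟨u, rfl⟩
  have h2 : Algebra.IsAlgebraic (Algebra.adjoin R (Set.range x ∪ Set.range y)) B :=
    ⟨fun b => (hb.isAlgebraic.isAlgebraic b).tower_top_of_subalgebra_le h1⟩
  obtain ⟨t, t1, t2, t3⟩ := exists_isTranscendenceBasis_between (R := R) (Set.range x)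
    (Set.range x ∪ Set.range y) Set.subset_union_left hx.to_subtype_range
  let T : Finset (Fin N) := Finset.univ.filter fun u => y u ∈ t ∧ y u ∉ Set.range x
  have h3 : t = Set.range x ∪ y '' (T : Set (Fin N)) := by
    refine Set.Subset.antisymm (fun b hb' => ?_) (Set.union_subset t1 ?_)
    · by_cases h : b ∈ Set.range x
      · exact Or.inl h
      · obtain ⟨u, rfl⟩ := (t2 hb').resolve_left h
        exact Or.inr ⟨u, by simpa [T] using ⟨hb', by simpa using h⟩, rfl⟩
    · rintro _ ⟨u, hu, rfl⟩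
      exact (Finset.mem_filter.1 hu).2.1
  have h4 : Disjoint (Set.range x) (y '' (T : Set (Fin N))) := by
    rw [Set.disjoint_right]
    rintro _ ⟨u, hu, rfl⟩
    exact (Finset.mem_filter.1 hu).2.2
  refine ⟨T, ?_, fun b => ?_⟩
  · have h5 : Nat.card t = Nat.card (S ⊕ Fin N) := congrArg Cardinal.toNat (t3.cardinalMk_eq hb)
    rw [Nat.card_coe_set_eq, h3, Set.ncard_union_eq h4 (Set.finite_range x)
      ((Set.toFinite _).image y), Set.ncard_image_of_injective _ hy,
      Set.ncard_range_of_injective hx.injective, Set.ncard_coe_finset, Nat.card_sum] at h5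
    simp only [Nat.card_eq_fintype_card, Fintype.card_fin, Fintype.card_coe] at h5
    omega
  · have h6 := t3.isAlgebraic.isAlgebraic b
    rw [Subtype.range_coe] at h6
    rwa [← h3]

theorem s_exch : S_exch := by
  intro N K _ K₀ y P S hy hP hle hS
  have hx : AlgebraicIndependent K₀ fun u : Fin N => Ideal.Quotient.mk P (X u : A N K) := by
    rw [algebraicIndependent_iff]
    intro G hG
    have h1 : aeval (fun u : Fin N => Ideal.Quotient.mk P (X u : A N K)) G =
        Ideal.Quotient.mk P (aeval (X : Fin N → A N K) G) :=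
      (comp_aeval_apply (X : Fin N → A N K) (Ideal.Quotient.mkₐ K₀ P) G).symm
    rw [h1, Ideal.Quotient.eq_zero_iff_mem] at hG
    have h2 := mem_mx.1 (hle hG)
    refine algebraicIndependent_iff.1 hy.1 G ?_
    have h3 := comp_aeval_apply (X : Fin N → A N K) ((aeval y : A N K →ₐ[K] K).restrictScalars K₀) G
    simp only [AlgHom.restrictScalars_apply, aeval_X] at h3
    rw [← h3]
    exact h2
  obtain ⟨T, hT, h⟩ := core_Exch (R := K₀) (fun u : Fin N => Ideal.Quotient.mk P (X u : A N K))
    (algebraMap K (A N K ⧸ P) ∘ y) S hx (hy.sumElim_comp hS)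
  refine ⟨T, hT, fun u => ?_⟩
  set R₁ := (Subring.closure ((fun c : K => (C c : A N K)) '' (K₀ : Set K) ∪
      Set.range (X : Fin N → A N K) ∪ (fun v => (C (y v) : A N K)) '' (T : Set (Fin N)))).map
        (Ideal.Quotient.mk P) with hR
  have hsub : (Algebra.adjoin K₀ (Set.range (fun u : Fin N => Ideal.Quotient.mk P (X u : A N K)) ∪
      (algebraMap K (A N K ⧸ P) ∘ y) '' (T : Set (Fin N)))).toSubring ≤ R₁ := by
    rw [Algebra.adjoin_eq_ring_closure, Subring.closure_le]
    rintro _ (⟨c, rfl⟩ | ⟨v, rfl⟩ | ⟨v, hv, rfl⟩)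
    · exact ⟨C (c : K), Subring.subset_closure (Or.inl (Or.inl ⟨c, c.2, rfl⟩)), rfl⟩
    · exact ⟨X v, Subring.subset_closure (Or.inl (Or.inr ⟨v, rfl⟩)), rfl⟩
    · exact ⟨C (y v), Subring.subset_closure (Or.inr ⟨v, hv, rfl⟩), rfl⟩
  exact (h _).ringHom_of_comp_eq (Subring.inclusion hsub) (RingHom.id _)
    (Subring.inclusion_injective hsub) rfl

end Pool.Agent.MP_5499e5_ag.W

end

section

set_option autoImplicit false

namespace Pool.Agent.MP_5499e5_ag.W

open Filter MvPolynomial

/-- Coefficients of degree at most `t`. -/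
noncomputable def cf_FlatH (N : ℕ) (L : Type) [Field L] (t : ℕ) : A N L →ₗ[L] (ex N t → L) :=
  LinearMap.pi fun α => lcoeff L (α : Fin N →₀ ℕ)

theorem cf_apply_FlatH {N : ℕ} {L : Type} [Field L] (t : ℕ) (f : A N L) (α : ex N t) :
    cf_FlatH N L t f α = coeff (α : Fin N →₀ ℕ) f := rfl

theorem coeff_zero_FlatH {N : ℕ} {L : Type} [Field L] {t : ℕ} {f : A N L} (hf : f ∈ Le N L t)
    {α : Fin N →₀ ℕ} (hα : α ∉ ex N t) : coeff α f = 0 := by
  by_contra h
  exact hα (mem_ex.2 (totalDegree_le_iff.1 (mem_Le.1 hf) α (mem_support_iff.2 h)))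

theorem finrank_map_FlatH {N : ℕ} {L : Type} [Field L] (t : ℕ) (U : Submodule L (A N L))
    (hU : U ≤ Le N L t) : Module.finrank L (U.map (cf_FlatH N L t)) = Module.finrank L U := by
  have hi : Function.Injective ((cf_FlatH N L t).domRestrict U) := by
    rw [injective_iff_map_eq_zero]
    intro f hf
    ext α
    by_cases hα : α ∈ ex N t
    · exact congrFun hf ⟨α, hα⟩
    · exact coeff_zero_FlatH (hU f.2) hα
  rw [← LinearMap.range_domRestrict, LinearMap.finrank_range_of_inj hi]

theorem coeff_lift_FlatH {N t : ℕ} {R : Type} [CommRing R] (v : ex N t → R) (α : Fin N →₀ ℕ) :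
    coeff α (∑ β : ex N t, monomial (β : Fin N →₀ ℕ) (v β) : MvPolynomial (Fin N) R) =
      if h : α ∈ ex N t then v ⟨α, h⟩ else 0 := by
  classical
  rw [coeff_sum]
  split_ifs with h
  · rw [Finset.sum_eq_single ⟨α, h⟩]
    · simp
    · intro β _ hβ
      rw [coeff_monomial, if_neg fun h' => hβ (Subtype.ext h')]
    · simp
  · refine Finset.sum_eq_zero fun β _ => ?_
    rw [coeff_monomial, if_neg]
    rintro rfl
    exact h β.2

theorem s_flath (h : S_la) : S_flath := by
  intro N K _ O J t
  let k := IsLocalRing.ResidueField O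
  let U : Submodule K (A N K) := Le N K t ⊓ J.restrictScalars K
  let U' : Submodule k (A N k) := Le N k t ⊓ (red O J).restrictScalars k
  have h1 := h K O (ex N t) (U.map (cf_FlatH N K t))
  have h2 : redS O (U.map (cf_FlatH N K t)) ≤ U'.map (cf_FlatH N k t) := by
    refine Submodule.span_le.2 ?_
    rintro x ⟨v, ⟨f, hf, hv⟩, rfl⟩
    set g : MvPolynomial (Fin N) O := ∑ β : ex N t, monomial (β : Fin N →₀ ℕ) (v β) with hg
    have hgf : MvPolynomial.map O.subtype g = f := by
      ext α
      rw [coeff_map, hg, coeff_lift_FlatH]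
      split_ifs with hα
      · exact (congrFun hv ⟨α, hα⟩).symm
      · rw [map_zero, coeff_zero_FlatH hf.1 hα]
    refine ⟨MvPolynomial.map (IsLocalRing.residue O) g, ⟨mem_Le.2 ?_, ?_⟩, funext fun α => ?_⟩
    · refine totalDegree_le_iff.2 fun α hα => ?_
      by_contra h'
      rw [mem_support_iff, coeff_map, hg, coeff_lift_FlatH, dif_neg fun h2 => h' (mem_ex.1 h2),
        map_zero] at hα
      exact hα rfl
    · refine Ideal.mem_map_of_mem _ (Ideal.mem_comap.2 ?_)
      rw [hgf]
      exact hf.2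
    · rw [cf_apply_FlatH, coeff_map, hg, coeff_lift_FlatH, dif_pos α.2]
  have h3 : Module.finrank K U ≤ Module.finrank k U' := by
    rw [← finrank_map_FlatH t U inf_le_left, ← finrank_map_FlatH t U' inf_le_left, ← h1]
    exact Submodule.finrank_mono h2
  have h4 : hf J t + Module.finrank K U = (t + N).choose N :=
    (hf_add_finrank J t).trans (finrank_Le N K t)
  have h5 : hf (red O J) t + Module.finrank k U' = (t + N).choose N :=
    (hf_add_finrank (red O J) t).trans (finrank_Le N k t)
  omega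

end Pool.Agent.MP_5499e5_ag.W

end

section

set_option autoImplicit false

namespace Pool.Agent.MP_5499e5_ag.W

open Filter MvPolynomial

/-- Exponents of degree less than `s`. -/
noncomputable def ex_FlatL (N s : ℕ) : Finset (Fin N →₀ ℕ) :=
  (ex N s).filter fun α => α.degree < s

theorem mem_ex_FlatL {N s : ℕ} {α : Fin N →₀ ℕ} : α ∈ ex_FlatL N s ↔ α.degree < s := by
  rw [ex_FlatL, Finset.mem_filter, mem_ex]
  exact ⟨fun h => h.2, fun h => ⟨h.le, h⟩⟩

/-- Taylor coefficients of order less than `s`. -/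
noncomputable def ty_FlatL {N : ℕ} {L : Type} [Field L] (q : Fin N → L) (s : ℕ) :
    A N L →ₗ[L] (ex_FlatL N s → L) :=
  LinearMap.pi fun α => (lcoeff L (α : Fin N →₀ ℕ)).comp (tr q).toLinearMap

theorem ty_apply_FlatL {N : ℕ} {L : Type} [Field L] (q : Fin N → L) (s : ℕ) (f : A N L)
    (α : ex_FlatL N s) : ty_FlatL q s f α = coeff (α : Fin N →₀ ℕ) (tr q f) := rfl

theorem ty_surj_FlatL {N : ℕ} {L : Type} [Field L] (q : Fin N → L) (s : ℕ) :
    Function.Surjective (ty_FlatL q s) := by
  classical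
  intro v
  refine ⟨tr (-q) (∑ β : ex_FlatL N s, monomial (β : Fin N →₀ ℕ) (v β)), funext fun α => ?_⟩
  rw [ty_apply_FlatL, tr_tr, add_neg_cancel, tr_zero, coeff_sum, Finset.sum_eq_single α]
  · simp
  · intro β _ hβ
    rw [coeff_monomial, if_neg fun h => hβ (Subtype.ext h)]
  · simp

theorem ty_eq_zero_FlatL {N : ℕ} {L : Type} [Field L] (q : Fin N → L) (s : ℕ) (f : A N L) :
    ty_FlatL q s f = 0 ↔ f ∈ mx q ^ s := by
  rw [mem_mx_pow_iff]
  exact ⟨fun h α hα => congrFun h ⟨α, mem_ex_FlatL.2 hα⟩,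
    fun h => funext fun α => h α (mem_ex_FlatL.1 α.2)⟩

theorem lf_add_FlatL {N : ℕ} {L : Type} [Field L] (q : Fin N → L) (s : ℕ) (I : Ideal (A N L)) :
    lf q I s + Module.finrank L ((I.restrictScalars L).map (ty_FlatL q s)) =
      Fintype.card (ex_FlatL N s) := by
  set W := (I.restrictScalars L).map (ty_FlatL q s) with hW
  have hs : Function.Surjective (W.mkQ.comp (ty_FlatL q s)) :=
    W.mkQ_surjective.comp (ty_surj_FlatL q s)
  have hk : (I ⊔ mx q ^ s).restrictScalars L = LinearMap.ker (W.mkQ.comp (ty_FlatL q s)) := by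
    ext f
    rw [Submodule.restrictScalars_mem, LinearMap.mem_ker, LinearMap.comp_apply, Submodule.mkQ_apply,
      Submodule.Quotient.mk_eq_zero, Submodule.mem_sup]
    constructor
    · rintro ⟨a, ha, b, hb, rfl⟩
      refine ⟨a, ha, ?_⟩
      rw [map_add, (ty_eq_zero_FlatL q s b).2 hb, add_zero]
    · rintro ⟨a, ha, h⟩
      refine ⟨a, ha, f - a, (ty_eq_zero_FlatL q s _).1 ?_, by ring⟩
      rw [map_sub, h, sub_self]
  have e := ((Submodule.Quotient.restrictScalarsEquiv L (I ⊔ mx q ^ s)).symm.trans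
    (Submodule.quotEquivOfEq _ _ hk)).trans (LinearMap.quotKerEquivOfSurjective _ hs)
  have h1 : lf q I s = Module.finrank L ((ex_FlatL N s → L) ⧸ W) := e.finrank_eq
  rw [h1, Submodule.finrank_quotient_add_finrank, Module.finrank_fintype_fun_eq_card]

theorem map_tr_FlatL {N : ℕ} {O L : Type} [CommRing O] [Field L] (φ : O →+* L) (p : Fin N → O)
    (f : MvPolynomial (Fin N) O) :
    tr (fun u => φ (p u)) (MvPolynomial.map φ f) =
      MvPolynomial.map φ (aeval (fun u => (X u + C (p u) : MvPolynomial (Fin N) O)) f) := by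
  induction f using MvPolynomial.induction_on with
  | C a => simp
  | add a b ha hb => rw [map_add, map_add, ha, hb, map_add, map_add]
  | mul_X a u ha => rw [map_mul, map_mul, ha, map_mul, map_mul]; simp

theorem s_flatl (h : S_la) : S_flatl := by
  intro N K _ O J p s
  have h1 := lf_add_FlatL (fun u => (p u : K)) s J
  have h2 := lf_add_FlatL (fun u => IsLocalRing.residue O (p u)) s (red O J)
  have h3 := h K O _ ((J.restrictScalars K).map (ty_FlatL (fun u => (p u : K)) s))
  have h4 : ((red O J).restrictScalars (IsLocalRing.ResidueField O)).map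
      (ty_FlatL (fun u => IsLocalRing.residue O (p u)) s) ≤
      redS O ((J.restrictScalars K).map (ty_FlatL (fun u => (p u : K)) s)) := by
    rintro _ ⟨f, hf, rfl⟩
    obtain ⟨g, hg, rfl⟩ := (Ideal.mem_map_iff_of_surjective _
      (MvPolynomial.map_surjective _ IsLocalRing.residue_surjective)).1 hf
    refine Submodule.subset_span ⟨fun α => coeff (α : Fin N →₀ ℕ)
      (aeval (fun u => (X u + C (p u) : MvPolynomial (Fin N) O)) g),
      ⟨MvPolynomial.map O.subtype g, hg, funext fun α => ?_⟩, funext fun α => ?_⟩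
    · rw [ty_apply_FlatL]
      have := map_tr_FlatL O.subtype p g
      simp only [ValuationSubring.coe_subtype] at this
      rw [this, coeff_map]
      rfl
    · rw [ty_apply_FlatL, map_tr_FlatL, coeff_map]
  have h5 := Submodule.finrank_mono h4
  omega

end Pool.Agent.MP_5499e5_ag.W

end

section

set_option autoImplicit false

namespace Pool.Agent.MP_5499e5_ag.W

open Filter MvPolynomial

theorem val_Place {R K : Type} [CommRing R] [Field K] (φ : R →+* K) (hφ : Function.Injective φ)
    (P : Ideal R) [P.IsPrime] : ∃ (O : ValuationSubring K) (χ : R →+* O),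
      (∀ f, (χ f : K) = φ f) ∧ ∀ f, IsLocalRing.residue O (χ f) = 0 ↔ f ∈ P := by
  have hu : ∀ y : P.primeCompl, IsUnit (φ y) := fun y =>
    isUnit_iff_ne_zero.2 fun h => y.2 (by
      rw [(injective_iff_map_eq_zero φ).1 hφ _ h]
      exact P.zero_mem)
  obtain ⟨O, h, hl⟩ := IsLocalRing.exists_factor_valuationRing
    (IsLocalization.lift (S := Localization.AtPrime P) hu)
  let g : Localization.AtPrime P →+* O :=
    (IsLocalization.lift (S := Localization.AtPrime P) hu).codRestrict O.toSubring h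
  have hg : IsLocalHom g := hl
  refine ⟨O, g.comp (algebraMap R _), fun f => IsLocalization.lift_eq hu f, fun f => ?_⟩
  rw [IsLocalRing.residue_eq_zero_iff, IsLocalRing.mem_maximalIdeal, mem_nonunits_iff,
    RingHom.comp_apply, isUnit_map_iff g,
    IsLocalization.AtPrime.isUnit_to_map_iff (Localization.AtPrime P) P f]
  exact not_not

theorem s_place : S_place := by
  intro n K _ _ ι p j hp
  let ψ : MvPolynomial (ι × Fin (n + 1)) ℤ →+* MvPolynomial (ι × Fin n) ℤ :=
    (aeval fun q : ι × Fin (n + 1) => (Fin.cases (motive := fun _ => MvPolynomial (ι × Fin n) ℤ)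
      (j q.1 : MvPolynomial (ι × Fin n) ℤ) (fun u => X (q.1, u)) q.2)).toRingHom
  have hP : (RingHom.ker ψ).IsPrime := RingHom.ker_isPrime ψ
  obtain ⟨O, χ, h1, h2⟩ := val_Place
    (aeval (R := ℤ) fun q : ι × Fin (n + 1) => p q.1 q.2).toRingHom hp (RingHom.ker ψ)
  refine ⟨O, fun i u => χ (X (i, u)), fun i u => by simp [h1], ?_, fun i => ?_, ?_⟩
  · refine charZero_of_inj_zero fun m hm => ?_
    have h3 := (h2 m).1 (by simpa using hm)
    simpa [RingHom.mem_ker] using h3
  · have h3 := (h2 (X (i, 0) - (j i : MvPolynomial (ι × Fin (n + 1)) ℤ))).2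
      (by simp [RingHom.mem_ker, ψ])
    simpa [sub_eq_zero] using h3
  · refine (injective_iff_map_eq_zero _).2 fun G hG => ?_
    have e1 : (aeval (R := ℤ) fun q : ι × Fin n =>
        IsLocalRing.residue O (χ (X (q.1, q.2.succ)))).toRingHom =
        ((IsLocalRing.residue O).comp χ).comp
          (rename fun q : ι × Fin n => (q.1, q.2.succ)).toRingHom :=
      ringHom_ext (fun r => by simp) fun q => by simp
    have e2 : ψ.comp (rename fun q : ι × Fin n => (q.1, q.2.succ)).toRingHom = RingHom.id _ :=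
      ringHom_ext (fun r => by simp) fun q => by simp [ψ]
    have h3 := (h2 _).1 ((RingHom.congr_fun e1 G).symm.trans hG)
    exact (RingHom.congr_fun e2 G).symm.trans h3

end Pool.Agent.MP_5499e5_ag.W

end

section

set_option autoImplicit false

namespace Pool.Agent.MP_5499e5_ag.W

open Filter MvPolynomial

theorem cong_Res {n : ℕ} {K : Type} [Field K] {J : Ideal (A (n + 1) K)} {h : K}
    (hJ : (X 0 - C h : A (n + 1) K) ∈ J) (f : A (n + 1) K) :
    ∃ g : A n K, Ideal.Quotient.mk J (rename Fin.succ g) = Ideal.Quotient.mk J f := by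
  induction f using MvPolynomial.induction_on with
  | C a => exact ⟨C a, by rw [rename_C]⟩
  | add a b ha hb =>
    obtain ⟨x, hx⟩ := ha
    obtain ⟨y, hy⟩ := hb
    exact ⟨x + y, by rw [map_add, map_add, map_add, hx, hy]⟩
  | mul_X a u ha =>
    obtain ⟨x, hx⟩ := ha
    induction u using Fin.cases with
    | zero =>
      exact ⟨x * C h, by
        rw [map_mul, map_mul, map_mul, hx, rename_C, Ideal.Quotient.eq.2 hJ]⟩
    | succ u => exact ⟨x * X u, by rw [map_mul, map_mul, map_mul, hx, rename_X]⟩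

theorem s_res : S_res := by
  intro n K _ J h hJ
  let φ : A n K →ₐ[K] A (n + 1) K := rename Fin.succ
  refine ⟨J.comap φ, fun t => ?_, fun p s => ?_⟩
  · let ψ := (Ideal.quotientMapₐ J φ le_rfl).toLinearMap
    have h1 : Function.Injective ψ := Ideal.quotientMap_injective (I := J) (f := φ.toRingHom)
    rw [hf, (Submodule.equivMapOfInjective ψ h1 _).finrank_eq]
    refine Submodule.finrank_mono ?_
    rintro _ ⟨_, ⟨f, hf, rfl⟩, rfl⟩
    exact ⟨φ f, mem_Le.2 ((totalDegree_rename_le _ _).trans (mem_Le.1 hf)), rfl⟩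
  · have h1 : J.comap φ ⊔ mx (fun u => p u.succ) ^ s ≤ (J ⊔ mx p ^ s).comap φ :=
      sup_le (Ideal.comap_mono le_sup_left) fun f hf => Ideal.mem_sup_right
        (map_mem_pow φ.toRingHom (fun x hx => by
          rw [mem_mx] at hx ⊢
          exact (eval_rename _ _ _).trans hx) hf)
    refine LinearMap.finrank_le_finrank_of_surjective
      (f := (Ideal.quotientMapₐ _ φ h1).toLinearMap) fun x => ?_
    obtain ⟨f, rfl⟩ := Ideal.Quotient.mk_surjective x
    obtain ⟨g, hg⟩ := cong_Res (Ideal.mem_sup_left (T := mx p ^ s) hJ) f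
    exact ⟨Ideal.Quotient.mk _ g, hg⟩

theorem s_gap : S_gap := by
  intro N K _ z I hN hz hd _ h0 h1
  by_contra hc
  push Not at hc
  have key : ∀ k, k ≤ N - 1 → ∀ P : Ideal (A N K), P.IsPrime → P ≤ z → I k ≤ P →
      Dim P (N - 1 - k) := by
    intro k
    induction k with
    | zero =>
      intro _ P _ _ h2
      refine Dim.of_lt (q := ⊥) ?_ Ideal.isPrime_bot ((bot_lt_iff_ne_bot.2 h0).trans_le h2)
      exact (dim_all _).mono (by omega)
    | succ k ih =>
      intro hk P hP h2 h3
      obtain ⟨q, h4, h5, h6⟩ := hc k P hP h2 h3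
      exact ((ih (by omega) q h4 (h5.le.trans h2) h6).mono (by omega)).of_lt h4 h5
  exact hd ((key _ le_rfl z hz le_rfl h1).mono (by omega))

end Pool.Agent.MP_5499e5_ag.W

end

section

set_option autoImplicit false

namespace Pool.Agent.MP_5499e5_ag.W

open Filter MvPolynomial

theorem adjoin_top_Tb {N : ℕ} {K : Type} [Field K] (P : Ideal (A N K)) :
    Algebra.adjoin K (Set.range fun u : Fin N => Ideal.Quotient.mk P (X u : A N K)) = ⊤ := by
  have h1 : (Set.range fun u : Fin N => Ideal.Quotient.mk P (X u : A N K)) =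
      Ideal.Quotient.mkₐ K P '' Set.range (X : Fin N → A N K) := by
    rw [← Set.range_comp]; rfl
  rw [h1, ← AlgHom.map_adjoin, adjoin_range_X, Algebra.map_top, AlgHom.range_eq_top]
  exact Ideal.Quotient.mkₐ_surjective K P

theorem exists_tb_Tb {K B ι : Type} [Field K] [CommRing B] [IsDomain B] [Algebra K B] [Fintype ι]
    (x : ι → B) (hx : Algebra.adjoin K (Set.range x) = ⊤) :
    ∃ S : Finset ι, IsTranscendenceBasis K (fun u : S => x (u : ι)) := by
  classical
  have : Algebra.IsAlgebraic (Algebra.adjoin K (Set.range x)) B := by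
    rw [hx]
    exact ⟨fun a => isAlgebraic_algebraMap (⟨a, trivial⟩ : (⊤ : Subalgebra K B))⟩
  obtain ⟨t, ht, hb⟩ := exists_isTranscendenceBasis_subset (R := K) (Set.range x)
  obtain ⟨s, -, hinj, himg⟩ :=
    (show Set.SurjOn x Set.univ t by rwa [Set.SurjOn, Set.image_univ]).exists_subset_injOn_image_eq
  refine ⟨s.toFinset, ?_⟩
  subst himg
  have h2 := (isTranscendenceBasis_image hinj).2 hb
  exact h2.comp_equiv (Equiv.subtypeEquivRight fun u => (Set.mem_toFinset (s := s) (a := u)))

theorem s_tb : S_tb := by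
  intro N K _ P hP
  have : IsDomain (A N K ⧸ P) := Ideal.Quotient.isDomain P
  exact exists_tb_Tb (fun u : Fin N => Ideal.Quotient.mk P (X u : A N K)) (adjoin_top_Tb P)

theorem s_tbdeg : S_tbdeg := by
  intro N K _ P S hS hD
  let e : Fin S.card → Fin N := fun i => (S.equivFin.symm i : Fin N)
  have hind : AlgebraicIndependent K
      (fun i : Fin S.card => Ideal.Quotient.mk P (X (e i) : A N K)) :=
    hS.1.comp S.equivFin.symm S.equivFin.symm.injective
  let φ : A S.card K →ₐ[K] (A N K ⧸ P) := aeval fun i => Ideal.Quotient.mk P (X (e i) : A N K)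
  have hφ : ∀ f, φ f = mkL P (rename e f) := by
    intro f
    have : φ = (Ideal.Quotient.mkₐ K P).comp (rename e) := by
      ext i; simp [φ]
    rw [this]; rfl
  have hinj : Function.Injective φ.toLinearMap := hind
  refine Bdd.le_lo hD ((LB_choose S.card).of_le (Eventually.of_forall fun t => ?_))
  have h1 : (Le S.card K t).map φ.toLinearMap ≤ (Le N K t).map (mkL P) := by
    rintro _ ⟨f, hf, rfl⟩
    exact ⟨rename e f, mem_Le.2 ((totalDegree_rename_le _ _).trans (mem_Le.1 hf)), (hφ f).symm⟩
  have h2 := Submodule.finrank_mono h1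
  rw [← (Submodule.equivMapOfInjective _ hinj _).finrank_eq, finrank_Le] at h2
  exact (Nat.choose_le_choose _ (Nat.le_add_right _ _)).trans h2

end Pool.Agent.MP_5499e5_ag.W

end

section

set_option autoImplicit false

namespace Pool.Agent.MP_5499e5_ag.W

open Filter MvPolynomial

/-- The variables in `W` are specialised to their classes modulo `P`. -/
noncomputable def phi_TbDim {N : ℕ} {K : Type} [Field K] (P : Ideal (A N K))
    (W : Finset (Fin N)) : A N K →ₐ[K] MvPolynomial (Fin N) (A N K ⧸ P) :=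
  aeval fun u => if u ∈ W then C (Ideal.Quotient.mk P (X u)) else X u

/-- One more variable is specialised. -/
noncomputable def psi_TbDim {N : ℕ} {B : Type} [CommRing B] (u : Fin N) (b : B) :
    MvPolynomial (Fin N) B →ₐ[B] MvPolynomial (Fin N) B :=
  aeval fun v => if v = u then C b else X v

theorem phi_insert_TbDim {N : ℕ} {K : Type} [Field K] (P : Ideal (A N K)) (W : Finset (Fin N))
    (u : Fin N) (f : A N K) : phi_TbDim P (insert u W) f =
      psi_TbDim u (Ideal.Quotient.mk P (X u)) (phi_TbDim P W f) := by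
  have : phi_TbDim P (insert u W) =
      ((psi_TbDim u (Ideal.Quotient.mk P (X u))).restrictScalars K).comp (phi_TbDim P W) := by
    refine MvPolynomial.algHom_ext fun v => ?_
    by_cases h1 : v ∈ W
    · simp [phi_TbDim, psi_TbDim, h1]
    · by_cases h2 : v = u
      · subst h2
        simp [phi_TbDim, psi_TbDim, h1]
      · simp [phi_TbDim, psi_TbDim, h1, h2]
  rw [this]
  rfl

theorem phi_univ_TbDim {N : ℕ} {K : Type} [Field K] (P : Ideal (A N K)) (f : A N K) :
    phi_TbDim P Finset.univ f = C (Ideal.Quotient.mk P f) := by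
  have : phi_TbDim P Finset.univ =
      (IsScalarTower.toAlgHom K (A N K ⧸ P) (MvPolynomial (Fin N) (A N K ⧸ P))).comp
        (Ideal.Quotient.mkₐ K P) := by
    refine MvPolynomial.algHom_ext fun v => ?_
    simp [phi_TbDim]
  rw [this]
  rfl

theorem lt_TbDim {N : ℕ} {K : Type} [Field K] {P : Ideal (A N K)} {S W : Finset (Fin N)}
    (hT : TB P S) (hSW : S ⊆ W) {u : Fin N} (hu : u ∉ W) :
    RingHom.ker (phi_TbDim P W) < RingHom.ker (phi_TbDim P (insert u W)) := by
  refine lt_of_le_of_ne (fun f hf => ?_) fun he => ?_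
  · rw [RingHom.mem_ker] at hf ⊢
    rw [phi_insert_TbDim, hf, map_zero]
  have halg := hT.isAlgebraic.isAlgebraic (Ideal.Quotient.mk P (X u))
  obtain ⟨R₀, hR₀⟩ : ∃ R₀ : Subalgebra K (A N K ⧸ P), R₀ = Algebra.adjoin K
    (Set.range fun v : S => Ideal.Quotient.mk P (X (v : Fin N) : A N K)) := ⟨_, rfl⟩
  rw [← hR₀] at halg
  obtain ⟨f, hf0, hf⟩ := halg
  have hC : ∀ b ∈ R₀, (C b : MvPolynomial (Fin N) (A N K ⧸ P)) ∈ (phi_TbDim P W).range := by
    have : R₀ ≤ (phi_TbDim P W).range.comap
        (IsScalarTower.toAlgHom K (A N K ⧸ P) (MvPolynomial (Fin N) (A N K ⧸ P))) := by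
      rw [hR₀]
      refine Algebra.adjoin_le ?_
      rintro _ ⟨v, rfl⟩
      exact ⟨X v, by simp [phi_TbDim, hSW v.2]⟩
    exact fun b hb => this hb
  have hX : (X u : MvPolynomial (Fin N) (A N K ⧸ P)) ∈ (phi_TbDim P W).range :=
    ⟨X u, by simp [phi_TbDim, hu]⟩
  obtain ⟨F, hF⟩ : ∃ F : Polynomial (A N K ⧸ P), F = f.map (algebraMap R₀ (A N K ⧸ P)) := ⟨_, rfl⟩
  have hF0 : F ≠ 0 := by
    rw [hF]
    exact (Polynomial.map_ne_zero_iff Subtype.val_injective).2 hf0
  have hFe : Polynomial.aeval (Ideal.Quotient.mk P (X u)) F = 0 := by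
    rw [hF, Polynomial.aeval_map_algebraMap]; exact hf
  have hFc : ∀ k, F.coeff k ∈ R₀ := fun k => by
    rw [hF, Polynomial.coeff_map]; exact (f.coeff k).2
  have hmem : Polynomial.aeval (X u : MvPolynomial (Fin N) (A N K ⧸ P)) F ∈
      (phi_TbDim P W).range := by
    rw [Polynomial.aeval_eq_sum_range]
    refine Subalgebra.sum_mem _ fun k _ => ?_
    rw [smul_eq_C_mul]
    exact mul_mem (hC _ (hFc k)) (pow_mem hX k)
  obtain ⟨g, hg⟩ := hmem
  have hg' : phi_TbDim P W g = Polynomial.aeval (X u : MvPolynomial (Fin N) (A N K ⧸ P)) F := hg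
  have h1 : g ∈ RingHom.ker (phi_TbDim P (insert u W)) := by
    rw [RingHom.mem_ker, phi_insert_TbDim, hg', ← Polynomial.aeval_algHom_apply]
    have : psi_TbDim u (Ideal.Quotient.mk P (X u)) (X u) =
        algebraMap (A N K ⧸ P) (MvPolynomial (Fin N) (A N K ⧸ P)) (Ideal.Quotient.mk P (X u)) := by
      simp [psi_TbDim]
    rw [this, Polynomial.aeval_algebraMap_apply, hFe, map_zero]
  rw [← he, RingHom.mem_ker, hg'] at h1
  have h2 := congrArg (aeval (R := A N K ⧸ P)
    (fun _ : Fin N => (Polynomial.X : Polynomial (A N K ⧸ P)))) h1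
  rw [← Polynomial.aeval_algHom_apply, aeval_X, map_zero, Polynomial.aeval_X_left_apply] at h2
  exact hF0 h2

theorem s_tbdim (h : S_minq) : S_tbdim := by
  intro N K _ P S hP hT
  have key : ∀ V : Finset (Fin N), Disjoint S V → ∀ w, w + V.card = N →
      Dim (RingHom.ker (phi_TbDim P (S ∪ V))) w := by
    intro V
    induction V using Finset.induction_on with
    | empty =>
      intro _ w hw
      rw [Finset.card_empty, add_zero] at hw
      subst hw
      exact dim_all _
    | insert u V hu ih =>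
      intro hd w hw
      rw [Finset.disjoint_insert_right] at hd
      rw [Finset.card_insert_of_notMem hu] at hw
      have h1 := ih hd.2 (w + 1) (by omega)
      rw [Finset.union_insert]
      refine h1.of_lt (RingHom.ker_isPrime _) (lt_TbDim hT Finset.subset_union_left ?_)
      rw [Finset.mem_union, not_or]
      exact ⟨hd.1, hu⟩
  have h2 := key Sᶜ disjoint_compl_right S.card (by
    rw [Finset.card_add_card_compl, Fintype.card_fin])
  rw [Finset.union_compl] at h2
  refine h2.anti fun f hf => ?_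
  rw [RingHom.mem_ker, phi_univ_TbDim, C_eq_zero] at hf
  exact Ideal.Quotient.eq_zero_iff_mem.1 hf

end Pool.Agent.MP_5499e5_ag.W

end
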