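import Pool.Agent.MP_5499e5_ag.S.Defs

set_option linter.all false

section

set_option autoImplicit false

namespace Pool.Agent.MP_5499e5_ag.S

open MvPolynomial

variable {N r : ℕ} {K : Type} [Field K]

/-- forms of degree `d` -/
abbrev Hm (N : ℕ) (K : Type) [Field K] (d : ℕ) : Submodule K (MvPolynomial (Fin (N + 1)) K) :=
  homogeneousSubmodule (Fin (N + 1)) K d

/-- the linear form dual to a point -/
noncomputable def lin (p : Fin (N + 1) → K) : MvPolynomial (Fin (N + 1)) K := ∑ u, C (p u) * X u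

/-- the degree `a + m` part of the ideal generated by the `a`-th powers of the linear forms -/
noncomputable def dual (P : Fin r → Fin (N + 1) → K) (a m : ℕ) :
    Submodule K (MvPolynomial (Fin (N + 1)) K) :=
  ⨆ j, (Hm N K m).map (LinearMap.mulLeft K (lin (P j) ^ a))

/-- a nontrivial relation of degree `m` among the `a`-th powers of the linear forms -/
def Rel (P : Fin r → Fin (N + 1) → K) (a m : ℕ) : Prop :=
  ∃ g : Fin r → MvPolynomial (Fin (N + 1)) K, (∀ j, (g j).IsHomogeneous m) ∧ g ≠ 0 ∧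
    ∑ j, lin (P j) ^ a * g j = 0

/-- distinct points of projective space -/
def Dist (P : Fin r → Fin (N + 1) → K) : Prop :=
  (∀ i, P i ≠ 0) ∧ ∀ i j, i ≠ j → LinearIndependent K ![P i, P j]

def SH : Prop := ∀ (N : ℕ) (K : Type) [Field K] (d : ℕ),
  Module.Finite K (Hm N K d) ∧ Module.finrank K (Hm N K d) = (d + N).choose N

def SA : Prop := ∀ (N r : ℕ) (K : Type) [Field K] [CharZero K] (P : Fin r → Fin (N + 1) → K)
  (a m : ℕ), Module.finrank K (symb P (m + 1) (a + m)) + Module.finrank K (dual P a m) =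
    (a + m + N).choose N

def SD : Prop := ∀ (N r : ℕ) (K : Type) [Field K] (P : Fin r → Fin (N + 1) → K) (a m : ℕ),
  Module.finrank K (dual P a m) ≤ r * (m + N).choose N ∧
  (Module.finrank K (dual P a m) = r * (m + N).choose N ↔ ¬ Rel P a m) ∧
  ∀ (q k : ℕ) (y : Fin q → Fin r → MvPolynomial (Fin (N + 1)) K) (e : ℕ), m = e + k →
    (∀ s j, (y s j).IsHomogeneous e) → (∀ s, ∑ j, lin (P j) ^ a * y s j = 0) →
    LinearIndependent (MvPolynomial (Fin (N + 1)) K) y →
    q * (k + N).choose N + Module.finrank K (dual P a m) ≤ r * (m + N).choose N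

def SW : Prop := ∀ (K : Type) [Field K] [CharZero K] (q : ℕ) (p : Fin q → Polynomial K),
  LinearIndependent K p →
    (Matrix.of fun s i : Fin q => Polynomial.derivative^[s] (p i)).det ≠ 0

def SB : Prop := ∀ (K : Type) [Field K] [CharZero K] (r a d : ℕ) (g : Fin r → Polynomial K)
  (τ : Fin r → K), Function.Injective τ →
  (∀ i, (Polynomial.X - Polynomial.C (τ i)) ^ (a + r) ∣ g i) → (∀ i, (g i).natDegree ≤ d) →
  ∑ i, g i = 0 → g ≠ 0 →
  ∃ (q : ℕ) (ε : Fin q → Fin r), q < r ∧ (q + 1) * a ≤ q * d ∧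
    (Matrix.of fun s i : Fin q => Polynomial.derivative^[s] (g (ε i))).det ≠ 0

def SC : Prop := ∀ (N r : ℕ) (K : Type) [Field K] [CharZero K] (P : Fin r → Fin (N + 1) → K),
  Dist P → ∀ a m : ℕ, Rel P (a + r) m →
  ∃ (q : ℕ) (y : Fin q → Fin r → MvPolynomial (Fin (N + 1)) K), q < r ∧ a ≤ q * (m + r) ∧
    (∀ s j, (y s j).IsHomogeneous (m + r)) ∧ (∀ s, ∑ j, lin (P j) ^ a * y s j = 0) ∧
    LinearIndependent (MvPolynomial (Fin (N + 1)) K) y

def SF : Prop := ∀ (N r : ℕ) (K : Type) [Field K] [CharZero K] (P : Fin r → Fin (N + 1) → K)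
  (t b : ℝ) (n₀ d₀ : ℕ), 1 ≤ N → 1 ≤ t → (∀ n d : ℕ, t * n + b ≤ d → Indep P n d) →
  symb P n₀ d₀ ≠ ⊥ → (r : ℝ) * n₀ ≤ d₀ * t ^ (N - 1)

def SG : Prop := ∀ (N r : ℕ) (K : Type) [Field K] [CharZero K], 2 ≤ N →
  ∃ P : Fin r → Fin (N + 1) → K, Dist P ∧ symb P 1 1 ≠ ⊥ ∧
    ∀ a m : ℕ, a + m + 1 < r * (m + 1) → Rel P a m

end Pool.Agent.MP_5499e5_ag.S

end

section

set_option autoImplicit false

namespace Pool.Agent.MP_5499e5_ag.S

open MvPolynomial

theorem sH : SH := by
  intro N K _ d
  refine ⟨Module.Finite.iff_fg.2 (homogeneousSubmodule_fg _ _ d), ?_⟩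
  have h : {n : Fin (N + 1) →₀ ℕ | n.degree = d} =
      ((Finset.univ.finsuppAntidiag d : Finset (Fin (N + 1) →₀ ℕ)) : Set (Fin (N + 1) →₀ ℕ)) := by
    ext α
    simp [Finsupp.degree_eq_sum]
  have e : Hm N K d = restrictSupport K {n : Fin (N + 1) →₀ ℕ | n.degree = d} :=
    homogeneousSubmodule_eq_finsupp_supported _ _ d
  rw [e, h, Module.finrank_eq_card_basis (basisRestrictSupport K _)]
  simp only [Finset.coe_sort_coe, Fintype.card_coe]
  rw [Finset.card_finsuppAntidiag_nat_eq_choose, Finset.card_univ, Fintype.card_fin,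
    show N + 1 + d - 1 = d + N by omega, Nat.choose_symm_add]

variable {N r : ℕ} {K : Type} [Field K]

/-- the combination map -/
noncomputable def T_Dim (m : ℕ) (c : Fin r → MvPolynomial (Fin (N + 1)) K) :
    (Fin r → Hm N K m) →ₗ[K] MvPolynomial (Fin (N + 1)) K :=
  ∑ j, (LinearMap.mulLeft K (c j)).comp ((Hm N K m).subtype.comp (LinearMap.proj j))

theorem T_apply_Dim (m : ℕ) (c : Fin r → MvPolynomial (Fin (N + 1)) K) (g : Fin r → Hm N K m) :
    T_Dim m c g = ∑ j, c j * g j := by
  simp [T_Dim]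

theorem range_Dim (P : Fin r → Fin (N + 1) → K) (a m : ℕ) :
    LinearMap.range (T_Dim m fun j => lin (P j) ^ a) = dual P a m := by
  classical
  refine le_antisymm ?_ (iSup_le fun j => ?_)
  · rintro _ ⟨g, rfl⟩
    rw [T_apply_Dim]
    exact Submodule.sum_mem _ fun j _ => Submodule.mem_iSup_of_mem j ⟨g j, (g j).2, rfl⟩
  · rintro _ ⟨f, hf, rfl⟩
    refine ⟨Pi.single j ⟨f, hf⟩, ?_⟩
    rw [T_apply_Dim, Finset.sum_eq_single j (fun i _ hi => by simp [Pi.single_eq_of_ne hi])
      (by simp)]
    simp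

theorem sD (h : SH) : SD := by
  intro N r K _ P a m
  have f1 := (h N K m).1
  have e := LinearMap.finrank_range_add_finrank_ker (T_Dim m fun j => lin (P j) ^ a)
  rw [range_Dim, Module.finrank_pi_fintype, Finset.sum_const, Finset.card_univ, Fintype.card_fin,
    (h N K m).2, smul_eq_mul] at e
  refine ⟨by omega, ?_, fun q k y d hm hy h0 hi => ?_⟩
  · rw [← e, left_eq_add, Submodule.finrank_eq_zero, LinearMap.ker_eq_bot']
    constructor
    · rintro h1 ⟨g, g1, g2, g3⟩
      have := h1 (fun j => ⟨g j, g1 j⟩) (by rw [T_apply_Dim]; exact g3)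
      exact g2 (funext fun j => congrArg Subtype.val (congrFun this j))
    · intro h1 g hg
      by_contra h2
      rw [T_apply_Dim] at hg
      exact h1 ⟨fun j => g j, fun j => (g j).2,
        fun h3 => h2 (funext fun j => Subtype.ext (congrFun h3 j)), hg⟩
  · have f2 := (h N K k).1
    have hom : ∀ (j : Fin r) (g : Fin q → Hm N K k), T_Dim k (fun s => y s j) g ∈ Hm N K m :=
      fun j g => by
        rw [T_apply_Dim, hm]
        exact Submodule.sum_mem _ fun s _ => (hy s j).mul (g s).2
    let L : (Fin q → Hm N K k) →ₗ[K] (Fin r → Hm N K m) :=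
      LinearMap.pi fun j => (T_Dim k fun s => y s j).codRestrict _ (hom j)
    have hL : ∀ g j, (L g j : MvPolynomial (Fin (N + 1)) K) = ∑ s, y s j * g s := fun g j =>
      T_apply_Dim k _ g
    have hk : ∀ g, L g ∈ LinearMap.ker (T_Dim m fun j => lin (P j) ^ a) := fun g => by
      rw [LinearMap.mem_ker, T_apply_Dim]
      simp only [hL, Finset.mul_sum]
      rw [Finset.sum_comm]
      refine Finset.sum_eq_zero fun s _ => ?_
      simp only [← mul_assoc]
      rw [← Finset.sum_mul, h0, zero_mul]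
    have hinj : Function.Injective (L.codRestrict _ hk) := by
      intro g₁ g₂ hg
      have h1 : L (g₁ - g₂) = 0 := by
        rw [map_sub, sub_eq_zero]
        exact congrArg Subtype.val hg
      refine sub_eq_zero.1 ?_
      generalize g₁ - g₂ = g at h1
      have h2 := Fintype.linearIndependent_iff.1 hi (fun s => g s) (funext fun j => by
        have := hL g j
        rw [h1] at this
        simpa [mul_comm] using this.symm)
      exact funext fun s => Subtype.ext (h2 s)
    have h3 := LinearMap.finrank_le_finrank_of_injective hinj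
    rw [Module.finrank_pi_fintype, Finset.sum_const, Finset.card_univ, Fintype.card_fin,
      (h N K k).2, smul_eq_mul] at h3
    omega

end Pool.Agent.MP_5499e5_ag.S

end

section

set_option autoImplicit false

namespace Pool.Agent.MP_5499e5_ag.S

open MvPolynomial

theorem deg_Wr {K : Type} [Field K] [CharZero K] {a b : Polynomial K} (ha : a ≠ 0) (hb : b ≠ 0)
    (h : a * Polynomial.derivative b = Polynomial.derivative a * b) :
    b.natDegree = a.natDegree := by
  have k : ∀ f : Polynomial K, (Polynomial.derivative f * Polynomial.X).natDegree ≤ f.natDegree ∧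
      (Polynomial.derivative f * Polynomial.X).coeff f.natDegree =
        f.leadingCoeff * f.natDegree := by
    intro f
    have e : ∀ n, (Polynomial.derivative f * Polynomial.X).coeff n = f.coeff n * n := by
      intro n
      cases n with
      | zero => simp
      | succ n => rw [Polynomial.coeff_mul_X, Polynomial.coeff_derivative]; push_cast; ring
    refine ⟨Polynomial.natDegree_le_iff_coeff_eq_zero.2 fun n hn => ?_, e _⟩
    rw [e, Polynomial.coeff_eq_zero_of_natDegree_lt hn, zero_mul]
  have h1 : a * (Polynomial.derivative b * Polynomial.X) =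
      Polynomial.derivative a * Polynomial.X * b := by linear_combination Polynomial.X * h
  have h2 := congrArg (fun f => Polynomial.coeff f (a.natDegree + b.natDegree)) h1
  simp only [Polynomial.coeff_mul_add_eq_of_natDegree_le le_rfl (k b).1,
    Polynomial.coeff_mul_add_eq_of_natDegree_le (k a).1 le_rfl, (k a).2, (k b).2,
    Polynomial.coeff_natDegree] at h2
  have h3 : a.leadingCoeff * b.leadingCoeff ≠ 0 := by simp [ha, hb]
  have h4 : (b.natDegree : K) = a.natDegree := mul_left_cancel₀ h3 (by linear_combination h2)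
  exact_mod_cast h4

theorem two_Wr {K : Type} [Field K] [CharZero K] {a b : Polynomial K} (ha : a ≠ 0)
    (h : a * Polynomial.derivative b = Polynomial.derivative a * b) :
    ∃ l : K, b = Polynomial.C l * a := by
  refine ⟨b.coeff a.natDegree / a.leadingCoeff, ?_⟩
  by_contra hne
  have h0 := sub_ne_zero.2 hne
  have h1 := deg_Wr ha h0 (by
    rw [Polynomial.derivative_sub, Polynomial.derivative_C_mul]
    linear_combination h)
  apply Polynomial.leadingCoeff_ne_zero.2 h0
  rw [Polynomial.leadingCoeff, h1, Polynomial.coeff_sub, Polynomial.coeff_C_mul,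
    Polynomial.coeff_natDegree, div_mul_cancel₀ _ (Polynomial.leadingCoeff_ne_zero.2 ha), sub_self]

theorem ind_Wr {K ι : Type} [Field K] [CharZero K] [DecidableEq ι] {p : ι → Polynomial K}
    (hp : LinearIndependent K p) (n : ℕ) : ∀ S : Finset ι, S.card = n → ∀ c : ι → Polynomial K,
    (∀ s < n, ∑ i ∈ S, c i * Polynomial.derivative^[s] (p i) = 0) → ∀ i ∈ S, c i = 0 := by
  induction n with
  | zero =>
    intro S hS c _ i hi
    rw [Finset.card_eq_zero.1 hS] at hi
    simp at hi
  | succ n ih =>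
    intro S hS c hc j hj
    by_contra hne
    have h1 := ih (S.erase j) (by rw [Finset.card_erase_of_mem hj, hS]; rfl)
      (fun i => c j * Polynomial.derivative (c i) - Polynomial.derivative (c j) * c i) (by
        intro s hs
        rw [Finset.sum_erase _ (by ring)]
        have e1 := hc s (by omega)
        have e2 := hc (s + 1) (by omega)
        have e3 := congrArg Polynomial.derivative e1
        simp only [Function.iterate_succ_apply'] at e2
        simp only [Polynomial.derivative_sum, Polynomial.derivative_mul, Finset.sum_add_distrib,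
          e2, add_zero, map_zero] at e3
        simp only [sub_mul, mul_assoc, Finset.sum_sub_distrib, ← Finset.mul_sum, e1, e3, mul_zero,
          sub_zero])
    have h2 : ∀ i, ∃ l : K, i ∈ S → c i = Polynomial.C l * c j := by
      intro i
      by_cases hi : i ∈ S
      · by_cases hij : i = j
        · exact ⟨1, fun _ => by simp [hij]⟩
        · obtain ⟨l, hl⟩ := two_Wr hne (sub_eq_zero.1 (h1 i (Finset.mem_erase.2 ⟨hij, hi⟩)))
          exact ⟨l, fun _ => hl⟩
      · exact ⟨0, fun h => absurd h hi⟩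
    choose l hl using h2
    have h3 : c j * ∑ i ∈ S, l i • p i = 0 := by
      rw [← hc 0 (by omega), Finset.mul_sum]
      refine Finset.sum_congr rfl fun i hi => ?_
      rw [hl i hi, Polynomial.smul_eq_C_mul, Function.iterate_zero_apply]
      ring
    have h4 := linearIndependent_iff'.1 hp S l ((mul_eq_zero.1 h3).resolve_left hne) j hj
    apply hne
    rw [hl j hj, h4, map_zero, zero_mul]

theorem sW : SW := by
  intro K _ _ q p hp h
  obtain ⟨v, hv, h1⟩ := Matrix.exists_mulVec_eq_zero_iff.2 h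
  refine hv (funext fun i => ind_Wr hp q Finset.univ (by simp) v (fun s hs => ?_) i
    (Finset.mem_univ i))
  have := congrFun h1 ⟨s, hs⟩
  simpa [Matrix.mulVec, dotProduct, mul_comm] using this

end Pool.Agent.MP_5499e5_ag.S

end

section

set_option autoImplicit false

namespace Pool.Agent.MP_5499e5_ag.S

open MvPolynomial

lemma col_Circ {R : Type} [CommRing R] {q : ℕ} (M : Matrix (Fin q) (Fin q) R) (j : Fin q)
    (u : Fin q → R) (x : R) (h : ∀ s, x ∣ u s) : x ∣ (M.updateCol j u).det := by
  choose v hv using h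
  have e : u = x • v := funext fun s => by rw [hv s]; rfl
  rw [e, Matrix.det_updateCol_smul]
  exact dvd_mul_right _ _

lemma deg_Circ {K : Type} [Field K] {q d : ℕ} (M : Matrix (Fin q) (Fin q) (Polynomial K))
    (h : ∀ s i, (M s i).natDegree ≤ d) : M.det.natDegree ≤ q * d := by
  rw [Matrix.det_apply]
  refine Polynomial.natDegree_sum_le_of_forall_le _ _ fun σ _ => ?_
  refine (Polynomial.natDegree_smul_le _ _).trans ((Polynomial.natDegree_prod_le _ _).trans ?_)
  refine (Finset.sum_le_card_nsmul _ _ d fun i _ => h _ _).trans_eq ?_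
  simp

/-- a minimal dependent subfamily -/
lemma min_Circ {K V : Type} [Field K] [AddCommGroup V] [Module K V] {r : ℕ} (g : Fin r → V)
    (h0 : ∑ i, g i = 0) (hg : g ≠ 0) :
    ∃ (q : ℕ) (ε : Fin q → Fin r) (i₀ : Fin r) (c : Fin q → K), 1 ≤ q ∧ Function.Injective ε ∧
      (∀ i, ε i ≠ i₀) ∧ (∀ i, c i ≠ 0) ∧ LinearIndependent K (fun i => g (ε i)) ∧
      g i₀ = ∑ i, c i • g (ε i) := by
  classical
  let Q : Finset (Fin r) → Prop := fun S => (∀ i ∈ S, g i ≠ 0) ∧
    ∃ e : Fin r → K, (∀ i, i ∉ S → e i = 0) ∧ e ≠ 0 ∧ ∑ i, e i • g i = 0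
  have hQ : Q (Finset.univ.filter fun i => g i ≠ 0) := by
    refine ⟨fun i hi => (Finset.mem_filter.1 hi).2, fun i => if g i ≠ 0 then 1 else 0,
      fun i hi => if_neg fun h => hi (Finset.mem_filter.2 ⟨Finset.mem_univ _, h⟩), ?_, ?_⟩
    · obtain ⟨i, hi⟩ := Function.ne_iff.1 hg
      refine Function.ne_iff.2 ⟨i, ?_⟩
      have hi' : g i ≠ 0 := hi
      simp [hi']
    · refine Eq.trans (Finset.sum_congr rfl fun i _ => ?_) h0
      by_cases h : g i = 0 <;> simp [h]
  obtain ⟨S, hS, hmin⟩ := (Finset.univ.filter Q).exists_min_image Finset.card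
    ⟨_, Finset.mem_filter.2 ⟨Finset.mem_univ _, hQ⟩⟩
  obtain ⟨hS1, e, he1, he2, he3⟩ := (Finset.mem_filter.1 hS).2
  have key : ∀ i ∈ S, ∀ e' : Fin r → K, (∀ j, j ∉ S.erase i → e' j = 0) →
      ∑ j, e' j • g j = 0 → e' = 0 := by
    intro i hi e' h1 h2
    by_contra h3
    have := hmin (S.erase i) (Finset.mem_filter.2 ⟨Finset.mem_univ _,
      fun j hj => hS1 j (Finset.mem_of_mem_erase hj), e', h1, h3, h2⟩)
    exact absurd (Finset.card_erase_lt_of_mem hi) (not_lt.2 this)
  have hne : ∀ i ∈ S, e i ≠ 0 := by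
    intro i hi h
    refine he2 (key i hi e (fun j hj => ?_) he3)
    by_cases hji : j = i
    · rw [hji, h]
    · exact he1 j fun hjS => hj (Finset.mem_erase.2 ⟨hji, hjS⟩)
  obtain ⟨i₀, hi₀⟩ := Function.ne_iff.1 he2
  have hi₀S : i₀ ∈ S := by
    by_contra h
    exact hi₀ (he1 i₀ h)
  let ε : Fin (S.erase i₀).card → Fin r := fun i => ((S.erase i₀).equivFin.symm i : Fin r)
  have hε : Function.Injective ε := fun a b h =>
    (S.erase i₀).equivFin.symm.injective (Subtype.ext h)
  have hεm : ∀ i, ε i ∈ S.erase i₀ := fun i => ((S.erase i₀).equivFin.symm i).2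
  have hsum : ∀ f : Fin r → V, ∑ i, f (ε i) = ∑ j ∈ S.erase i₀, f j := fun f => by
    rw [← Finset.sum_coe_sort (S.erase i₀) f]
    exact (S.erase i₀).equivFin.symm.sum_comp fun x => f x
  have hrel : e i₀ • g i₀ + ∑ i, e (ε i) • g (ε i) = 0 := by
    rw [hsum fun j => e j • g j, Finset.add_sum_erase S (fun j => e j • g j) hi₀S, ← he3]
    exact Finset.sum_subset (Finset.subset_univ _) fun j _ hj => by rw [he1 j hj, zero_smul]
  have h00 := hne i₀ hi₀S
  have hrel' : g i₀ = ∑ i, (- (e i₀)⁻¹ * e (ε i)) • g (ε i) := by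
    simp only [mul_smul]
    rw [← Finset.smul_sum, ← neg_eq_of_add_eq_zero_right hrel, smul_neg, neg_smul, neg_neg,
      smul_smul, inv_mul_cancel₀ h00, one_smul]
  refine ⟨_, ε, i₀, fun i => - (e i₀)⁻¹ * e (ε i), ?_, hε,
    fun i => (Finset.mem_erase.1 (hεm i)).1, fun i => mul_ne_zero (neg_ne_zero.2 (inv_ne_zero h00))
      (hne _ (Finset.mem_of_mem_erase (hεm i))), ?_, hrel'⟩
  · rcases Nat.eq_zero_or_pos (S.erase i₀).card with h | h
    · refine absurd (hrel'.trans (Finset.sum_eq_zero fun i _ => ?_)) (hS1 i₀ hi₀S)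
      exact absurd i.2 (by omega)
    · exact h
  · refine Fintype.linearIndependent_iff.2 fun c hc i => ?_
    have h1 := key i₀ hi₀S (Function.extend ε c 0) (fun j hj => ?_) ?_
    · rw [← hε.extend_apply c 0 i, h1]
      rfl
    · rw [Function.extend_apply' _ _ _ fun ⟨a, ha⟩ => hj (ha ▸ hεm a)]
      rfl
    · rw [← Finset.sum_subset (Finset.subset_univ (S.erase i₀)) fun j _ hj => ?_,
        ← hsum fun j => Function.extend ε c 0 j • g j, ← hc]
      · exact Finset.sum_congr rfl fun a _ => by rw [hε.extend_apply]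
      · rw [Function.extend_apply' _ _ _ fun ⟨a, ha⟩ => hj (ha ▸ hεm a)]
        exact zero_smul _ _

theorem sB (h : SW) : SB := by
  classical
  intro K _ _ r a d g τ hτ hdv hdeg h0 hg
  obtain ⟨q, ε, i₀, c, hq, hε, hi₀, hc, hli, hrel⟩ := min_Circ (K := K) g h0 hg
  have hW := h K q (fun i => g (ε i)) hli
  set M : Matrix (Fin q) (Fin q) (Polynomial K) :=
    Matrix.of fun s i : Fin q => Polynomial.derivative^[s] (g (ε i)) with hM
  have hni : i₀ ∉ Finset.univ.image ε := fun hm => by
    obtain ⟨i, -, hi⟩ := Finset.mem_image.1 hm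
    exact hi₀ i hi
  have hcard : (insert i₀ (Finset.univ.image ε)).card = q + 1 := by
    rw [Finset.card_insert_of_notMem hni, Finset.card_image_of_injective _ hε, Finset.card_univ,
      Fintype.card_fin]
  have hqr : q < r := by
    have := Finset.card_le_univ (insert i₀ (Finset.univ.image ε))
    rw [hcard, Fintype.card_fin] at this
    omega
  have hd : ∀ (j : Fin r) (s : Fin q),
      (Polynomial.X - Polynomial.C (τ j)) ^ a ∣ Polynomial.derivative^[s] (g j) := fun j s =>
    (pow_dvd_pow _ (by have := s.2; omega)).trans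
      (Polynomial.pow_sub_dvd_iterate_derivative_of_pow_dvd s (hdv j))
  have hall : ∀ j ∈ insert i₀ (Finset.univ.image ε),
      (Polynomial.X - Polynomial.C (τ j)) ^ a ∣ M.det := by
    intro j hj
    rcases Finset.mem_insert.1 hj with rfl | hj
    · have e1 := Matrix.det_updateCol_sum M ⟨0, hq⟩ fun i => Polynomial.C (c i)
      have e2 := col_Circ M ⟨0, hq⟩ (fun k => ∑ i, Polynomial.C (c i) • M k i)
        ((Polynomial.X - Polynomial.C (τ j)) ^ a) fun s => by
          have e3 := hd j s
          rw [hrel, Polynomial.iterate_derivative_sum] at e3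
          simp only [Polynomial.iterate_derivative_smul] at e3
          simpa only [hM, Matrix.of_apply, smul_eq_mul, Polynomial.smul_eq_C_mul] using e3
      rw [e1, smul_eq_mul] at e2
      exact (Polynomial.isUnit_C.2 (hc _).isUnit).dvd_mul_left.1 e2
    · obtain ⟨i, -, rfl⟩ := Finset.mem_image.1 hj
      rw [← Matrix.updateCol_eq_self M i]
      exact col_Circ M i _ _ fun s => hd _ s
  have hp := Finset.prod_dvd_of_coprime
    (fun i _ j _ hij => ((Polynomial.pairwise_coprime_X_sub_C hτ) hij).pow) hall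
  have h1 := Polynomial.natDegree_le_of_dvd hp hW
  rw [Polynomial.natDegree_prod_of_monic _ _ fun j _ => (Polynomial.monic_X_sub_C _).pow _] at h1
  simp only [Polynomial.natDegree_pow, Polynomial.natDegree_X_sub_C, mul_one, Finset.sum_const,
    hcard, smul_eq_mul] at h1
  refine ⟨q, ε, hqr, h1.trans (deg_Circ M fun s i => ?_), hW⟩
  exact (Polynomial.natDegree_iterate_derivative _ _).trans ((Nat.sub_le _ _).trans (hdeg _))

end Pool.Agent.MP_5499e5_ag.S

end

section

set_option autoImplicit false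

namespace Pool.Agent.MP_5499e5_ag.S

open MvPolynomial

variable {N : ℕ} {K : Type} [Field K]

theorem eval_lin_Rank (v p : Fin (N + 1) → K) : eval v (lin p) = ∑ k, p k * v k := by
  simp [lin]

theorem lin_ne_Rank {p : Fin (N + 1) → K} (hp : p ≠ 0) : lin p ≠ 0 := by
  intro h
  apply hp
  funext u
  have h1 := eval_lin_Rank (Pi.single u 1) p
  rw [h, map_zero] at h1
  simpa [Pi.single_apply] using h1.symm

theorem lin_hom_Rank (p : Fin (N + 1) → K) : (lin p).IsHomogeneous 1 := by
  unfold lin
  exact IsHomogeneous.sum _ _ _ fun u _ => (isHomogeneous_X K u).C_mul _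

theorem nonroot_Rank [CharZero K] {ι : Type} [Fintype ι] (f : ι → MvPolynomial (Fin (N + 1)) K)
    (hf : ∀ i, f i ≠ 0) : ∃ v : Fin (N + 1) → K, ∀ i, eval v (f i) ≠ 0 := by
  by_contra hc
  have h0 : ∏ i, f i ≠ 0 := Finset.prod_ne_zero_iff.mpr fun i _ => hf i
  apply h0
  apply MvPolynomial.funext
  intro v
  rw [map_zero, map_prod]
  by_contra h1
  exact hc ⟨v, fun i => Finset.prod_ne_zero_iff.mp h1 i (Finset.mem_univ i)⟩

/-- the derivative in the direction `v` -/
noncomputable def dv_Rank (v : Fin (N + 1) → K) :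
    MvPolynomial (Fin (N + 1)) K →ₗ[K] MvPolynomial (Fin (N + 1)) K :=
  ∑ k, v k • (pderiv k).toLinearMap

theorem dv_apply_Rank (v : Fin (N + 1) → K) (f : MvPolynomial (Fin (N + 1)) K) :
    dv_Rank v f = ∑ k, C (v k) * pderiv k f := by
  simp [dv_Rank, LinearMap.sum_apply, smul_eq_C_mul]

theorem dv_mul_Rank (v : Fin (N + 1) → K) (f g : MvPolynomial (Fin (N + 1)) K) :
    dv_Rank v (f * g) = f * dv_Rank v g + g * dv_Rank v f := by
  simp only [dv_apply_Rank, Derivation.leibniz, smul_eq_mul, Finset.mul_sum,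
    ← Finset.sum_add_distrib]
  exact Finset.sum_congr rfl fun k _ => by ring

theorem dv_C_Rank (v : Fin (N + 1) → K) (a : K) : dv_Rank v (C a) = 0 := by
  simp [dv_apply_Rank]

theorem dv_X_Rank (v : Fin (N + 1) → K) (k : Fin (N + 1)) : dv_Rank v (X k) = C (v k) := by
  rw [dv_apply_Rank, Finset.sum_eq_single k]
  · simp
  · intro b _ hb
    rw [pderiv_X_of_ne hb.symm, mul_zero]
  · simp

theorem dv_lin_Rank (v p : Fin (N + 1) → K) : dv_Rank v (lin p) = C (eval v (lin p)) := by
  rw [eval_lin_Rank, lin, map_sum, map_sum]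
  refine Finset.sum_congr rfl fun k _ => ?_
  rw [dv_mul_Rank, dv_C_Rank, dv_X_Rank, mul_zero, add_zero, map_mul]

theorem dv_pow_Rank (v p : Fin (N + 1) → K) (b : ℕ) :
    dv_Rank v (lin p ^ (b + 1)) = lin p ^ b * C (((b + 1 : ℕ) : K) * eval v (lin p)) := by
  induction b with
  | zero => simp [dv_lin_Rank]
  | succ b ih =>
    rw [pow_succ, dv_mul_Rank, ih, dv_lin_Rank]
    simp only [map_mul, map_natCast]
    push_cast
    ring

theorem dv_hom_Rank (v p : Fin (N + 1) → K) {m : ℕ} {z : MvPolynomial (Fin (N + 1)) K}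
    (hz : z.IsHomogeneous m) : (lin p * dv_Rank v z).IsHomogeneous m := by
  rcases m with _ | m
  · rw [← totalDegree_zero_iff_isHomogeneous, totalDegree_eq_zero_iff_eq_C] at hz
    rw [hz, dv_C_Rank, mul_zero]
    exact isHomogeneous_zero _ _ _
  · have h1 : (dv_Rank v z).IsHomogeneous m := by
      rw [dv_apply_Rank]
      exact IsHomogeneous.sum _ _ _ fun k _ => (hz.pderiv (i := k)).C_mul _
    have h2 := (lin_hom_Rank p).mul h1
    rwa [add_comm 1 m] at h2

theorem iter_Rank (v p : Fin (N + 1) → K) {m : ℕ} {g : MvPolynomial (Fin (N + 1)) K}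
    (hg : g.IsHomogeneous m) (s : ℕ) : ∀ b : ℕ, ∃ z : MvPolynomial (Fin (N + 1)) K,
      z.IsHomogeneous m ∧ (dv_Rank v)^[s] (lin p ^ (b + s) * g) = lin p ^ b * z := by
  induction s with
  | zero => exact fun b => ⟨g, hg, rfl⟩
  | succ s ih =>
    intro b
    obtain ⟨z, hz, e⟩ := ih (b + 1)
    refine ⟨C (((b + 1 : ℕ) : K) * eval v (lin p)) * z + lin p * dv_Rank v z,
      (hz.C_mul _).add (dv_hom_Rank v p hz), ?_⟩
    rw [Function.iterate_succ_apply', show b + (s + 1) = b + 1 + s by ring, e, dv_mul_Rank,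
      dv_pow_Rank]
    ring

/-- the restriction to a line -/
noncomputable def ph_Rank (u v : Fin (N + 1) → K) :
    MvPolynomial (Fin (N + 1)) K →ₐ[K] Polynomial K :=
  aeval fun k => Polynomial.C (u k) + Polynomial.C (v k) * Polynomial.X

theorem ph_dv_Rank (u v : Fin (N + 1) → K) (f : MvPolynomial (Fin (N + 1)) K) :
    ph_Rank u v (dv_Rank v f) = Polynomial.derivative (ph_Rank u v f) := by
  induction f using MvPolynomial.induction_on with
  | C a => simp [dv_C_Rank, ph_Rank]
  | add f g hf hg => simp only [map_add, hf, hg]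
  | mul_X f k hf =>
    rw [dv_mul_Rank, dv_X_Rank, map_add, map_mul, map_mul, map_mul, hf, Polynomial.derivative_mul]
    simp [ph_Rank]
    ring

theorem ph_iter_Rank (u v : Fin (N + 1) → K) (s : ℕ) (f : MvPolynomial (Fin (N + 1)) K) :
    ph_Rank u v ((dv_Rank v)^[s] f) = Polynomial.derivative^[s] (ph_Rank u v f) := by
  induction s with
  | zero => rfl
  | succ s ih => rw [Function.iterate_succ_apply', Function.iterate_succ_apply', ph_dv_Rank, ih]

theorem ph_eval_Rank (u v : Fin (N + 1) → K) (f : MvPolynomial (Fin (N + 1)) K) :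
    (ph_Rank u v f).eval 0 = eval u f := by
  induction f using MvPolynomial.induction_on with
  | C a => simp [ph_Rank]
  | add f g hf hg => simp only [map_add, Polynomial.eval_add, hf, hg]
  | mul_X f k hf =>
    rw [map_mul, map_mul, Polynomial.eval_mul, hf]
    simp [ph_Rank]

theorem ph_deg_Rank (u v : Fin (N + 1) → K) {d : ℕ} {f : MvPolynomial (Fin (N + 1)) K}
    (hf : f.IsHomogeneous d) : (ph_Rank u v f).natDegree ≤ d := by
  have h := MvPolynomial.aeval_natDegree_le (n := 1) f hf.totalDegree_le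
    (fun k => Polynomial.C (u k) + Polynomial.C (v k) * Polynomial.X) fun k => by
      compute_degree
  rwa [mul_one] at h

theorem ph_lin_Rank (u v p : Fin (N + 1) → K) (hv : eval v (lin p) ≠ 0) :
    ph_Rank u v (lin p) = (Polynomial.X - Polynomial.C (-eval u (lin p) / eval v (lin p))) *
      Polynomial.C (eval v (lin p)) := by
  rw [sub_mul, ← map_mul, div_mul_cancel₀ _ hv, eval_lin_Rank, eval_lin_Rank, lin]
  simp only [ph_Rank, map_sum, map_mul, aeval_C, aeval_X, map_neg, Polynomial.algebraMap_eq,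
    sub_neg_eq_add, Finset.mul_sum, ← Finset.sum_add_distrib]
  exact Finset.sum_congr rfl fun k _ => by ring

theorem sum_iter_Rank (v : Fin (N + 1) → K) {r : ℕ} (G : Fin r → MvPolynomial (Fin (N + 1)) K)
    (hG : ∑ j, G j = 0) (s : ℕ) : ∑ j, (dv_Rank v)^[s] (G j) = 0 := by
  induction s with
  | zero => exact hG
  | succ s ih =>
    simp only [Function.iterate_succ_apply']
    rw [← map_sum, ih, map_zero]

theorem sC (h : SB) : SC := by
  intro N r K _ _ P hP a m hR
  obtain ⟨g, hg, hg0, hsum⟩ := hR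
  obtain ⟨j0, hj0⟩ := Function.ne_iff.mp hg0
  have hG0 : lin (P j0) ^ (a + r) * g j0 ≠ 0 :=
    mul_ne_zero (pow_ne_zero _ (lin_ne_Rank (hP.1 j0))) hj0
  obtain ⟨v, hv⟩ := nonroot_Rank (fun j => lin (P j)) fun j => lin_ne_Rank (hP.1 j)
  obtain ⟨u, hu⟩ := nonroot_Rank (fun x : Fin r × Fin r =>
    if x.1 = x.2 then lin (P j0) ^ (a + r) * g j0
    else lin (eval v (lin (P x.2)) • P x.1 + (-eval v (lin (P x.1))) • P x.2)) fun x => by
      split_ifs with hx
      · exact hG0
      · exact lin_ne_Rank fun h0 =>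
          hv x.2 (LinearIndependent.pair_iff.mp (hP.2 _ _ hx) _ _ h0).1
  have hτ : Function.Injective fun j => -eval u (lin (P j)) / eval v (lin (P j)) := by
    intro i j hij
    by_contra hne
    have h1 := hu (i, j)
    simp only [if_neg hne] at h1
    apply h1
    have h2 : -eval u (lin (P i)) * eval v (lin (P j)) = -eval u (lin (P j)) * eval v (lin (P i)) :=
      (div_eq_div_iff (hv i) (hv j)).mp hij
    have h3 : eval u (lin (eval v (lin (P j)) • P i + (-eval v (lin (P i))) • P j)) =
        eval v (lin (P j)) * eval u (lin (P i)) + -eval v (lin (P i)) * eval u (lin (P j)) := by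
      rw [eval_lin_Rank u, eval_lin_Rank u, eval_lin_Rank u, Finset.mul_sum, Finset.mul_sum,
        ← Finset.sum_add_distrib]
      exact Finset.sum_congr rfl fun k _ => by simp only [Pi.add_apply, Pi.smul_apply, smul_eq_mul]; ring
    rw [h3]
    linear_combination -h2
  have hGh : ∀ j, (lin (P j) ^ (a + r) * g j).IsHomogeneous (a + r + m) := fun j => by
    have h1 := ((lin_hom_Rank (P j)).pow (a + r)).mul (hg j)
    rwa [one_mul] at h1
  obtain ⟨q, ε, hq, hqa, hdet⟩ := h K r a (a + r + m)
    (fun j => ph_Rank u v (lin (P j) ^ (a + r) * g j)) _ hτ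
    (fun j => by
      rw [map_mul, map_pow, ph_lin_Rank u v _ (hv j), mul_pow, mul_assoc]
      exact dvd_mul_right _ _)
    (fun j => ph_deg_Rank u v (hGh j)) (by rw [← map_sum, hsum, map_zero])
    (by
      intro h0
      have h1 := hu (j0, j0)
      simp only [if_true] at h1
      apply h1
      rw [← ph_eval_Rank u v, congrFun h0 j0]
      simp)
  have hz : ∀ (s : Fin q) (j : Fin r), ∃ z : MvPolynomial (Fin (N + 1)) K, z.IsHomogeneous m ∧
      (dv_Rank v)^[s] (lin (P j) ^ (a + r) * g j) = lin (P j) ^ (a + (r - s)) * z := fun s j => by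
    have h1 := iter_Rank v (P j) (hg j) s (a + (r - s))
    rwa [show a + (r - s) + s = a + r by have := s.2; omega] at h1
  choose z hz1 hz2 using hz
  have key : ∀ (s : Fin q) (j : Fin r), lin (P j) ^ a * (X 0 ^ (s : ℕ) * lin (P j) ^ (r - s) * z s j)
      = X 0 ^ (s : ℕ) * (dv_Rank v)^[s] (lin (P j) ^ (a + r) * g j) := fun s j => by
    rw [hz2, pow_add]
    ring
  refine ⟨q, fun s j => X 0 ^ (s : ℕ) * lin (P j) ^ (r - s) * z s j, hq, ?_, fun s j => ?_,
    fun s => ?_, ?_⟩
  · have e1 : (q + 1) * a = q * a + a := by ring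
    have e2 : q * (a + r + m) = q * a + q * (m + r) := by ring
    omega
  · have h1 := (((isHomogeneous_X K (0 : Fin (N + 1))).pow s).mul
      ((lin_hom_Rank (P j)).pow (r - s))).mul (hz1 s j)
    rwa [show 1 * (s : ℕ) + 1 * (r - s) + m = m + r by have := s.2; omega] at h1
  · simp only [key]
    rw [← Finset.mul_sum, sum_iter_Rank v _ hsum, mul_zero]
  · rw [Fintype.linearIndependent_iff]
    intro c hc s
    have hM : (Matrix.of fun s i : Fin q =>
        (dv_Rank v)^[s] (lin (P (ε i)) ^ (a + r) * g (ε i))).det ≠ 0 := by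
      intro h0
      apply hdet
      have h1 := congrArg (ph_Rank u v) h0
      rw [AlgHom.map_det, map_zero] at h1
      rw [← h1]
      congr 1
      ext1 s i
      simp only [AlgHom.mapMatrix_apply, Matrix.map_apply, Matrix.of_apply, ph_iter_Rank]
    have h2 := Matrix.eq_zero_of_vecMul_eq_zero hM (v := fun s => c s * X 0 ^ (s : ℕ)) (by
      funext i
      have h3 := congrFun hc (ε i)
      simp only [Finset.sum_apply, Pi.smul_apply, smul_eq_mul, Pi.zero_apply] at h3
      simp only [Matrix.vecMul, dotProduct, Matrix.of_apply, Pi.zero_apply, mul_assoc (c _), ← key]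
      have h4 := congrArg (lin (P (ε i)) ^ a * ·) h3
      simp only [Finset.mul_sum, mul_zero] at h4
      rw [← h4]
      exact Finset.sum_congr rfl fun k _ => by ring)
    exact (mul_eq_zero.mp (congrFun h2 s)).resolve_right (pow_ne_zero _ (X_ne_zero _))

end Pool.Agent.MP_5499e5_ag.S

end
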