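import Pool.Agent.Mg.F5499e5ap.G288416

set_option linter.all false

section

set_option autoImplicit false

namespace Pool.Agent.MP_5499e5_ag.W

open Filter MvPolynomial

variable {N : ℕ} {K : Type} [Field K]

/-- Exponents of degree at most `t`. -/
noncomputable def ex (N t : ℕ) : Finset (Fin N →₀ ℕ) :=
  (Finset.range (t + 1)).biUnion fun k => Finset.univ.finsuppAntidiag k

theorem mem_ex {t : ℕ} {α : Fin N →₀ ℕ} : α ∈ ex N t ↔ α.degree ≤ t := by
  simp only [ex, Finset.mem_biUnion, Finset.mem_range, Finset.mem_finsuppAntidiag,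
    Finset.subset_univ, and_true, Finsupp.degree_eq_sum]
  exact ⟨fun ⟨k, hk, h⟩ => le_trans (le_of_eq h) (by omega),
    fun h => ⟨_, Nat.lt_succ_of_le h, rfl⟩⟩

theorem card_antidiag_succ (N k : ℕ) :
    ((Finset.univ : Finset (Fin N)).finsuppAntidiag (k + 1)).card + (k + N).choose N =
      (k + 1 + N).choose N := by
  rw [Finset.card_finsuppAntidiag_nat_eq_choose, Finset.card_univ, Fintype.card_fin]
  rcases N with _ | N
  · simp
  · have h1 : N + 1 + (k + 1) - 1 = (k + 1) + N := by omega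
    rw [h1, Nat.choose_symm_add, show k + 1 + (N + 1) = (k + 1 + N) + 1 by ring,
      Nat.choose_succ_succ', show k + (N + 1) = k + 1 + N by ring]

theorem card_ex (N t : ℕ) : (ex N t).card = (t + N).choose N := by
  induction t with
  | zero => simp [ex]
  | succ t ih =>
    have h1 : ex N (t + 1) = Finset.univ.finsuppAntidiag (t + 1) ∪ ex N t := by
      rw [ex, Finset.range_add_one, Finset.biUnion_insert]; rfl
    have h2 : Disjoint (Finset.univ.finsuppAntidiag (t + 1)) (ex N t) := by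
      rw [Finset.disjoint_left]
      intro α h h'
      rw [mem_ex, Finsupp.degree_eq_sum] at h'
      have : ∑ i, α i = t + 1 := (Finset.mem_finsuppAntidiag.1 h).1
      omega
    rw [h1, Finset.card_union_of_disjoint h2, ih, card_antidiag_succ]

theorem totalDegree_le_iff {f : A N K} {t : ℕ} :
    f.totalDegree ≤ t ↔ ∀ α ∈ f.support, α.degree ≤ t := by
  rw [totalDegree, Finset.sup_le_iff]; rfl

theorem finrank_Le (N : ℕ) (K : Type) [Field K] (t : ℕ) :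
    Module.finrank K (Le N K t) = (t + N).choose N := by
  have h : {n : Fin N →₀ ℕ | (n.sum fun _ e => e) ≤ t} = (ex N t : Set (Fin N →₀ ℕ)) := by
    ext α; rw [Finset.mem_coe, mem_ex]; rfl
  rw [← card_ex]
  change Module.finrank K (restrictSupport K {n : Fin N →₀ ℕ | (n.sum fun _ e => e) ≤ t}) = _
  rw [h, Module.finrank_eq_card_basis (basisRestrictSupport K _)]
  simp

theorem hf_bot (t : ℕ) : hf (⊥ : Ideal (A N K)) t = (t + N).choose N := by
  have h := hf_add_finrank (⊥ : Ideal (A N K)) t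
  rw [Submodule.restrictScalars_bot, inf_bot_eq, finrank_bot, finrank_Le] at h
  exact h

/-- Translation `X ↦ X + p`. -/
noncomputable def tr (p : Fin N → K) : A N K →ₐ[K] A N K := aeval fun u => X u + C (p u)

@[simp] theorem tr_X (p : Fin N → K) (u : Fin N) : tr p (X u) = X u + C (p u) := by simp [tr]

@[simp] theorem tr_C (p : Fin N → K) (c : K) : tr p (C c) = C c := by simp [tr]

theorem tr_tr (p q : Fin N → K) (f : A N K) : tr p (tr q f) = tr (p + q) f := by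
  have : (tr p).comp (tr q) = tr (p + q) := by
    ext u : 1; simp [add_assoc]
  exact AlgHom.congr_fun this f

theorem tr_zero (f : A N K) : tr 0 f = f := by
  have : tr (0 : Fin N → K) = AlgHom.id K _ := by ext u : 1; simp
  rw [this]; rfl

theorem tr_injective (p : Fin N → K) : Function.Injective (tr p) := fun f g h => by
  have := congrArg (tr (-p)) h
  rwa [tr_tr, tr_tr, neg_add_cancel, tr_zero, tr_zero] at this

theorem totalDegree_tr_le (p : Fin N → K) (f : A N K) : (tr p f).totalDegree ≤ f.totalDegree := by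
  conv_lhs => rw [f.as_sum, map_sum]
  refine (totalDegree_finsetSum _ _).trans (Finset.sup_le fun α hα => ?_)
  rw [tr, aeval_monomial]
  refine (totalDegree_mul _ _).trans ?_
  rw [algebraMap_eq, totalDegree_C, zero_add, Finsupp.prod]
  refine (totalDegree_finsetProd _ _).trans (le_trans ?_ (le_totalDegree hα))
  refine Finset.sum_le_sum fun u _ => (totalDegree_pow _ _).trans ?_
  have : (X u + C (p u) : A N K).totalDegree ≤ 1 := (totalDegree_add _ _).trans (by simp)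
  nlinarith

theorem map_mem_pow {R S : Type*} [CommRing R] [CommRing S] (φ : R →+* S) {I : Ideal R}
    {J : Ideal S} (h : ∀ x ∈ I, φ x ∈ J) {n : ℕ} {f : R} (hf : f ∈ I ^ n) : φ f ∈ J ^ n := by
  have h1 : I.map φ ≤ J := Ideal.map_le_iff_le_comap.2 h
  have h2 := Ideal.mem_map_of_mem φ hf
  rw [Ideal.map_pow] at h2
  exact Ideal.pow_right_mono h1 n h2

theorem eval_tr (p q : Fin N → K) (f : A N K) : eval q (tr p f) = eval (q + p) f := by
  induction f using MvPolynomial.induction_on with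
  | C a => simp
  | add a b ha hb => simp [ha, hb]
  | mul_X a u ha => simp [ha]

theorem tr_mem_pow {p q : Fin N → K} {n : ℕ} {f : A N K} (hf : f ∈ mx (q + p) ^ n) :
    tr p f ∈ mx q ^ n :=
  map_mem_pow (tr p).toRingHom (fun x hx => by
    rw [mem_mx] at hx ⊢
    exact (eval_tr p q x).trans hx) hf

theorem mx_zero : mx (0 : Fin N → K) = idealOfVars (Fin N) K := by
  rw [mx_eq_span]; simp

/-- Vanishing to order `n` at `p` in terms of Taylor coefficients. -/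
theorem mem_mx_pow_iff {p : Fin N → K} {n : ℕ} {f : A N K} :
    f ∈ mx p ^ n ↔ ∀ α : Fin N →₀ ℕ, α.degree < n → coeff α (tr p f) = 0 := by
  rw [← mem_pow_idealOfVars_iff', ← mx_zero]
  refine ⟨fun h => tr_mem_pow (by rwa [zero_add]), fun h => ?_⟩
  have := tr_mem_pow (p := -p) (q := p) (f := tr p f) (by rwa [add_neg_cancel])
  rwa [tr_tr, neg_add_cancel, tr_zero] at this

theorem eq_zero_of_mem_pow {p : Fin N → K} {s : ℕ} {f : A N K} (h : f.totalDegree ≤ s)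
    (h' : f ∈ mx p ^ (s + 1)) : f = 0 := by
  apply tr_injective p
  rw [map_zero]
  ext α
  by_contra hα
  have h1 := totalDegree_le_iff.1 ((totalDegree_tr_le p f).trans h) α (mem_support_iff.2 hα)
  exact hα (mem_mx_pow_iff.1 h' α (by omega))

theorem lf_bot (p : Fin N → K) (s : ℕ) : lf p ⊥ (s + 1) = (s + N).choose N := by
  have h := hf_add_finrank (⊥ ⊔ mx p ^ (s + 1)) s
  have h2 : (Le N K s ⊓ (⊥ ⊔ mx p ^ (s + 1)).restrictScalars K : Submodule K (A N K)) = ⊥ := by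
    refine eq_bot_iff.2 fun f hf => ?_
    have h3 : f ∈ ⊥ ⊔ mx p ^ (s + 1) := hf.2
    rw [bot_sup_eq] at h3
    exact eq_zero_of_mem_pow (mem_Le.1 hf.1) h3
  rw [h2, finrank_bot, finrank_Le] at h
  rw [lf_eq_hf]
  exact h

theorem UB_hf (J : Ideal (A N K)) : UB (hf J) N 1 :=
  (UB_choose N N).of_le (Eventually.of_forall fun t => (hf_anti bot_le t).trans (hf_bot t).le)

theorem dim_all (J : Ideal (A N K)) : Dim J N := ⟨1, UB_hf J⟩

theorem LB_hf_bot : LB (hf (⊥ : Ideal (A N K))) N 1 :=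
  (LB_choose N).of_le (Eventually.of_forall fun t => by
    rw [hf_bot]; exact Nat.choose_le_choose _ (Nat.le_add_right _ _))

theorem dg_bot : dg N (⊥ : Ideal (A N K)) = 1 :=
  le_antisymm (UB_hf _).lo_le (Bdd.le_lo (dim_all _) LB_hf_bot)

theorem LB_lf_bot (p : Fin N → K) : LB (lf p ⊥) N 1 := by
  refine ((LB_choose N).shift 1).of_le ((eventually_ge_atTop 1).mono fun s hs => ?_)
  obtain ⟨s, rfl⟩ : ∃ t, s = t + 1 := ⟨s - 1, by omega⟩
  rw [lf_bot]
  exact Nat.choose_le_choose _ (by omega)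

theorem mu_bot (p : Fin N → K) : mu p N ⊥ = 1 :=
  le_antisymm ((UB_hf ⊥).of_le (Eventually.of_forall (lf_le_hf p ⊥))).up_le
    (((dim_all _).bdd_lf p).le_up (LB_lf_bot p))

theorem not_dim_bot {w : ℕ} (hw : w < N) : ¬ Dim (⊥ : Ideal (A N K)) w := by
  intro h
  obtain ⟨n, rfl⟩ : ∃ n, N = n + 1 := ⟨N - 1, by omega⟩
  have := (h.mono (show w ≤ n by omega)).dg_succ
  rw [dg_bot] at this
  exact one_ne_zero this

end Pool.Agent.MP_5499e5_ag.W

end

section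

set_option autoImplicit false

namespace Pool.Agent.MP_5499e5_ag.W

open Filter MvPolynomial

section cD

variable {N : ℕ} {K : Type} [Field K] {K₀ : Subfield K}

/-- Coefficientwise action of a derivation, as a function. -/
noncomputable def cDf (δ : Derivation K₀ K K) (f : A N K) : A N K :=
  ∑ α ∈ f.support, monomial α (δ (coeff α f))

theorem coeff_cDf (δ : Derivation K₀ K K) (f : A N K) (α : Fin N →₀ ℕ) :
    coeff α (cDf δ f) = δ (coeff α f) := by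
  classical
  simp only [cDf, coeff_sum, coeff_monomial, Finset.sum_ite_eq', mem_support_iff]
  split_ifs with h
  · rfl
  · rw [not_not.1 h, map_zero]

/-- Coefficientwise action of a derivation of `K` on `K[x]`. -/
noncomputable def cD (δ : Derivation K₀ K K) : Derivation K₀ (A N K) (A N K) :=
  Derivation.mk'
    { toFun := cDf δ
      map_add' := fun f g => by ext α; simp [coeff_cDf]
      map_smul' := fun c f => by
        ext α
        rw [coeff_cDf, RingHom.id_apply, coeff_smul, coeff_smul, coeff_cDf, Derivation.map_smul] }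
    (fun f g => by
      classical
      ext α
      change coeff α (cDf δ (f * g)) = coeff α (f * cDf δ g + g * cDf δ f)
      rw [mul_comm g, coeff_add, coeff_cDf, coeff_mul, coeff_mul, coeff_mul, map_sum,
        ← Finset.sum_add_distrib]
      refine Finset.sum_congr rfl fun x _ => ?_
      rw [Derivation.leibniz, coeff_cDf, coeff_cDf, smul_eq_mul, smul_eq_mul, mul_comm (coeff x.2 g)])

theorem coeff_cD (δ : Derivation K₀ K K) (f : A N K) (α : Fin N →₀ ℕ) :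
    coeff α (cD δ f) = δ (coeff α f) := coeff_cDf δ f α

theorem cD_monomial (δ : Derivation K₀ K K) (α : Fin N →₀ ℕ) (c : K) :
    cD δ (monomial α c : A N K) = monomial α (δ c) := by
  classical
  ext β
  rw [coeff_cD, coeff_monomial, coeff_monomial]
  split_ifs <;> simp

@[simp] theorem cD_C (δ : Derivation K₀ K K) (c : K) : cD δ (C c : A N K) = C (δ c) :=
  cD_monomial δ 0 c

@[simp] theorem cD_X (δ : Derivation K₀ K K) (u : Fin N) : cD δ (X u : A N K) = 0 := by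
  rw [X, cD_monomial]; simp

theorem support_cD (δ : Derivation K₀ K K) (f : A N K) : (cD δ f).support ⊆ f.support := by
  intro α h
  rw [mem_support_iff] at h ⊢
  intro h0
  rw [coeff_cD, h0, map_zero] at h
  exact h rfl

theorem totalDegree_cD_le (δ : Derivation K₀ K K) (f : A N K) :
    (cD δ f).totalDegree ≤ f.totalDegree :=
  totalDegree_le_of_support_subset (support_cD δ f)

theorem der_of_mem (δ : Derivation K₀ K K) {c : K} (hc : c ∈ K₀) : δ c = 0 :=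
  δ.map_algebraMap ⟨c, hc⟩

end cD

section filt

variable {k R ι : Type} [CommRing k] [CommRing R] [Algebra k R]

theorem der_mem_pow (D : Derivation k R R) (I : Ideal R) (n : ℕ) {f : R} (hf : f ∈ I ^ (n + 1)) :
    D f ∈ I ^ n := by
  induction n generalizing f with
  | zero => simp
  | succ n ih =>
    rw [pow_succ] at hf
    refine Submodule.mul_induction_on hf (fun a ha b hb => ?_) fun a b ha hb => ?_
    · rw [D.leibniz, smul_eq_mul, smul_eq_mul]
      refine add_mem (Ideal.mul_mem_right _ _ ha) ?_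
      rw [pow_succ']
      exact Ideal.mul_mem_mul hb (ih ha)
    · rw [map_add]; exact add_mem ha hb

theorem der_mem_pow_of_stable (D : Derivation k R R) {I : Ideal R} (hI : ∀ f ∈ I, D f ∈ I) (n : ℕ)
    {f : R} (hf : f ∈ I ^ n) : D f ∈ I ^ n := by
  induction n generalizing f with
  | zero => simp
  | succ n ih =>
    rw [pow_succ] at hf ⊢
    refine Submodule.mul_induction_on hf (fun a ha b hb => ?_) fun a b ha hb => ?_
    · rw [D.leibniz, smul_eq_mul, smul_eq_mul, mul_comm b]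
      exact add_mem (Ideal.mul_mem_mul ha (hI b hb)) (Ideal.mul_mem_mul (ih ha) hb)
    · rw [map_add]; exact add_mem ha hb

theorem der_mem_of_span (D : Derivation k R R) {S : Set R} {I : Ideal R} (hS : Ideal.span S ≤ I)
    (h : ∀ g ∈ S, D g ∈ I) {f : R} (hf : f ∈ Ideal.span S) : D f ∈ I := by
  induction hf using Submodule.span_induction with
  | mem x hx => exact h x hx
  | zero => simp
  | add a b _ _ ha hb => rw [map_add]; exact add_mem ha hb
  | smul a b hb ih =>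
    rw [smul_eq_mul, D.leibniz, smul_eq_mul, smul_eq_mul]
    exact add_mem (I.mul_mem_left _ ih) (I.mul_mem_right _ (hS hb))

/-- Differential powers of an ideal. -/
def Pf (D : ι → Derivation k R R) (P : Ideal R) : ℕ → Ideal R
  | 0 => ⊤
  | s + 1 =>
    { carrier := {g | g ∈ P ∧ g ∈ Pf D P s ∧ ∀ u, D u g ∈ Pf D P s}
      add_mem' := fun ha hb => ⟨add_mem ha.1 hb.1, add_mem ha.2.1 hb.2.1, fun u => by
        rw [map_add]; exact add_mem (ha.2.2 u) (hb.2.2 u)⟩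
      zero_mem' := ⟨zero_mem _, zero_mem _, fun u => by rw [map_zero]; exact zero_mem _⟩
      smul_mem' := fun c g hg => ⟨P.mul_mem_left c hg.1, Ideal.mul_mem_left _ c hg.2.1, fun u => by
        rw [smul_eq_mul, Derivation.leibniz, smul_eq_mul, smul_eq_mul]
        exact add_mem (Ideal.mul_mem_left _ _ (hg.2.2 u)) (Ideal.mul_mem_right _ _ hg.2.1)⟩ }

variable {D : ι → Derivation k R R} {P : Ideal R}

theorem Pf_zero : Pf D P 0 = ⊤ := rfl

theorem mem_Pf_succ {s : ℕ} {g : R} :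
    g ∈ Pf D P (s + 1) ↔ g ∈ P ∧ g ∈ Pf D P s ∧ ∀ u, D u g ∈ Pf D P s := Iff.rfl

theorem Pf_one : Pf D P 1 = P := by
  ext g; simp [mem_Pf_succ, Pf_zero]

theorem Pf_anti : Antitone (Pf D P) := antitone_nat_of_succ_le fun _ _ hg => hg.2.1

theorem Pf_mul {a b : ℕ} {f g : R} (hf : f ∈ Pf D P a) (hg : g ∈ Pf D P b) :
    f * g ∈ Pf D P (a + b) := by
  induction h : a + b generalizing a b f g with
  | zero => trivial
  | succ n ih =>
    rcases a with _ | a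
    · rw [← h, zero_add]; exact Ideal.mul_mem_left _ _ hg
    rcases b with _ | b
    · rw [← h, add_zero]; exact Ideal.mul_mem_right _ _ hf
    refine ⟨Ideal.mul_mem_right _ _ hf.1, ih hf.2.1 hg (by omega), fun u => ?_⟩
    rw [Derivation.leibniz, smul_eq_mul, smul_eq_mul, mul_comm g]
    exact add_mem (ih hf (hg.2.2 u) (by omega)) (ih (hf.2.2 u) hg (by omega))

theorem pow_le_Pf (s : ℕ) : P ^ s ≤ Pf D P s := by
  induction s with
  | zero => exact le_top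
  | succ s ih =>
    rw [pow_succ]
    exact Ideal.mul_le.2 fun a ha b hb => Pf_mul (b := 1) (ih ha) (by rw [Pf_one]; exact hb)

/-- Iterated derivatives of `F` of order at most `j`. -/
def Gs (D : ι → Derivation k R R) (F : R) : ℕ → Set R
  | 0 => {F}
  | j + 1 => Gs D F j ∪ {h | ∃ u, ∃ g ∈ Gs D F j, h = D u g}

theorem Gs_mono (F : R) : Monotone (Gs D F) :=
  monotone_nat_of_le_succ fun _ => Set.subset_union_left

theorem Gs_sub_Pf {F : R} {a j : ℕ} (h : Gs D F (j + a) ⊆ P) : Gs D F j ⊆ Pf D P a := by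
  induction a generalizing j with
  | zero => exact fun _ _ => trivial
  | succ a ih =>
    intro g hg
    refine ⟨h (Gs_mono F (by omega) hg), ih ((Gs_mono F (by omega)).trans h) hg, fun u => ?_⟩
    exact ih (j := j + 1) (by rwa [show j + 1 + a = j + (a + 1) by ring]) (Or.inr ⟨u, g, hg, rfl⟩)

end filt

/-- The curve bound. -/
def CB {N : ℕ} {K : Type} [Field K] {ι : Type} (T : Finset ι) (p : ι → Fin N → K) (τ : ℝ) : Prop :=
  ∀ J : Ideal (A N K), Dim J 1 → ∑ i ∈ T, mu (p i) 1 J ≤ τ * dg 1 J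

/-- The variables in `S` are a transcendence basis of the quotient. -/
def TB {N : ℕ} {K : Type} [Field K] (P : Ideal (A N K)) (S : Finset (Fin N)) : Prop :=
  IsTranscendenceBasis K (fun u : S => Ideal.Quotient.mk P (X (u : Fin N)))

/-- `δ u` is dual to the coordinate `y u`. -/
def Dual {N : ℕ} {K : Type} [Field K] {K₀ : Subfield K} (δ : Fin N → Derivation K₀ K K)
    (y : Fin N → K) : Prop := ∀ u v, δ u (y v) = if u = v then 1 else 0

/-- The properties of the length of `R_P / (J + F s)`. -/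
structure Lam {R : Type} [CommRing R] (P : Ideal R) (F : ℕ → Ideal R)
    (lam : Ideal R → ℕ → ℕ) : Prop where
  anti : ∀ (J J' : Ideal R) (s : ℕ), J ≤ J' → lam J' s ≤ lam J s
  es : ∀ (J : Ideal R) (g : R) (a s : ℕ), g ∈ F a →
    lam J (s + a) ≤ lam (J ⊔ Ideal.span {g}) (s + a) + lam (col J g) s
  zero : ∀ (J : Ideal R) (s : ℕ), ¬ J ≤ P → lam J s = 0
  one : ∀ s : ℕ, lam P s ≤ 1
  jump : ∀ (s : ℕ) (κ : Type) (B : Finset κ) (e : κ → R), (∀ b ∈ B, e b ∈ F s) →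
    (∀ c : κ → R, ∑ b ∈ B, c b * e b ∈ F (s + 1) → ∀ b ∈ B, c b ∈ P) →
    lam ⊥ s + B.card ≤ lam ⊥ (s + 1)

/-- The margin property in ambient dimension `N`, dimension `w`, truncation `B`. -/
def ML (N w B : ℕ) (ε τ₀ : ℝ) : Prop :=
  ∀ (K : Type) [Field K] [CharZero K] (ι : Type) (p : ι → Fin N → K), Gen p →
    ∀ (T : Finset ι) (τ : ℝ), τ₀ ≤ τ → (T.card : ℝ) ≤ τ ^ N → ∀ J : Ideal (A N K), Dim J w →
      ∑ i ∈ T, min (mu (p i) w J) B ≤ (1 - ε) * τ ^ w * dg w J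

/-- Reduction of an ideal along a valuation ring. -/
noncomputable def red {N : ℕ} {K : Type} [Field K] (O : ValuationSubring K) (J : Ideal (A N K)) :
    Ideal (A N (IsLocalRing.ResidueField O)) :=
  (J.comap (MvPolynomial.map O.subtype)).map (MvPolynomial.map (IsLocalRing.residue O))

/-- Reduction of a subspace of `K^σ` along a valuation ring. -/
noncomputable def redS {K : Type} [Field K] (O : ValuationSubring K) {σ : Type}
    (W : Submodule K (σ → K)) : Submodule (IsLocalRing.ResidueField O)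
      (σ → IsLocalRing.ResidueField O) :=
  Submodule.span _ {x | ∃ v : σ → O, (fun a => (v a : K)) ∈ W ∧
    x = fun a => IsLocalRing.residue O (v a)}

/-! Statements of the steps. -/

def S_zero : Prop := ∀ (N : ℕ) (K : Type) [Field K] (ι : Type) (T : Finset ι)
  (p : ι → Fin N → K), Set.InjOn p T → ∀ J : Ideal (A N K), Dim J 0 →
    ∑ i ∈ T, mu (p i) 0 J ≤ dg 0 J

def S_mu : Prop := ∀ (N : ℕ) (K : Type) [Field K] (p : Fin N → K) (w : ℕ) (J : Ideal (A N K)),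
  Dim J w → mu p w J ≤ dg w J

def S_sec : Prop := ∀ (N : ℕ) (K : Type) [Field K] (ι : Type) (T : Finset ι)
  (p : ι → Fin N → K) (w : ℕ) (J : Ideal (A N K)) (ρ : ℝ), Dim J w → 0 < ρ →
    ∑ i ∈ T, mu (p i) w J < ρ ^ w * dg w J →
    ∀ᶠ n : ℕ in atTop, ∃ g : A N K, g ∉ J ∧ (g.totalDegree : ℝ) ≤ ρ * n ∧
      ∀ i ∈ T, g ∈ J ⊔ mx (p i) ^ n

def S_kl : Prop := ∀ (N : ℕ) (K : Type) [Field K] (ι : Type) (T : Finset ι)
  (p : ι → Fin N → K) (τ : ℝ), Set.InjOn p T → 0 ≤ τ → CB T p τ →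
    ∀ (w : ℕ) (J : Ideal (A N K)), Dim J w → ∑ i ∈ T, mu (p i) w J ≤ τ ^ w * dg w J

def S_sub : Prop := ∀ (N : ℕ) (K : Type) [Field K] [CharZero K] (ι : Type) (p : ι → Fin N → K),
  Gen p → ∀ i₀ : ι, ∃ K₀ : Subfield K, (∀ i, i ≠ i₀ → ∀ u, p i u ∈ K₀) ∧
    IsTranscendenceBasis K₀ (p i₀)

def S_der : Prop := ∀ (N : ℕ) (K : Type) [Field K] [CharZero K] (K₀ : Subfield K) (y : Fin N → K),
  IsTranscendenceBasis K₀ y → ∃ δ : Fin N → Derivation K₀ K K, Dual δ y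

def S_ku : Prop := ∀ (N : ℕ) (K : Type) [Field K] [CharZero K] (ι : Type) (p : ι → Fin N → K),
  1 ≤ N → Gen p → ∀ (T : Finset ι) (τ : ℝ), 0 ≤ τ → (T.card : ℝ) + 2 ^ N ≤ τ ^ N → CB T p τ

def S_tb : Prop := ∀ (N : ℕ) (K : Type) [Field K] (P : Ideal (A N K)), P.IsPrime →
  ∃ S : Finset (Fin N), TB P S

def S_tbdim : Prop := ∀ (N : ℕ) (K : Type) [Field K] (P : Ideal (A N K)) (S : Finset (Fin N)),
  P.IsPrime → TB P S → Dim P S.card

def S_tbdeg : Prop := ∀ (N : ℕ) (K : Type) [Field K] (P : Ideal (A N K)) (S : Finset (Fin N)),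
  TB P S → Dim P S.card → 1 ≤ dg S.card P

/-- A minimal equation. -/
def S_minq : Prop := ∀ (R : Type) [CommRing R] (P : Ideal R) (R₀ : Subring R) (z : R), P.IsPrime →
  (∀ n : ℕ, (n : R) ∈ P → n = 0) →
  IsAlgebraic (R₀.map (Ideal.Quotient.mk P)) (Ideal.Quotient.mk P z) →
    ∃ q : Polynomial R, (∀ n, q.coeff n ∈ R₀) ∧ q.eval z ∈ P ∧ q.derivative.eval z ∉ P

def S_exch : Prop := ∀ (N : ℕ) (K : Type) [Field K] (K₀ : Subfield K) (y : Fin N → K)
  (P : Ideal (A N K)) (S : Finset (Fin N)), IsTranscendenceBasis K₀ y → P.IsPrime → P ≤ mx y →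
  TB P S → ∃ T : Finset (Fin N), T.card = S.card ∧ ∀ u : Fin N,
    IsAlgebraic ((Subring.closure ((fun c : K => (C c : A N K)) '' (K₀ : Set K) ∪
      Set.range (X : Fin N → A N K) ∪ (fun v => (C (y v) : A N K)) '' (T : Set (Fin N)))).map
        (Ideal.Quotient.mk P)) (Ideal.Quotient.mk P (C (y u)))

def S_jac : Prop := ∀ (N : ℕ) (K : Type) [Field K] [CharZero K] (K₀ : Subfield K) (y : Fin N → K)
  (δ : Fin N → Derivation K₀ K K) (P : Ideal (A N K)) (S : Finset (Fin N)),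
  IsTranscendenceBasis K₀ y → Dual δ y → P.IsPrime → P ≤ mx y → TB P S →
    ∃ (U : Finset (Fin N)) (g : Fin N → A N K), U.card + S.card = N ∧ ∀ u ∈ U, g u ∈ P ∧
      cD (δ u) (g u) ∉ P ∧ ∀ v ∈ U, v ≠ u → cD (δ v) (g u) = 0

def S_lam : Prop := ∀ (R : Type) [CommRing R] [IsNoetherianRing R] (P : Ideal R) (F : ℕ → Ideal R),
  P.IsPrime → Antitone F → (∀ s, P ^ s ≤ F s) →
  (∀ (a b : ℕ) (f g : R), f ∈ F a → g ∈ F b → f * g ∈ F (a + b)) →
    ∃ lam : Ideal R → ℕ → ℕ, Lam P F lam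

def S_indep : Prop := ∀ (k R ι : Type) [CommRing k] [CommRing R] [Algebra k R]
  (D : ι → Derivation k R R) (P : Ideal R) (U : Finset ι) (g : ι → R) (lam : Ideal R → ℕ → ℕ),
  P.IsPrime → (∀ n : ℕ, (n : R) ∈ P → n = 0) →
  (∀ u ∈ U, g u ∈ P ∧ D u (g u) ∉ P ∧ ∀ v ∈ U, v ≠ u → D v (g u) = 0) →
  Lam P (Pf D P) lam → LB (lam ⊥) U.card 1

def S_bez : Prop := ∀ (N : ℕ) (K : Type) [Field K] (ι : Type) (T : Finset ι)
  (p : ι → Fin N → K) (τ : ℝ) (P : Ideal (A N K)) (F : ℕ → Ideal (A N K))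
  (lam : Ideal (A N K) → ℕ → ℕ) (G : Set (A N K)) (w c m a : ℕ), 0 ≤ τ →
  (∀ (k : ℕ) (J : Ideal (A N K)), Dim J k → ∑ i ∈ T, mu (p i) k J ≤ τ ^ k * dg k J) →
  P.IsPrime → F 0 = ⊤ → Lam P F lam → LB (lam ⊥) c 1 → w + c = N → 1 ≤ w → Dim P w → 0 < dg w P →
  0 < a → (∀ g ∈ G, (g.totalDegree : ℝ) ≤ τ * m ∧ g ∈ F a ∧ ∀ i ∈ T, g ∈ mx (p i) ^ m) →
  (∀ q : Ideal (A N K), q.IsPrime → q < P → ∃ g ∈ G, g ∉ q) →
    (a : ℝ) ^ c * (τ ^ w * dg w P - ∑ i ∈ T, mu (p i) w P) ≤ (m : ℝ) ^ c * (τ ^ N - T.card)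

def S_gap : Prop := ∀ (N : ℕ) (K : Type) [Field K] (z : Ideal (A N K)) (I : ℕ → Ideal (A N K)),
  1 ≤ N → z.IsPrime → ¬ Dim z 0 → Monotone I → I 0 ≠ ⊥ → I (N - 1) ≤ z →
    ∃ (j : ℕ) (P : Ideal (A N K)), P.IsPrime ∧ P ≤ z ∧ I (j + 1) ≤ P ∧
      ∀ q : Ideal (A N K), q.IsPrime → q < P → ¬ I j ≤ q

def S_place : Prop := ∀ (n : ℕ) (K : Type) [Field K] [CharZero K] (ι : Type)
  (p : ι → Fin (n + 1) → K) (j : ι → ℕ), Gen p → ∃ (O : ValuationSubring K)
    (p' : ι → Fin (n + 1) → O), (∀ i u, (p' i u : K) = p i u) ∧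
      CharZero (IsLocalRing.ResidueField O) ∧
      (∀ i, IsLocalRing.residue O (p' i 0) = (j i : IsLocalRing.ResidueField O)) ∧
      Gen (fun i (u : Fin n) => IsLocalRing.residue O (p' i u.succ))

def S_la : Prop := ∀ (K : Type) [Field K] (O : ValuationSubring K) (σ : Type) [Fintype σ]
  (W : Submodule K (σ → K)),
    Module.finrank (IsLocalRing.ResidueField O) (redS O W) = Module.finrank K W

def S_flath : Prop := ∀ (N : ℕ) (K : Type) [Field K] (O : ValuationSubring K) (J : Ideal (A N K))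
  (t : ℕ), hf (red O J) t ≤ hf J t

def S_flatl : Prop := ∀ (N : ℕ) (K : Type) [Field K] (O : ValuationSubring K) (J : Ideal (A N K))
  (p : Fin N → O) (s : ℕ),
    lf (fun u => (p u : K)) J s ≤ lf (fun u => IsLocalRing.residue O (p u)) (red O J) s

def S_res : Prop := ∀ (n : ℕ) (K : Type) [Field K] (J : Ideal (A (n + 1) K)) (h : K),
  (X 0 - C h : A (n + 1) K) ∈ J → ∃ J' : Ideal (A n K), (∀ t, hf J' t ≤ hf J t) ∧
    ∀ (p : Fin (n + 1) → K) (s : ℕ), lf p J s ≤ lf (fun u => p u.succ) J' s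

def S_hypd : Prop := ∀ (n : ℕ) (K : Type) [Field K] (f : A (n + 1) K), f ≠ 0 →
  (f.totalDegree : ℝ) ≤ dg n (Ideal.span {f})

def S_hypm : Prop := ∀ (n : ℕ) (K : Type) [Field K] (f : A (n + 1) K) (p : Fin (n + 1) → K)
  (k : ℕ), f ∉ mx p ^ (k + 1) → mu p n (Ideal.span {f}) ≤ k

/-- One point at the origin. -/
def S_pt0 : Prop := ∀ (n : ℕ) (K : Type) [Field K] [CharZero K] (V : Submodule K (A (n + 1) K))
  (d k : ℕ), V ≤ Le (n + 1) K d →
  (∀ f ∈ V, ∀ u, ∃ g : A (n + 1) K, g.support ⊆ f.support ∧ g - pderiv u f ∈ V) →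
    (V ≠ ⊥ → ¬ V ≤ (mx 0).restrictScalars K) ∧
    (Module.finrank K V ≤ (n + 1) * k * (d + 1) ^ n ∨
      Module.finrank K (V ⊓ (mx 0 ^ k).restrictScalars K : Submodule K (A (n + 1) K)) +
        (k + n).choose (n + 1) ≤ Module.finrank K V)

/-- One generic point. -/
def S_pt : Prop := ∀ (n : ℕ) (K : Type) [Field K] [CharZero K] (K₀ : Subfield K)
  (y : Fin (n + 1) → K) (δ : Fin (n + 1) → Derivation K₀ K K) (V : Submodule K (A (n + 1) K))
  (d k : ℕ), Dual δ y → V ≤ Le (n + 1) K d → (∀ f ∈ V, ∀ u, cD (δ u) f ∈ V) →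
    (V ≠ ⊥ → ¬ V ≤ (mx y).restrictScalars K) ∧
    (Module.finrank K V ≤ (n + 1) * k * (d + 1) ^ n ∨
      Module.finrank K (V ⊓ (mx y ^ k).restrictScalars K : Submodule K (A (n + 1) K)) +
        (k + n).choose (n + 1) ≤ Module.finrank K V)

def S_down : Prop := ∀ (n : ℕ) (K : Type) [Field K] [CharZero K] (ι : Type)
  (p : ι → Fin (n + 1) → K), Gen p → ∀ (T : Finset ι) (k : ι → ℕ) (B d : ℕ) (f : A (n + 1) K),
  (∀ i ∈ T, k i ≤ B) → f ≠ 0 → f.totalDegree ≤ d → (∀ i ∈ T, f ∈ mx (p i) ^ k i) →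
    ∑ i ∈ T, (k i + n).choose (n + 1) ≤
      (d + (n + 1)).choose (n + 1) + (B + n).choose (n + 1) * ((n + 1) * B * (d + 1) ^ n)

def S_num : Prop := ∀ n B : ℕ, 1 ≤ n → ∃ ε τ₀ : ℝ, 0 < ε ∧ ε < 1 ∧ 1 ≤ τ₀ ∧
  ∀ (ι : Type) (T : Finset ι) (k : ι → ℕ) (d : ℕ) (τ : ℝ), τ₀ ≤ τ → (T.card : ℝ) ≤ τ ^ (n + 1) →
  1 ≤ d → (∀ i ∈ T, k i ≤ B) →
  ∑ i ∈ T, (k i + n).choose (n + 1) ≤
      (d + (n + 1)).choose (n + 1) + (B + n).choose (n + 1) * ((n + 1) * B * (d + 1) ^ n) →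
    ∑ i ∈ T, (k i : ℝ) ≤ (1 - ε) * τ ^ n * d

def S_base : Prop := ∀ n B : ℕ, 1 ≤ n → ∃ ε τ₀ : ℝ, 0 < ε ∧ ε < 1 ∧ 1 ≤ τ₀ ∧ ML (n + 1) n B ε τ₀

/-- The numerical part of the induction step. -/
def S_num2 : Prop := ∀ (n w : ℕ) (ε' τ' : ℝ), w + 1 ≤ n → 0 < ε' → ε' < 1 → 1 ≤ τ' →
  ∃ ε τ₀ : ℝ, 0 < ε ∧ ε < 1 ∧ 1 ≤ τ₀ ∧ ∀ (τ : ℝ) (r : ℕ), τ₀ ≤ τ → (r : ℝ) ≤ τ ^ (n + 1) →
    ∃ (σ : ℝ) (r' s : ℕ), τ' ≤ σ ∧ (r' : ℝ) + 2 ^ n ≤ σ ^ n ∧ r ≤ s * r' ∧
      (1 - ε') * σ ^ (w + 1) ≤ (1 - ε) * τ ^ (w + 1) ∧ s * σ ^ w ≤ (1 - ε) * τ ^ (w + 1)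

/-- Points lying in parallel hyperplanes. -/
def S_spec : Prop := ∀ (n w B : ℕ) (ε' τ' : ℝ), 1 ≤ n → ML n (w + 1) B ε' τ' →
  ∀ (K : Type) [Field K] [CharZero K] (ι : Type) (p : ι → Fin (n + 1) → K) (j : ι → ℕ)
  (T : Finset ι) (σ c : ℝ) (r' s : ℕ), Gen (fun i (u : Fin n) => p i u.succ) →
  (∀ i, p i 0 = (j i : K)) → (∀ i ∈ T, j i < s) →
  (∀ b, (T.filter fun i => j i = b).card ≤ r') → 0 ≤ σ → τ' ≤ σ → (r' : ℝ) + 2 ^ n ≤ σ ^ n →
  (1 - ε') * σ ^ (w + 1) ≤ c → s * σ ^ w ≤ c → ∀ J : Ideal (A (n + 1) K), Dim J (w + 1) →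
    ∑ i ∈ T, min (mu (p i) (w + 1) J) B ≤ c * dg (w + 1) J

def S_step : Prop := ∀ (n w B : ℕ) (ε' τ' : ℝ), w + 1 ≤ n → 0 < ε' → ε' < 1 → 1 ≤ τ' →
  ML n (w + 1) B ε' τ' → ∃ ε τ₀ : ℝ, 0 < ε ∧ ε < 1 ∧ 1 ≤ τ₀ ∧ ML (n + 1) (w + 1) B ε τ₀

def S_ml : Prop := ∀ N B : ℕ, ∃ ε τ₀ : ℝ, 0 < ε ∧ ε < 1 ∧ 1 ≤ τ₀ ∧
  ∀ w, 1 ≤ w → w < N → ML N w B ε τ₀

def S_ekl : Prop := ∀ (N : ℕ) (η : ℝ), 2 ≤ N → 0 < η → ∃ r₀ : ℕ, ∀ r, r₀ ≤ r →
  ∀ (K : Type) [Field K] [CharZero K] (p : Fin r → Fin N → K), Gen p →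
    ∀ τ : ℝ, 0 ≤ τ → (r : ℝ) + η ≤ τ ^ N → CB Finset.univ p τ

def S_aff : Prop := ∀ (N : ℕ) (η : ℝ), 2 ≤ N → 0 < η → ∃ r₀ : ℕ, ∀ r, r₀ ≤ r →
  ∀ (K : Type) [Field K] [CharZero K] (p : Fin r → Fin N → K), Gen p →
    ∀ (n d : ℕ) (f : A N K), f ≠ 0 → f.totalDegree ≤ d → (∀ i, f ∈ mx (p i) ^ n) →
      ((r : ℝ) - η) * (n : ℝ) ^ N ≤ (d : ℝ) ^ N

/-- Very general points give generic affine points. -/
def S_hom : Prop := ∀ (N r : ℕ) (K : Type) [Field K] [CharZero K],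
  ∃ F : ℕ → MvPolynomial (Fin r × Fin (N + 1)) K, (∀ i, F i ≠ 0) ∧
    ∀ P : Fin r → Fin (N + 1) → K,
      (∀ i, eval (fun q : Fin r × Fin (N + 1) => P q.1 q.2) (F i) ≠ 0) →
      (∀ j, P j 0 ≠ 0) ∧ Gen (fun j (u : Fin N) => P j u.succ / P j 0)

def S_deh : Prop := ∀ (N : ℕ) (K : Type) [Field K] (d : ℕ) (f : MvPolynomial (Fin (N + 1)) K),
  f.IsHomogeneous d → f ≠ 0 → ∃ g : A N K, g ≠ 0 ∧ g.totalDegree ≤ d ∧
    ∀ (P : Fin (N + 1) → K) (n : ℕ), P 0 ≠ 0 → f ∈ RingHom.ker (eval P) ^ n →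
      g ∈ mx (fun u : Fin N => P u.succ / P 0) ^ n

theorem Gen.injective {N : ℕ} {K : Type} [Field K] {ι : Type} {p : ι → Fin N → K} (hN : 1 ≤ N)
    (h : Gen p) : Function.Injective p := fun i j hij => by
  have h1 := AlgebraicIndependent.injective h
    (a₁ := (i, ⟨0, hN⟩)) (a₂ := (j, ⟨0, hN⟩)) (congrFun hij _)
  exact congrArg Prod.fst h1

end Pool.Agent.MP_5499e5_ag.W

end
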