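import Pool.Agent.Mg.F5499e5ap.G658e11

set_option linter.all false

section

set_option autoImplicit false

namespace Pool.Agent.MP_5499e5_ag.W

/-! Quantitative forms of the numerical steps. -/

def S_numq : Prop := ∀ n : ℕ, 1 ≤ n → ∃ e : ℕ, 1 ≤ e ∧ ∀ (B : ℕ)
  (ι : Type) (T : Finset ι) (k : ι → ℕ) (d : ℕ) (τ : ℝ), ((B : ℝ) + 2) ^ e ≤ τ →
  (T.card : ℝ) ≤ τ ^ (n + 1) → 1 ≤ d → (∀ i ∈ T, k i ≤ B) →
  ∑ i ∈ T, (k i + n).choose (n + 1) ≤
      (d + (n + 1)).choose (n + 1) + (B + n).choose (n + 1) * ((n + 1) * B * (d + 1) ^ n) →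
    ∑ i ∈ T, (k i : ℝ) ≤ (1 - 1 / ((B : ℝ) + 2) ^ e) * τ ^ n * d

def S_num2q : Prop := ∀ n w : ℕ, w + 1 ≤ n → ∃ e : ℕ, 1 ≤ e ∧ ∀ x : ℝ, 2 ≤ x →
  ∀ (τ : ℝ) (r : ℕ), x ^ e ≤ τ → (r : ℝ) ≤ τ ^ (n + 1) →
    ∃ (σ : ℝ) (r' s : ℕ), x ≤ σ ∧ (r' : ℝ) + 2 ^ n ≤ σ ^ n ∧ r ≤ s * r' ∧
      (1 - 1 / x) * σ ^ (w + 1) ≤ (1 - 1 / x ^ e) * τ ^ (w + 1) ∧
      s * σ ^ w ≤ (1 - 1 / x ^ e) * τ ^ (w + 1)

def S_mlq : Prop := ∀ N : ℕ, ∃ e : ℕ, 1 ≤ e ∧ ∀ B w : ℕ, 1 ≤ w → w < N →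
  ML N w B (1 / ((B : ℝ) + 2) ^ e) (((B : ℝ) + 2) ^ e)

def S_eklq : Prop := ∀ N : ℕ, 2 ≤ N → ∃ e : ℕ, 1 ≤ e ∧ ∀ (η : ℝ) (r : ℕ), 0 < η → η ≤ 1 →
  (2 / η) ^ e ≤ r → ∀ (K : Type) [Field K] [CharZero K] (p : Fin r → Fin N → K), Gen p →
    ∀ τ : ℝ, 0 ≤ τ → (r : ℝ) + η ≤ τ ^ N → CB Finset.univ p τ

end Pool.Agent.MP_5499e5_ag.W

end

section

set_option autoImplicit false

namespace Pool.Agent.MP_5499e5_ag.W

open Filter MvPolynomial

theorem bern_Aff (m : ℕ) (r e : ℝ) (hr : 0 < r) (he : 0 < e) :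
    (r - m * e) * (r + e) ^ m ≤ r ^ (m + 1) := by
  have hs : 0 < r + e := by linarith
  have hx : e / (r + e) ≤ 1 := (div_le_one hs).2 (by linarith)
  have h1 := one_add_mul_le_pow (a := -(e / (r + e))) (by linarith) m
  have h2 : (1 + -(e / (r + e))) * (r + e) = r := by field_simp; ring
  have h3 : r ^ m = (1 + -(e / (r + e))) ^ m * (r + e) ^ m := by rw [← mul_pow, h2]
  have h4 : r * (e / (r + e)) ≤ e := by
    rw [mul_div_assoc', div_le_iff₀ hs]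
    nlinarith
  have h5 : r - m * e ≤ r * (1 + m * -(e / (r + e))) := by
    have : (0 : ℝ) ≤ m := Nat.cast_nonneg m
    nlinarith [mul_le_mul_of_nonneg_left h4 this]
  have h6 : (0 : ℝ) ≤ (r + e) ^ m := by positivity
  calc (r - m * e) * (r + e) ^ m ≤ r * (1 + -(e / (r + e))) ^ m * (r + e) ^ m :=
        mul_le_mul_of_nonneg_right (h5.trans (mul_le_mul_of_nonneg_left h1 hr.le)) h6
    _ = r ^ (m + 1) := by rw [pow_succ', h3, mul_assoc]

theorem s_aff (h1 : S_kl) (h2 : S_ekl) : S_aff := by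
  intro N η hN hη
  obtain ⟨m, rfl⟩ : ∃ m, N = m + 1 := ⟨N - 1, by omega⟩
  have hm1 : (0 : ℝ) < (m : ℝ) + 1 := by positivity
  have he : 0 < η / ((m : ℝ) + 1) := div_pos hη hm1
  obtain ⟨r₀, hr₀⟩ := h2 (m + 1) (η / ((m : ℝ) + 1)) hN he
  refine ⟨max r₀ 1, fun r hr K _ _ p hp n d f hf hd hmem => ?_⟩
  set e : ℝ := η / ((m : ℝ) + 1) with hedef
  have hr1 : (0 : ℝ) < r := by
    have : 1 ≤ r := (le_max_right _ _).trans hr
    exact_mod_cast this
  have hs : (0 : ℝ) < r + e := by linarith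
  set τ : ℝ := ((r : ℝ) + e) ^ (((m + 1 : ℕ) : ℝ)⁻¹) with hτ
  have hτ0 : 0 ≤ τ := Real.rpow_nonneg hs.le _
  have hτN : τ ^ (m + 1) = r + e := Real.rpow_inv_natCast_pow hs.le (Nat.succ_ne_zero m)
  have hCB := hr₀ r ((le_max_left _ _).trans hr) K p hp τ hτ0 hτN.ge
  have hf' : f ∉ (⊥ : Ideal (A (m + 1) K)) := fun h => hf (Ideal.mem_bot.1 h)
  have hdim : Dim ((⊥ : Ideal (A (m + 1) K)) ⊔ Ideal.span {f}) m :=
    (dim_all (⊥ : Ideal (A (m + 1) K))).slice Ideal.isPrime_bot hf'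
  have hkl := h1 (m + 1) K (Fin r) Finset.univ p τ
    ((hp.injective (Nat.succ_pos m)).injOn) hτ0 hCB m _ hdim
  have hdg : dg m ((⊥ : Ideal (A (m + 1) K)) ⊔ Ideal.span {f}) ≤ d := by
    have := (dim_all (⊥ : Ideal (A (m + 1) K))).dg_slice Ideal.isPrime_bot hf' hd
    rwa [dg_bot, mul_one] at this
  have hmu : ∀ i, (n : ℝ) ≤ mu (p i) m ((⊥ : Ideal (A (m + 1) K)) ⊔ Ideal.span {f}) := fun i => by
    have := mu_slice (p i) (J := ⊥) (g := f) (a := n) (w := m)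
      (Ideal.mem_sup_right (hmem i)) hdim
    rwa [mu_bot, mul_one] at this
  have hsum : (r : ℝ) * n ≤ τ ^ m * d := by
    have h3 : ∑ _i : Fin r, (n : ℝ) ≤
        ∑ i, mu (p i) m ((⊥ : Ideal (A (m + 1) K)) ⊔ Ideal.span {f}) :=
      Finset.sum_le_sum fun i _ => hmu i
    rw [Finset.sum_const, Finset.card_univ, Fintype.card_fin, nsmul_eq_mul] at h3
    exact h3.trans (hkl.trans (mul_le_mul_of_nonneg_left hdg (pow_nonneg hτ0 m)))
  have hpow : (r : ℝ) ^ (m + 1) * (n : ℝ) ^ (m + 1) ≤ (r + e) ^ m * (d : ℝ) ^ (m + 1) := by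
    have h4 := pow_le_pow_left₀ (by positivity) hsum (m + 1)
    rwa [mul_pow, mul_pow, ← pow_mul, mul_comm m (m + 1), pow_mul, hτN] at h4
  have hb := bern_Aff m r e hr1 he
  have hme : (m : ℝ) * e ≤ η := by
    have : ((m : ℝ) + 1) * e = η := by rw [hedef]; field_simp
    nlinarith
  have hsm : (0 : ℝ) < (r + e) ^ m := pow_pos hs m
  have hn : (0 : ℝ) ≤ (n : ℝ) ^ (m + 1) := by positivity
  refine le_of_mul_le_mul_left ?_ hsm
  calc (r + e) ^ m * (((r : ℝ) - η) * (n : ℝ) ^ (m + 1))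
      = (((r : ℝ) - η) * (r + e) ^ m) * (n : ℝ) ^ (m + 1) := by ring
    _ ≤ (((r : ℝ) - m * e) * (r + e) ^ m) * (n : ℝ) ^ (m + 1) :=
        mul_le_mul_of_nonneg_right (mul_le_mul_of_nonneg_right (by linarith) hsm.le) hn
    _ ≤ (r : ℝ) ^ (m + 1) * (n : ℝ) ^ (m + 1) := mul_le_mul_of_nonneg_right hb hn
    _ ≤ _ := hpow

end Pool.Agent.MP_5499e5_ag.W

end

section

set_option autoImplicit false

namespace Pool.Agent.MP_5499e5_ag.W

open Filter MvPolynomial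

theorem aff_AffQ (h1 : S_kl) {m r : ℕ} {K : Type} [Field K] {p : Fin r → Fin (m + 1) → K}
    (hp : Gen p) {e τ : ℝ} (hr1 : (0 : ℝ) < r) (he : 0 < e) (hτ0 : 0 ≤ τ)
    (hτN : τ ^ (m + 1) = r + e) (hCB : CB Finset.univ p τ) {n d : ℕ} {f : A (m + 1) K} (hf : f ≠ 0)
    (hd : f.totalDegree ≤ d) (hmem : ∀ i, f ∈ mx (p i) ^ n) :
    ((r : ℝ) - m * e) * (n : ℝ) ^ (m + 1) ≤ (d : ℝ) ^ (m + 1) := by
  have hs : (0 : ℝ) < r + e := by linarith
  have hf' : f ∉ (⊥ : Ideal (A (m + 1) K)) := fun h => hf (Ideal.mem_bot.1 h)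
  have hdim : Dim ((⊥ : Ideal (A (m + 1) K)) ⊔ Ideal.span {f}) m :=
    (dim_all (⊥ : Ideal (A (m + 1) K))).slice Ideal.isPrime_bot hf'
  have hkl := h1 (m + 1) K (Fin r) Finset.univ p τ
    ((hp.injective (Nat.succ_pos m)).injOn) hτ0 hCB m _ hdim
  have hdg : dg m ((⊥ : Ideal (A (m + 1) K)) ⊔ Ideal.span {f}) ≤ d := by
    have := (dim_all (⊥ : Ideal (A (m + 1) K))).dg_slice Ideal.isPrime_bot hf' hd
    rwa [dg_bot, mul_one] at this
  have hmu : ∀ i, (n : ℝ) ≤ mu (p i) m ((⊥ : Ideal (A (m + 1) K)) ⊔ Ideal.span {f}) := fun i => by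
    have := mu_slice (p i) (J := ⊥) (g := f) (a := n) (w := m)
      (Ideal.mem_sup_right (hmem i)) hdim
    rwa [mu_bot, mul_one] at this
  have hsum : (r : ℝ) * n ≤ τ ^ m * d := by
    have h3 : ∑ _i : Fin r, (n : ℝ) ≤
        ∑ i, mu (p i) m ((⊥ : Ideal (A (m + 1) K)) ⊔ Ideal.span {f}) :=
      Finset.sum_le_sum fun i _ => hmu i
    rw [Finset.sum_const, Finset.card_univ, Fintype.card_fin, nsmul_eq_mul] at h3
    exact h3.trans (hkl.trans (mul_le_mul_of_nonneg_left hdg (pow_nonneg hτ0 m)))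
  have hpow : (r : ℝ) ^ (m + 1) * (n : ℝ) ^ (m + 1) ≤ (r + e) ^ m * (d : ℝ) ^ (m + 1) := by
    have h4 := pow_le_pow_left₀ (by positivity) hsum (m + 1)
    rwa [mul_pow, mul_pow, ← pow_mul, mul_comm m (m + 1), pow_mul, hτN] at h4
  have hb := bern_Aff m r e hr1 he
  have hsm : (0 : ℝ) < (r + e) ^ m := pow_pos hs m
  have hn : (0 : ℝ) ≤ (n : ℝ) ^ (m + 1) := by positivity
  refine le_of_mul_le_mul_left ?_ hsm
  calc (r + e) ^ m * (((r : ℝ) - m * e) * (n : ℝ) ^ (m + 1))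
      = (((r : ℝ) - m * e) * (r + e) ^ m) * (n : ℝ) ^ (m + 1) := by ring
    _ ≤ (r : ℝ) ^ (m + 1) * (n : ℝ) ^ (m + 1) := mul_le_mul_of_nonneg_right hb hn
    _ ≤ _ := hpow

/-- The affine form of the theorem with a power saving. -/
theorem s_affq (h1 : S_kl) (h2 : S_eklq) (N : ℕ) (hN : 2 ≤ N) :
    ∃ c γ : ℝ, 0 < γ ∧ ∀ (r : ℕ) (K : Type) [Field K] [CharZero K] (p : Fin r → Fin N → K),
      Gen p → ∀ (n d : ℕ) (f : A N K), f ≠ 0 → f.totalDegree ≤ d → (∀ i, f ∈ mx (p i) ^ n) →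
        ((r : ℝ) - c * (r : ℝ) ^ (-γ)) * (n : ℝ) ^ N ≤ (d : ℝ) ^ N := by
  obtain ⟨e, he, H⟩ := h2 N hN
  obtain ⟨m, rfl⟩ : ∃ m, N = m + 1 := ⟨N - 1, by omega⟩
  have he0 : (0 : ℝ) < (e : ℝ)⁻¹ := by
    have : (0 : ℝ) < e := by exact_mod_cast he
    positivity
  refine ⟨2 * m + 2 * 2 ^ e, (e : ℝ)⁻¹, he0, fun r K _ _ p hp n d f hf hd hmem => ?_⟩
  rcases Nat.eq_zero_or_pos r with rfl | hr
  · rw [Nat.cast_zero, Real.zero_rpow (neg_ne_zero.2 he0.ne')]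
    simp
  have hr0 : (0 : ℝ) < r := by exact_mod_cast hr
  set x : ℝ := (r : ℝ) ^ ((e : ℝ)⁻¹) with hx
  have hx0 : 0 < x := Real.rpow_pos_of_pos hr0 _
  have hxe : x ^ e = r := Real.rpow_inv_natCast_pow hr0.le (by omega)
  rw [Real.rpow_neg hr0.le, ← hx]
  have hm0 : (0 : ℝ) ≤ m := Nat.cast_nonneg m
  have hn : (0 : ℝ) ≤ (n : ℝ) ^ (m + 1) := by positivity
  rcases le_total 2 x with h2x | h2x
  · have hη : 0 < 2 / x := by positivity
    have hs : (0 : ℝ) ≤ r + 2 / x := by positivity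
    have hτN := Real.rpow_inv_natCast_pow hs (Nat.succ_ne_zero m)
    have hτ0 := Real.rpow_nonneg hs (((m + 1 : ℕ) : ℝ)⁻¹)
    have hCB := H (2 / x) r hη ((div_le_one hx0).2 h2x)
      (by rw [div_div_cancel₀ two_ne_zero, hxe]) K p hp _ hτ0 hτN.ge
    refine le_trans (mul_le_mul_of_nonneg_right ?_ hn)
      (aff_AffQ h1 hp hr0 hη hτ0 hτN hCB hf hd hmem)
    have : (0 : ℝ) ≤ 2 * 2 ^ e * x⁻¹ := by positivity
    rw [div_eq_mul_inv]
    linarith
  · refine le_trans (mul_nonpos_of_nonpos_of_nonneg ?_ hn) (by positivity)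
    have h3 : (r : ℝ) ≤ 2 ^ e := by rw [← hxe]; gcongr
    have h4 : (r : ℝ) * x ≤ 2 * m + 2 * 2 ^ e := by
      have : (r : ℝ) * x ≤ 2 ^ e * 2 := by gcongr
      linarith
    rw [sub_nonpos, ← div_eq_mul_inv, le_div_iff₀ hx0]
    exact h4

end Pool.Agent.MP_5499e5_ag.W

end

section

set_option autoImplicit false

namespace Pool.Agent.MP_5499e5_ag.W

open Filter MvPolynomial

section

variable {N : ℕ} {K : Type} [Field K] {K₀ : Subfield K}

theorem cD_mem_mx_pow_Ekl (δ : Derivation K₀ K K) {q : Fin N → K} (hq : ∀ u, q u ∈ K₀) {n : ℕ}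
    {f : A N K} (hf : f ∈ mx q ^ n) : cD δ f ∈ mx q ^ n := by
  refine der_mem_pow_of_stable _ (fun g hg => ?_) n hf
  rw [mx_eq_span] at hg
  refine der_mem_of_span _ (mx_eq_span q).ge ?_ hg
  rintro _ ⟨u, rfl⟩
  simp [der_of_mem δ (hq u)]

theorem gs_props_Ekl {ι : Type} (p : ι → Fin N → K) (i₀ : ι) (hK : ∀ i, i ≠ i₀ → ∀ u, p i u ∈ K₀)
    (δ : Fin N → Derivation K₀ K K) {F : A N K} {m : ℕ} (hF : ∀ i, F ∈ mx (p i) ^ m) (j : ℕ) :
    ∀ g ∈ Gs (fun u => cD (δ u)) F j, g.totalDegree ≤ F.totalDegree ∧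
      (∀ i, i ≠ i₀ → g ∈ mx (p i) ^ m) ∧ g ∈ mx (p i₀) ^ (m - j) := by
  induction j with
  | zero =>
    rintro g rfl
    exact ⟨le_rfl, fun i _ => hF i, hF i₀⟩
  | succ j ih =>
    rintro g (hg | ⟨u, g, hg, rfl⟩)
    · obtain ⟨h1, h2, h3⟩ := ih g hg
      exact ⟨h1, h2, Ideal.pow_le_pow_right (by omega) h3⟩
    · obtain ⟨h1, h2, h3⟩ := ih g hg
      refine ⟨(totalDegree_cD_le _ _).trans h1, fun i hi => cD_mem_mx_pow_Ekl _ (hK i hi) (h2 i hi),
        ?_⟩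
      rcases Nat.eq_zero_or_pos (m - (j + 1)) with h0 | h0
      · rw [h0]; simp
      · refine der_mem_pow _ _ _ ?_
        rwa [show m - (j + 1) + 1 = m - j by omega]

/-- Weighted Bezout inequality on a curve. -/
theorem curve_bez_Ekl (hzero : S_zero) {r : ℕ} {p : Fin r → Fin N → K} (hp : Function.Injective p)
    {z : Ideal (A N K)} (hz : z.IsPrime) (hd : Dim z 1) (i₀ : Fin r) {g : A N K} (hg : g ∉ z)
    {m a : ℕ} (h1 : ∀ i, i ≠ i₀ → g ∈ mx (p i) ^ m) (h2 : g ∈ mx (p i₀) ^ (m - a)) :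
    m * ∑ i, mu (p i) 1 z - a * mu (p i₀) 1 z ≤ g.totalDegree * dg 1 z := by
  have hs := hd.slice hz hg
  have h3 := hzero N K _ Finset.univ p hp.injOn _ hs
  have h4 := hd.dg_slice hz hg le_rfl
  refine le_trans ?_ (h3.trans h4)
  rw [← Finset.add_sum_erase _ _ (Finset.mem_univ i₀),
    ← Finset.add_sum_erase _ _ (Finset.mem_univ i₀), mul_add, Finset.mul_sum]
  have h5 := mu_slice (p i₀) (Ideal.mem_sup_right h2) hs
  have h6 : ∑ i ∈ Finset.univ.erase i₀, (m : ℝ) * mu (p i) 1 z ≤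
      ∑ i ∈ Finset.univ.erase i₀, mu (p i) 0 (z ⊔ Ideal.span {g}) :=
    Finset.sum_le_sum fun i hi =>
      mu_slice (p i) (Ideal.mem_sup_right (h1 i (Finset.ne_of_mem_erase hi))) hs
  have h7 : (m : ℝ) - a ≤ ((m - a : ℕ) : ℝ) := by
    rcases le_total a m with h | h
    · rw [Nat.cast_sub h]
    · have : (m : ℝ) ≤ a := by exact_mod_cast h
      have h8 : (0 : ℝ) ≤ ((m - a : ℕ) : ℝ) := Nat.cast_nonneg _
      linarith
  have h8 := mul_le_mul_of_nonneg_right h7 (mu_nonneg (p i₀) 1 z)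
  simp only [zero_add] at h5
  linarith

/-- The subvariety along which the derivatives vanish to high order has small `L`-degree. -/
theorem near_null_Ekl [CharZero K] (hder : S_der) (htb : S_tb) (htbdim : S_tbdim)
    (htbdeg : S_tbdeg) (hjac : S_jac) (hlam : S_lam) (hindep : S_indep) (hbez : S_bez)
    (hgap : S_gap) (hN : 1 ≤ N) {r : ℕ} {p : Fin r → Fin N → K} {i₀ : Fin r}
    (hK : ∀ i, i ≠ i₀ → ∀ u, p i u ∈ K₀) (hy : IsTranscendenceBasis K₀ (p i₀))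
    {z : Ideal (A N K)} (hz : z.IsPrime) (hz0 : ¬ Dim z 0) (hzm : z ≤ mx (p i₀))
    {F : A N K} (hF0 : F ≠ 0) {m a : ℕ} (ha : 0 < a) (hF : ∀ i, F ∈ mx (p i) ^ m)
    {τ : ℝ} (hτ : 0 ≤ τ) (hdeg : (F.totalDegree : ℝ) ≤ τ * m)
    (hKL : ∀ (T : Finset (Fin r)) (k : ℕ) (J : Ideal (A N K)), Dim J k →
      ∑ i ∈ T, mu (p i) k J ≤ τ ^ k * dg k J)
    (hsub : ∀ g : A N K, g.totalDegree ≤ F.totalDegree → (∀ i, i ≠ i₀ → g ∈ mx (p i) ^ m) →
      g ∈ mx (p i₀) ^ (m - (N - 1) * a) → g ∈ z) :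
    ∃ (P : Ideal (A N K)) (w c : ℕ), w + c = N ∧ 1 ≤ w ∧ w < N ∧ Dim P w ∧ 1 ≤ dg w P ∧
      ∀ T : Finset (Fin r), i₀ ∉ T →
        (a : ℝ) ^ c * (τ ^ w * dg w P - ∑ i ∈ T, mu (p i) w P) ≤
          (m : ℝ) ^ c * (τ ^ N - T.card) := by
  obtain ⟨δ, hδ⟩ := hder N K K₀ _ hy
  set D : Fin N → Derivation K₀ (A N K) (A N K) := fun u => cD (δ u) with hD
  have hG := gs_props_Ekl p i₀ hK δ hF
  have hI0 : Ideal.span (Gs D F (0 * a)) ≠ ⊥ := by
    rw [zero_mul]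
    intro h
    exact hF0 (Ideal.span_eq_bot.1 h F rfl)
  obtain ⟨j, P, hP, hPz, hPI, hmin⟩ := hgap N K z (fun j => Ideal.span (Gs D F (j * a))) hN hz hz0
    (fun j j' h => Ideal.span_mono (Gs_mono F (Nat.mul_le_mul_right a h))) hI0
    (Ideal.span_le.2 fun g hg => by
      obtain ⟨h1, h2, h3⟩ := hG _ g hg
      exact hsub g h1 h2 h3)
  obtain ⟨S, hS⟩ := htb N K P hP
  have hdim := htbdim N K P S hP hS
  have hdg := htbdeg N K P S hS hdim
  obtain ⟨U, g, hU, hg⟩ := hjac N K K₀ _ δ P S hy hδ hP (hPz.trans hzm) hS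
  obtain ⟨lam, hl⟩ := hlam (A N K) P (Pf D P) hP Pf_anti pow_le_Pf fun _ _ _ _ => Pf_mul
  have hchar : ∀ n : ℕ, (n : A N K) ∈ P → n = 0 := by
    intro n hn
    by_contra h0
    refine hP.ne_top (Ideal.eq_top_of_isUnit_mem _ hn ?_)
    have : IsUnit (C (n : K) : A N K) := (IsUnit.mk0 _ (Nat.cast_ne_zero.2 h0)).map C
    rwa [map_natCast] at this
  have hLB := hindep K₀ (A N K) (Fin N) D P U g lam hP hchar hg hl
  have hw1 : 1 ≤ S.card := by
    by_contra h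
    have h0 : S.card = 0 := by omega
    rw [h0] at hdim
    exact hz0 (hdim.anti hPz)
  have hGP : Gs D F (j * a + a) ⊆ P := by
    have := Ideal.span_le.1 hPI
    rwa [add_mul, one_mul] at this
  have hwN : S.card < N := by
    by_contra h
    have h0 : S.card = N := by omega
    obtain ⟨n, rfl⟩ : ∃ n, N = n + 1 := ⟨N - 1, by omega⟩
    have hlt : (⊥ : Ideal (A (n + 1) K)) < P := by
      refine bot_lt_iff_ne_bot.2 fun h => hF0 ?_
      have : F ∈ P := hGP (Gs_mono F (Nat.zero_le _) rfl)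
      rwa [h, Ideal.mem_bot] at this
    have h2 := ((dim_all ⊥).of_lt Ideal.isPrime_bot hlt).dg_succ
    rw [h0, h2] at hdg
    linarith
  refine ⟨P, S.card, U.card, by omega, hw1, hwN, hdim, hdg, fun T hT => ?_⟩
  refine hbez N K _ T p τ P (Pf D P) lam (Gs D F (j * a)) _ _ m a hτ (hKL T) hP rfl hl hLB
    (by omega) hw1 hdim (by linarith) ha (fun g hg => ?_) fun q hq hlt => ?_
  · obtain ⟨h1, h2, _⟩ := hG _ g hg
    exact ⟨le_trans (by exact_mod_cast h1) hdeg, Gs_sub_Pf hGP hg,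
      fun i hi => h2 i fun h => hT (h ▸ hi)⟩
  · by_contra h
    push Not at h
    exact hmin q hq hlt (Ideal.span_le.2 h)

end

theorem core_Ekl (hzero : S_zero) (hsec : S_sec) (hkl : S_kl) (hsub : S_sub) (hder : S_der)
    (hku : S_ku) (htb : S_tb) (htbdim : S_tbdim) (htbdeg : S_tbdeg) (hjac : S_jac) (hlam : S_lam)
    (hindep : S_indep) (hbez : S_bez) (hgap : S_gap) {N : ℕ} (hN : 2 ≤ N) {η : ℝ} (hη : 0 < η)
    (hη1 : η ≤ 1) {B : ℕ} (hB : (2 * N / (η / (4 * N))) ^ N * (2 ^ N + 2) ≤ (B : ℝ))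
    {ε τ₀ L : ℝ} (hε : 0 < ε) (hML : ∀ w, 1 ≤ w → w < N → ML N w B ε τ₀) (hL1 : 1 ≤ L)
    (hL2 : τ₀ ≤ L) (hL3 : B / ε + 1 ≤ L) {r : ℕ} (hr1 : (2 : ℝ) * 2 ^ N ≤ r) (hr2 : L ^ N ≤ r)
    {K : Type} [Field K] [CharZero K] {p : Fin r → Fin N → K} (hp : Gen p) {τ : ℝ} (hτ : 0 ≤ τ)
    (hτN : (r : ℝ) + η ≤ τ ^ N) : CB Finset.univ p τ := by
  classical
  have hN1 : 1 ≤ N := by omega
  have hNR : (2 : ℝ) ≤ N := by exact_mod_cast hN
  set θ : ℝ := η / (4 * N) with hθd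
  have hθ : 0 < θ := by positivity
  have hθ1 : θ ≤ 1 := by rw [hθd, div_le_one (by positivity)]; linarith
  set κ : ℝ := 2 * N / θ with hκd
  have hκ1 : 1 ≤ κ := by rw [hκd, le_div_iff₀ hθ]; linarith
  set C₂ : ℝ := κ ^ N * (2 ^ N + 2) with hC₂
  have h2N : (0 : ℝ) < 2 ^ N := by positivity
  have hinj := hp.injective hN1
  by_cases hbig : (r : ℝ) + 2 ^ N ≤ τ ^ N
  · exact hku N K _ p hN1 hp _ τ hτ (by simpa using hbig)
  push Not at hbig
  intro J hJ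
  refine reduce_sum _ p hτ hJ fun z hz _ hd => ?_
  by_contra hlt
  push Not at hlt
  set M : ℝ := ∑ i, mu (p i) 1 z with hM
  have hM0 : 0 < M := lt_of_le_of_lt (mul_nonneg hτ (dg_nonneg _ _)) hlt
  -- the nef class
  obtain ⟨τ₂, hτ₂, hτ₂N⟩ : ∃ τ₂ : ℝ, 0 ≤ τ₂ ∧ τ₂ ^ N = r + 2 ^ N :=
    ⟨((r : ℝ) + 2 ^ N) ^ ((N : ℝ)⁻¹), by positivity,
      Real.rpow_inv_natCast_pow (by positivity) (by omega)⟩
  have hττ₂ : τ ≤ τ₂ := by
    refine le_of_not_gt fun h => ?_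
    have := pow_le_pow_left₀ hτ₂ h.le N
    linarith
  have hLτ₂ : L ≤ τ₂ := by
    refine le_of_not_gt fun h => ?_
    have := pow_le_pow_left₀ hτ₂ h.le N
    linarith
  have hcard : ∀ T : Finset (Fin r), (T.card : ℝ) ≤ r := fun T => by
    have := T.card_le_univ
    rw [Fintype.card_fin] at this
    exact_mod_cast this
  have hKL : ∀ (T : Finset (Fin r)) (k : ℕ) (J : Ideal (A N K)), Dim J k →
      ∑ i ∈ T, mu (p i) k J ≤ τ₂ ^ k * dg k J := fun T =>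
    hkl N K _ T p τ₂ hinj.injOn hτ₂
      (hku N K _ p hN1 hp T τ₂ hτ₂ (by rw [hτ₂N]; linarith [hcard T]))
  -- the point of least positive multiplicity
  set Tp : Finset (Fin r) := Finset.univ.filter fun i => 0 < mu (p i) 1 z with hTp
  have hsum : ∑ i ∈ Tp, mu (p i) 1 z = M := by
    rw [hTp, hM]
    refine Finset.sum_filter_of_ne fun i _ hi => lt_of_le_of_ne (mu_nonneg _ _ _) hi.symm
  have ht : τ ^ N < Tp.card + 2 ^ N := by
    by_contra h
    push Not at h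
    have := hku N K _ p hN1 hp Tp τ hτ h z hd
    rw [hsum] at this
    linarith
  have ht2 : τ ^ N ≤ 2 * Tp.card := by linarith
  have hτN0 : 0 < τ ^ N := by linarith
  have hτ0 : 0 < τ := lt_of_le_of_ne hτ fun h => by
    rw [← h, zero_pow (by omega)] at hτN0; exact lt_irrefl _ hτN0
  have hne : Tp.Nonempty := by
    rw [← Finset.card_pos]
    have : (0 : ℝ) < Tp.card := by linarith
    exact_mod_cast this
  obtain ⟨i₀, hi₀, hmin⟩ := Finset.exists_min_image Tp (fun i => mu (p i) 1 z) hne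
  have hμ0 : 0 < mu (p i₀) 1 z := (Finset.mem_filter.1 hi₀).2
  have hμt : Tp.card * mu (p i₀) 1 z ≤ M := by
    rw [← hsum, ← nsmul_eq_mul]
    exact Finset.card_nsmul_le_sum _ _ _ hmin
  have hzm : z ≤ mx (p i₀) := by
    by_contra h
    rw [mu_eq_zero h] at hμ0
    exact lt_irrefl _ hμ0
  have hz0 : ¬ Dim z 0 := fun h => by
    rw [h.mu_succ] at hμ0
    exact lt_irrefl _ hμ0
  -- the auxiliary polynomial
  set y : ℝ := η / (2 * τ ^ N) / N with hy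
  have hy0 : 0 < y := by positivity
  have hy1 : y < 1 := by
    rw [hy, div_div, div_lt_one (by positivity)]
    have := mul_le_mul_of_nonneg_left hNR hτN0.le
    linarith
  set ρ : ℝ := τ * (1 - y) with hρ
  have hρ0 : 0 < ρ := mul_pos hτ0 (by linarith)
  have hρN : (r : ℝ) < ρ ^ N := by
    have h1 := one_add_mul_le_pow (show (-2 : ℝ) ≤ -y by linarith) N
    have h2 : τ ^ N * (N * y) = η / 2 := by rw [hy]; field_simp
    rw [hρ, mul_pow, sub_eq_add_neg]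
    have h3 := mul_le_mul_of_nonneg_left h1 hτN0.le
    linarith
  have hev := hsec N K _ Finset.univ p N ⊥ ρ (dim_all _) hρ0 (by simpa [mu_bot, dg_bot] using hρN)
  obtain ⟨m, ⟨F, hF0, hFd, hF⟩, hm⟩ :=
    (hev.and (tendsto_natCast_atTop_atTop.eventually_ge_atTop κ)).exists
  rw [Ideal.mem_bot] at hF0
  simp only [bot_sup_eq, Finset.mem_univ, true_imp_iff] at hF
  have hm0 : (0 : ℝ) < m := by linarith
  set a : ℕ := ⌊θ * m / N⌋₊ with had
  have hx1 : 2 ≤ θ * m / N := by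
    rw [le_div_iff₀ (by positivity)]
    rw [hκd, div_le_iff₀ hθ] at hm
    linarith
  have ha1 : (a : ℝ) ≤ θ * m / N := Nat.floor_le (by positivity)
  have ha2 : θ * m / N < a + 1 := Nat.lt_floor_add_one _
  have haR : (0 : ℝ) < a := by linarith
  have ha : 0 < a := by exact_mod_cast haR
  have hma : (m : ℝ) ≤ κ * a := by
    have h1 : θ * m / N ≤ 2 * a := by linarith
    rw [div_le_iff₀ (by positivity)] at h1
    rw [hκd, div_mul_eq_mul_div, le_div_iff₀ hθ]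
    linarith
  obtain ⟨K₀, hK, hyb⟩ := hsub N K _ p hp i₀
  have hFd₂ : (F.totalDegree : ℝ) ≤ τ₂ * m := by
    refine hFd.trans (mul_le_mul_of_nonneg_right ?_ hm0.le)
    have := mul_nonneg hτ hy0.le
    rw [hρ]; linarith
  obtain ⟨P, w, c, hwc, hw1, hwN, hdim, hdg, hbz⟩ := near_null_Ekl hder htb htbdim htbdeg hjac hlam
    hindep hbez hgap hN1 hK hyb hz hz0 hzm hF0 ha hF hτ₂ hFd₂ hKL (fun g h1 h2 h3 => by
      by_contra hg
      have h4 := curve_bez_Ekl hzero hinj hz hd i₀ hg h2 h3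
      rw [← hM] at h4
      have h5 : (((N - 1) * a : ℕ) : ℝ) ≤ θ * m := by
        rw [le_div_iff₀ (by positivity)] at ha1
        have : (((N - 1) * a : ℕ) : ℝ) ≤ ((a * N : ℕ) : ℝ) := by
          exact_mod_cast (by rw [mul_comm]; exact Nat.mul_le_mul_left _ (Nat.sub_le _ _))
        push_cast at this ⊢
        linarith
      have h6 : (g.totalDegree : ℝ) ≤ ρ * m := le_trans (by exact_mod_cast h1) hFd
      have h7 : (g.totalDegree : ℝ) * dg 1 z ≤ ρ * m * dg 1 z :=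
        mul_le_mul_of_nonneg_right h6 (dg_nonneg _ _)
      have h8 : ρ * m * dg 1 z < m * (1 - y) * M := by
        have : ρ * m * dg 1 z = m * (1 - y) * (τ * dg 1 z) := by rw [hρ]; ring
        rw [this]
        exact mul_lt_mul_of_pos_left hlt (mul_pos hm0 (by linarith))
      have h9 : θ ≤ y * Tp.card := by
        rw [hy, hθd, div_div, div_mul_eq_mul_div, div_le_div_iff₀ (by positivity) (by positivity)]
        have := mul_le_mul_of_nonneg_left ht2 (show 0 ≤ η * N * 2 by positivity)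
        linarith
      have h10 : θ * mu (p i₀) 1 z ≤ y * M := by
        calc θ * mu (p i₀) 1 z ≤ y * Tp.card * mu (p i₀) 1 z := by gcongr
          _ = y * (Tp.card * mu (p i₀) 1 z) := by ring
          _ ≤ y * M := by gcongr
      have h11 := mul_le_mul_of_nonneg_right h5 hμ0.le
      have h12 := mul_le_mul_of_nonneg_left h10 hm0.le
      linarith)
  have hD : ∀ T : Finset (Fin r), i₀ ∉ T → r ≤ T.card + 2 →
      τ₂ ^ w * dg w P - ∑ i ∈ T, mu (p i) w P ≤ C₂ := by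
    intro T hT hTc
    have h1 := hbz T hT
    have h2 : τ₂ ^ N - T.card ≤ 2 ^ N + 2 := by
      have : (r : ℝ) ≤ T.card + 2 := by exact_mod_cast hTc
      linarith
    have h3 : (m : ℝ) ^ c ≤ (a : ℝ) ^ c * κ ^ N := by
      calc (m : ℝ) ^ c ≤ (κ * a) ^ c := by gcongr
        _ = (a : ℝ) ^ c * κ ^ c := by ring
        _ ≤ (a : ℝ) ^ c * κ ^ N := by gcongr; omega
    have h4 : (m : ℝ) ^ c * (τ₂ ^ N - T.card) ≤ (a : ℝ) ^ c * C₂ := by
      calc (m : ℝ) ^ c * (τ₂ ^ N - T.card) ≤ (m : ℝ) ^ c * (2 ^ N + 2) := by gcongr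
        _ ≤ (a : ℝ) ^ c * κ ^ N * (2 ^ N + 2) := by gcongr
        _ = _ := by rw [hC₂]; ring
    exact le_of_mul_le_mul_left (h1.trans h4) (by positivity)
  set T₁ : Finset (Fin r) := Finset.univ.erase i₀ with hT₁
  have hT₁c : T₁.card + 1 = r := by
    rw [hT₁, Finset.card_erase_add_one (Finset.mem_univ _), Finset.card_univ, Fintype.card_fin]
  have hμB : ∀ i ∈ T₁, mu (p i) w P ≤ (B : ℝ) := by
    intro i hi
    have h1 := hD (T₁.erase i) (fun h => Finset.notMem_erase _ _ (Finset.mem_of_mem_erase h))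
      (by have := Finset.card_erase_add_one hi; omega)
    have h2 := hKL T₁ w P hdim
    rw [← Finset.add_sum_erase _ _ hi] at h2
    linarith
  have h1 := hML w hw1 hwN K _ p hp T₁ τ₂ (hL2.trans hLτ₂)
    (by rw [hτ₂N]; linarith [hcard T₁]) P hdim
  rw [Finset.sum_congr rfl fun i hi => min_eq_left (hμB i hi)] at h1
  have h2 := hD T₁ (Finset.notMem_erase _ _) (by omega)
  have h3 : τ₂ ≤ τ₂ ^ w := le_self_pow₀ (hL1.trans hLτ₂) (by omega)
  have h4 : τ₂ ≤ τ₂ ^ w * dg w P := h3.trans (le_mul_of_one_le_right (by positivity) hdg)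
  have h5 : B / ε + 1 ≤ τ₂ := hL3.trans hLτ₂
  have h6 : (1 - ε) * τ₂ ^ w * dg w P = τ₂ ^ w * dg w P - ε * (τ₂ ^ w * dg w P) := by ring
  have h7 : ε * (B / ε + 1) ≤ ε * (τ₂ ^ w * dg w P) := by gcongr; exact h5.trans h4
  have h8 : ε * (B / ε + 1) = B + ε := by field_simp
  linarith

theorem s_eklq (hzero : S_zero) (hsec : S_sec) (hkl : S_kl) (hsub : S_sub) (hder : S_der)
    (hku : S_ku) (htb : S_tb) (htbdim : S_tbdim) (htbdeg : S_tbdeg) (hjac : S_jac) (hlam : S_lam)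
    (hindep : S_indep) (hbez : S_bez) (hgap : S_gap) (hml : S_mlq) : S_eklq := by
  intro N hN
  obtain ⟨e, he, hML⟩ := hml N
  obtain ⟨k, hk⟩ := pow_unbounded_of_one_lt (((4 * N ^ 2 : ℝ)) ^ N * (2 ^ N + 2) + 3)
    (one_lt_two (α := ℝ))
  refine ⟨((k + N) * (e + 1) + 1) * N + (N + 1), by omega,
    fun η r hη hη1 hr K _ _ p hp τ hτ hτN => ?_⟩
  set x : ℝ := 2 / η with hx
  have hx2 : 2 ≤ x := by rw [hx, le_div_iff₀ hη]; linarith
  have hx1 : 1 ≤ x := by linarith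
  have hNR : (0 : ℝ) < N := by exact_mod_cast (by omega : 0 < N)
  set C₂ : ℝ := (2 * N / (η / (4 * N))) ^ N * (2 ^ N + 2) with hC₂
  have hC : C₂ = (4 * N ^ 2 : ℝ) ^ N * (2 ^ N + 2) * x ^ N := by
    have : 2 * N / (η / (4 * N)) = 4 * N ^ 2 * x := by rw [hx]; field_simp
    rw [hC₂, this, mul_pow]; ring
  have hC0 : 0 ≤ C₂ := by rw [hC]; positivity
  set B : ℕ := ⌈C₂⌉₊ with hBd
  have hB0 : (0 : ℝ) ≤ B := Nat.cast_nonneg B
  have hB2 : (B : ℝ) + 2 ≤ x ^ (k + N) := by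
    have h1 : (B : ℝ) < C₂ + 1 := Nat.ceil_lt_add_one hC0
    have h2 : (1 : ℝ) ≤ x ^ N := one_le_pow₀ hx1
    have h3 : (2 : ℝ) ^ k ≤ x ^ k := by gcongr
    have h4 : ((4 * N ^ 2 : ℝ) ^ N * (2 ^ N + 2) + 3) * x ^ N ≤ x ^ k * x ^ N :=
      mul_le_mul_of_nonneg_right (hk.le.trans h3) (by positivity)
    rw [pow_add]
    rw [add_mul, ← hC] at h4
    linarith
  have hB3 : ((B : ℝ) + 2) ^ (e + 1) ≤ x ^ ((k + N) * (e + 1)) := by
    rw [pow_mul]; gcongr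
  have hB4 : (1 : ℝ) ≤ ((B : ℝ) + 2) ^ e := one_le_pow₀ (by linarith)
  have hB5 : 2 * x ^ ((k + N) * (e + 1)) ≤ x ^ ((k + N) * (e + 1) + 1) := by
    rw [pow_succ']; gcongr
  rw [pow_succ] at hB3
  have hB6 : (0 : ℝ) ≤ ((B : ℝ) + 2) ^ e * B := by positivity
  refine core_Ekl hzero hsec hkl hsub hder hku htb htbdim htbdeg hjac hlam hindep hbez hgap hN hη
    hη1 (B := B) (Nat.le_ceil _) (by positivity) (hML B) (L := x ^ ((k + N) * (e + 1) + 1))
    (one_le_pow₀ hx1) (by linarith [mul_add (((B : ℝ) + 2) ^ e) B 2]) ?_ (le_trans ?_ hr)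
    (le_trans ?_ hr) hp hτ hτN
  · rw [div_div_eq_mul_div, div_one, mul_comm]
    linarith [mul_add (((B : ℝ) + 2) ^ e) B 2]
  · rw [← pow_succ']
    exact le_trans (by gcongr) (pow_le_pow_right₀ hx1 (Nat.le_add_left _ _))
  · rw [← pow_mul]
    exact pow_le_pow_right₀ hx1 (Nat.le_add_right _ _)

end Pool.Agent.MP_5499e5_ag.W

end

section

set_option autoImplicit false
namespace Pool.Agent.MP_5499e5_ag.W
open Filter MvPolynomial

theorem low_NumQ {n B k : ℕ} (hn : 1 ≤ n) (hk : k ≤ B) :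
    (B + 1) * k ^ (n + 1) ≤ B * ((n + 1).factorial * (k + n).choose (n + 1)) := by
  have h1 := Nat.ascFactorial_eq_factorial_mul_choose' k (n + 1)
  rw [Nat.ascFactorial_succ, ← add_assoc, Nat.add_sub_cancel] at h1
  rw [← h1, pow_succ', ← mul_assoc, ← mul_assoc]
  exact Nat.mul_le_mul (by nlinarith) (Nat.pow_succ_le_ascFactorial k n)

theorem ch_NumQ (a m : ℕ) : (m.factorial : ℝ) * a.choose m ≤ (a : ℝ) ^ m := by
  exact_mod_cast (Nat.descFactorial_eq_factorial_mul_choose a m).ge.trans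
    (Nat.descFactorial_le_pow a m)

theorem up_NumQ {n B d : ℕ} {y : ℝ} (hd : 1 ≤ d) (y1 : (n : ℝ) + 2 ≤ y) (y2 : (B : ℝ) + n ≤ y) :
    ((n + 1).factorial : ℝ) * ((d + (n + 1)).choose (n + 1) +
      (B + n).choose (n + 1) * ((n + 1) * B * (d + 1) ^ n)) ≤
      (d : ℝ) ^ (n + 1) + y ^ (2 * n + 4) * d ^ n := by
  have n0 : (0 : ℝ) ≤ n := n.cast_nonneg
  have B0 : (0 : ℝ) ≤ B := B.cast_nonneg
  have d1 : (1 : ℝ) ≤ d := by exact_mod_cast hd
  have y0 : 1 ≤ y := by linarith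
  have h1 := ch_NumQ (d + (n + 1)) (n + 1)
  have h2 := ch_NumQ (B + n) (n + 1)
  push_cast at h1 h2
  have h3 := pow_succ_add_le d (n + 1) (by positivity) (by positivity) n
  have h4 : ((n : ℝ) + 1) * (n + 1) * (d + (n + 1)) ^ n ≤ y ^ (n + 1) * (y * y * (y * d) ^ n) := by
    refine le_trans ?_ (le_mul_of_one_le_left (by positivity) (one_le_pow₀ y0))
    gcongr
    · linarith
    · linarith
    · nlinarith
  have h5 : ((B : ℝ) + n) ^ (n + 1) * ((n + 1) * B * (d + 1) ^ n) ≤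
      y ^ (n + 1) * (y * y * (y * d) ^ n) := by
    gcongr
    · linarith
    · linarith
    · nlinarith
  have h6 := mul_le_mul_of_nonneg_right h2
    (show 0 ≤ ((n : ℝ) + 1) * B * (d + 1) ^ n by positivity)
  have h7 := mul_le_mul_of_nonneg_right (show 2 ≤ y by linarith)
    (show 0 ≤ y ^ (n + 1) * (y * y * (y * d) ^ n) by positivity)
  have h8 : y * (y ^ (n + 1) * (y * y * (y * d) ^ n)) = y ^ (2 * n + 4) * d ^ n := by ring
  linarith

theorem s_numq : S_numq := by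
  intro n hn
  refine ⟨(n + 1) * ((2 * n + 6) * n + (2 * n + 5) + 1), Nat.mul_pos n.succ_pos (Nat.succ_pos _),
    fun B ι T k d τ hτ hT hd hk h => ?_⟩
  have n1 : (1 : ℝ) ≤ n := by exact_mod_cast hn
  have B0 : (0 : ℝ) ≤ B := B.cast_nonneg
  have d1 : (1 : ℝ) ≤ d := by exact_mod_cast hd
  have y1 : (n : ℝ) + 2 ≤ ((B : ℝ) + 2) ^ (n + 1) :=
    le_trans (by exact_mod_cast (n + 1).lt_two_pow_self)
      (pow_le_pow_left₀ zero_le_two (by linarith) _)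
  have y2 : (B : ℝ) + n ≤ ((B : ℝ) + 2) ^ (n + 1) := by
    have := one_add_mul_le_pow (a := (B : ℝ) + 1) (by linarith) (n + 1)
    rw [show 1 + ((B : ℝ) + 1) = B + 2 by ring] at this
    push_cast at this
    nlinarith
  rw [pow_mul] at hτ ⊢
  generalize ((B : ℝ) + 2) ^ (n + 1) = y at *
  have y0 : 1 ≤ y := by linarith
  have h1 : ((B : ℝ) + 1) * ∑ i ∈ T, (k i : ℝ) ^ (n + 1) ≤
      B * ((d : ℝ) ^ (n + 1) + y ^ (2 * n + 4) * d ^ n) := by
    refine le_trans ?_ (mul_le_mul_of_nonneg_left (up_NumQ hd y1 y2) B0)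
    have h2 := (Finset.sum_le_sum fun i hi => low_NumQ hn (hk i hi))
    rw [← Finset.mul_sum, ← Finset.mul_sum, ← Finset.mul_sum] at h2
    exact_mod_cast h2.trans (Nat.mul_le_mul_left _ (Nat.mul_le_mul_left _ h))
  have hZ : y ^ 3 ≤ y ^ ((2 * n + 6) * n + (2 * n + 5) + 1) := pow_le_pow_right₀ y0 (by omega)
  have hy : ((n : ℝ) + 1) * (2 * (B + 1)) ≤ y ^ 3 := by
    rw [pow_three]
    gcongr <;> linarith
  have Z2 : 1 / y ^ ((2 * n + 6) * n + (2 * n + 5) + 1) ≤ 1 / 2 :=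
    one_div_le_one_div_of_le two_pos (by nlinarith)
  have τ1 : 1 ≤ τ := (one_le_pow₀ y0).trans hτ
  have S0 : 0 ≤ ∑ i ∈ T, (k i : ℝ) ^ (n + 1) := by positivity
  rcases le_total (2 * B * y ^ (2 * n + 4)) d with c | c
  · have h2 := mul_le_mul_of_nonneg_left c (show 0 ≤ (d : ℝ) ^ n by positivity)
    have h3 : ∑ i ∈ T, (k i : ℝ) ^ (n + 1) ≤ (1 - 1 / (2 * (B + 1))) * d ^ (n + 1) := by
      refine le_of_mul_le_mul_left (h1.trans (le_of_le_of_eq
        (b := (B + 1 / 2) * (d : ℝ) ^ (n + 1)) ?_ ?_)) (by positivity)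
      · rw [pow_succ]
        linarith
      · field_simp
        ring
    have h4 := one_add_mul_le_pow (a := -(1 / y ^ ((2 * n + 6) * n + (2 * n + 5) + 1)))
      (by linarith) (n + 1)
    have h5 : ((n : ℝ) + 1) * (1 / y ^ ((2 * n + 6) * n + (2 * n + 5) + 1)) ≤ 1 / (2 * (B + 1)) := by
      rw [mul_one_div, div_le_div_iff₀ (by positivity) (by positivity), one_mul]
      exact hy.trans hZ
    refine le_of_pow_le_pow_left₀ n.succ_ne_zero
      (mul_nonneg (mul_nonneg (by linarith) (by positivity)) (by positivity))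
      ((pow_sum_le_card_mul_sum_pow (fun _ _ => Nat.cast_nonneg _) n).trans ?_)
    rw [mul_pow, mul_pow, mul_comm _ ((τ ^ n) ^ n.succ), mul_assoc, ← pow_mul, pow_mul']
    refine mul_le_mul (pow_le_pow_left₀ (by positivity) hT n) (h3.trans
      (mul_le_mul_of_nonneg_right ?_ (by positivity))) S0 (by positivity)
    push_cast at h4
    rw [sub_eq_add_neg 1 (1 / y ^ _)]
    exact le_trans (by linarith) h4
  · have h2 : ∑ i ∈ T, (k i : ℝ) ≤ ∑ i ∈ T, (k i : ℝ) ^ (n + 1) :=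
      Finset.sum_le_sum fun i _ => by exact_mod_cast Nat.le_self_pow n.succ_ne_zero _
    have h3 : ∑ i ∈ T, (k i : ℝ) ^ (n + 1) ≤ (d : ℝ) ^ (n + 1) + y ^ (2 * n + 4) * d ^ n :=
      le_of_mul_le_mul_left (h1.trans (mul_le_mul_of_nonneg_right (le_add_of_nonneg_right
        zero_le_one) (by positivity))) (by positivity)
    have c1 : 1 ≤ y ^ (2 * n + 4) := one_le_pow₀ y0
    have h4 : (d : ℝ) ^ n * (d + y ^ (2 * n + 4)) ≤
        (y * y * y ^ (2 * n + 4)) ^ n * (y * y ^ (2 * n + 4) * d) := by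
      gcongr
      · refine c.trans ?_
        gcongr <;> linarith
      · nlinarith [mul_le_mul_of_nonneg_right (show 2 ≤ y by linarith)
          (show 0 ≤ y ^ (2 * n + 4) * d by positivity)]
    have h5 : (y * y * y ^ (2 * n + 4)) ^ n * (y * y ^ (2 * n + 4) * d) =
        y ^ ((2 * n + 6) * n + (2 * n + 5)) * d := by ring
    have h6 : y ^ ((2 * n + 6) * n + (2 * n + 5)) ≤ 1 / 2 * τ ^ n := by
      have := hτ.trans (le_self_pow₀ τ1 (show n ≠ 0 by omega))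
      rw [pow_succ] at this
      linarith [mul_le_mul_of_nonneg_left (show 2 ≤ y by linarith)
        (show 0 ≤ y ^ ((2 * n + 6) * n + (2 * n + 5)) by positivity)]
    refine (h2.trans h3).trans ((le_of_eq (by ring)).trans (h4.trans (h5.trans_le
      (mul_le_mul_of_nonneg_right (h6.trans (mul_le_mul_of_nonneg_right (by linarith)
        (by positivity))) (by positivity)))))

end Pool.Agent.MP_5499e5_ag.W

end
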