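import Pool.Agent.Mg.F5499e5ap.G97719f
import Mathlib

set_option linter.all false

section

/-! Bounds for weighted sums of multiplicities at generic points. -/

set_option autoImplicit false

namespace Pool.Agent.MP_5499e5_ag.X

open Filter MvPolynomial W

theorem UB_scale {f : ℕ → ℕ} {k : ℕ} {E : ℝ} (h : UB f k E) {c : ℕ} (hc : 0 < c) :
    UB (fun s => f (c * s)) k ((c : ℝ) ^ k * E) := by
  intro ε hε
  have hc' : (0 : ℝ) < (c : ℝ) ^ k := by positivity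
  have t : Tendsto (fun s : ℕ => c * s) atTop atTop :=
    tendsto_atTop_mono (fun s => Nat.le_mul_of_pos_left s hc) tendsto_id
  refine (t.eventually (h (ε / (c : ℝ) ^ k) (by positivity))).mono fun s hs => hs.trans_eq ?_
  push_cast
  rw [mul_pow]
  field_simp

variable {N : ℕ} {K : Type} [Field K] {ι : Type}

theorem exists_of_lt (T : Finset ι) (p : ι → Fin N → K) (J : Ideal (A N K)) (n : ι → ℕ) (t : ℕ)
    (h : ∑ i ∈ T, lf (p i) J (n i) < hf J t) :
    ∃ g : A N K, g ∉ J ∧ g.totalDegree ≤ t ∧ ∀ i ∈ T, g ∈ J ⊔ mx (p i) ^ n i := by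
  let φ : ((Le N K t).map (mkL J)) →ₗ[K] (∀ i : T, A N K ⧸ (J ⊔ mx (p i) ^ n i)) :=
    LinearMap.pi fun i : T => (facL (le_sup_left : J ≤ J ⊔ mx (p i) ^ n i)).domRestrict _
  have h1 : Module.finrank K (∀ i : T, A N K ⧸ (J ⊔ mx (p i) ^ n i)) =
      ∑ i ∈ T, lf (p i) J (n i) := by
    rw [Module.finrank_pi_fintype]
    exact Finset.sum_coe_sort T fun i => lf (p i) J (n i)
  have h2 : LinearMap.ker φ ≠ ⊥ :=
    LinearMap.ker_ne_bot_of_finrank_lt (by rw [h1]; exact h)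
  obtain ⟨⟨_, g, hg, rfl⟩, hx, hx0⟩ := Submodule.exists_mem_ne_zero_of_ne_bot h2
  refine ⟨g, fun hJ => hx0 (Subtype.ext (mkL_eq_zero.2 hJ)), mem_Le.1 hg, fun i hi => ?_⟩
  have h3 := congrFun (LinearMap.mem_ker.1 hx) ⟨i, hi⟩
  exact mkL_eq_zero.1 h3

theorem sec (T : Finset ι) (p : ι → Fin N → K) (a : ι → ℕ) (ha : ∀ i, 0 < a i) {w : ℕ}
    {J : Ideal (A N K)} {ρ : ℝ} (hJ : Dim J w) (hρ : 0 < ρ)
    (hlt : ∑ i ∈ T, (a i : ℝ) ^ w * mu (p i) w J < ρ ^ w * dg w J) :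
    ∀ᶠ n : ℕ in atTop, ∃ g : A N K, g ∉ J ∧ (g.totalDegree : ℝ) ≤ ρ * n ∧
      ∀ i ∈ T, g ∈ J ⊔ mx (p i) ^ (a i * n) := by
  have h1 := UB.sum T (fun i s => lf (p i) J (a i * s)) (fun i => (a i : ℝ) ^ w * mu (p i) w J)
    fun i _ => UB_scale (hJ.ub_mu (p i)) (ha i)
  refine (ev_lt_of_lt (lb_dg J w) h1 hρ hlt).mono fun n hn => ?_
  obtain ⟨g, hg, hd, hm⟩ := exists_of_lt T p J (fun i => a i * n) _ hn
  refine ⟨g, hg, ?_, hm⟩
  have h2 : (g.totalDegree : ℝ) ≤ (⌊ρ * n⌋₊ : ℕ) := by exact_mod_cast hd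
  exact h2.trans (Nat.floor_le (by positivity))

theorem reduce_wt (T : Finset ι) (p : ι → Fin N → K) (b : ι → ℝ) (hb : ∀ i, 0 ≤ b i) {w : ℕ}
    {c : ℝ} (hc : 0 ≤ c) {J₀ : Ideal (A N K)} (hJ : Dim J₀ w)
    (hp : ∀ q : Ideal (A N K), q.IsPrime → J₀ ≤ q → Dim q w →
      ∑ i ∈ T, b i * mu (p i) w q ≤ c * dg w q) :
    ∑ i ∈ T, b i * mu (p i) w J₀ ≤ c * dg w J₀ := by
  refine reduce_prime hc (fun J => ∑ i ∈ T, b i * mu (p i) w J) (by simp [mu_top]) ?_ hJ hp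
  intro J g h
  rw [← Finset.sum_add_distrib]
  refine Finset.sum_le_sum fun i _ => ?_
  rw [← mul_add]
  exact mul_le_mul_of_nonneg_left (h.mu_es (p i) g) (hb i)

/-- cutting with a polynomial that has weighted multiplicities -/
theorem cut (T : Finset ι) (p : ι → Fin N → K) (a : ι → ℕ) {w n : ℕ} {q : Ideal (A N K)}
    {ρ c : ℝ} {g : A N K} (hq : q.IsPrime) (hd : Dim q (w + 1)) (hn : 0 < n) (hc : 0 ≤ c)
    (hg : g ∉ q) (hdeg : (g.totalDegree : ℝ) ≤ ρ * n)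
    (hmem : ∀ i ∈ T, g ∈ q ⊔ mx (p i) ^ (a i * n))
    (ih : ∀ J : Ideal (A N K), Dim J w → ∑ i ∈ T, (a i : ℝ) ^ w * mu (p i) w J ≤ c * dg w J) :
    ∑ i ∈ T, (a i : ℝ) ^ (w + 1) * mu (p i) (w + 1) q ≤ c * ρ * dg (w + 1) q := by
  have hn' : (0 : ℝ) < n := by exact_mod_cast hn
  have hs := hd.slice hq hg
  have h3 : (n : ℝ) * ∑ i ∈ T, (a i : ℝ) ^ (w + 1) * mu (p i) (w + 1) q ≤
      ∑ i ∈ T, (a i : ℝ) ^ w * mu (p i) w (q ⊔ Ideal.span {g}) := by
    rw [Finset.mul_sum]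
    refine Finset.sum_le_sum fun i hi => ?_
    have := mul_le_mul_of_nonneg_left (mu_slice (p i) (hmem i hi) hs)
      (pow_nonneg (Nat.cast_nonneg (α := ℝ) (a i)) w)
    refine le_trans (le_of_eq ?_) this
    push_cast
    ring
  have h5 := hd.dg_slice hq hg le_rfl
  have h6 : (g.totalDegree : ℝ) * dg (w + 1) q ≤ ρ * n * dg (w + 1) q :=
    mul_le_mul_of_nonneg_right hdeg (dg_nonneg _ _)
  have h7 := mul_le_mul_of_nonneg_left (h5.trans h6) hc
  refine le_of_mul_le_mul_left ((h3.trans (ih _ hs)).trans (h7.trans_eq ?_)) hn'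
  ring

theorem kl (T : Finset ι) (p : ι → Fin N → K) (a : ι → ℕ) (ha : ∀ i, 0 < a i) {τ : ℝ}
    (hτ : 0 ≤ τ) (hCB : ∀ J : Ideal (A N K), Dim J (0 + 1) →
      ∑ i ∈ T, (a i : ℝ) ^ (0 + 1) * mu (p i) (0 + 1) J ≤ τ ^ (0 + 1) * dg (0 + 1) J) (w : ℕ) :
    ∀ J : Ideal (A N K), Dim J (w + 1) →
      ∑ i ∈ T, (a i : ℝ) ^ (w + 1) * mu (p i) (w + 1) J ≤ τ ^ (w + 1) * dg (w + 1) J := by
  induction w with
  | zero => exact hCB
  | succ w ih =>
    intro J hJ
    refine reduce_wt T p _ (fun i => by positivity) (by positivity) hJ fun q hq _ hd => ?_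
    rcases (dg_nonneg (w + 1 + 1) q).eq_or_lt with hD | hD
    · rw [← hD, mul_zero]
      refine Finset.sum_nonpos fun i _ => mul_nonpos_of_nonneg_of_nonpos (by positivity) ?_
      rw [hD]
      exact s_mu s_zero N K (p i) _ q hd
    refine num_Kl (Nat.succ_ne_zero w) hD hτ fun ρ hρ hlt => ?_
    obtain ⟨n, ⟨g, hg, hdeg, hmem⟩, hn⟩ :=
      ((sec T p a ha hd hρ hlt).and (eventually_gt_atTop 0)).exists
    exact cut T p a hq hd hn (by positivity) hg hdeg hmem ih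

/-- a polynomial through all points but one, not vanishing at the last one -/
theorem poly [CharZero K] (p : ι → Fin N → K) (hp : Gen p) (a : ι → ℕ) (ha : ∀ i, 0 < a i)
    (i₀ : ι) (T : Finset ι) (hT : i₀ ∉ T) (ρ : ℝ) (hρ : 0 < ρ)
    (hc : ∑ i ∈ T, (a i : ℝ) ^ N < ρ ^ N) :
    ∃ (n : ℕ) (F : A N K), 1 ≤ n ∧ F ∉ mx (p i₀) ∧ (F.totalDegree : ℝ) ≤ ρ * n ∧
      ∀ i ∈ T, F ∈ mx (p i) ^ (a i * n) := by
  classical
  obtain ⟨K₀, hK, hb⟩ := s_sub N K ι p hp i₀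
  let p' : ι → Fin N → K₀ := fun i u => if h : i ≠ i₀ then ⟨p i u, hK i h u⟩ else 0
  have hp' : ∀ i ∈ T, ∀ u, ((p' i u : K₀) : K) = p i u := by
    intro i hi u
    have h : i ≠ i₀ := fun e => hT (e ▸ hi)
    simp only [p', dif_pos h]
  have hs := sec T p' a ha (dim_all ⊥) hρ (by simpa [mu_bot, dg_bot] using hc)
  obtain ⟨n, hn1, g, hg0, hgd, hgm⟩ := ((eventually_ge_atTop 1).and hs).exists
  refine ⟨n, MvPolynomial.map K₀.subtype g, hn1, ?_, ?_, ?_⟩
  · intro hm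
    rw [mem_mx, eval_map] at hm
    apply hg0
    have hi := hb.1
    rw [algebraicIndependent_iff] at hi
    have h7 : algebraMap K₀ K = K₀.subtype := rfl
    have h8 : g = 0 := hi g (by rw [aeval_def, h7]; exact hm)
    rw [h8]
    exact zero_mem _
  · refine le_trans ?_ hgd
    have h9 : (MvPolynomial.map K₀.subtype g).totalDegree ≤ g.totalDegree :=
      Finset.sup_mono (support_map_subset K₀.subtype g)
    exact Nat.cast_le.2 h9
  · intro i hi
    have h1 := hgm i hi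
    rw [bot_sup_eq] at h1
    refine map_mem_pow (MvPolynomial.map K₀.subtype) (fun x hx => ?_) h1
    rw [mem_mx] at hx ⊢
    have h4 : p i = fun u => K₀.subtype (p' i u) := funext fun u => (hp' i hi u).symm
    have h5 := eval₂_comp_left K₀.subtype (RingHom.id K₀) (p' i) x
    rw [eval_map, h4]
    have h6 : eval₂ (RingHom.id K₀) (p' i) x = 0 := hx
    rw [h6, map_zero] at h5
    simpa [Function.comp_def] using h5.symm

theorem ku [CharZero K] (p : ι → Fin N → K) (hN : 1 ≤ N) (hp : Gen p) (T : Finset ι) (a : ι → ℕ)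
    (ha : ∀ i, 0 < a i) {B τ : ℝ} (hB : ∀ i, (a i : ℝ) ≤ B) (hτ : 0 ≤ τ)
    (hc : ∑ i ∈ T, (a i : ℝ) ^ N + (2 * B) ^ N ≤ τ ^ N) (J : Ideal (A N K)) (hJ : Dim J (0 + 1)) :
    ∑ i ∈ T, (a i : ℝ) ^ (0 + 1) * mu (p i) (0 + 1) J ≤ τ ^ (0 + 1) * dg (0 + 1) J := by
  classical
  refine reduce_wt T p _ (fun i => by positivity) (by positivity) hJ fun q hq _ hd => ?_
  have hdg := dg_nonneg (0 + 1) q
  set U := T.filter fun i => 0 < mu (p i) (0 + 1) q with hU
  have hsum : ∑ i ∈ T, (a i : ℝ) ^ (0 + 1) * mu (p i) (0 + 1) q =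
      ∑ i ∈ U, (a i : ℝ) ^ (0 + 1) * mu (p i) (0 + 1) q := by
    refine (Finset.sum_subset (Finset.filter_subset _ _) fun i hi hi' => ?_).symm
    rw [Finset.mem_filter, not_and] at hi'
    rw [le_antisymm (not_lt.1 (hi' hi)) (mu_nonneg _ _ _), mul_zero]
  rw [hsum]
  rcases U.eq_empty_or_nonempty with hE | hne
  · rw [hE, Finset.sum_empty]; positivity
  obtain ⟨i₀, hi₀, hmin⟩ := Finset.exists_min_image U
    (fun i => (a i : ℝ) ^ (0 + 1) * mu (p i) (0 + 1) q / (a i : ℝ) ^ N) hne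
  rw [← Finset.add_sum_erase U _ hi₀]
  set V := U.erase i₀ with hV
  have hqm : q ≤ mx (p i₀) := by
    by_contra hcon
    have := (Finset.mem_filter.1 hi₀).2
    rw [mu_eq_zero hcon] at this
    exact lt_irrefl _ this
  have key : ∀ ρ : ℝ, 0 < ρ → ∑ i ∈ V, (a i : ℝ) ^ N < ρ ^ N →
      ∑ i ∈ V, (a i : ℝ) ^ (0 + 1) * mu (p i) (0 + 1) q ≤ ρ * dg (0 + 1) q := by
    intro ρ hρ hlt
    obtain ⟨n, F, hn, hF0, hFd, hFm⟩ := poly p hp a ha i₀ V (Finset.notMem_erase _ _) ρ hρ hlt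
    have := cut V p a (c := 1) hq hd hn zero_le_one (fun h => hF0 (hqm h)) hFd
      (fun i hi => Ideal.mem_sup_right (hFm i hi)) fun J hJ => by
        simpa using s_zero N K ι V p (Gen.injective hN hp).injOn J hJ
    rwa [one_mul] at this
  have ha' : ∀ i, (0 : ℝ) < a i := fun i => by exact_mod_cast ha i
  set b : ℝ := (a i₀ : ℝ) with hb
  have hb0 : 0 < b := ha' i₀
  have hbN : 0 < b ^ N := by positivity
  set S : ℝ := ∑ i ∈ V, (a i : ℝ) ^ N with hS
  have hST : S ≤ ∑ i ∈ T, (a i : ℝ) ^ N := Finset.sum_le_sum_of_subset_of_nonneg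
    ((Finset.erase_subset _ _).trans (Finset.filter_subset _ _)) fun i _ _ => by positivity
  have hS0 : 0 ≤ S := Finset.sum_nonneg fun i _ => by positivity
  have h2b : (2 * b) ^ N ≤ (2 * B) ^ N := pow_le_pow_left₀ (by positivity) (by linarith [hB i₀]) N
  have hmu0 := mu_nonneg (p i₀) (0 + 1) q
  rw [zero_add, pow_one, pow_one] at *
  rcases lt_or_ge S (b ^ N) with hlt | hge
  · have h1 := key b hb0 hlt
    have h2 := mul_le_mul_of_nonneg_left (s_mu s_zero N K (p i₀) 1 q hd) hb0.le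
    have h3 : 2 * b ≤ τ := le_of_pow_le_pow_left₀ (n := N) (by omega) hτ (by linarith)
    nlinarith
  set s : ℝ := S / b ^ N with hs
  have hs1 : 1 ≤ s := (one_le_div hbN).2 hge
  have hsS : S = s * b ^ N := by rw [hs]; field_simp
  have h1 : s + 2 ^ N ≤ (τ / b) ^ N := by
    rw [div_pow, le_div_iff₀ hbN, add_mul, ← hsS, ← mul_pow]
    linarith
  have hτ0 : 0 < τ := by
    rcases hτ.eq_or_lt with h | h
    · rw [← h, zero_div, zero_pow (by omega)] at h1
      have : (0 : ℝ) < 2 ^ N := by positivity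
      linarith
    · exact h
  have he := key (τ * s / (s + 1)) (by positivity) (by
    have := mul_lt_mul_of_pos_right (num2_Ku s (τ / b) hs1 N h1) hbN
    rw [← hsS, ← mul_pow] at this
    refine this.trans_eq (congrArg (· ^ N) ?_)
    field_simp)
  have hf : s * (b * mu (p i₀) 1 q) ≤ ∑ i ∈ V, (a i : ℝ) ^ 1 * mu (p i) 1 q := by
    have e : s * (b * mu (p i₀) 1 q) = ∑ i ∈ V, (a i : ℝ) ^ N * (b * mu (p i₀) 1 q / b ^ N) := by
      rw [← Finset.sum_mul, ← hS, hs]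
      field_simp
    rw [e]
    refine Finset.sum_le_sum fun i hi => ?_
    have := hmin i (Finset.mem_of_mem_erase hi)
    rwa [le_div_iff₀ (pow_pos (ha' i) N), mul_comm] at this
  have hs0 : 0 < s := by linarith
  refine le_of_mul_le_mul_left ?_ hs0
  have hg : (s + 1) * (τ * s / (s + 1) * dg 1 q) = s * (τ * dg 1 q) := by field_simp
  have := mul_le_mul_of_nonneg_left he (by linarith : 0 ≤ s + 1)
  linarith

end Pool.Agent.MP_5499e5_ag.X

end

section

/-! The conditions imposed by one more generic point. -/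

set_option autoImplicit false

namespace Pool.Agent.MP_5499e5_ag.X

open Filter MvPolynomial W

variable {m : ℕ} {K : Type} [Field K] [CharZero K] {ι : Type}

/-- the order of vanishing at a new point -/
theorem ord (p : ι → Fin (m + 1 + 1) → K) (hp : Gen p) (T : Finset ι) {i₀ : ι} (hi : i₀ ∉ T)
    {s n d l r : ℕ} (hs : 0 < s) (hr : r ≤ T.card + s ^ (m + 1 + 1))
    (hd : d ^ (m + 1 + 1) ≤ r * n ^ (m + 1 + 1)) {f : A (m + 1 + 1) K} (hf : f ≠ 0)
    (hfd : f.totalDegree ≤ d) (hT : ∀ i ∈ T, f ∈ mx (p i) ^ n) (h0 : f ∈ mx (p i₀) ^ l) :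
    l ≤ (2 ^ (m + 1 + 1) + 1) * s * n := by
  classical
  let a : ι → ℕ := fun i => if i = i₀ then s else 1
  have ha : ∀ i, 0 < a i := fun i => by simp only [a]; split_ifs <;> omega
  have hB : ∀ i, (a i : ℝ) ≤ s := fun i => by
    simp only [a]; split_ifs
    · exact le_rfl
    · exact_mod_cast hs
  have hsum : ∀ (k : ℕ) (x : ι → ℝ), ∑ i ∈ insert i₀ T, (a i : ℝ) ^ k * x i =
      (s : ℝ) ^ k * x i₀ + ∑ i ∈ T, x i := by
    intro k x
    rw [Finset.sum_insert hi]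
    simp only [a, if_true]
    congr 1
    refine Finset.sum_congr rfl fun i h => ?_
    rw [if_neg (fun e : i = i₀ => hi (e ▸ h)), Nat.cast_one, one_pow, one_mul]
  set c : ℝ := T.card + (2 ^ (m + 1 + 1) + 1) * (s : ℝ) ^ (m + 1 + 1) with hc
  have hc0 : 0 ≤ c := by positivity
  obtain ⟨τ, hτ0, hτ⟩ : ∃ τ : ℝ, 0 ≤ τ ∧ τ ^ (m + 1 + 1) = c :=
    ⟨c ^ (((m + 1 + 1 : ℕ) : ℝ)⁻¹), Real.rpow_nonneg hc0 _,
      Real.rpow_inv_natCast_pow hc0 (Nat.succ_ne_zero _)⟩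
  have hf' : f ∉ (⊥ : Ideal (A (m + 1 + 1) K)) := fun h => hf (Ideal.mem_bot.1 h)
  have hdim : Dim ((⊥ : Ideal (A (m + 1 + 1) K)) ⊔ Ideal.span {f}) (m + 1) :=
    (dim_all (⊥ : Ideal (A (m + 1 + 1) K))).slice Ideal.isPrime_bot hf'
  have hkl := kl (insert i₀ T) p a ha hτ0 (ku p (by omega) hp _ a ha hB hτ0 (by
    have := hsum (m + 1 + 1) fun _ => 1
    simp only [mul_one, Finset.sum_const, nsmul_eq_mul] at this
    rw [this, hτ, hc, mul_pow]
    exact le_of_eq (by ring))) m _ hdim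
  rw [hsum] at hkl
  have hdg : dg (m + 1) ((⊥ : Ideal (A (m + 1 + 1) K)) ⊔ Ideal.span {f}) ≤ d := by
    have := (dim_all (⊥ : Ideal (A (m + 1 + 1) K))).dg_slice Ideal.isPrime_bot hf' hfd
    rwa [dg_bot, mul_one] at this
  have hmu : ∀ (i : ι) (k : ℕ), f ∈ mx (p i) ^ k →
      (k : ℝ) ≤ mu (p i) (m + 1) ((⊥ : Ideal (A (m + 1 + 1) K)) ⊔ Ideal.span {f}) := fun i k h => by
    have := mu_slice (p i) (J := ⊥) (g := f) (a := k) (w := m + 1) (Ideal.mem_sup_right h) hdim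
    rwa [mu_bot, mul_one] at this
  have h1 : (T.card : ℝ) * n ≤
      ∑ i ∈ T, mu (p i) (m + 1) ((⊥ : Ideal (A (m + 1 + 1) K)) ⊔ Ideal.span {f}) := by
    have := Finset.card_nsmul_le_sum T _ (n : ℝ) fun i h => hmu i n (hT i h)
    rwa [nsmul_eq_mul] at this
  have h2 : (d : ℝ) ≤ τ * n := by
    refine le_of_pow_le_pow_left₀ (n := m + 1 + 1) (by omega) (by positivity) ?_
    have h3 : (d : ℝ) ^ (m + 1 + 1) ≤ r * (n : ℝ) ^ (m + 1 + 1) := by exact_mod_cast hd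
    have h4 : (r : ℝ) ≤ T.card + (s : ℝ) ^ (m + 1 + 1) := by exact_mod_cast hr
    rw [mul_pow, hτ]
    refine h3.trans (mul_le_mul_of_nonneg_right (h4.trans ?_) (by positivity))
    have : (0 : ℝ) ≤ 2 ^ (m + 1 + 1) * (s : ℝ) ^ (m + 1 + 1) := by positivity
    rw [hc]
    linarith
  have hs' : (0 : ℝ) < (s : ℝ) ^ (m + 1) := by positivity
  have h5 := mul_le_mul_of_nonneg_left (hmu i₀ l h0) hs'.le
  have h6 := mul_le_mul_of_nonneg_left (hdg.trans h2) (pow_nonneg hτ0 (m + 1))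
  rw [← mul_assoc, ← pow_succ, hτ, hc] at h6
  have h7 : (s : ℝ) ^ (m + 1) * l ≤ (s : ℝ) ^ (m + 1) * ((2 ^ (m + 1 + 1) + 1) * s * n) := by
    rw [pow_succ (s : ℝ) (m + 1)] at h6
    linarith
  exact_mod_cast le_of_mul_le_mul_left h7 hs'

/-- counting in a down-set -/
theorem slab {N n σ : ℕ} (hσ : 0 < σ) (E S : Finset (Fin (N + 1) →₀ ℕ))
    (h1 : ∀ β ∈ E, β.degree ≤ σ * n) (h2 : ∀ β ∈ E, ∃ u, β u < n)
    (h3 : ∀ β ∈ E, ∀ α ≤ β, α.degree < n → α ∈ S) :
    E.card ≤ (N + 1) * (2 * (2 * σ) ^ N) * S.card := by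
  classical
  have key : ∀ u, (E.filter fun β => β u < n).card ≤ 2 * (2 * σ) ^ N * S.card := by
    intro u
    let c : Fin (N + 1) → ℕ := fun v => if v = u then 2 else 2 * σ
    have hc : ∀ v, 0 < c v := fun v => by simp only [c]; split_ifs <;> omega
    have hP : (Fintype.piFinset fun v => Finset.range (c v)).card = 2 * (2 * σ) ^ N := by
      rw [Fintype.card_piFinset, Fin.prod_univ_succAbove _ u]
      simp [c, Fin.succAbove_ne]
    rw [← hP, ← Finset.card_product]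
    refine Finset.card_le_card_of_injOn (fun β => (fun v => β v % c v,
      Finsupp.equivFunOnFinite.symm fun v => β v / c v)) (fun β hβ => ?_) fun β _ γ _ e => ?_
    · obtain ⟨hE, hu⟩ := Finset.mem_filter.1 hβ
      refine Finset.mem_product.2 ⟨Fintype.mem_piFinset.2 fun v =>
        Finset.mem_range.2 (Nat.mod_lt _ (hc v)), h3 β hE _ (fun v => Nat.div_le_self _ _) ?_⟩
      have a1 := h1 β hE
      rw [Finsupp.degree_eq_sum, Fin.sum_univ_succAbove _ u] at a1 ⊢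
      simp only [Finsupp.equivFunOnFinite_symm_apply_apply, c, if_true, Fin.succAbove_ne, if_false]
      have a2 : 2 * σ * ∑ v, β (u.succAbove v) / (2 * σ) ≤ ∑ v, β (u.succAbove v) := by
        rw [Finset.mul_sum]
        exact Finset.sum_le_sum fun v _ => Nat.mul_div_le _ _
      have a3 : σ * (2 * ∑ v, β (u.succAbove v) / (2 * σ)) ≤ σ * n := by
        rw [← mul_assoc, mul_comm σ]; omega
      have a4 := Nat.le_of_mul_le_mul_left a3 hσ
      omega
    · ext v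
      have e1 := congrFun (congrArg Prod.fst e) v
      have e2 := congrFun (Finsupp.equivFunOnFinite.symm.injective (congrArg Prod.snd e)) v
      simp only at e1 e2
      rw [← Nat.div_add_mod (β v) (c v), ← Nat.div_add_mod (γ v) (c v), e1, e2]
  calc E.card ≤ (Finset.univ.biUnion fun u => E.filter fun β => β u < n).card :=
        Finset.card_le_card fun β hβ => by
          obtain ⟨u, hu⟩ := h2 β hβ
          exact Finset.mem_biUnion.2 ⟨u, Finset.mem_univ _, Finset.mem_filter.2 ⟨hβ, hu⟩⟩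
    _ ≤ ∑ _u : Fin (N + 1), 2 * (2 * σ) ^ N * S.card :=
        Finset.card_biUnion_le.trans (Finset.sum_le_sum fun u _ => key u)
    _ = _ := by simp [mul_assoc]

/-- one point at the origin -/
theorem pt0 {N n σ : ℕ} (hσ : 0 < σ) (V : Submodule K (A (N + 1) K)) [Module.Finite K V]
    (hV : ∀ f ∈ V, ∀ u, ∃ g : A (N + 1) K, g.support ⊆ f.support ∧ g - pderiv u f ∈ V)
    (ho : ∀ f ∈ V, f ≠ 0 → ∀ l, f ∈ mx (0 : Fin (N + 1) → K) ^ l → l ≤ σ * (n + 1)) :
    ∃ e, e ≤ (n + (N + 1)).choose (N + 1) ∧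
      Module.finrank K (V ⊓ (mx 0 ^ (n + 1)).restrictScalars K : Submodule K (A (N + 1) K)) + e ≤
        Module.finrank K V ∧ (e = (n + (N + 1)).choose (N + 1) ∨
        Module.finrank K V ≤ (N + 1) * (2 * (2 * σ) ^ N) * e) := by
  classical
  have hE : ∀ β ∈ E_Pt0 V, β.degree ≤ σ * (n + 1) := by
    rintro β ⟨f, hf, h1, h2⟩
    refine ho f hf (fun e => h1 (by rw [e, coeff_zero])) _ (mem_mx_pow_iff.2 fun α hα => ?_)
    rw [tr_zero]
    by_contra h3
    have := h2 α h3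
    rw [Finsupp.DegLex.le_iff] at this
    simp only [ofDegLex_toDegLex] at this
    omega
  refine ⟨((ex (N + 1) n).filter (· ∈ E_Pt0 V)).card,
    (Finset.card_filter_le _ _).trans (card_ex _ _).le, full_Pt0 fun α hα =>
      ⟨Nat.lt_succ_of_le (mem_ex.1 (Finset.mem_filter.1 hα).1), (Finset.mem_filter.1 hα).2⟩, ?_⟩
  by_cases hall : ∀ α ∈ ex (N + 1) n, α ∈ E_Pt0 V
  · left
    rw [Finset.filter_true_of_mem hall, card_ex]
  · right
    push Not at hall
    obtain ⟨α, hα, hαE⟩ := hall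
    refine (finrank_le_Pt0 (S := (ex (N + 1) (σ * (n + 1))).filter (· ∈ E_Pt0 V)) fun β hβ =>
      Finset.mem_filter.2 ⟨mem_ex.2 (hE β hβ), hβ⟩).trans (slab (n := n + 1) hσ _ _
        (fun β hβ => mem_ex.1 (Finset.mem_filter.1 hβ).1) (fun β hβ => ?_) fun β hβ γ h1 h2 =>
        Finset.mem_filter.2 ⟨mem_ex.2 (Nat.le_of_lt_succ h2),
          down_le_Pt0 hV h1 (Finset.mem_filter.1 hβ).2⟩)
    by_contra h3
    push Not at h3
    refine hαE (down_le_Pt0 hV (fun v => ?_) (Finset.mem_filter.1 hβ).2)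
    exact ((Finsupp.le_degree v α).trans ((mem_ex.1 hα).trans n.le_succ)).trans (h3 v)

/-- one more generic point -/
theorem step (p : ι → Fin (m + 1 + 1) → K) (hp : Gen p) [DecidableEq ι] (T : Finset ι) {i₀ : ι}
    (hi : i₀ ∉ T) {s n d r : ℕ} (hs : 0 < s) (hr : r ≤ T.card + s ^ (m + 1 + 1))
    (hd : d ^ (m + 1 + 1) ≤ r * (n + 1) ^ (m + 1 + 1)) :
    ∃ e, e ≤ (n + (m + 1 + 1)).choose (m + 1 + 1) ∧
      Module.finrank K (V_Down p (fun _ => n + 1) d (insert i₀ T)) + e ≤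
        Module.finrank K (V_Down p (fun _ => n + 1) d T) ∧
      (e = (n + (m + 1 + 1)).choose (m + 1 + 1) ∨
        Module.finrank K (V_Down p (fun _ => n + 1) d T) ≤
          (m + 1 + 1) * (2 * (2 * ((2 ^ (m + 1 + 1) + 1) * s)) ^ (m + 1)) * e) := by
  obtain ⟨K₀, hK₀, hb⟩ := s_sub _ K ι p hp i₀
  obtain ⟨δ, hδ⟩ := s_der _ K K₀ (p i₀) hb
  set V := V_Down p (fun _ => n + 1) d T with hV
  have hst : ∀ g ∈ V, ∀ u, cD (δ u) g ∈ V := by
    intro g hg u
    rw [hV, mem_V_Down] at hg ⊢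
    refine ⟨(totalDegree_cD_le _ _).trans hg.1, fun i h => ?_⟩
    exact stable_Down _ _ (hK₀ i (fun e => hi (e ▸ h))) _ (hg.2 i h)
  have : Module.Finite K V := Submodule.finiteDimensional_of_le (S₂ := Le _ K d) inf_le_left
  have h5 : (V ⊓ (mx (p i₀) ^ (n + 1)).restrictScalars K : Submodule K _).map
      (tr (p i₀)).toLinearMap =
      V.map (tr (p i₀)).toLinearMap ⊓ (mx 0 ^ (n + 1)).restrictScalars K := by
    apply le_antisymm
    · rintro _ ⟨f, ⟨hf, hf'⟩, rfl⟩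
      exact ⟨⟨f, hf, rfl⟩, (mem_pow_iff_Pt _ _ f).1 hf'⟩
    · rintro _ ⟨⟨f, hf, rfl⟩, hf'⟩
      exact ⟨f, ⟨hf, (mem_pow_iff_Pt _ _ f).2 hf'⟩, rfl⟩
  have := pt0 (n := n) (σ := (2 ^ (m + 1 + 1) + 1) * s) (by positivity)
    (V.map (tr (p i₀)).toLinearMap) (by
      rintro _ ⟨f, hf, rfl⟩ u
      exact ⟨cD (δ u) (tr _ f), support_cD _ _, cD (δ u) f, hst f hf u, tr_cD_Pt hδ u f⟩) (by
      rintro _ ⟨f, hf, rfl⟩ h0 l hl
      obtain ⟨h1, h2⟩ := mem_V_Down.1 hf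
      exact ord p hp T hi hs hr hd (fun e => h0 (by rw [e, map_zero])) h1 h2
        ((mem_pow_iff_Pt _ _ f).2 hl))
  rwa [← h5, finrank_map_Pt, finrank_map_Pt, hV, ← V_insert_Down] at this

end Pool.Agent.MP_5499e5_ag.X

end

section

/-! Two numerical lemmas. -/

set_option autoImplicit false

namespace Pool.Agent.MP_5499e5_ag.X

theorem choose_step (x k : ℕ) : (((x + (k + 1)).choose (k + 1) : ℕ) : ℝ) * (k + 1) =
    (x + k + 1) * ((x + k).choose k : ℕ) := by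
  exact_mod_cast (Nat.add_one_mul_choose_eq (x + k) k).symm

/-- the number of conditions exceeds the number of coefficients by a margin -/
theorem margin (m n d : ℕ) {ρ : ℝ} (hρ : 8 ≤ ρ) (hd : (d : ℝ) ≤ ρ * (n + 1)) :
    4 * (n + 1) * (((d + (m + 1 + 1)).choose (m + 1 + 1) : ℕ) : ℝ) ≤
      (4 * n + 3) * ρ ^ (m + 1 + 1) * ((n + (m + 1 + 1)).choose (m + 1 + 1) : ℕ) := by
  have hn : (0 : ℝ) ≤ n := Nat.cast_nonneg n
  have hd0 : (0 : ℝ) ≤ d := Nat.cast_nonneg d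
  induction m with
  | zero =>
    have h1 := choose_step d 1
    have h2 := choose_step n 1
    rw [Nat.choose_one_right] at h1 h2
    push_cast at h1 h2
    have h3 : ((d : ℝ) + 1 + 1) * (d + 1) ≤ (ρ * (n + 1) + 1 + 1) * (ρ * (n + 1) + 1) := by gcongr
    have h4 : 8 * (ρ * (n + 1)) ≤ ρ * (ρ * (n + 1)) := by gcongr
    have h5 : (8 : ℝ) * 1 ≤ ρ * (n + 1) := by gcongr; linarith
    have h6 : 0 ≤ ρ * ρ * n := by positivity
    have h7 : 4 * (((d : ℝ) + 1 + 1) * (d + 1)) ≤ (4 * n + 3) * ρ ^ 2 * (n + 1 + 1) := by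
      nlinarith
    have h8 := mul_le_mul_of_nonneg_left h7 (show (0 : ℝ) ≤ n + 1 by positivity)
    change 4 * ((n : ℝ) + 1) * ((d + 2).choose 2 : ℕ) ≤ (4 * n + 3) * ρ ^ 2 * ((n + 2).choose 2 : ℕ)
    refine le_of_mul_le_mul_right ?_ (show (0 : ℝ) < 1 + 1 by norm_num)
    rw [mul_assoc, h1, mul_assoc _ _ ((1 : ℝ) + 1), h2]
    linarith
  | succ m ih =>
    have h1 := choose_step d (m + 1 + 1)
    have h2 := choose_step n (m + 1 + 1)
    have hm : (0 : ℝ) ≤ m := Nat.cast_nonneg m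
    have h3 : (d : ℝ) + (m + 1 + 1 : ℕ) + 1 ≤ ρ * (n + (m + 1 + 1 : ℕ) + 1) := by
      push_cast
      nlinarith
    have h4 := mul_le_mul h3 ih (by positivity) (by positivity)
    refine le_of_mul_le_mul_right ?_ (show (0 : ℝ) < (m + 1 + 1 : ℕ) + 1 by positivity)
    rw [mul_assoc, h1, mul_assoc _ _ (((m + 1 + 1 : ℕ) : ℝ) + 1), h2, pow_succ ρ (m + 1 + 1)]
    linarith

/-- a sequence of dimensions that does not reach zero -/
theorem seq (m C : ℕ) (hC : 0 < C) {r n F : ℕ} (v : ℕ → ℕ) (hr : C * 2 ^ (m + 1) ≤ r)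
    (hF : F ≤ (2 * r) ^ (m + 1)) (h0 : 4 * (n + 1) * v 0 ≤ (4 * n + 3) * r * F) (h1 : 1 ≤ v r)
    (hs : ∀ j < r, ∀ s, 0 < s → r ≤ j + s ^ (m + 1) →
      ∃ e, e ≤ F ∧ v (j + 1) + e ≤ v j ∧ (e = F ∨ v j ≤ C * s ^ m * e)) :
    (r : ℝ) < 4 * (2 ^ (m + 1) * C * (2 * (m + 1))) ^ (m + 1) * ((n + 1) * Real.log r ^ (m + 1)) := by
  classical
  have hr0 : 0 < r := lt_of_lt_of_le (by positivity) hr
  have mono : ∀ k j, j + k ≤ r → v (j + k) ≤ v j := by
    intro k j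
    induction k with
    | zero => exact fun _ => le_rfl
    | succ k ih =>
      intro h
      obtain ⟨e, -, h2, -⟩ := hs (j + k) (by omega) r hr0
        ((Nat.le_self_pow (by omega) r).trans (Nat.le_add_left _ _))
      have := ih (by omega)
      rw [← add_assoc]
      omega
  obtain ⟨j, hj1, hj2, hj3⟩ : ∃ j, j ≤ r ∧ v j + j * F ≤ v 0 ∧
      (j + 1 ≤ r → ¬ v (j + 1) + (j + 1) * F ≤ v 0) :=
    ⟨Nat.findGreatest (fun j => v j + j * F ≤ v 0) r, Nat.findGreatest_le r,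
      Nat.findGreatest_spec (P := fun j => v j + j * F ≤ v 0) (Nat.zero_le r) (by simp),
      fun h => Nat.findGreatest_is_greatest (P := fun j => v j + j * F ≤ v 0)
        (Nat.lt_succ_self _) h⟩
  obtain ⟨u, rfl⟩ := Nat.exists_eq_add_of_le hj1
  have h2 := mono u j le_rfl
  have h3 : 4 * (n + 1) * j < (4 * n + 3) * (j + u) := by
    refine lt_of_mul_lt_mul_right (a := F) (lt_of_lt_of_le ?_ h0) (Nat.zero_le _)
    rw [mul_assoc (4 * (n + 1))]
    exact Nat.mul_lt_mul_of_pos_left (by omega) (by omega)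
  have h4 : j + u < 4 * (n + 1) * u := by nlinarith
  have hu : 0 < u := Nat.pos_of_mul_pos_left (lt_of_le_of_lt (Nat.zero_le _) h4)
  have hex : ∃ s, u ≤ s ^ (m + 1) := ⟨u, Nat.le_self_pow (by omega) u⟩
  obtain ⟨s, s1, s2, s3⟩ : ∃ s, u ≤ s ^ (m + 1) ∧ s ≤ u ∧ ∀ t < s, ¬ u ≤ t ^ (m + 1) :=
    ⟨Nat.find hex, Nat.find_spec hex, Nat.find_min' hex (Nat.le_self_pow (by omega) u),
      fun t => Nat.find_min hex⟩
  have s0 : 0 < s := Nat.pos_of_ne_zero fun e => by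
    rw [e, zero_pow (by omega)] at s1
    omega
  have s4 : s ^ (m + 1) ≤ 2 ^ (m + 1) * u := by
    rcases Nat.lt_or_ge 1 s with h | h
    · have := s3 (s - 1) (by omega)
      calc s ^ (m + 1) ≤ (2 * (s - 1)) ^ (m + 1) := Nat.pow_le_pow_left (by omega) _
        _ ≤ _ := by rw [mul_pow]; exact Nat.mul_le_mul_left _ (by omega)
    · rw [show s = 1 by omega, one_pow]
      exact Nat.mul_pos (by positivity) hu
  set D := C * s ^ m with hD
  have hD0 : (0 : ℝ) < D := by positivity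
  have h5 : v j ≤ D * F := by
    obtain ⟨e, e1, e2, e3 | e3⟩ := hs j (by omega) s s0 (by omega)
    · exact absurd (by rw [add_mul]; omega) (hj3 (by omega))
    · exact e3.trans (Nat.mul_le_mul_left _ e1)
  have h6 : ∀ k ≤ u, (v (j + k) : ℝ) * Real.exp (k / D) ≤ D * F := by
    intro k
    induction k with
    | zero => intro _; simpa using (by exact_mod_cast h5 : (v j : ℝ) ≤ D * F)
    | succ k ih =>
      intro hk
      obtain ⟨e, -, e2, e3⟩ := hs (j + k) (by omega) s s0 (by omega)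
      have e4 : v (j + k) ≤ D * e := e3.elim (fun h => h ▸ (mono k j (by omega)).trans h5) id
      have e5 : (v (j + k) : ℝ) / D ≤ e := by
        rw [div_le_iff₀' hD0]; exact_mod_cast e4
      have e6 : (v (j + k + 1) : ℝ) + e ≤ v (j + k) := by exact_mod_cast e2
      have e7 := mul_le_mul_of_nonneg_left (Real.add_one_le_exp (-(1 / D)))
        (Nat.cast_nonneg (α := ℝ) (v (j + k)))
      have e8 : (v (j + k + 1) : ℝ) ≤ v (j + k) * Real.exp (-(1 / D)) := by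
        rw [div_eq_mul_one_div] at e5
        linarith
      refine le_trans ?_ (ih (by omega))
      refine (mul_le_mul_of_nonneg_right e8 (Real.exp_pos _).le).trans (le_of_eq ?_)
      rw [mul_assoc, ← Real.exp_add]
      congr 2
      push_cast
      ring
  have h7 : D * F ≤ (j + u) ^ (2 * (m + 1)) :=
    calc D * F ≤ C * (j + u) ^ m * (2 * (j + u)) ^ (m + 1) :=
          Nat.mul_le_mul (Nat.mul_le_mul_left _ (Nat.pow_le_pow_left (by omega) _)) hF
      _ = C * 2 ^ (m + 1) * ((j + u) ^ m * (j + u) ^ (m + 1)) := by rw [mul_pow]; ring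
      _ ≤ (j + u) * ((j + u) ^ m * (j + u) ^ (m + 1)) := Nat.mul_le_mul_right _ hr
      _ = _ := by ring
  set R : ℝ := ((j + u : ℕ) : ℝ) with hR
  have hR0 : 0 < R := by rw [hR]; exact_mod_cast hr0
  have h8 : Real.exp (u / D) ≤ R ^ (2 * (m + 1)) := by
    have a1 : (1 : ℝ) ≤ v (j + u) := by exact_mod_cast h1
    have a2 : (D : ℝ) * F ≤ R ^ (2 * (m + 1)) := by rw [hR]; exact_mod_cast h7
    exact (le_mul_of_one_le_left (Real.exp_pos _).le a1).trans ((h6 u le_rfl).trans a2)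
  have h9 : (u : ℝ) ≤ D * (2 * (m + 1) * Real.log R) := by
    have := (Real.le_log_iff_exp_le (by positivity)).2 h8
    rw [Real.log_pow, div_le_iff₀' hD0] at this
    exact_mod_cast this
  have h10 : (s : ℝ) ≤ 2 ^ (m + 1) * C * (2 * (m + 1)) * Real.log R := by
    have a1 : (s : ℝ) ^ (m + 1) ≤ 2 ^ (m + 1) * u := by exact_mod_cast s4
    have a2 := a1.trans (mul_le_mul_of_nonneg_left h9 (by positivity))
    refine le_of_mul_le_mul_left (a := (s : ℝ) ^ m) ?_ (by positivity)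
    rw [← pow_succ]
    refine a2.trans (le_of_eq ?_)
    rw [hD]
    push_cast
    ring
  have h11 : (u : ℝ) ≤ (s : ℝ) ^ (m + 1) := by exact_mod_cast s1
  have h12 := h11.trans (pow_le_pow_left₀ (Nat.cast_nonneg _) h10 (m + 1))
  have h13 : R < 4 * (n + 1) * u := by rw [hR]; exact_mod_cast h4
  refine h13.trans_le ((mul_le_mul_of_nonneg_left h12 (by positivity)).trans (le_of_eq ?_))
  rw [mul_pow]
  ring

end Pool.Agent.MP_5499e5_ag.X

end

section

/-! The bound for small multiplicities at generic affine points. -/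

set_option autoImplicit false

namespace Pool.Agent.MP_5499e5_ag.X

open Filter MvPolynomial W

theorem aff (N : ℕ) (hN : 2 ≤ N) : ∃ c : ℝ, 0 < c ∧ ∃ r₀ : ℕ, ∀ r, r₀ ≤ r →
    ∀ (K : Type) [Field K] [CharZero K] (p : Fin r → Fin N → K), Gen p →
    ∀ (n d : ℕ) (f : A N K), f ≠ 0 → f.totalDegree ≤ d → (∀ i, f ∈ mx (p i) ^ n) →
      (n : ℝ) * Real.log r ^ N ≤ c * r → r * n ^ N ≤ d ^ N := by
  classical
  obtain ⟨m, rfl⟩ : ∃ m, N = m + 1 + 1 := ⟨N - 2, by omega⟩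
  set C : ℕ := (m + 1 + 1) * (2 * (2 * (2 ^ (m + 1 + 1) + 1)) ^ (m + 1)) with hC
  have hC0 : 0 < C := by positivity
  set L : ℝ := 4 * (2 ^ (m + 1 + 1) * C * (2 * ((m + 1 : ℕ) + 1))) ^ (m + 1 + 1) with hL
  have hL1 : 1 ≤ L := by
    have a1 : (1 : ℝ) ≤ C := by exact_mod_cast hC0
    have a2 : (1 : ℝ) ≤ 2 ^ (m + 1 + 1) := one_le_pow₀ (by norm_num)
    have a3 : (1 : ℝ) ≤ 2 * ((m + 1 : ℕ) + 1) := by
      have := Nat.cast_nonneg (α := ℝ) (m + 1)
      linarith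
    have a4 := one_le_pow₀ (n := m + 1 + 1)
      (one_le_mul_of_one_le_of_one_le (one_le_mul_of_one_le_of_one_le a2 a1) a3)
    linarith
  have hL0 : 0 < L := by linarith
  refine ⟨L⁻¹, by positivity, C * 2 ^ (m + 1 + 1) + 8 ^ (m + 1 + 1) + (m + 1 + 1) + 3,
    fun r hr K _ _ p hp n d f hf hfd hfm hn => ?_⟩
  obtain ⟨q1, q2, q3⟩ : C * 2 ^ (m + 1 + 1) ≤ r ∧ 8 ^ (m + 1 + 1) ≤ r ∧ m + 1 + 1 + 3 ≤ r := by
    generalize 8 ^ (m + 1 + 1) = x at hr ⊢
    omega
  clear hr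
  by_contra hlt
  push Not at hlt
  rcases n with _ | n
  · simp at hlt
  have hr3 : (3 : ℝ) ≤ r := by exact_mod_cast (by omega : 3 ≤ r)
  have hlog : 1 ≤ Real.log r := (Real.le_log_iff_exp_le (by linarith)).2
    (by linarith [Real.exp_one_lt_d9])
  have hnr : n + 1 ≤ r := by
    have a1 : ((n + 1 : ℕ) : ℝ) ≤ (n + 1 : ℕ) * Real.log r ^ (m + 1 + 1) :=
      le_mul_of_one_le_right (by positivity) (one_le_pow₀ hlog)
    have a2 : L⁻¹ * r ≤ r := mul_le_of_le_one_left (by linarith) (inv_le_one_of_one_le₀ hL1)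
    exact_mod_cast a1.trans (hn.trans a2)
  obtain ⟨ρ, hρ0, hρ⟩ : ∃ ρ : ℝ, 0 ≤ ρ ∧ ρ ^ (m + 1 + 1) = r :=
    ⟨(r : ℝ) ^ (((m + 1 + 1 : ℕ) : ℝ)⁻¹), by positivity,
      Real.rpow_inv_natCast_pow (by positivity) (Nat.succ_ne_zero _)⟩
  have hρ8 : 8 ≤ ρ := le_of_pow_le_pow_left₀ (n := m + 1 + 1) (by omega) hρ0 (by
    rw [hρ]; exact_mod_cast q2)
  have hdρ : (d : ℝ) ≤ ρ * (n + 1) := le_of_pow_le_pow_left₀ (n := m + 1 + 1) (by omega)
    (by positivity) (by rw [mul_pow, hρ]; exact_mod_cast hlt.le)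
  have hm := margin m n d hρ8 hdρ
  rw [hρ] at hm
  let T : ℕ → Finset (Fin r) := fun j => Finset.univ.filter fun i => i.val < j
  have hle : ∀ j, V_Down p (fun _ => n + 1) d (T j) ≤ Le _ K d := fun j => inf_le_left
  have key := seq (m + 1) C hC0 (r := r) (n := n) (F := (n + (m + 1 + 1)).choose (m + 1 + 1))
    (fun j => Module.finrank K (V_Down p (fun _ => n + 1) d (T j))) q1
    ((Nat.choose_le_pow _ _).trans (Nat.pow_le_pow_left (by omega) _)) (by
      have a1 := Submodule.finrank_mono (hle 0)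
      rw [finrank_Le] at a1
      refine (Nat.mul_le_mul_left _ a1).trans ?_
      exact_mod_cast hm) (by
      have := Submodule.finiteDimensional_of_le (hle r)
      refine Submodule.one_le_finrank_iff.2 fun h => hf ?_
      have h1 : f ∈ V_Down p (fun _ => n + 1) d (T r) := mem_V_Down.2 ⟨hfd, fun i _ => hfm i⟩
      rwa [h, Submodule.mem_bot] at h1) fun j hj s hs hrs => by
      have e1 : T (j + 1) = insert ⟨j, hj⟩ (T j) := by
        ext i
        simp only [T, Finset.mem_filter, Finset.mem_univ, true_and, Finset.mem_insert, Fin.ext_iff]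
        omega
      have e2 : (T j).card = j := by
        simp only [T, Fin.card_filter_val_lt]
        omega
      have := step p hp (T j) (i₀ := ⟨j, hj⟩) (by simp [T]) (n := n) (d := d) (r := r) hs
        (by rwa [e2]) hlt.le
      rw [← e1] at this
      refine this.imp fun e he => ⟨he.1, he.2.1, he.2.2.imp_right fun h => h.trans (le_of_eq ?_)⟩
      rw [hC, ← mul_assoc 2 _ s, mul_pow]
      ring
  rw [← hL] at key
  have h2 := mul_le_mul_of_nonneg_left hn hL0.le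
  rw [mul_inv_cancel_left₀ hL0.ne'] at h2
  push_cast at h2
  linarith

end Pool.Agent.MP_5499e5_ag.X

end
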