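import Pool.Agent.Mg.F5499e5ap.G46e84e
import Pool.Agent.MP_5499e5_ag.S.DefsV
import Pool.Agent.Mg.F5499e5ap.G658e11

set_option linter.all false

section

set_option autoImplicit false

namespace Pool.Agent.MP_5499e5_ag.S

open MvPolynomial Filter Topology

theorem lo_Asy (x N : ℕ) : (x : ℝ) ^ N ≤ N.factorial * ((x + N).choose N : ℕ) := by
  have h1 := Nat.ascFactorial_eq_factorial_mul_choose x N
  have h2 := Nat.pow_succ_le_ascFactorial (x + 1) N
  have h3 : x ^ N ≤ (x + 1) ^ N := Nat.pow_le_pow_left (Nat.le_succ x) N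
  exact_mod_cast h3.trans (h2.trans h1.le)

theorem hi_Asy (x N : ℕ) : (N.factorial : ℝ) * ((x + N).choose N : ℕ) ≤ ((x : ℝ) + N) ^ N := by
  have h1 := Nat.ascFactorial_eq_factorial_mul_choose x N
  have h2 := Nat.ascFactorial_le_pow_add x N
  exact_mod_cast h1.ge.trans h2

theorem lim_Asy (N : ℕ) (A B w c r u e : ℝ)
    (h : ∀ M₀ : ℝ, ∃ M : ℝ, M₀ ≤ M ∧ A * M ^ N + B * (w * M - c) ^ N ≤ r * (u * M + e) ^ N) :
    A + B * w ^ N ≤ r * u ^ N := by
  by_contra hc
  have h1 : Tendsto (fun M : ℝ => A + B * (w - c * M⁻¹) ^ N - r * (u + e * M⁻¹) ^ N) atTop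
      (𝓝 (A + B * (w - c * 0) ^ N - r * (u + e * 0) ^ N)) := by
    have h0 : Tendsto (fun M : ℝ => M⁻¹) atTop (𝓝 0) := tendsto_inv_atTop_zero
    exact (tendsto_const_nhds.add (((tendsto_const_nhds.sub (h0.const_mul c)).pow N).const_mul
      B)).sub (((tendsto_const_nhds.add (h0.const_mul e)).pow N).const_mul r)
  simp only [mul_zero, sub_zero, add_zero] at h1
  obtain ⟨M₀, hM⟩ := eventually_atTop.1
    (h1.eventually (lt_mem_nhds (sub_pos.2 (not_le.1 hc))))
  obtain ⟨M, h2, h3⟩ := h (max M₀ 1)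
  have h4 : 0 < M := lt_of_lt_of_le one_pos ((le_max_right _ _).trans h2)
  have h5 := mul_pos (hM M ((le_max_left _ _).trans h2)) (pow_pos h4 N)
  have e1 : (w * M - c) ^ N = (w - c * M⁻¹) ^ N * M ^ N := by
    rw [← mul_pow]
    congr 1
    field_simp
  have e2 : (u * M + e) ^ N = (u + e * M⁻¹) ^ N * M ^ N := by
    rw [← mul_pow]
    congr 1
    field_simp
  rw [e1, e2] at h3
  nlinarith

variable {N r : ℕ} {K : Type} [Field K] {P : Fin r → Fin (N + 1) → K}

theorem zero_Asy (hH : SH) (hN : 1 ≤ N) (d : ℕ) : Indep P 0 d := by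
  have h : symb P 0 d = Hm N K d := by simp [symb]
  rw [Indep, h, (hH N K d).2, Nat.choose_eq_zero_of_lt (show 0 + N - 1 < N by omega)]
  simp

theorem anti_Asy {n n' : ℕ} (h : n ≤ n') (d : ℕ) : symb P n' d ≤ symb P n d :=
  inf_le_inf_left _ (iInf_mono fun _ _ hf => Ideal.pow_le_pow_right h hf)

theorem bot_Asy (hH : SH) {n d : ℕ} : Module.finrank K (symb P n d) = 0 ↔ symb P n d = ⊥ := by
  have := (hH N K d).1
  have : Module.Finite K (symb P n d) :=
    Submodule.finiteDimensional_of_le (S₂ := Hm N K d) inf_le_left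
  exact Submodule.finrank_eq_zero

variable [CharZero K]

theorem rel_Asy (hA : SA) (hD : SD) (a m : ℕ) : Indep P (m + 1) (a + m) ↔ ¬ Rel P a m := by
  rw [← (hD N r K P a m).2.1, Indep, show m + 1 + N - 1 = m + N by omega]
  have := hA N r K P a m
  omega

theorem key_Asy (hA : SA) (hD : SD) (hC : SC) (hP : Dist P) {a m : ℕ}
    (h : ¬ Indep P (m + 1) (a + r + m)) :
    ∃ q : ℕ, q < r ∧ a ≤ q * (m + r) ∧ ∀ k M : ℕ, M = m + r + k →
      q * (k + N).choose N + (a + M + N).choose N ≤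
        r * (M + N).choose N + Module.finrank K (symb P (M + 1) (a + M)) := by
  rw [rel_Asy hA hD, not_not] at h
  obtain ⟨q, y, h1, h2, h3, h4, h5⟩ := hC N r K P hP a m h
  refine ⟨q, h1, h2, fun k M hM => ?_⟩
  have h6 := (hD N r K P a M).2.2 q k y (m + r) hM h3 h4 h5
  have h7 := hA N r K P a M
  omega

theorem top_Asy (hH : SH) (hA : SA) (hD : SD) (hC : SC) (hP : Dist P) (hN : 1 ≤ N) (hr : 1 ≤ r)
    (n d : ℕ) (h : r * n + r * r ≤ d) : Indep P n d := by
  rcases n with _ | m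
  · exact zero_Asy hH hN d
  by_contra hc
  obtain ⟨a, rfl⟩ : ∃ a, d = a + r + m := ⟨d - (r + m), by
    have : r + m ≤ d := by nlinarith
    omega⟩
  obtain ⟨q, h1, h2, -⟩ := key_Asy hA hD hC hP hc
  have h3 : (q + 1) * (m + r) ≤ r * (m + r) := Nat.mul_le_mul_right _ h1
  nlinarith

theorem le_Asy (hH : SH) (hA : SA) (hr : 1 ≤ r) {n d : ℕ} (h : symb P n d ≠ ⊥) : n ≤ d := by
  by_contra hc
  refine h (le_bot_iff.1 ((anti_Asy (show d + 1 ≤ n by omega) d).trans (le_of_eq ?_)))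
  have h1 := hA N r K P 0 d
  have : Nonempty (Fin r) := ⟨⟨0, hr⟩⟩
  have h2 : dual P 0 d = Hm N K d := by
    simp [dual]
  rw [h2, (hH N K d).2, zero_add] at h1
  exact (bot_Asy hH).1 (by omega)

theorem ne_Asy (hA : SA) (hD : SD) (hN : 1 ≤ N) : symb P 1 r ≠ ⊥ := by
  intro h
  have h1 : Module.finrank K (symb P 1 r) + _ = (r + N).choose N := hA N r K P r 0
  have h2 := (hD N r K P r 0).1
  simp only [zero_add, Nat.choose_self, mul_one] at h2
  rw [h, finrank_bot, ← Nat.choose_symm_add] at h1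
  have h3 : (r + 1).choose r ≤ (r + N).choose r := Nat.choose_le_choose r (by omega)
  rw [Nat.choose_succ_self_right] at h3
  omega

/-- the set of slopes whose infimum is the Waldschmidt constant -/
def WS (P : Fin r → Fin (N + 1) → K) : Set ℝ :=
  {x : ℝ | ∃ n d : ℕ, 0 < n ∧ symb P n d ≠ ⊥ ∧ x = (d : ℝ) / n}

/-- the set of slopes whose infimum is the asymptotic regularity -/
def RS (P : Fin r → Fin (N + 1) → K) : Set ℝ :=
  {t : ℝ | ∃ b : ℝ, ∀ n d : ℕ, t * n + b ≤ d → Indep P n d}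

theorem wne_Asy (hA : SA) (hD : SD) (hN : 1 ≤ N) : (WS P).Nonempty :=
  ⟨_, 1, r, one_pos, ne_Asy hA hD hN, rfl⟩

omit [CharZero K] in
theorem wbdd_Asy : BddBelow (WS P) := ⟨0, by
  rintro x ⟨n, d, -, -, rfl⟩
  positivity⟩

omit [CharZero K] in
theorem wbot_Asy {n d : ℕ} (hn : 0 < n) (h : (d : ℝ) < wald P * n) : symb P n d = ⊥ := by
  by_contra hc
  have h1 : wald P ≤ (d : ℝ) / n := csInf_le wbdd_Asy ⟨n, d, hn, hc, rfl⟩
  rw [le_div_iff₀ (by exact_mod_cast hn)] at h1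
  linarith

theorem wone_Asy (hH : SH) (hA : SA) (hD : SD) (hN : 1 ≤ N) (hr : 1 ≤ r) : 1 ≤ wald P := by
  refine le_csInf (wne_Asy hA hD hN) ?_
  rintro x ⟨n, d, hn, h, rfl⟩
  rw [le_div_iff₀ (by exact_mod_cast hn), one_mul]
  exact_mod_cast le_Asy hH hA hr h

theorem cnt_Asy {q k D M f : ℕ} {q₀ x y : ℝ} (hq : q₀ ≤ q) (hx0 : 0 ≤ x) (hx : x ≤ k)
    (hy0 : 0 ≤ y) (hy : y ≤ D)
    (h : q * (k + N).choose N + (D + N).choose N ≤ r * (M + N).choose N + f) :
    q₀ * x ^ N + y ^ N ≤ r * ((M : ℝ) + N) ^ N + N.factorial * f := by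
  have h1 := (pow_le_pow_left₀ hx0 hx N).trans (lo_Asy k N)
  have h2 := (pow_le_pow_left₀ hy0 hy N).trans (lo_Asy D N)
  have h3 := mul_le_mul_of_nonneg_left (hi_Asy M N) (Nat.cast_nonneg (α := ℝ) r)
  have h4 : (q : ℝ) * ((k + N).choose N : ℕ) + ((D + N).choose N : ℕ) ≤
      r * ((M + N).choose N : ℕ) + f := by exact_mod_cast h
  have h5 := mul_le_mul_of_nonneg_left h4 (Nat.cast_nonneg (α := ℝ) N.factorial)
  have h6 := mul_le_mul hq h1 (pow_nonneg hx0 N) (Nat.cast_nonneg q)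
  nlinarith

theorem wpow_Asy (hH : SH) (hA : SA) (hD : SD) (hN : 1 ≤ N) (hr : 1 ≤ r) : wald P ^ N ≤ r := by
  have h1 := wone_Asy (P := P) hH hA hD hN hr
  have := lim_Asy N 0 1 (wald P) 0 r 1 N fun M₀ => ?_
  · simpa using this
  obtain ⟨M, hM⟩ := exists_nat_ge M₀
  refine ⟨M, hM, ?_⟩
  have hM0 : (0 : ℝ) ≤ M := Nat.cast_nonneg M
  have h2 := Nat.le_ceil (wald P * M)
  have h3 := Nat.ceil_lt_add_one (show 0 ≤ wald P * M by positivity)
  have h4 : M ≤ ⌈wald P * M⌉₊ := by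
    have : (M : ℝ) ≤ ⌈wald P * M⌉₊ := by nlinarith
    exact_mod_cast this
  obtain ⟨a, ha⟩ : ∃ a, ⌈wald P * M⌉₊ = a + M := ⟨⌈wald P * M⌉₊ - M, by omega⟩
  rw [ha] at h2 h3
  have h5 : symb P (M + 1) (a + M) = ⊥ := wbot_Asy (Nat.succ_pos M) (by push_cast at h3 ⊢; linarith)
  have h6 := hA N r K P a M
  have h7 := (hD N r K P a M).1
  rw [h5, finrank_bot] at h6
  have h8 := cnt_Asy (N := N) (r := r) (q := 0) (k := 0) (D := a + M) (M := M) (f := 0) (q₀ := 0) (x := 0)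
    (y := wald P * M) (by simp) le_rfl (by simp) (by positivity) h2 (by omega)
  simpa using h8

omit [CharZero K] in
theorem rup_Asy {t t' : ℝ} (h : t ∈ RS P) (ht : t ≤ t') : t' ∈ RS P := by
  obtain ⟨b, hb⟩ := h
  refine ⟨b, fun n d hd => hb n d (le_trans ?_ hd)⟩
  have := mul_le_mul_of_nonneg_right ht (Nat.cast_nonneg (α := ℝ) n)
  linarith

omit [CharZero K] in
theorem rpow_Asy (hN : 1 ≤ N) {t : ℝ} (h : t ∈ RS P) (ht : 0 ≤ t) : (r : ℝ) ≤ t ^ N := by
  obtain ⟨b, hb⟩ := h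
  have := lim_Asy N 0 r 1 0 1 t (t + |b| + 1 + N) fun M₀ => ?_
  · simpa using this
  obtain ⟨M, hM⟩ := exists_nat_ge M₀
  refine ⟨M, hM, ?_⟩
  have hb0 := abs_nonneg b
  have h2 := Nat.le_ceil (t * (M + 1) + |b|)
  have h3 := Nat.ceil_lt_add_one (show 0 ≤ t * (M + 1) + |b| by positivity)
  generalize ⌈t * (M + 1) + |b|⌉₊ = d at h2 h3
  have h4 := hb (M + 1) d (by push_cast; linarith [le_abs_self b])
  rw [Indep, show M + 1 + N - 1 = M + N by omega] at h4
  have h5 : (r : ℝ) * ((M + N).choose N : ℕ) ≤ ((d + N).choose N : ℕ) := by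
    exact_mod_cast (show r * (M + N).choose N ≤ (d + N).choose N by omega)
  have h6 := mul_le_mul_of_nonneg_left h5 (Nat.cast_nonneg (α := ℝ) N.factorial)
  have h7 := mul_le_mul_of_nonneg_left (lo_Asy M N) (Nat.cast_nonneg (α := ℝ) r)
  have h8 := hi_Asy d N
  have h9 : ((d : ℝ) + N) ^ N ≤ (t * M + (t + |b| + 1 + N)) ^ N :=
    pow_le_pow_left₀ (by positivity) (by linarith) N
  simp only [zero_mul, zero_add, one_mul, sub_zero]
  nlinarith

omit [CharZero K] in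
theorem rone_Asy (hN : 1 ≤ N) (hr : 1 ≤ r) {t : ℝ} (h : t ∈ RS P) : 1 ≤ t := by
  by_contra hc
  have h1 := rpow_Asy hN (rup_Asy h (le_max_left t 0)) (le_max_right t 0)
  have h2 : max t 0 ^ N < 1 :=
    pow_lt_one₀ (le_max_right t 0) (max_lt (not_le.1 hc) one_pos) (by omega)
  have h3 : (1 : ℝ) ≤ r := by exact_mod_cast hr
  linarith

theorem rmem_Asy (hH : SH) (hA : SA) (hD : SD) (hC : SC) (hP : Dist P) (hN : 1 ≤ N)
    (hr : 1 ≤ r) : (r : ℝ) ∈ RS P :=
  ⟨r * r, fun n d h => top_Asy hH hA hD hC hP hN hr n d (by exact_mod_cast h)⟩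

theorem core_Asy (hH : SH) (hA : SA) (hD : SD) (hC : SC) (hP : Dist P) (hN : 1 ≤ N)
    (hr : 1 ≤ r) {t w : ℝ} (hw : 1 < w) (ht : w < t) (h : t ∉ RS P) (M₀ : ℝ) :
    ∃ M D : ℕ, M₀ ≤ M ∧ D ≤ w * M ∧
      ⌈t - 1⌉₊ * ((t - w) / (t - 1)) ^ N * (M : ℝ) ^ N + (w * M - w) ^ N ≤
        r * ((M : ℝ) + N) ^ N + N.factorial * Module.finrank K (symb P (M + 1) D) := by
  have ht1 : 0 < t - 1 := by linarith
  have hw1 : 0 < w - 1 := by linarith
  have hr1 : (1 : ℝ) ≤ r := by exact_mod_cast hr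
  have hβ : 0 ≤ (w - 1) * |M₀| := by positivity
  simp only [RS, Set.mem_ofPred_eq, not_exists, not_forall] at h
  obtain ⟨n, d, h1, h2⟩ := h ((w - 1) * |M₀| + t * r)
  rcases n with _ | m
  · exact absurd (zero_Asy hH hN d) h2
  have hm : (0 : ℝ) ≤ m := Nat.cast_nonneg m
  obtain ⟨a, rfl⟩ : ∃ a, d = a + r + m := ⟨d - (r + m), by
    have : (r : ℝ) + m ≤ d := by push_cast at h1; nlinarith
    have : r + m ≤ d := by exact_mod_cast this
    omega⟩
  obtain ⟨q, -, h3, h4⟩ := key_Asy hA hD hC hP h2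
  have h5 : (t - 1) * (m + r) + (w - 1) * |M₀| ≤ a := by push_cast at h1; nlinarith
  have h6 : ⌈t - 1⌉₊ ≤ q := by
    have h7 : (a : ℝ) ≤ q * (m + r) := by exact_mod_cast h3
    exact Nat.ceil_le.2 (le_of_mul_le_mul_right (by linarith) (show (0 : ℝ) < m + r by linarith))
  have h7 := Nat.le_ceil ((a : ℝ) / (w - 1))
  have h8 := Nat.ceil_lt_add_one (show 0 ≤ (a : ℝ) / (w - 1) by positivity)
  generalize ⌈(a : ℝ) / (w - 1)⌉₊ = M at h7 h8
  rw [div_le_iff₀ hw1] at h7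
  rw [← sub_lt_iff_lt_add, lt_div_iff₀ hw1] at h8
  have h9 : (m : ℝ) + r ≤ M := by
    refine le_of_mul_le_mul_right ?_ hw1
    nlinarith
  obtain ⟨k, hk⟩ : ∃ k, M = m + r + k := ⟨M - (m + r), by
    have : m + r ≤ M := by exact_mod_cast h9
    omega⟩
  have hk' : (M : ℝ) = m + r + k := by exact_mod_cast hk
  have hM0 : M₀ ≤ M := by
    refine (le_abs_self M₀).trans (le_of_mul_le_mul_right ?_ hw1)
    nlinarith
  refine ⟨M, a + M, hM0, by push_cast; nlinarith, ?_⟩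
  have h11 := cnt_Asy (q₀ := ⌈t - 1⌉₊) (x := (t - w) / (t - 1) * M) (y := w * M - w)
    (by exact_mod_cast h6) (by have : 0 < t - w := by linarith
                               positivity)
    (by rw [div_mul_eq_mul_div, div_le_iff₀ ht1]; nlinarith) (by nlinarith)
    (by push_cast; nlinarith) (h4 k M hk)
  rw [mul_pow] at h11
  linarith

theorem div_Asy {q t w R : ℝ} (ht : 1 < t)
    (h : q * ((t - w) / (t - 1)) ^ N + 1 * w ^ N ≤ R * 1 ^ N) :
    q * (t - w) ^ N ≤ (R - w ^ N) * (t - 1) ^ N := by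
  have ht1 : 0 < t - 1 := by linarith
  rw [div_pow, one_pow, mul_one, one_mul] at h
  have h1 := mul_le_mul_of_nonneg_right h (pow_pos ht1 N).le
  rw [add_mul, mul_assoc, div_mul_cancel₀ _ (pow_pos ht1 N).ne'] at h1
  linarith

theorem main_Asy (hH : SH) (hA : SA) (hD : SD) (hC : SC) (hP : Dist P) (hN : 1 ≤ N)
    (hr : 1 ≤ r) {t : ℝ} (hw : 1 < wald P) (ht : wald P < t) (h : t ∉ RS P) :
    (⌈t - 1⌉₊ : ℝ) * (t - wald P) ^ N ≤ (r - wald P ^ N) * (t - 1) ^ N := by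
  refine div_Asy (hw.trans ht) (lim_Asy N _ 1 _ (wald P) r 1 N fun M₀ => ?_)
  obtain ⟨M, D, h1, h2, h3⟩ := core_Asy hH hA hD hC hP hN hr hw ht h M₀
  rw [wbot_Asy (Nat.succ_pos M) (by push_cast; linarith), finrank_bot] at h3
  exact ⟨M, h1, by simpa using h3⟩

omit [CharZero K] in
theorem fin_Asy (hH : SH) (n d : ℕ) : Module.Finite K (symb P n d) ∧
    Module.finrank K (symb P n d) ≤ (d + N).choose N := by
  have := (hH N K d).1
  exact ⟨Submodule.finiteDimensional_of_le (S₂ := Hm N K d) inf_le_left,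
    (Submodule.finrank_mono (t := Hm N K d) inf_le_left).trans (hH N K d).2.le⟩

omit [CharZero K] in
theorem deg_Asy (hH : SH) (n : ℕ) {d d' : ℕ} (h : d ≤ d') :
    Module.finrank K (symb P n d) ≤ Module.finrank K (symb P n d') := by
  obtain ⟨e, rfl⟩ := Nat.exists_eq_add_of_le' h
  have := (fin_Asy (P := P) hH n (e + d)).1
  have h1 : ∀ f ∈ symb P n d, LinearMap.mulLeft K ((X 0 : MvPolynomial (Fin (N + 1)) K) ^ e) f ∈
      symb P n (e + d) := by
    intro f hf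
    simp only [symb, Submodule.mem_inf, mem_homogeneousSubmodule, Submodule.mem_iInf,
      Submodule.restrictScalars_mem, LinearMap.mulLeft_apply] at hf ⊢
    exact ⟨(isHomogeneous_X_pow _ _).mul hf.1, fun j => Ideal.mul_mem_left _ _ (hf.2 j)⟩
  refine LinearMap.finrank_le_finrank_of_injective (f := LinearMap.restrict _ h1) fun f g hfg => ?_
  have h2 := congrArg Subtype.val hfg
  simp only [LinearMap.coe_restrict_apply, LinearMap.mulLeft_apply] at h2
  exact Subtype.ext (mul_left_cancel₀ (pow_ne_zero _ (X_ne_zero _)) h2)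

theorem vol_Asy (hH : SH) (hA : SA) (hD : SD) (hC : SC) (hP : Dist P) (hN : 1 ≤ N)
    (hr : 1 ≤ r) {t u : ℝ} (hu : 1 < u) (ht : u < t) (h : t ∉ RS P) :
    (⌈t - 1⌉₊ : ℝ) * (t - u) ^ N ≤ (r + hvol P u - u ^ N) * (t - 1) ^ N := by
  refine div_Asy (hu.trans ht) ?_
  rw [one_pow, mul_one]
  refine le_of_forall_pos_le_add fun ε hε => ?_
  have hb : IsBoundedUnder (· ≤ ·) atTop fun n : ℕ =>
      (N.factorial : ℝ) * Module.finrank K (symb P n ⌊u * n⌋₊) / (n : ℝ) ^ N := by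
    refine ⟨(u + N) ^ N, eventually_map.2 (eventually_atTop.2 ⟨1, fun n hn => ?_⟩)⟩
    have hn1 : (1 : ℝ) ≤ n := by exact_mod_cast hn
    have h1 : (Module.finrank K (symb P n ⌊u * n⌋₊) : ℝ) ≤ ((⌊u * n⌋₊ + N).choose N : ℕ) := by
      exact_mod_cast (fin_Asy (P := P) hH n _).2
    have h2 := Nat.floor_le (show 0 ≤ u * n by positivity)
    have h3 : (0 : ℝ) ≤ N := Nat.cast_nonneg N
    beta_reduce
    rw [div_le_iff₀ (by positivity), ← mul_pow]
    exact ((mul_le_mul_of_nonneg_left h1 (Nat.cast_nonneg _)).trans (hi_Asy _ N)).trans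
      (pow_le_pow_left₀ (by positivity) (by nlinarith) N)
  obtain ⟨n₀, hn₀⟩ := eventually_atTop.1
    (eventually_lt_of_limsup_lt (lt_add_of_pos_right (hvol P u) hε) hb)
  have key := lim_Asy N (⌈t - 1⌉₊ * ((t - u) / (t - 1)) ^ N) 1 u u (r + hvol P u + ε) 1 N
    fun M₀ => ?_
  · simpa using key
  obtain ⟨M, D, h1, h2, h3⟩ := core_Asy hH hA hD hC hP hN hr hu ht h (max M₀ n₀)
  have h4 : n₀ ≤ M := by exact_mod_cast (le_max_right _ _).trans h1
  have h5 := hn₀ (M + 1) (by omega)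
  have h6 : 0 ≤ hvol P u + ε := le_trans (by positivity) h5.le
  rw [div_lt_iff₀ (by positivity)] at h5
  have h7 : (Module.finrank K (symb P (M + 1) D) : ℝ) ≤
      Module.finrank K (symb P (M + 1) ⌊u * (M + 1 : ℕ)⌋₊) := by
    exact_mod_cast deg_Asy hH _ (Nat.le_floor (by push_cast; linarith))
  have h8 := mul_le_mul_of_nonneg_left h7 (Nat.cast_nonneg (α := ℝ) N.factorial)
  have h9 : ((M + 1 : ℕ) : ℝ) ^ N ≤ ((M : ℝ) + N) ^ N :=
    pow_le_pow_left₀ (by positivity) (by exact_mod_cast Nat.add_le_add_left hN M) N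
  have h10 := mul_le_mul_of_nonneg_left h9 h6
  refine ⟨M, (le_max_left _ _).trans h1, ?_⟩
  simp only [one_mul]
  linarith

end Pool.Agent.MP_5499e5_ag.S

end

section

set_option autoImplicit false

namespace Pool.Agent.MP_5499e5_ag.S

open MvPolynomial Filter Topology

variable {N r : ℕ} {K : Type} [Field K] [CharZero K] {P : Fin r → Fin (N + 1) → K}

omit [CharZero K] in
theorem rbdd_Fin (hN : 1 ≤ N) (hr : 1 ≤ r) : BddBelow (RS P) := ⟨1, fun _ h => rone_Asy hN hr h⟩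

theorem basic_Fin (hH : SH) (hA : SA) (hD : SD) (hC : SC) (hP : Dist P) (hN : 1 ≤ N)
    (hr : 1 ≤ r) : 1 ≤ areg P ∧ areg P ≤ r ∧ (∀ t, areg P < t → t ∈ RS P) ∧
      (r : ℝ) ≤ areg P ^ N ∧ wald P ≤ areg P := by
  have hne : (RS P).Nonempty := ⟨_, rmem_Asy hH hA hD hC hP hN hr⟩
  have h1 : 1 ≤ areg P := le_csInf hne fun _ h => rone_Asy hN hr h
  have h2 : ∀ t, areg P < t → t ∈ RS P := fun t ht => by
    obtain ⟨t', h3, h4⟩ := exists_lt_of_csInf_lt hne ht
    exact rup_Asy h3 h4.le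
  have h3 : (r : ℝ) ≤ areg P ^ N := by
    have h4 : Set.Ioi (areg P) ⊆ {t : ℝ | (r : ℝ) ≤ t ^ N} := fun t ht =>
      rpow_Asy hN (h2 t ht) (by have : areg P < t := ht
                                linarith)
    have h5 := (isClosed_le continuous_const (continuous_pow N)).closure_subset_iff.2 h4
    rw [closure_Ioi] at h5
    exact h5 Set.self_mem_Ici
  refine ⟨h1, csInf_le (rbdd_Fin hN hr) (rmem_Asy hH hA hD hC hP hN hr), h2, h3, ?_⟩
  exact le_of_pow_le_pow_left₀ (by omega : N ≠ 0) (by linarith)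
    ((wpow_Asy hH hA hD hN hr).trans h3)

theorem ineq_Fin (hH : SH) (hA : SA) (hD : SD) (hC : SC) (hP : Dist P) (hN : 1 ≤ N)
    (hr : 1 ≤ r) : (⌈areg P - 1⌉₊ : ℝ) * (areg P - wald P) ^ N ≤
      (r - wald P ^ N) * (areg P - 1) ^ N := by
  obtain ⟨h1, h2, -, -, h3⟩ := basic_Fin hH hA hD hC hP hN hr
  have h4 := wone_Asy (P := P) hH hA hD hN hr
  have h5 := wpow_Asy (P := P) hH hA hD hN hr
  rcases h3.eq_or_lt with h3 | h3
  · rw [← h3, sub_self, zero_pow (by omega), mul_zero]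
    exact mul_nonneg (by linarith) (pow_nonneg (by linarith) N)
  rcases h4.eq_or_lt with h4 | h4
  · rw [← h4, one_pow]
    refine mul_le_mul_of_nonneg_right ?_ (pow_nonneg (by linarith) N)
    have h6 : ⌈areg P - 1⌉₊ ≤ r - 1 := Nat.ceil_le.2 (by rw [Nat.cast_sub hr]; push_cast; linarith)
    have h7 : (⌈areg P - 1⌉₊ : ℝ) ≤ (r - 1 : ℕ) := by exact_mod_cast h6
    rwa [Nat.cast_sub hr, Nat.cast_one] at h7
  have h6 := Nat.ceil_lt_add_one (show 0 ≤ areg P - 1 by linarith)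
  have h7 : Set.Ioo (max (wald P) ⌈areg P - 1⌉₊) (areg P) ⊆ {t : ℝ |
      (⌈areg P - 1⌉₊ : ℝ) * (t - wald P) ^ N ≤ (r - wald P ^ N) * (t - 1) ^ N} := by
    rintro t ⟨a1, a2⟩
    have a3 := (le_max_left _ _).trans_lt a1
    have a4 := (le_max_right _ _).trans_lt a1
    have a5 := main_Asy hH hA hD hC hP hN hr h4 a3 fun h =>
      absurd (csInf_le (rbdd_Fin hN hr) h) (not_le.2 a2)
    refine le_trans (mul_le_mul_of_nonneg_right ?_ (pow_nonneg (by linarith) N)) a5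
    have a6 := Nat.le_ceil (t - 1)
    have a7 : (⌈areg P - 1⌉₊ : ℝ) < ⌈t - 1⌉₊ + 1 := by linarith
    have a8 : ⌈areg P - 1⌉₊ < ⌈t - 1⌉₊ + 1 := by exact_mod_cast a7
    exact_mod_cast Nat.lt_succ_iff.1 a8
  have h8 := (isClosed_le (by fun_prop) (by fun_prop)).closure_subset_iff.2 h7
  have h9 : max (wald P) ⌈areg P - 1⌉₊ < areg P := max_lt h3 (by linarith)
  rw [closure_Ioo h9.ne] at h8
  exact h8 ⟨h9.le, le_rfl⟩

theorem volineq_Fin (hH : SH) (hA : SA) (hD : SD) (hC : SC) (hP : Dist P) (hN : 1 ≤ N)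
    (hr : 1 ≤ r) {u : ℝ} (hu : 1 < u) (h3 : u < areg P) :
    (⌈areg P - 1⌉₊ : ℝ) * (areg P - u) ^ N ≤
      (r + hvol P u - u ^ N) * (areg P - 1) ^ N := by
  have h6 := Nat.ceil_lt_add_one (show 0 ≤ areg P - 1 by linarith)
  have h7 : Set.Ioo (max u ⌈areg P - 1⌉₊) (areg P) ⊆ {t : ℝ |
      (⌈areg P - 1⌉₊ : ℝ) * (t - u) ^ N ≤ (r + hvol P u - u ^ N) * (t - 1) ^ N} := by
    rintro t ⟨a1, a2⟩
    have a3 := (le_max_left _ _).trans_lt a1
    have a4 := (le_max_right _ _).trans_lt a1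
    have a5 := vol_Asy hH hA hD hC hP hN hr hu a3 fun h =>
      absurd (csInf_le (rbdd_Fin hN hr) h) (not_le.2 a2)
    refine le_trans (mul_le_mul_of_nonneg_right ?_ (pow_nonneg (by linarith) N)) a5
    have a6 := Nat.le_ceil (t - 1)
    have a7 : (⌈areg P - 1⌉₊ : ℝ) < ⌈t - 1⌉₊ + 1 := by linarith
    have a8 : ⌈areg P - 1⌉₊ < ⌈t - 1⌉₊ + 1 := by exact_mod_cast a7
    exact_mod_cast Nat.lt_succ_iff.1 a8
  have h8 := (isClosed_le (by fun_prop) (by fun_prop)).closure_subset_iff.2 h7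
  have h9 : max u ⌈areg P - 1⌉₊ < areg P := max_lt h3 (by linarith)
  rw [closure_Ioo h9.ne] at h8
  exact h8 ⟨h9.le, le_rfl⟩

theorem conv_Fin (hH : SH) (hA : SA) (hD : SD) (hC : SC) (hF : SF) (hP : Dist P) (hN : 1 ≤ N)
    (hr : 1 ≤ r) : (r : ℝ) ≤ wald P * areg P ^ (N - 1) := by
  obtain ⟨h1, -, h2, -⟩ := basic_Fin hH hA hD hC hP hN hr
  have h4 : Set.Ioi (areg P) ⊆ {t : ℝ | (r : ℝ) ≤ wald P * t ^ (N - 1)} := by
    intro t ht
    have h3 : areg P < t := ht
    have h5 : 0 < t ^ (N - 1) := pow_pos (by linarith) _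
    obtain ⟨b, hb⟩ := h2 t ht
    change (r : ℝ) ≤ wald P * t ^ (N - 1)
    rw [← div_le_iff₀ h5]
    refine le_csInf (wne_Asy hA hD hN) ?_
    rintro x ⟨n, d, hn, h, rfl⟩
    rw [div_le_div_iff₀ h5 (by exact_mod_cast hn)]
    exact hF N r K P t b n d hN (by linarith) hb h
  have h5 := (isClosed_le continuous_const (by fun_prop)).closure_subset_iff.2 h4
  rw [closure_Ioi] at h5
  exact h5 Set.self_mem_Ici

theorem iff_Fin (hH : SH) (hA : SA) (hD : SD) (hC : SC) (hF : SF) (hP : Dist P) (hN : 1 ≤ N)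
    (hr : 1 ≤ r) : wald P ^ N = r ↔ areg P ^ N = r := by
  obtain ⟨h1, -, -, -, h3⟩ := basic_Fin hH hA hD hC hP hN hr
  have h4 := wone_Asy (P := P) hH hA hD hN hr
  constructor
  · intro h
    rcases h3.eq_or_lt with h3 | h3
    · rwa [← h3]
    have h5 := ineq_Fin hH hA hD hC hP hN hr
    rw [h, sub_self, zero_mul] at h5
    have h6 : (0 : ℝ) < ⌈areg P - 1⌉₊ := by exact_mod_cast Nat.ceil_pos.2 (by linarith)
    exact absurd h5 (not_le.2 (mul_pos h6 (pow_pos (by linarith) N)))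
  · intro h
    have h5 := conv_Fin hH hA hD hC hF hP hN hr
    obtain ⟨M, rfl⟩ : ∃ M, N = M + 1 := ⟨N - 1, by omega⟩
    rw [← h, pow_succ', Nat.add_sub_cancel] at h5
    rw [le_antisymm h3 (le_of_mul_le_mul_right h5 (pow_pos (by linarith) M)), h]

theorem q_Fin (hH : SH) (hA : SA) (hD : SD) (hN : 1 ≤ N) (hr : 1 ≤ r) :
    (∀ (n d : ℕ) (f : MvPolynomial (Fin (N + 1)) K), f.IsHomogeneous d → f ≠ 0 →
      (∀ j, f ∈ RingHom.ker (eval (P j)) ^ n) → (r : ℝ) * (n : ℝ) ^ N ≤ (d : ℝ) ^ N) ↔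
    wald P ^ N = r := by
  have h4 := wone_Asy (P := P) hH hA hD hN hr
  have h5 := wpow_Asy (P := P) hH hA hD hN hr
  have hm : ∀ (n d : ℕ) (f : MvPolynomial (Fin (N + 1)) K), f ∈ symb P n d ↔
      f.IsHomogeneous d ∧ ∀ j, f ∈ RingHom.ker (eval (P j)) ^ n := fun n d f => by
    simp [symb]
  constructor
  · intro h
    refine le_antisymm h5 ?_
    have h0 : (0 : ℝ) ≤ r := Nat.cast_nonneg r
    have h6 : (r : ℝ) ^ ((N : ℝ)⁻¹) ≤ wald P := by
      refine le_csInf (wne_Asy hA hD hN) ?_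
      rintro x ⟨n, d, hn, h7, rfl⟩
      obtain ⟨f, h8, h9⟩ := (Submodule.ne_bot_iff _).1 h7
      refine le_of_pow_le_pow_left₀ (by omega : N ≠ 0) (by positivity) ?_
      rw [Real.rpow_inv_natCast_pow h0 (by omega), div_pow, le_div_iff₀ (by positivity)]
      exact h n d f ((hm n d f).1 h8).1 h9 ((hm n d f).1 h8).2
    rw [← Real.rpow_inv_natCast_pow h0 (by omega : N ≠ 0)]
    exact pow_le_pow_left₀ (by positivity) h6 N
  · intro h n d f h1 h2 h3
    rw [← h, ← mul_pow]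
    refine pow_le_pow_left₀ (by positivity) ?_ N
    rcases Nat.eq_zero_or_pos n with rfl | hn
    · simp
    by_contra hc
    have h6 := (hm n d f).2 ⟨h1, h3⟩
    rw [wbot_Asy hn (not_le.1 hc)] at h6
    exact h2 h6

theorem sharp_Fin (hH : SH) (hA : SA) (hD : SD) (hC : SC) (hG : SG) (N r : ℕ) (K : Type) [Field K]
    [CharZero K] (hN : 2 ≤ N) (hr : 1 ≤ r) :
    ∃ P : Fin r → Fin (N + 1) → K, Dist P ∧ wald P = 1 ∧ areg P = r := by
  obtain ⟨P, hP, h1, h2⟩ := hG N r K hN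
  have hN1 : 1 ≤ N := by omega
  refine ⟨P, hP, le_antisymm ?_ (wone_Asy hH hA hD hN1 hr), le_antisymm
    (basic_Fin hH hA hD hC hP hN1 hr).2.1 ?_⟩
  · exact csInf_le wbdd_Asy ⟨1, 1, one_pos, h1, by simp⟩
  refine le_csInf ⟨_, rmem_Asy hH hA hD hC hP hN1 hr⟩ fun t ht => ?_
  have h3 := rone_Asy hN1 hr ht
  obtain ⟨b, hb⟩ := ht
  by_contra hc
  have h4 : 0 < (r : ℝ) - t := sub_pos.2 (not_le.1 hc)
  obtain ⟨m, hm⟩ := exists_nat_gt ((|b| + 2) / (r - t))
  rw [div_lt_iff₀ h4] at hm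
  have hb0 := abs_nonneg b
  have hm0 : (0 : ℝ) ≤ m := Nat.cast_nonneg m
  have h5 := Nat.le_ceil (t * (m + 1) + |b|)
  have h6 := Nat.ceil_lt_add_one (show 0 ≤ t * (m + 1) + |b| by positivity)
  generalize ⌈t * (m + 1) + |b|⌉₊ = d at h5 h6
  obtain ⟨a, rfl⟩ : ∃ a, d = a + m := ⟨d - m, by
    have : (m : ℝ) ≤ d := by nlinarith
    have : m ≤ d := by exact_mod_cast this
    omega⟩
  refine (rel_Asy hA hD a m).1 (hb _ _ (by push_cast at h5 ⊢; linarith [le_abs_self b]))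
    (h2 a m ?_)
  have h7 : (a : ℝ) + m + 1 < r * (m + 1) := by push_cast at h6; nlinarith
  exact_mod_cast h7

end Pool.Agent.MP_5499e5_ag.S

end

section

set_option autoImplicit false

namespace Pool.Agent.MP_5499e5_ag.S

open MvPolynomial

variable {n : ℕ} {K : Type} [Field K]

/-- the weight of a monomial -/
noncomputable def w_Apo (K : Type) [Field K] (α : Fin n →₀ ℕ) : K := ∏ j, ((α j).factorial : K)

/-- the apolarity pairing -/
noncomputable def B_Apo (n : ℕ) (K : Type) [Field K] :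
    LinearMap.BilinForm K (MvPolynomial (Fin n) K) :=
  (basisMonomials (Fin n) K).constr K fun α => w_Apo K α • lcoeff K α

lemma mono_Apo (α : Fin n →₀ ℕ) (c : K) (g : MvPolynomial (Fin n) K) :
    B_Apo n K (monomial α c) g = c * (w_Apo K α * coeff α g) := by
  have h : (monomial α c : MvPolynomial (Fin n) K) = c • basisMonomials (Fin n) K α := by
    simp [smul_monomial]
  rw [h, map_smul, B_Apo, Module.Basis.constr_basis]
  simp

lemma symm_Apo (f g : MvPolynomial (Fin n) K) : B_Apo n K f g = B_Apo n K g f := by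
  induction f using MvPolynomial.induction_on' with
  | add a b ha hb => simp [ha, hb]
  | monomial α c =>
    induction g using MvPolynomial.induction_on' with
    | add a b ha hb => simp [ha, hb]
    | monomial β d =>
      rw [mono_Apo, mono_Apo, coeff_monomial, coeff_monomial]
      by_cases h : α = β
      · subst h
        simp only [if_true]
        ring
      · simp [h, Ne.symm h]

lemma w_add_Apo (α : Fin n →₀ ℕ) (j : Fin n) :
    w_Apo K (α + Finsupp.single j 1) = (α j + 1) * w_Apo K α := by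
  rw [w_Apo, w_Apo, ← Finset.mul_prod_erase _ _ (Finset.mem_univ j),
    ← Finset.mul_prod_erase _ _ (Finset.mem_univ j), ← mul_assoc]
  congr 1
  · simp [Nat.factorial_succ]
  · exact Finset.prod_congr rfl fun i hi => by simp [Finset.ne_of_mem_erase hi]

lemma der_Apo (j : Fin n) (f g : MvPolynomial (Fin n) K) :
    B_Apo n K (pderiv j f) g = B_Apo n K f (X j * g) := by
  rw [symm_Apo, symm_Apo f]
  induction g using MvPolynomial.induction_on' with
  | add a b ha hb => simp [mul_add, ha, hb]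
  | monomial α c =>
    rw [X, monomial_mul, one_mul, add_comm, mono_Apo, mono_Apo, coeff_pderiv, w_add_Apo]
    ring

lemma lin_hom_Apo {N : ℕ} (p : Fin (N + 1) → K) : (lin p).IsHomogeneous 1 :=
  IsHomogeneous.sum _ _ _ fun u _ => (isHomogeneous_X K u).C_mul _

lemma pow_hom_Apo {N : ℕ} (p : Fin (N + 1) → K) (a : ℕ) : (lin p ^ a).IsHomogeneous a := by
  simpa using (lin_hom_Apo p).pow a

lemma eval_Apo {N : ℕ} (p : Fin (N + 1) → K) (d : ℕ) (f : MvPolynomial (Fin (N + 1)) K)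
    (hf : f.IsHomogeneous d) : B_Apo _ K f (lin p ^ d) = (d.factorial : K) * eval p f := by
  induction d generalizing f with
  | zero =>
    rw [← totalDegree_zero_iff_isHomogeneous, totalDegree_eq_zero_iff_eq_C] at hf
    rw [hf, eval_C, C_apply, mono_Apo]
    simp [w_Apo]
  | succ d ih =>
    have h1 := congrArg (eval p) hf.sum_X_mul_pderiv
    simp only [map_sum, map_mul, eval_X, nsmul_eq_mul, map_natCast] at h1
    rw [Nat.factorial_succ, Nat.cast_mul, mul_comm ((d + 1 : ℕ) : K), mul_assoc, ← h1,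
      Finset.mul_sum, pow_succ', lin, Finset.sum_mul, map_sum]
    refine Finset.sum_congr rfl fun u _ => ?_
    rw [mul_assoc, C_mul', map_smul, ← der_Apo, ← lin, ih _ hf.pderiv, smul_eq_mul]
    ring

lemma pderiv_tr_Apo (p : Fin n → K) (u : Fin n) (f : MvPolynomial (Fin n) K) :
    pderiv u (W.tr p f) = W.tr p (pderiv u f) := by
  induction f using MvPolynomial.induction_on with
  | C a => simp
  | add a b ha hb => simp [ha, hb]
  | mul_X a v ha =>
    by_cases h : u = v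
    · subst h
      simp [ha]
    · simp [ha, pderiv_X, Ne.symm h]

lemma lift_Apo [CharZero K] {p : Fin n → K} {k : ℕ} {f : MvPolynomial (Fin n) K}
    (h0 : f ∈ W.mx p) (h : ∀ u, pderiv u f ∈ W.mx p ^ (k + 1)) : f ∈ W.mx p ^ (k + 2) := by
  rw [W.mem_mx_pow_iff]
  intro α hα
  by_cases h1 : α = 0
  · subst h1
    exact (W.mem_mx_pow_iff (n := 1)).1 (by rwa [pow_one]) 0 (by simp)
  obtain ⟨u, hu⟩ := Finsupp.ne_iff.1 h1
  obtain ⟨β, rfl⟩ : ∃ β, α = β + Finsupp.single u 1 :=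
    ⟨α - Finsupp.single u 1, (tsub_add_cancel_of_le
      (Finsupp.single_le_iff.2 (Nat.one_le_iff_ne_zero.2 hu))).symm⟩
  have h2 := W.mem_mx_pow_iff.1 (h u) β (by
    rw [map_add, Finsupp.degree_single] at hα
    omega)
  rw [← pderiv_tr_Apo, coeff_pderiv] at h2
  exact (mul_eq_zero.1 h2).resolve_right (Nat.cast_add_one_ne_zero _)

lemma key_Apo [CharZero K] {N : ℕ} (p : Fin (N + 1) → K) (a m : ℕ)
    (f : MvPolynomial (Fin (N + 1)) K) (hf : f.IsHomogeneous (a + m)) :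
    f ∈ W.mx p ^ (m + 1) ↔
      ∀ g : MvPolynomial (Fin (N + 1)) K, g.IsHomogeneous m → B_Apo _ K f (lin p ^ a * g) = 0 := by
  have hz : ∀ (m : ℕ) (f : MvPolynomial (Fin (N + 1)) K), f.IsHomogeneous (a + m) →
      B_Apo _ K f (lin p ^ a * lin p ^ m) = 0 → f ∈ W.mx p := fun m f hf h => by
    rw [← pow_add, eval_Apo p _ f hf] at h
    exact W.mem_mx.2 ((mul_eq_zero.1 h).resolve_left (Nat.cast_ne_zero.2 (Nat.factorial_ne_zero _)))
  induction m generalizing f with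
  | zero =>
    rw [zero_add, pow_one]
    refine ⟨fun h g hg => ?_, fun h => hz 0 f hf (h _ (pow_hom_Apo p 0))⟩
    rw [← totalDegree_zero_iff_isHomogeneous, totalDegree_eq_zero_iff_eq_C] at hg
    rw [hg, mul_comm, C_mul', map_smul, eval_Apo p a f hf, W.mem_mx.1 h, mul_zero, smul_zero]
  | succ m ih =>
    refine ⟨fun h g hg => ?_, fun h => lift_Apo (hz _ f hf (h _ (pow_hom_Apo p _))) fun u =>
      (ih _ hf.pderiv).2 fun g hg => ?_⟩
    · have h1 : B_Apo _ K f (lin p ^ a * ((m + 1) • g)) = 0 := by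
        rw [← hg.sum_X_mul_pderiv, Finset.mul_sum, map_sum]
        refine Finset.sum_eq_zero fun u _ => ?_
        rw [mul_left_comm, ← der_Apo]
        exact (ih _ hf.pderiv).1 (W.der_mem_pow _ _ _ h) _ hg.pderiv
      rw [mul_smul_comm, map_nsmul, nsmul_eq_mul] at h1
      exact (mul_eq_zero.1 h1).resolve_left (Nat.cast_ne_zero.2 (Nat.succ_ne_zero m))
    · rw [der_Apo, mul_left_comm]
      exact h _ (add_comm 1 m ▸ (isHomogeneous_X K u).mul hg)

theorem sA (h : SH) : SA := by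
  intro N r K _ _ P a m
  obtain ⟨hfin, hrank⟩ := h N K (a + m)
  have hd : dual P a m ≤ Hm N K (a + m) := by
    refine iSup_le fun j => ?_
    rintro _ ⟨g, hg, rfl⟩
    exact (pow_hom_Apo (P j) a).mul hg
  have hs : symb P (m + 1) (a + m) ≤ Hm N K (a + m) := inf_le_left
  have hker : LinearMap.ker ((B_Apo (N + 1) K).restrict (Hm N K (a + m))) = ⊥ := by
    refine eq_bot_iff.2 fun f hf => Subtype.ext (MvPolynomial.ext _ _ fun α => ?_)
    by_cases hα : α.degree = a + m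
    · have h1 : B_Apo (N + 1) K f (monomial α 1) = 0 :=
        LinearMap.congr_fun (LinearMap.mem_ker.1 hf) ⟨monomial α 1, isHomogeneous_monomial 1 hα⟩
      rw [symm_Apo, mono_Apo, one_mul] at h1
      exact (mul_eq_zero.1 h1).resolve_left (Finset.prod_ne_zero_iff.2 fun j _ =>
        Nat.cast_ne_zero.2 (Nat.factorial_ne_zero _))
    · exact IsHomogeneous.coeff_eq_zero f.2 hα
  have h1 := LinearMap.BilinForm.finrank_add_finrank_orthogonal'
    (B := (B_Apo (N + 1) K).restrict (Hm N K (a + m))) ((dual P a m).comap (Hm N K (a + m)).subtype)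
  have h2 : ((B_Apo (N + 1) K).restrict (Hm N K (a + m))).orthogonal
      ((dual P a m).comap (Hm N K (a + m)).subtype) =
      (symb P (m + 1) (a + m)).comap (Hm N K (a + m)).subtype := by
    ext f
    rw [LinearMap.BilinForm.mem_orthogonal_iff, Submodule.mem_comap, symb, Submodule.mem_inf,
      Submodule.mem_iInf]
    constructor
    · refine fun H => ⟨f.2, fun j => (key_Apo (P j) a m f f.2).2 fun g hg => ?_⟩
      rw [symm_Apo]
      exact H ⟨_, (pow_hom_Apo (P j) a).mul hg⟩ (Submodule.mem_iSup_of_mem j ⟨g, hg, rfl⟩)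
    · intro H g hg
      have h3 : dual P a m ≤ LinearMap.ker (B_Apo (N + 1) K f) := by
        refine iSup_le fun j => ?_
        rintro _ ⟨g, hg, rfl⟩
        exact (key_Apo (P j) a m f f.2).1 (H.2 j) g hg
      exact (symm_Apo _ _).trans (h3 hg)
  rw [hker, inf_bot_eq, finrank_bot, add_zero, h2, hrank,
    (Submodule.comapSubtypeEquivOfLe hd).finrank_eq,
    (Submodule.comapSubtypeEquivOfLe hs).finrank_eq] at h1
  rw [add_comm, h1]

end Pool.Agent.MP_5499e5_ag.S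

end
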