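import Pool.Agent.Mg.F5499e5ap.G658e11

set_option linter.all false

section

set_option autoImplicit false

namespace Pool.Agent.MP_5499e5_ag.W

open Filter MvPolynomial

theorem etale_Der {R E : Type} [CommRing R] [IsDomain R] [CharZero R] [Field E] [Algebra R E]
    [FaithfulSMul R E] [Algebra.IsAlgebraic R E] : Algebra.FormallyEtale R E := by
  let _inst : Algebra (FractionRing R) E := FractionRing.liftAlgebra R E
  have : IsScalarTower R (FractionRing R) E := FractionRing.isScalarTower_liftAlgebra R E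
  have : Algebra.IsAlgebraic (FractionRing R) E :=
    Algebra.IsAlgebraic.extendScalars (R := R) (IsFractionRing.injective R (FractionRing R))
  have : CharZero (FractionRing R) :=
    charZero_of_injective_algebraMap (IsFractionRing.injective R (FractionRing R))
  have : Algebra.FormallyEtale R (FractionRing R) :=
    Algebra.FormallyEtale.of_isLocalization (nonZeroDivisors R)
  have : Algebra.FormallyEtale (FractionRing R) E :=
    Algebra.FormallyEtale.of_isSeparable (FractionRing R) E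
  exact Algebra.FormallyEtale.comp R (FractionRing R) E

theorem gen_Der {ι F E : Type} [Field F] [Field E] [CharZero F] [Algebra F E] [DecidableEq ι]
    (y : ι → E) (hy : IsTranscendenceBasis F y) :
    ∃ δ : ι → Derivation F E E, ∀ u v, δ u (y v) = if u = v then 1 else 0 := by
  let _inst : Algebra (MvPolynomial ι F) E :=
    (aeval y : MvPolynomial ι F →ₐ[F] E).toRingHom.toAlgebra
  have hmap : ∀ p : MvPolynomial ι F, algebraMap (MvPolynomial ι F) E p = aeval y p := fun _ => rfl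
  have hinj : Function.Injective (algebraMap (MvPolynomial ι F) E) :=
    algebraicIndependent_iff_injective_aeval.1 hy.1
  have : IsScalarTower F (MvPolynomial ι F) E :=
    IsScalarTower.of_algebraMap_eq fun c => by rw [hmap, AlgHom.commutes]
  have : FaithfulSMul (MvPolynomial ι F) E := (faithfulSMul_iff_algebraMap_injective _ _).2 hinj
  have := hy.isAlgebraic
  have : Algebra.IsAlgebraic (MvPolynomial ι F) E :=
    Algebra.IsAlgebraic.of_ringHom_of_comp_eq (S := Algebra.adjoin F (Set.range y)) (B := E)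
      hy.1.aevalEquiv.toRingEquiv.toRingHom (RingHom.id E) hy.1.aevalEquiv.surjective
      Function.injective_id (RingHom.ext fun p => hy.1.algebraMap_aevalEquiv p)
  have : Algebra.FormallyEtale (MvPolynomial ι F) E := etale_Der
  let e := KaehlerDifferential.tensorKaehlerEquivOfFormallyEtale F (MvPolynomial ι F) E
  let b := (KaehlerDifferential.mvPolynomialBasis F ι).baseChange E
  refine ⟨fun u => ((b.coord u).comp e.symm.toLinearMap).compDer (KaehlerDifferential.D F E),
    fun u v => ?_⟩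
  have hv : y v = algebraMap (MvPolynomial ι F) E (X v) := by rw [hmap, aeval_X]
  change b.repr (e.symm (KaehlerDifferential.D F E (y v))) u = _
  rw [hv, KaehlerDifferential.tensorKaehlerEquivOfFormallyEtale_symm_D_algebraMap,
    Module.Basis.baseChange_repr_tmul, KaehlerDifferential.mvPolynomialBasis_repr_D_X,
    Finsupp.single_apply]
  by_cases h : u = v
  · rw [if_pos h, if_pos h.symm, one_smul]
  · rw [if_neg h, if_neg (Ne.symm h), zero_smul]

theorem s_der : S_der := fun _ _ _ _ K₀ y hy => gen_Der (F := K₀) y hy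

end Pool.Agent.MP_5499e5_ag.W

end

section

set_option autoImplicit false

namespace Pool.Agent.MP_5499e5_ag.W

open Filter MvPolynomial

/-- Polynomials of degree at most `d` with prescribed vanishing at the points of `T`. -/
noncomputable def V_Down {N : ℕ} {K : Type} [Field K] {ι : Type} (p : ι → Fin N → K) (k : ι → ℕ)
    (d : ℕ) (T : Finset ι) : Submodule K (A N K) :=
  Le N K d ⊓ ⨅ i ∈ T, (mx (p i) ^ k i).restrictScalars K

theorem mem_V_Down {N : ℕ} {K : Type} [Field K] {ι : Type} {p : ι → Fin N → K} {k : ι → ℕ}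
    {d : ℕ} {T : Finset ι} {f : A N K} :
    f ∈ V_Down p k d T ↔ f.totalDegree ≤ d ∧ ∀ i ∈ T, f ∈ mx (p i) ^ k i := by
  simp only [V_Down, Submodule.mem_inf, Submodule.mem_iInf, Submodule.restrictScalars_mem, mem_Le]

theorem V_insert_Down {N : ℕ} {K : Type} [Field K] {ι : Type} [DecidableEq ι]
    (p : ι → Fin N → K) (k : ι → ℕ) (d : ℕ) (T : Finset ι) (i₀ : ι) :
    V_Down p k d (insert i₀ T) = V_Down p k d T ⊓ (mx (p i₀) ^ k i₀).restrictScalars K := by
  ext f
  simp only [Submodule.mem_inf, mem_V_Down, Finset.forall_mem_insert,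
    Submodule.restrictScalars_mem]
  tauto

theorem stable_Down {N : ℕ} {K : Type} [Field K] {K₀ : Subfield K} (δ : Derivation K₀ K K)
    (q : Fin N → K) (hq : ∀ u, q u ∈ K₀) (s : ℕ) {f : A N K} (hf : f ∈ mx q ^ s) :
    cD δ f ∈ mx q ^ s := by
  refine der_mem_pow_of_stable (cD δ) (fun g hg => ?_) s hf
  have hg' := hg
  rw [mx_eq_span] at hg'
  refine der_mem_of_span (cD δ) (mx_eq_span q).ge ?_ hg'
  rintro _ ⟨u, rfl⟩
  simp only [map_sub, cD_X, cD_C, der_of_mem δ (hq u), map_zero, sub_zero]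
  exact zero_mem _

theorem s_down (h1 : S_sub) (h2 : S_der) (h3 : S_pt) : S_down := by
  classical
  intro n K _ _ ι p hp T k B d f hk hf0 hfd hf
  set Q := (n + 1) * B * (d + 1) ^ n with hQ
  set M := (B + n).choose (n + 1) with hM
  have hle : ∀ T : Finset ι, V_Down p k d T ≤ Le (n + 1) K d := fun T => inf_le_left
  have hfin : ∀ T : Finset ι, Module.Finite K (V_Down p k d T) := fun T =>
    Module.Finite.of_injective (Submodule.inclusion (hle T)) (Submodule.inclusion_injective _)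
  have key : ∀ T : Finset ι, (∀ i ∈ T, k i ≤ B) → V_Down p k d T ≠ ⊥ →
      ∑ i ∈ T, (k i + n).choose (n + 1) + (Module.finrank K (V_Down p k d T) +
        M * min (Module.finrank K (V_Down p k d T)) Q) ≤
        (d + (n + 1)).choose (n + 1) + M * Q := by
    intro T
    induction T using Finset.induction_on with
    | empty =>
      intro _ _
      rw [Finset.sum_empty, zero_add, ← finrank_Le (n + 1) K d]
      exact add_le_add (Submodule.finrank_mono (hle _))
        (Nat.mul_le_mul_left _ (min_le_right _ _))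
    | insert i₀ T hi₀ ih =>
      intro hk hne
      have hsub : V_Down p k d (insert i₀ T) ≤ V_Down p k d T := by
        rw [V_insert_Down]; exact inf_le_left
      have hne' : V_Down p k d T ≠ ⊥ := fun h => hne (eq_bot_iff.2 (h ▸ hsub))
      have ih' := ih (fun i hi => hk i (Finset.mem_insert_of_mem hi)) hne'
      have hk0 := hk i₀ (Finset.mem_insert_self _ _)
      rw [Finset.sum_insert hi₀]
      have := hfin T
      have hmono : Module.finrank K (V_Down p k d (insert i₀ T)) ≤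
          Module.finrank K (V_Down p k d T) := Submodule.finrank_mono hsub
      have hmin : M * min (Module.finrank K (V_Down p k d (insert i₀ T))) Q ≤
          M * min (Module.finrank K (V_Down p k d T)) Q :=
        Nat.mul_le_mul_left _ (min_le_min_right _ hmono)
      rcases Nat.eq_zero_or_pos (k i₀) with h0 | h0
      · rw [h0, zero_add n, Nat.choose_eq_zero_of_lt (Nat.lt_succ_self n)]
        omega
      obtain ⟨K₀, hK₀, hb⟩ := h1 (n + 1) K ι p hp i₀
      obtain ⟨δ, hδ⟩ := h2 (n + 1) K K₀ (p i₀) hb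
      have hst : ∀ g ∈ V_Down p k d T, ∀ u, cD (δ u) g ∈ V_Down p k d T := by
        intro g hg u
        rw [mem_V_Down] at hg ⊢
        refine ⟨(totalDegree_cD_le _ _).trans hg.1, fun i hi => ?_⟩
        exact stable_Down _ _ (hK₀ i (fun h => hi₀ (h ▸ hi))) _ (hg.2 i hi)
      obtain ⟨h4, h5⟩ := h3 n K K₀ (p i₀) δ (V_Down p k d T) d (k i₀) hδ (hle T) hst
      rw [← V_insert_Down] at h5
      have hkM : (k i₀ + n).choose (n + 1) ≤ M := Nat.choose_le_choose _ (by omega)
      have hkQ : (n + 1) * k i₀ * (d + 1) ^ n ≤ Q :=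
        Nat.mul_le_mul_right _ (Nat.mul_le_mul_left _ hk0)
      rcases h5 with h5 | h5
      · have hlt : V_Down p k d (insert i₀ T) < V_Down p k d T := by
          refine lt_of_le_of_ne hsub fun h => h4 hne' ?_
          rw [← h, V_insert_Down]
          exact inf_le_right.trans fun g hg => Ideal.pow_le_self h0.ne' hg
        have h6 := Submodule.finrank_lt_finrank_of_lt hlt
        have h7 : min (Module.finrank K (V_Down p k d (insert i₀ T))) Q + 1 ≤
            min (Module.finrank K (V_Down p k d T)) Q := by omega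
        have h8 := Nat.mul_le_mul_left M h7
        rw [Nat.mul_add, mul_one] at h8
        omega
      · omega
  have hne : V_Down p k d T ≠ ⊥ := fun h => hf0 (by
    have : f ∈ V_Down p k d T := mem_V_Down.2 ⟨hfd, hf⟩
    rwa [h, Submodule.mem_bot] at this)
  have := key T hk hne
  omega

end Pool.Agent.MP_5499e5_ag.W

end

section

set_option autoImplicit false

namespace Pool.Agent.MP_5499e5_ag.W

open Filter MvPolynomial

theorem scale_Hom {σ K B : Type} [Field K] [CommRing B] [Algebra K B] {d : ℕ}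
    {f : MvPolynomial σ K} (hf : f.IsHomogeneous d) (c : B) (x : σ → B) :
    aeval (fun u => c * x u) f = c ^ d * aeval x f := by
  conv_lhs => rw [f.as_sum, map_sum]
  conv_rhs => rw [f.as_sum, map_sum, Finset.mul_sum]
  refine Finset.sum_congr rfl fun α hα => ?_
  have h1 : α.degree = d := by
    rw [Finsupp.degree_eq_weight_one]
    exact hf (mem_support_iff.1 hα)
  rw [aeval_monomial, aeval_monomial, Finsupp.prod, Finsupp.prod]
  simp only [mul_pow, Finset.prod_mul_distrib, Finset.prod_pow_eq_pow_sum]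
  rw [← h1, Finsupp.degree_apply]
  ring

theorem comp_Hom {N : ℕ} {K B : Type} [Field K] [CommRing B] [Algebra K B] (y : Fin N → B)
    (f : MvPolynomial (Fin (N + 1)) K) :
    aeval y (aeval (Fin.cons 1 X : Fin (N + 1) → A N K) f) =
      aeval (Fin.cons 1 y : Fin (N + 1) → B) f := by
  rw [← AlgHom.comp_apply, comp_aeval]
  congr 2
  funext u
  refine Fin.cases ?_ (fun v => ?_) u <;> simp

theorem s_deh : S_deh := by
  intro N K _ d f hf h0
  refine ⟨aeval (Fin.cons 1 X : Fin (N + 1) → A N K) f, fun hg => h0 ?_, ?_, fun P n hP hn => ?_⟩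
  · let B := FractionRing (MvPolynomial (Fin (N + 1)) K)
    let ι : MvPolynomial (Fin (N + 1)) K →ₐ[K] B := IsScalarTower.toAlgHom K _ B
    have hι : Function.Injective ι := IsFractionRing.injective (MvPolynomial (Fin (N + 1)) K) B
    have hX : ι (X 0) ≠ 0 := fun h => X_ne_zero (R := K) (0 : Fin (N + 1)) (hι (by rw [h, map_zero]))
    have h1 := scale_Hom hf (ι (X 0))
      (Fin.cons 1 (fun u : Fin N => ι (X u.succ) / ι (X 0)) : Fin (N + 1) → B)
    rw [← comp_Hom, hg, map_zero, mul_zero] at h1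
    have h2 : (fun u : Fin (N + 1) => ι (X 0) *
        (Fin.cons 1 (fun u : Fin N => ι (X u.succ) / ι (X 0)) : Fin (N + 1) → B) u) =
        fun u => ι (X u) := by
      funext u
      refine Fin.cases ?_ (fun v => ?_) u
      · simp
      · rw [Fin.cons_succ, mul_div_cancel₀ _ hX]
    rw [h2, ← comp_aeval, aeval_X_left, AlgHom.comp_id] at h1
    exact hι (by rw [h1, map_zero])
  · refine le_trans ?_ hf.totalDegree_le
    conv_lhs => rw [f.as_sum, map_sum]
    refine (totalDegree_finsetSum _ _).trans (Finset.sup_le fun α hα => ?_)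
    rw [aeval_monomial]
    refine (totalDegree_mul _ _).trans ?_
    rw [algebraMap_eq, totalDegree_C, zero_add, Finsupp.prod]
    refine (totalDegree_finsetProd _ _).trans (le_trans ?_ (le_totalDegree hα))
    refine Finset.sum_le_sum fun u _ => (totalDegree_pow _ _).trans ?_
    have : ((Fin.cons 1 X : Fin (N + 1) → A N K) u).totalDegree ≤ 1 := by
      refine Fin.cases ?_ (fun v => ?_) u <;> simp
    nlinarith
  · let ψ : MvPolynomial (Fin (N + 1)) K →ₐ[K] A N K :=
      aeval fun u => C (P 0) * (Fin.cons 1 X : Fin (N + 1) → A N K) u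
    have h1 : ∀ h : MvPolynomial (Fin (N + 1)) K,
        eval (fun u : Fin N => P u.succ / P 0) (ψ h) = eval P h := by
      intro h
      induction h using MvPolynomial.induction_on with
      | C a => simp [ψ]
      | add a b ha hb => rw [map_add, map_add, map_add, ha, hb]
      | mul_X a u ha =>
        rw [map_mul, map_mul, map_mul, ha]
        congr 1
        refine Fin.cases ?_ (fun v => ?_) u
        · simp [ψ]
        · simp [ψ, mul_div_cancel₀ _ hP]
    have h2 : ψ f ∈ mx (fun u : Fin N => P u.succ / P 0) ^ n :=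
      map_mem_pow ψ.toRingHom (fun x hx => by
        rw [mem_mx]
        exact (h1 x).trans hx) hn
    have h3 : ψ f = C (P 0) ^ d * aeval (Fin.cons 1 X : Fin (N + 1) → A N K) f :=
      scale_Hom hf _ _
    have h4 := Ideal.mul_mem_left _ (C ((P 0)⁻¹ ^ d)) h2
    rwa [h3, ← mul_assoc, ← map_pow, ← map_mul, ← mul_pow, inv_mul_cancel₀ hP, one_pow, map_one,
      one_mul] at h4

theorem lift_Hom (N r : ℕ) (K : Type) [Field K] (G : MvPolynomial (Fin r × Fin N) ℤ) :
    ∃ (H : MvPolynomial (Fin r × Fin (N + 1)) ℤ) (D : ℕ),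
      aeval (fun q : Fin r × Fin (N + 1) => (Fin.cons 1 (fun u : Fin N => X (q.1, u)) :
        Fin (N + 1) → MvPolynomial (Fin r × Fin N) ℤ) q.2) H = G ∧
      ∀ P : Fin r → Fin (N + 1) → K, (∀ j, P j 0 ≠ 0) →
        aeval (fun q : Fin r × Fin (N + 1) => P q.1 q.2) H = (∏ j, P j 0) ^ D *
          aeval (fun q : Fin r × Fin N => P q.1 q.2.succ / P q.1 0) G := by
  induction G using MvPolynomial.induction_on with
  | C a => exact ⟨C a, 0, by simp, fun P _ => by simp⟩
  | add a b ha hb =>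
    obtain ⟨H₁, D₁, h₁, k₁⟩ := ha
    obtain ⟨H₂, D₂, h₂, k₂⟩ := hb
    refine ⟨H₁ * (∏ j, X (j, 0)) ^ D₂ + H₂ * (∏ j, X (j, 0)) ^ D₁, D₁ + D₂, ?_, fun P hP => ?_⟩
    · rw [map_add, map_mul, map_mul, h₁, h₂]
      simp
    · rw [map_add, map_mul, map_mul, k₁ P hP, k₂ P hP]
      simp only [map_pow, map_prod, aeval_X, map_add]
      ring
  | mul_X a q ha =>
    obtain ⟨H, D, h, k⟩ := ha
    refine ⟨H * X (q.1, q.2.succ) * ∏ j ∈ Finset.univ.erase q.1, X (j, 0), D + 1, ?_,
      fun P hP => ?_⟩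
    · rw [map_mul, map_mul, h]
      simp
    · rw [map_mul, map_mul, k P hP]
      simp only [map_prod, aeval_X, map_mul]
      rw [pow_succ, ← Finset.mul_prod_erase Finset.univ (fun j => P j 0) (Finset.mem_univ q.1)]
      have := hP q.1
      field_simp

theorem s_hom : S_hom := by
  intro N r K _ _
  have : Countable (MvPolynomial (Fin r × Fin (N + 1)) ℤ) := by
    rw [← Cardinal.mk_le_aleph0_iff]
    refine cardinalMk_le_max.trans ?_
    exact max_le (max_le Cardinal.mk_le_aleph0 Cardinal.mk_le_aleph0) le_rfl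
  have : Nonempty {G : MvPolynomial (Fin r × Fin (N + 1)) ℤ // G ≠ 0} := ⟨⟨1, one_ne_zero⟩⟩
  obtain ⟨e, he⟩ := exists_surjective_nat {G : MvPolynomial (Fin r × Fin (N + 1)) ℤ // G ≠ 0}
  refine ⟨fun i => MvPolynomial.map (Int.castRingHom K) (e i).1, fun i h => (e i).2 ?_,
    fun P hP => ?_⟩
  · exact map_injective (Int.castRingHom K) Int.cast_injective (h.trans (map_zero _).symm)
  · have h1 : ∀ H : MvPolynomial (Fin r × Fin (N + 1)) ℤ, H ≠ 0 →
        aeval (fun q : Fin r × Fin (N + 1) => P q.1 q.2) H ≠ 0 := by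
      intro H hH
      obtain ⟨i, hi⟩ := he ⟨H, hH⟩
      have := hP i
      simp only [hi] at this
      rwa [eval_map, show Int.castRingHom K = algebraMap ℤ K from rfl, ← aeval_def] at this
    have h2 : ∀ j, P j 0 ≠ 0 := fun j => by
      simpa using h1 (X (j, 0)) (X_ne_zero _)
    refine ⟨h2, ?_⟩
    rw [Gen, algebraicIndependent_iff]
    intro G hG
    obtain ⟨H, D, h, k⟩ := lift_Hom N r K G
    by_contra h0
    refine h1 H (fun hH => h0 ?_) ?_
    · rw [← h, hH, map_zero]
    · rw [k P h2, hG, mul_zero]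

end Pool.Agent.MP_5499e5_ag.W

end

section

set_option autoImplicit false
namespace Pool.Agent.MP_5499e5_ag.W
open Filter MvPolynomial

theorem num_Kl {M D τ : ℝ} {w : ℕ} (hw : w ≠ 0) (hD : 0 < D) (hτ : 0 ≤ τ)
    (h : ∀ ρ : ℝ, 0 < ρ → M < ρ ^ (w + 1) * D → M ≤ τ ^ w * ρ * D) : M ≤ τ ^ (w + 1) * D := by
  by_contra hlt
  push Not at hlt
  have h1 : τ ^ (w + 1) < M / D := (lt_div_iff₀ hD).2 hlt
  have h2 : 0 ≤ M / D := le_trans (by positivity) h1.le
  obtain ⟨s, hs0, hs⟩ : ∃ s : ℝ, 0 ≤ s ∧ s ^ (w + 1) = M / D :=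
    ⟨(M / D) ^ (((w + 1 : ℕ) : ℝ)⁻¹), Real.rpow_nonneg h2 _,
      Real.rpow_inv_natCast_pow h2 (Nat.succ_ne_zero w)⟩
  have hτs : τ < s := lt_of_pow_lt_pow_left₀ (w + 1) hs0 (by rw [hs]; exact h1)
  have hM : M = s ^ (w + 1) * D := by rw [hs]; field_simp
  have h3 : M ≤ τ ^ w * s * D := by
    have hc : Tendsto (fun ρ : ℝ => τ ^ w * ρ * D) (nhdsWithin s (Set.Ioi s))
        (nhds (τ ^ w * s * D)) :=
      (Continuous.tendsto (by fun_prop) s).mono_left nhdsWithin_le_nhds
    refine ge_of_tendsto hc (eventually_nhdsWithin_of_forall fun ρ hρ => ?_)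
    have hρ' : s < ρ := hρ
    refine h ρ (lt_of_le_of_lt hs0 hρ') ?_
    rw [hM]
    exact mul_lt_mul_of_pos_right (pow_lt_pow_left₀ hρ' hs0 (Nat.succ_ne_zero w)) hD
  have h4 : τ ^ w < s ^ w := pow_lt_pow_left₀ hτs hτ hw
  have h5 : τ ^ w * s * D < s ^ w * s * D :=
    mul_lt_mul_of_pos_right (mul_lt_mul_of_pos_right h4 (lt_of_le_of_lt hτ hτs)) hD
  rw [← pow_succ, ← hM] at h5
  linarith

theorem s_kl (h0 : S_zero) (h1 : S_mu) (h2 : S_sec) : S_kl := by
  intro N K _ ι T p τ hinj hτ hCB w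
  induction w with
  | zero => intro J hJ; simpa using h0 N K ι T p hinj J hJ
  | succ w ih =>
    intro J hJ
    rcases eq_or_ne w 0 with rfl | hw
    · simpa using hCB J hJ
    refine reduce_sum T p (by positivity) hJ fun q hq _ hd => ?_
    rcases (dg_nonneg (w + 1) q).eq_or_lt with hD | hD
    · rw [← hD, mul_zero]
      refine Finset.sum_nonpos fun i _ => ?_
      rw [hD]
      exact h1 N K (p i) (w + 1) q hd
    refine num_Kl hw hD hτ fun ρ hρ hlt => ?_
    obtain ⟨n, ⟨g, hg, hdeg, hmem⟩, hn⟩ :=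
      ((h2 N K ι T p (w + 1) q ρ hd hρ hlt).and (eventually_gt_atTop 0)).exists
    have hn' : (0 : ℝ) < n := by exact_mod_cast hn
    have hs := hd.slice hq hg
    have h3 : (n : ℝ) * ∑ i ∈ T, mu (p i) (w + 1) q ≤
        ∑ i ∈ T, mu (p i) w (q ⊔ Ideal.span {g}) := by
      rw [Finset.mul_sum]
      exact Finset.sum_le_sum fun i hi => mu_slice (p i) (hmem i hi) hs
    have h4 := ih _ hs
    have h5 := hd.dg_slice hq hg le_rfl
    have h6 : (g.totalDegree : ℝ) * dg (w + 1) q ≤ ρ * n * dg (w + 1) q :=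
      mul_le_mul_of_nonneg_right hdeg hD.le
    have h7 := mul_le_mul_of_nonneg_left (h5.trans h6) (pow_nonneg hτ w)
    refine le_of_mul_le_mul_left ((h3.trans h4).trans (h7.trans_eq ?_)) hn'
    ring

end Pool.Agent.MP_5499e5_ag.W

end

section

set_option autoImplicit false

namespace Pool.Agent.MP_5499e5_ag.W

open Filter MvPolynomial

theorem num_Ku (s : ℝ) (hs : 1 ≤ s) (N : ℕ) : s * (s + 1) ^ N ≤ s ^ N * (s + 2 ^ N - 1) := by
  induction N with
  | zero => simp
  | succ n ih =>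
    have hc : (1 : ℝ) ≤ 2 ^ n := one_le_pow₀ (by norm_num)
    have hp : 0 ≤ s ^ n := by positivity
    have h1 : (s + 1) * (s + 2 ^ n - 1) ≤ s * (s + 2 ^ (n + 1) - 1) := by
      rw [pow_succ]
      nlinarith [mul_nonneg (sub_nonneg.2 hs) (sub_nonneg.2 hc)]
    calc s * (s + 1) ^ (n + 1) = (s + 1) * (s * (s + 1) ^ n) := by ring
      _ ≤ (s + 1) * (s ^ n * (s + 2 ^ n - 1)) := mul_le_mul_of_nonneg_left ih (by linarith)
      _ = s ^ n * ((s + 1) * (s + 2 ^ n - 1)) := by ring
      _ ≤ s ^ n * (s * (s + 2 ^ (n + 1) - 1)) := mul_le_mul_of_nonneg_left h1 hp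
      _ = s ^ (n + 1) * (s + 2 ^ (n + 1) - 1) := by ring

theorem num2_Ku (s τ : ℝ) (hs : 1 ≤ s) (N : ℕ) (h : s + 2 ^ N ≤ τ ^ N) :
    s < (τ * s / (s + 1)) ^ N := by
  have h1 := num_Ku s hs N
  have hp : 0 < s ^ N := by positivity
  have hq : 0 < (s + 1) ^ N := by positivity
  rw [div_pow, mul_pow, lt_div_iff₀ hq]
  have h2 : s ^ N * (s + 2 ^ N - 1) < s ^ N * τ ^ N := mul_lt_mul_of_pos_left (by linarith) hp
  linarith [mul_comm (s ^ N) (τ ^ N)]

theorem one_le_Ku (τ : ℝ) (h0 : 0 ≤ τ) (N : ℕ) (hN : 1 ≤ N) (h : 2 ^ N ≤ τ ^ N) : 1 ≤ τ := by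
  have := le_of_pow_le_pow_left₀ (n := N) (by omega) h0 h
  linarith

/-- A polynomial through all points but one, not vanishing at the last one. -/
theorem poly_Ku (h2 : S_sec) (h3 : S_sub) {N : ℕ} {K : Type} [Field K] [CharZero K] {ι : Type}
    (p : ι → Fin N → K) (hp : Gen p) (i₀ : ι) (T : Finset ι) (hT : i₀ ∉ T) (ρ : ℝ) (hρ : 0 < ρ)
    (hc : (T.card : ℝ) < ρ ^ N) :
    ∃ (n : ℕ) (F : A N K), 1 ≤ n ∧ F ∉ mx (p i₀) ∧ (F.totalDegree : ℝ) ≤ ρ * n ∧
      ∀ i ∈ T, F ∈ mx (p i) ^ n := by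
  classical
  obtain ⟨K₀, hK, hb⟩ := h3 N K ι p hp i₀
  let p' : ι → Fin N → K₀ := fun i u => if h : i ≠ i₀ then ⟨p i u, hK i h u⟩ else 0
  have hp' : ∀ i ∈ T, ∀ u, ((p' i u : K₀) : K) = p i u := by
    intro i hi u
    have h : i ≠ i₀ := fun e => hT (e ▸ hi)
    simp only [p', dif_pos h]
  have hs := h2 N K₀ ι T p' N ⊥ ρ (dim_all _) hρ (by simpa [mu_bot, dg_bot] using hc)
  obtain ⟨n, hn1, g, hg0, hgd, hgm⟩ := ((eventually_ge_atTop 1).and hs).exists
  refine ⟨n, MvPolynomial.map K₀.subtype g, hn1, ?_, ?_, ?_⟩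
  · intro hm
    rw [mem_mx, eval_map] at hm
    apply hg0
    have hi := hb.1
    rw [algebraicIndependent_iff] at hi
    have h7 : algebraMap K₀ K = K₀.subtype := rfl
    have h8 : g = 0 := hi g (by rw [aeval_def, h7]; exact hm)
    rw [h8]
    exact zero_mem _
  · refine le_trans ?_ hgd
    have h9 : (MvPolynomial.map K₀.subtype g).totalDegree ≤ g.totalDegree :=
      Finset.sup_mono (support_map_subset K₀.subtype g)
    exact Nat.cast_le.2 h9
  · intro i hi
    have h1 := hgm i hi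
    rw [bot_sup_eq] at h1
    refine map_mem_pow (MvPolynomial.map K₀.subtype) (fun x hx => ?_) h1
    rw [mem_mx] at hx ⊢
    have h4 : p i = fun u => K₀.subtype (p' i u) := funext fun u => (hp' i hi u).symm
    have h5 := eval₂_comp_left K₀.subtype (RingHom.id K₀) (p' i) x
    rw [eval_map, h4]
    have h6 : eval₂ (RingHom.id K₀) (p' i) x = 0 := hx
    rw [h6, map_zero] at h5
    simpa [Function.comp_def] using h5.symm

theorem s_ku (h0 : S_zero) (h1 : S_mu) (h2 : S_sec) (h3 : S_sub) : S_ku := by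
  classical
  intro N K _ _ ι p hN hp T τ hτ hc J hJ
  refine reduce_sum T p hτ hJ fun q hq _ hd => ?_
  have hτ1 : 1 ≤ τ := one_le_Ku τ hτ N hN (by
    have : (0 : ℝ) ≤ T.card := Nat.cast_nonneg _
    linarith)
  have hdg := dg_nonneg 1 q
  set U := T.filter fun i => 0 < mu (p i) 1 q with hU
  have hsum : ∑ i ∈ T, mu (p i) 1 q = ∑ i ∈ U, mu (p i) 1 q := by
    refine (Finset.sum_subset (Finset.filter_subset _ _) fun i hi hi' => ?_).symm
    rw [Finset.mem_filter, not_and] at hi'
    exact le_antisymm (not_lt.1 (hi' hi)) (mu_nonneg _ _ _)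
  rw [hsum]
  rcases U.eq_empty_or_nonempty with hE | hne
  · rw [hE, Finset.sum_empty]; positivity
  obtain ⟨i₀, hi₀, hmin⟩ := Finset.exists_min_image U (fun i => mu (p i) 1 q) hne
  rw [← Finset.add_sum_erase U _ hi₀]
  set V := U.erase i₀ with hV
  rcases V.eq_empty_or_nonempty with hE | hne'
  · rw [hE, Finset.sum_empty, add_zero]
    have := h1 N K (p i₀) 1 q hd
    nlinarith
  set s : ℝ := (V.card : ℝ) with hs
  have hs1 : 1 ≤ s := by rw [hs]; exact_mod_cast hne'.card_pos
  have hsT : s ≤ T.card := by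
    rw [hs]
    exact_mod_cast Finset.card_le_card ((Finset.erase_subset _ _).trans (Finset.filter_subset _ _))
  have hρ : 0 < τ * s / (s + 1) := by positivity
  obtain ⟨n, F, hn, hF0, hFd, hFm⟩ := poly_Ku h2 h3 p hp i₀ V (Finset.notMem_erase _ _) _ hρ
    (num2_Ku s τ hs1 N (by linarith))
  have hqm : q ≤ mx (p i₀) := by
    by_contra hcon
    have := (Finset.mem_filter.1 hi₀).2
    rw [mu_eq_zero hcon] at this
    exact lt_irrefl _ this
  have hFq : F ∉ q := fun h => hF0 (hqm h)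
  have hd0 : Dim (q ⊔ Ideal.span {F}) 0 := Dim.slice (w := 0) hd hq hFq
  have ha : (n : ℝ) * ∑ i ∈ V, mu (p i) 1 q ≤ ∑ i ∈ V, mu (p i) 0 (q ⊔ Ideal.span {F}) := by
    rw [Finset.mul_sum]
    exact Finset.sum_le_sum fun i hi =>
      mu_slice (w := 0) (p i) (Ideal.mem_sup_right (hFm i hi)) hd0
  have hb := h0 N K ι V p (Gen.injective hN hp).injOn _ hd0
  have hc' : dg 0 (q ⊔ Ideal.span {F}) ≤ F.totalDegree * dg 1 q :=
    Dim.dg_slice (w := 0) hd hq hFq le_rfl
  have hn' : (0 : ℝ) < n := by exact_mod_cast hn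
  have he : ∑ i ∈ V, mu (p i) 1 q ≤ τ * s / (s + 1) * dg 1 q := by
    refine le_of_mul_le_mul_left ?_ hn'
    have := mul_le_mul_of_nonneg_right hFd hdg
    linarith
  have hf : s * mu (p i₀) 1 q ≤ ∑ i ∈ V, mu (p i) 1 q := by
    have := Finset.card_nsmul_le_sum V (fun i => mu (p i) 1 q) (mu (p i₀) 1 q)
      fun i hi => hmin i (Finset.mem_of_mem_erase hi)
    rwa [nsmul_eq_mul] at this
  have hs0 : 0 < s := by linarith
  refine le_of_mul_le_mul_left ?_ hs0
  have hg : (s + 1) * (τ * s / (s + 1) * dg 1 q) = s * (τ * dg 1 q) := by field_simp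
  have := mul_le_mul_of_nonneg_left he (by linarith : 0 ≤ s + 1)
  linarith

end Pool.Agent.MP_5499e5_ag.W

end

section

set_option autoImplicit false

namespace Pool.Agent.MP_5499e5_ag.W

open Filter MvPolynomial

theorem tr_cD_Pt {N : ℕ} {K : Type} [Field K] {K₀ : Subfield K} {y : Fin N → K}
    {δ : Fin N → Derivation K₀ K K} (hδ : Dual δ y) (u : Fin N) (f : A N K) :
    tr y (cD (δ u) f) = cD (δ u) (tr y f) - pderiv u (tr y f) := by
  classical
  induction f using MvPolynomial.induction_on with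
  | C a => simp
  | add a b ha hb => simp only [map_add, ha, hb]; ring
  | mul_X a v ha =>
    have h1 : (C (δ u (y v)) : A N K) = pderiv u (X v : A N K) := by
      rw [hδ u v, pderiv_X, Pi.single_apply]
      by_cases h : u = v
      · simp [h]
      · simp [h, Ne.symm h]
    simp only [map_mul, Derivation.leibniz, smul_eq_mul, map_add, cD_X, cD_C, tr_X, ha, mul_zero,
      zero_add, h1, pderiv_C, add_zero]
    ring

theorem mem_pow_iff_Pt {N : ℕ} {K : Type} [Field K] (y : Fin N → K) (k : ℕ) (f : A N K) :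
    f ∈ mx y ^ k ↔ tr y f ∈ mx (0 : Fin N → K) ^ k := by
  rw [mem_mx_pow_iff, mem_mx_pow_iff, tr_zero]

theorem finrank_map_Pt {N : ℕ} {K : Type} [Field K] (y : Fin N → K) (W : Submodule K (A N K)) :
    Module.finrank K (W.map (tr y).toLinearMap) = Module.finrank K W :=
  (LinearEquiv.finrank_eq (Submodule.equivMapOfInjective (tr y).toLinearMap (tr_injective y) W)).symm

theorem s_pt (h : S_pt0) : S_pt := by
  intro n K _ _ K₀ y δ V d k hδ hV hD
  have h1 : V.map (tr y).toLinearMap ≤ Le (n + 1) K d := by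
    rintro _ ⟨f, hf, rfl⟩
    exact mem_Le.2 ((totalDegree_tr_le y f).trans (mem_Le.1 (hV hf)))
  have h2 : ∀ f ∈ V.map (tr y).toLinearMap, ∀ u, ∃ g : A (n + 1) K, g.support ⊆ f.support ∧
      g - pderiv u f ∈ V.map (tr y).toLinearMap := by
    rintro _ ⟨f, hf, rfl⟩ u
    exact ⟨cD (δ u) (tr y f), support_cD _ _, cD (δ u) f, hD f hf u, tr_cD_Pt hδ u f⟩
  obtain ⟨h3, h4⟩ := h n K _ d k h1 h2
  have h5 : (V ⊓ (mx y ^ k).restrictScalars K : Submodule K (A (n + 1) K)).map (tr y).toLinearMap =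
      V.map (tr y).toLinearMap ⊓ (mx 0 ^ k).restrictScalars K := by
    apply le_antisymm
    · rintro _ ⟨f, ⟨hf, hf'⟩, rfl⟩
      exact ⟨⟨f, hf, rfl⟩, (mem_pow_iff_Pt y k f).1 hf'⟩
    · rintro _ ⟨⟨f, hf, rfl⟩, hf'⟩
      exact ⟨f, ⟨hf, (mem_pow_iff_Pt y k f).2 hf'⟩, rfl⟩
  refine ⟨fun hne hle => h3 ?_ ?_, ?_⟩
  · intro h0
    apply hne
    rw [eq_bot_iff]
    intro f hf
    have : tr y f ∈ V.map (tr y).toLinearMap := ⟨f, hf, rfl⟩
    rw [h0, Submodule.mem_bot] at this
    exact (Submodule.mem_bot K).2 (tr_injective y (this.trans (map_zero _).symm))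
  · rintro _ ⟨f, hf, rfl⟩
    have h6 : f ∈ mx y ^ 1 := by rw [pow_one]; exact hle hf
    have h7 := (mem_pow_iff_Pt y 1 f).1 h6
    rw [pow_one] at h7
    exact h7
  · rw [← h5, finrank_map_Pt, finrank_map_Pt] at h4
    exact h4

end Pool.Agent.MP_5499e5_ag.W

end

section

set_option autoImplicit false

namespace Pool.Agent.MP_5499e5_ag.W

open Filter MvPolynomial

section aux

variable {N : ℕ} {K : Type} [Field K]

/-- `β` is the least exponent of `f`. -/
def Low_Pt0 (f : A N K) (β : Fin N →₀ ℕ) : Prop :=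
  coeff β f ≠ 0 ∧ ∀ γ, coeff γ f ≠ 0 → toDegLex β ≤ toDegLex γ

/-- The least exponents of the elements of `V`. -/
def E_Pt0 (V : Submodule K (A N K)) : Set (Fin N →₀ ℕ) := {β | ∃ f ∈ V, Low_Pt0 f β}

theorem exists_low_Pt0 {f : A N K} (hf : f ≠ 0) : ∃ β, Low_Pt0 f β := by
  obtain ⟨β, h1, h2⟩ := Finset.exists_min_image f.support (fun γ => toDegLex γ)
    (support_nonempty.2 hf)
  exact ⟨β, mem_support_iff.1 h1, fun γ hγ => h2 γ (mem_support_iff.2 hγ)⟩

theorem lt_add_Pt0 (β : Fin N →₀ ℕ) (u : Fin N) :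
    toDegLex β < toDegLex (β + Finsupp.single u 1) := by
  rw [Finsupp.DegLex.lt_iff]
  left
  simp

theorem down_Pt0 [CharZero K] {V : Submodule K (A N K)}
    (hV : ∀ f ∈ V, ∀ u, ∃ g : A N K, g.support ⊆ f.support ∧ g - pderiv u f ∈ V)
    {β : Fin N →₀ ℕ} {u : Fin N} (h : β + Finsupp.single u 1 ∈ E_Pt0 V) : β ∈ E_Pt0 V := by
  obtain ⟨f, hf, h1, h2⟩ := h
  obtain ⟨g, hg, hgV⟩ := hV f hf u
  have hg' : ∀ γ, coeff γ g ≠ 0 → toDegLex (β + Finsupp.single u 1) ≤ toDegLex γ :=
    fun γ hγ => h2 γ (mem_support_iff.1 (hg (mem_support_iff.2 hγ)))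
  refine ⟨_, hgV, ?_, fun γ hγ => ?_⟩
  · have h0 : coeff β g = 0 := by
      by_contra h0
      exact absurd (hg' β h0) (not_le.2 (lt_add_Pt0 β u))
    rw [coeff_sub, h0, coeff_pderiv, zero_sub, neg_ne_zero]
    refine mul_ne_zero h1 ?_
    exact_mod_cast Nat.succ_ne_zero (β u)
  · by_cases h0 : coeff γ g = 0
    · rw [coeff_sub, h0, coeff_pderiv, zero_sub, neg_ne_zero] at hγ
      have h3 := h2 _ (left_ne_zero_of_mul hγ)
      rw [toDegLex_add, toDegLex_add] at h3
      exact le_of_add_le_add_right h3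
    · exact (lt_add_Pt0 β u).le.trans (hg' γ h0)

theorem down_add_Pt0 [CharZero K] {V : Submodule K (A N K)}
    (hV : ∀ f ∈ V, ∀ u, ∃ g : A N K, g.support ⊆ f.support ∧ g - pderiv u f ∈ V)
    (δ : Fin N →₀ ℕ) : ∀ β, β + δ ∈ E_Pt0 V → β ∈ E_Pt0 V := by
  induction δ using Finsupp.induction_linear with
  | zero => intro β h; rwa [add_zero] at h
  | add a b ha hb => intro β h; exact ha β (hb _ (by rwa [add_assoc]))
  | single u c =>
    induction c with
    | zero => intro β h; rwa [Finsupp.single_zero, add_zero] at h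
    | succ c ih =>
      intro β h
      rw [Finsupp.single_add, ← add_assoc] at h
      exact ih β (down_Pt0 hV h)

theorem down_le_Pt0 [CharZero K] {V : Submodule K (A N K)}
    (hV : ∀ f ∈ V, ∀ u, ∃ g : A N K, g.support ⊆ f.support ∧ g - pderiv u f ∈ V)
    {α β : Fin N →₀ ℕ} (h : α ≤ β) (hβ : β ∈ E_Pt0 V) : α ∈ E_Pt0 V :=
  down_add_Pt0 hV (β - α) α (by rwa [add_tsub_cancel_of_le h])

theorem finrank_le_Pt0 {V : Submodule K (A N K)} {S : Finset (Fin N →₀ ℕ)}
    (hS : ∀ β ∈ E_Pt0 V, β ∈ S) : Module.finrank K V ≤ S.card := by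
  let φ : V →ₗ[K] (S → K) := LinearMap.pi fun β => (lcoeff K β.1).comp V.subtype
  have hφ : Function.Injective φ := by
    rw [injective_iff_map_eq_zero]
    intro f hf
    by_contra h0
    have h1 : (f : A N K) ≠ 0 := fun h => h0 (Subtype.ext h)
    obtain ⟨β, hβ⟩ := exists_low_Pt0 h1
    exact hβ.1 (congrFun hf ⟨β, hS β ⟨f, f.2, hβ⟩⟩)
  have := LinearMap.finrank_le_finrank_of_injective hφ
  rwa [Module.finrank_fintype_fun_eq_card, Fintype.card_coe] at this

theorem tri_Pt0 {S : Finset (Fin N →₀ ℕ)} (F : S → A N K) (hF : ∀ α, Low_Pt0 (F α) α.1)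
    (c : S → K) (hc : ∀ α : S, coeff α.1 (∑ γ, c γ • F γ) = 0) : c = 0 := by
  classical
  by_contra h0
  have hne : (Finset.univ.filter fun α => c α ≠ 0).Nonempty := by
    obtain ⟨α, hα⟩ := Function.ne_iff.1 h0
    exact ⟨α, Finset.mem_filter.2 ⟨Finset.mem_univ _, hα⟩⟩
  obtain ⟨α, h1, h2⟩ := Finset.exists_min_image _ (fun γ : S => toDegLex γ.1) hne
  have h3 := hc α
  rw [coeff_sum, Finset.sum_eq_single α] at h3
  · rw [coeff_smul, smul_eq_mul] at h3
    exact mul_ne_zero (Finset.mem_filter.1 h1).2 (hF α).1 h3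
  · intro γ _ hγ
    rw [coeff_smul, smul_eq_mul]
    by_contra h4
    have h5 := h2 γ (Finset.mem_filter.2 ⟨Finset.mem_univ _, left_ne_zero_of_mul h4⟩)
    have h6 := (hF γ).2 _ (right_ne_zero_of_mul h4)
    exact hγ (Subtype.ext (toDegLex_injective (le_antisymm h6 h5)))
  · intro h; exact absurd (Finset.mem_univ _) h

theorem full_Pt0 {V : Submodule K (A N K)} [Module.Finite K V] {k : ℕ}
    {S : Finset (Fin N →₀ ℕ)} (hS : ∀ α ∈ S, α.degree < k ∧ α ∈ E_Pt0 V) :
    Module.finrank K (V ⊓ (mx 0 ^ k).restrictScalars K : Submodule K (A N K)) + S.card ≤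
      Module.finrank K V := by
  choose F hFV hF using fun α : S => (hS α.1 α.2).2
  let ψ : (S → K) →ₗ[K] A N K := Fintype.linearCombination K F
  have key : ∀ c, ψ c ∈ mx (0 : Fin N → K) ^ k → c = 0 := by
    intro c hc
    refine tri_Pt0 F hF c fun α => ?_
    have := mem_mx_pow_iff.1 hc α.1 (hS α.1 α.2).1
    rwa [tr_zero, Fintype.linearCombination_apply] at this
  have hinj : Function.Injective ψ := by
    rw [injective_iff_map_eq_zero]
    exact fun c hc => key c (by rw [hc]; exact zero_mem _)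
  have hU : LinearMap.range ψ ≤ V := by
    rintro _ ⟨c, rfl⟩
    rw [Fintype.linearCombination_apply]
    exact V.sum_mem fun α _ => V.smul_mem _ (hFV α)
  have h1 : Module.finrank K (LinearMap.range ψ) = S.card := by
    rw [LinearMap.finrank_range_of_inj hinj, Module.finrank_fintype_fun_eq_card, Fintype.card_coe]
  have hW : (V ⊓ (mx 0 ^ k).restrictScalars K : Submodule K (A N K)) ≤ V := inf_le_left
  have i1 := Submodule.finiteDimensional_of_le hW
  have i2 := Submodule.finiteDimensional_of_le hU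
  have h2 := Submodule.finrank_sup_add_finrank_inf_eq
    (V ⊓ (mx 0 ^ k).restrictScalars K : Submodule K (A N K)) (LinearMap.range ψ)
  have h3 : (V ⊓ (mx 0 ^ k).restrictScalars K : Submodule K (A N K)) ⊓ LinearMap.range ψ = ⊥ := by
    refine eq_bot_iff.2 ?_
    rintro _ ⟨hf, c, rfl⟩
    rw [key c hf.2, map_zero]
    exact zero_mem _
  rw [h3, finrank_bot, h1] at h2
  have h4 := Submodule.finrank_mono (sup_le hW hU)
  omega

end aux

/-- Exponents in a box that is short in one direction. -/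
theorem box_Pt0 (n d k : ℕ) : ∃ S : Finset (Fin (n + 1) →₀ ℕ),
    S.card ≤ (n + 1) * k * (d + 1) ^ n ∧
      ∀ β : Fin (n + 1) →₀ ℕ, (∀ v, β v ≤ d) → (∃ u, β u < k) → β ∈ S := by
  classical
  let B : Fin (n + 1) → Finset (Fin (n + 1) → ℕ) := fun u =>
    Fintype.piFinset fun v => if v = u then Finset.range k else Finset.range (d + 1)
  have hB : ∀ u, (B u).card = k * (d + 1) ^ n := by
    intro u
    rw [Fintype.card_piFinset, Fin.prod_univ_succAbove _ u]
    simp [Fin.succAbove_ne]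
  refine ⟨(Finset.univ.biUnion B).image Finsupp.equivFunOnFinite.symm, ?_, ?_⟩
  · refine Finset.card_image_le.trans (Finset.card_biUnion_le.trans ?_)
    simp [hB, mul_assoc]
  · rintro β h1 ⟨u, hu⟩
    refine Finset.mem_image.2 ⟨β, Finset.mem_biUnion.2 ⟨u, Finset.mem_univ _, ?_⟩, by simp⟩
    refine Fintype.mem_piFinset.2 fun v => ?_
    split_ifs with h
    · rw [h]; exact Finset.mem_range.2 hu
    · exact Finset.mem_range.2 (Nat.lt_succ_of_le (h1 v))

theorem s_pt0 : S_pt0 := by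
  intro n K _ _ V d k hd hV
  have : Module.Finite K V := Submodule.finiteDimensional_of_le hd
  refine ⟨fun h0 hle => ?_, ?_⟩
  · obtain ⟨f, hf, hf0⟩ := (Submodule.ne_bot_iff V).1 h0
    obtain ⟨β, hβ⟩ := exists_low_Pt0 hf0
    obtain ⟨g, hg, h1, -⟩ := down_le_Pt0 hV (bot_le : (0 : Fin (n + 1) →₀ ℕ) ≤ β) ⟨f, hf, hβ⟩
    have h2 : g ∈ mx (0 : Fin (n + 1) → K) ^ 1 := by rw [pow_one]; exact hle hg
    have h3 := mem_mx_pow_iff.1 h2 0 (by simp)
    rw [tr_zero] at h3
    exact h1 h3
  · by_cases hall : ∀ α : Fin (n + 1) →₀ ℕ, α.degree < k → α ∈ E_Pt0 V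
    · right
      rcases k with _ | k
      · have := full_Pt0 (V := V) (k := 0) (S := ∅) (by simp)
        simpa using this
      · have := full_Pt0 (V := V) (k := k + 1) (S := ex (n + 1) k) fun α hα =>
          ⟨Nat.lt_succ_of_le (mem_ex.1 hα), hall α (Nat.lt_succ_of_le (mem_ex.1 hα))⟩
        rw [card_ex] at this
        rwa [show k + 1 + n = k + (n + 1) by ring]
    · left
      push Not at hall
      obtain ⟨α, hα, hαE⟩ := hall
      obtain ⟨S, h1, h2⟩ := box_Pt0 n d k
      refine (finrank_le_Pt0 fun β hβ => h2 β (fun v => ?_) ?_).trans h1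
      · obtain ⟨f, hf, h3, -⟩ := hβ
        exact (Finsupp.le_degree v β).trans
          (totalDegree_le_iff.1 (mem_Le.1 (hd hf)) β (mem_support_iff.2 h3))
      · by_contra h3
        push Not at h3
        refine hαE (down_le_Pt0 hV (fun v => ?_) hβ)
        exact ((Finsupp.le_degree v α).trans hα.le).trans (h3 v)

end Pool.Agent.MP_5499e5_ag.W

end

section

set_option autoImplicit false

namespace Pool.Agent.MP_5499e5_ag.W

open Filter MvPolynomial

theorem basis_Sub {K : Type} [Field K] [CharZero K] {σ : Type} {y : σ → K} {t : Set K}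
    (ht : IsTranscendenceBasis ℚ ((↑) : t → K)) (hy : Function.Injective y)
    (hs : Set.range y ⊆ t) :
    IsTranscendenceBasis (IntermediateField.adjoin ℚ (t \ Set.range y)) y := by
  rw [IntermediateField.isTranscendenceBasis_adjoin_iff]
  have e : ((↑) : t → K) '' {x : t | x.1 ∉ Set.range y} = t \ Set.range y := by
    ext x
    simp [and_comm]
  have h1 := ht.1.adjoin_of_disjoint (s := {x : t | x.1 ∉ Set.range y})
    (t := {x : t | x.1 ∈ Set.range y}) (Set.disjoint_left.2 fun _ h h' => h h')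
  rw [e] at h1
  have h2 : AlgebraicIndependent (Algebra.adjoin ℚ (t \ Set.range y)) y :=
    h1.comp (fun u => ⟨⟨y u, hs ⟨u, rfl⟩⟩, ⟨u, rfl⟩⟩) fun u v h =>
      hy (congrArg (fun z : {x : t | x.1 ∈ Set.range y} => z.1.1) h)
  rw [h2.isTranscendenceBasis_iff_isAlgebraic]
  have h3 := ht.isAlgebraic
  rw [Subtype.range_coe] at h3
  have e2 : Algebra.adjoin ℚ t =
      (Algebra.adjoin (Algebra.adjoin ℚ (t \ Set.range y)) (Set.range y)).restrictScalars ℚ := by
    rw [← Algebra.adjoin_union_eq_adjoin_adjoin, Set.sdiff_union_of_subset hs]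
  rw [e2] at h3
  exact h3

theorem s_sub : S_sub := by
  intro N K _ _ ι p hp i₀
  have : Algebra.IsAlgebraic ℤ ℚ := IsLocalization.isAlgebraic ℚ (nonZeroDivisors ℤ)
  have hq : AlgebraicIndependent ℚ fun x : ι × Fin N => p x.1 x.2 :=
    (Algebra.IsAlgebraic.algebraicIndependent_iff ℤ ℚ).1 hp
  obtain ⟨t, h1, h2⟩ := exists_isTranscendenceBasis_superset hq.to_subtype_range
  have hinj := hq.injective
  refine ⟨(IntermediateField.adjoin ℚ (t \ Set.range (p i₀))).toSubfield, fun i hi u => ?_, ?_⟩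
  · refine IntermediateField.subset_adjoin ℚ _ ⟨h1 ⟨(i, u), rfl⟩, ?_⟩
    rintro ⟨v, hv⟩
    exact hi (congrArg Prod.fst (hinj (a₁ := (i₀, v)) (a₂ := (i, u)) hv)).symm
  · exact basis_Sub h2 (fun u v h => congrArg Prod.snd (hinj (a₁ := (i₀, u)) (a₂ := (i₀, v)) h))
      (by rintro _ ⟨u, rfl⟩; exact h1 ⟨(i₀, u), rfl⟩)

end Pool.Agent.MP_5499e5_ag.W

end

section

set_option autoImplicit false
namespace Pool.Agent.MP_5499e5_ag.W
open Filter MvPolynomial

section
variable {N : ℕ} {K : Type} [Field K] {p : Fin N → K} {J : Ideal (A N K)}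

theorem ub_Zero (h : mx p ≤ J) : UB (lf p J) 0 1 := fun ε hε => Eventually.of_forall fun s => by
  have h1 : ⊥ ⊔ mx p ^ (0 + 1) ≤ J ⊔ mx p ^ s := by simpa using h.trans le_sup_left
  have h2 : lf p J s ≤ lf p ⊥ (0 + 1) :=
    LinearMap.finrank_le_finrank_of_surjective (f := facL h1) fun x =>
      (mkL_surj _ x).elim fun f hf => ⟨mkL _ f, hf⟩
  rw [lf_bot, zero_add, Nat.choose_self, ← Nat.cast_le (α := ℝ)] at h2
  simpa using h2.trans (by simp [hε.le])

theorem dg_Zero (h : J ≤ mx p) (hJ : Dim J 0) : 1 ≤ dg 0 J := by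
  refine Bdd.le_lo hJ fun ε hε => Eventually.of_forall fun t => ?_
  have h1 : 1 ≤ hf J t := Submodule.one_le_finrank_iff.2 ((Submodule.ne_bot_iff _).2
    ⟨mkL J 1, ⟨1, mem_Le.2 (by simp), rfl⟩, fun h0 => by
      simpa [mem_mx] using h (mkL_eq_zero.1 h0)⟩)
  rw [← Nat.cast_le (α := ℝ)] at h1
  simpa using ((sub_le_self _ hε.le).trans h1)

theorem eq_Zero (hq : J.IsPrime) (h : J ≤ mx p) (hJ : Dim J 0) : J = mx p := by
  refine le_antisymm h fun g hg => by_contra fun hg' => ?_
  have h1 := (hJ.mono zero_le_one).dg_slice hq hg' le_rfl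
  have h2 := dg_Zero (sup_le h ((Ideal.span_singleton_le_iff_mem _).2 hg)) (hJ.anti le_sup_left)
  rw [hJ.dg_succ] at h1
  linarith

end

theorem s_zero : S_zero := by
  intro N K _ ι T p hp J hJ
  refine (reduce_sum T p zero_le_one hJ fun q hq _ h => ?_).trans_eq (one_mul _)
  rw [one_mul]
  by_cases h1 : ∃ i ∈ T, q ≤ mx (p i)
  · obtain ⟨i, hi, h1⟩ := h1
    have h2 := eq_Zero hq h1 h
    rw [Finset.sum_eq_single_of_mem i hi fun j hj hne => mu_eq_zero (fun h3 => hne
      (hp hj hi (funext fun u => ?_))) 0]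
    · exact (ub_Zero h2.ge).up_le.trans (dg_Zero h1 h)
    · simpa [mem_mx, sub_eq_zero] using h3 (h2.ge (X_sub_mem_mx (p i) u))
  · rw [Finset.sum_eq_zero fun i hi => mu_eq_zero (fun h2 => h1 ⟨i, hi, h2⟩) 0]
    exact dg_nonneg _ _

theorem s_mu (h : S_zero) : S_mu := by
  intro N K _ p w
  induction w with
  | zero => exact fun J hJ => by simpa using h N K Unit {()} (fun _ => p) (by simp) J hJ
  | succ w ih =>
    intro J hJ
    refine (reduce_prime zero_le_one (mu p (w + 1)) (mu_top _ _).le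
      (fun J g h => h.mu_es p g) hJ fun q hq _ h1 => ?_).trans_eq (one_mul _)
    by_cases h2 : mx p ≤ q
    · exact (Bdd.mono ⟨1, ub_Zero h2⟩ w.zero_le).succ_zero.up_le.trans
        (mul_nonneg zero_le_one (dg_nonneg _ _))
    · obtain ⟨u, hu⟩ : ∃ u, (X u - C (p u) : A N K) ∉ q := not_forall.1 fun h3 => h2 (by
        rw [mx_eq_span, Ideal.span_le]
        rintro _ ⟨u, rfl⟩
        exact h3 u)
      have h3 := mu_slice p (a := 1) (Ideal.mem_sup_right (by simpa using X_sub_mem_mx p u))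
        (h1.slice hq hu)
      have h4 := h1.dg_slice hq hu (d := 1) ((totalDegree_sub _ _).trans (by simp))
      simpa using h3.trans ((ih _ (h1.slice hq hu)).trans h4)

end Pool.Agent.MP_5499e5_ag.W

end
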