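import Pool.Agent.Mg.F5499e5ap.G6fdc2b

set_option linter.all false

set_option autoImplicit false
namespace Pool.Agent.MP_5499e5_ag.W
open Filter MvPolynomial

theorem pow_le_Num2Q (h : ℝ) (h0 : 0 ≤ h) (h1 : h ≤ 1) (k : ℕ) :
    (1 + h) ^ k ≤ 1 + (2 ^ k - 1) * h := by
  induction k with
  | zero => simp
  | succ k ih =>
    have h2 : (1 : ℝ) ≤ 2 ^ k := one_le_pow₀ (by norm_num)
    have h3 : (1 + h) ^ (k + 1) ≤ (1 + (2 ^ k - 1) * h) * (1 + h) := by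
      rw [pow_succ]; exact mul_le_mul_of_nonneg_right ih (by linarith)
    have h4 : (2 ^ k - 1) * h * h ≤ (2 ^ k - 1) * h * 1 :=
      mul_le_mul_of_nonneg_left h1 (mul_nonneg (by linarith) h0)
    rw [pow_succ (2 : ℝ) k]
    nlinarith

theorem main_Num2Q (h τ a b R r : ℝ) (h0 : 0 < h) (h1 : h ≤ 1) (ha : 0 < a)
    (hR : 0 < R) (A Bm : ℝ) (hA : 0 < A) (hB : (1 + h) * b ≤ Bm)
    (hr : r ≤ a * τ * b) (hτ : 0 < τ) (hRl : A * Bm ≤ R * (1 + h / 3)) :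
    r / R * A ≤ (1 - h / 3) * (a * τ) := by
  rw [div_mul_eq_mul_div, div_le_iff₀ hR]
  have h5 : A * ((1 + h) * b) ≤ R * (1 + h / 3) :=
    le_trans (mul_le_mul_of_nonneg_left hB hA.le) hRl
  have h6 : R * (1 + h / 3) ≤ R * ((1 - h / 3) * (1 + h)) :=
    mul_le_mul_of_nonneg_left (by nlinarith) hR.le
  have h7 : A * b * (1 + h) ≤ R * (1 - h / 3) * (1 + h) := by nlinarith
  have h8 : A * b ≤ R * (1 - h / 3) := le_of_mul_le_mul_right h7 (by linarith)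
  have h9 : r * A ≤ a * τ * b * A := mul_le_mul_of_nonneg_right hr hA.le
  have h10 : a * τ * (A * b) ≤ a * τ * (R * (1 - h / 3)) :=
    mul_le_mul_of_nonneg_left h8 (by positivity)
  nlinarith

theorem s_num2q : S_num2q := by
  intro n w hw
  refine ⟨2 * n + 7, by omega, fun x hx τ r hτ hr => ?_⟩
  have hx0 : 0 < x := by linarith
  have hx1 : 1 ≤ x := by linarith
  obtain ⟨h, hh⟩ : ∃ h : ℝ, h = 1 / (x * 2 ^ (w + 2)) := ⟨_, rfl⟩
  have h2w : (1 : ℝ) ≤ 2 ^ w := one_le_pow₀ (by norm_num)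
  have h2n : (1 : ℝ) ≤ 2 ^ n := one_le_pow₀ (by norm_num)
  have h0 : 0 < h := by rw [hh]; positivity
  have hhx : h * (x * 2 ^ (w + 2)) = 1 := by rw [hh]; field_simp
  have hpw : (2 : ℝ) ^ (w + 2) = 4 * 2 ^ w := by ring
  have hpw1 : (2 : ℝ) ^ (w + 1) = 2 * 2 ^ w := by ring
  have h1 : h ≤ 1 := by
    rw [hh, div_le_one (by positivity), hpw]; nlinarith
  obtain ⟨X, hX⟩ : ∃ X : ℝ, X = x ^ (2 * n + 7) := ⟨_, rfl⟩
  rw [← hX] at hτ ⊢
  have hXx : x ≤ X := by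
    rw [hX]; exact le_self_pow₀ hx1 (by omega)
  have hX2 : x ^ 2 ≤ X := by
    rw [hX]; exact pow_le_pow_right₀ hx1 (by omega)
  have hX0 : 0 < X := by linarith
  have hXh : 8 * 2 ^ n ≤ X * h := by
    have e1 : (2 : ℝ) ^ (n + w + 5) ≤ x ^ (n + w + 5) := pow_le_pow_left₀ (by norm_num) hx _
    have e2 : x ^ (n + w + 5 + 1) ≤ X := by
      rw [hX]; exact pow_le_pow_right₀ hx1 (by omega)
    have e3 : (2 : ℝ) ^ (n + w + 5) * x ≤ X := by
      refine le_trans ?_ e2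
      rw [pow_succ x]; exact mul_le_mul_of_nonneg_right e1 hx0.le
    have e4 : (2 : ℝ) ^ (n + w + 5) * x = 8 * 2 ^ n * (x * 2 ^ (w + 2)) := by ring
    have e5 : 8 * 2 ^ n * (x * 2 ^ (w + 2)) * h ≤ X * h := by
      rw [← e4]; exact mul_le_mul_of_nonneg_right e3 h0.le
    have e6 : 8 * 2 ^ n * (x * 2 ^ (w + 2)) * h = 8 * 2 ^ n * (h * (x * 2 ^ (w + 2))) := by ring
    rw [e6, hhx] at e5
    linarith
  have hτ0 : 0 < τ := by linarith
  have hτh : 8 * 2 ^ n ≤ τ * h := le_trans hXh (mul_le_mul_of_nonneg_right hτ h0.le)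
  obtain ⟨σ, hσ⟩ : ∃ σ : ℝ, σ = (1 + h) * τ := ⟨_, rfl⟩
  have hτσ : τ ≤ σ := by rw [hσ]; nlinarith only [h0, hτ0]
  have hσ2 : 2 ≤ σ := by linarith
  have hσ0 : 0 < σ := by linarith
  have hσn : σ ≤ σ ^ n := le_self_pow₀ (by linarith) (by omega)
  have hσ2n : (2 : ℝ) ^ n ≤ σ ^ n := pow_le_pow_left₀ (by norm_num) hσ2 _
  have hfl : 2 ^ n ≤ ⌊σ ^ n⌋₊ := Nat.le_floor (by push_cast; exact hσ2n)
  obtain ⟨r', hr'⟩ : ∃ r' : ℕ, r' = ⌊σ ^ n⌋₊ - 2 ^ n := ⟨_, rfl⟩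
  have hcast : (r' : ℝ) = (⌊σ ^ n⌋₊ : ℝ) - 2 ^ n := by
    rw [hr', Nat.cast_sub hfl]; push_cast; ring
  have hup : (⌊σ ^ n⌋₊ : ℝ) ≤ σ ^ n := Nat.floor_le (by positivity)
  have hlo : σ ^ n < (⌊σ ^ n⌋₊ : ℝ) + 1 := Nat.lt_floor_add_one _
  have hSh : 8 * 2 ^ n ≤ σ ^ n * h :=
    le_trans hτh (mul_le_mul_of_nonneg_right (le_trans hτσ hσn) h0.le)
  have hS8 : 8 * 2 ^ n ≤ σ ^ n := by
    have : σ ^ n * h ≤ σ ^ n * 1 := mul_le_mul_of_nonneg_left h1 (by positivity)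
    linarith
  have hR0 : (0 : ℝ) < r' := by rw [hcast]; linarith
  have hRn : 0 < r' := by exact_mod_cast hR0
  have hRl : σ ^ n ≤ (r' : ℝ) * (1 + h / 3) := by
    have e1 : σ ^ n - 2 * 2 ^ n ≤ (r' : ℝ) := by rw [hcast]; linarith
    have e2 : (σ ^ n - 2 * 2 ^ n) * (1 + h / 3) ≤ (r' : ℝ) * (1 + h / 3) :=
      mul_le_mul_of_nonneg_right e1 (by linarith)
    have e3 : (2 : ℝ) ^ n * h ≤ 2 ^ n * 1 := mul_le_mul_of_nonneg_left h1 (by positivity)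
    nlinarith only [e2, e3, hSh, h2n]
  have hτw : 0 < τ ^ w := by positivity
  have hinv : 1 / X ≤ h / 6 := by
    rw [div_le_iff₀ hX0]; nlinarith only [hXh, h2n]
  refine ⟨σ, r', r / r' + 1, by linarith, by rw [hcast]; linarith, ?_, ?_, ?_⟩
  · have := Nat.lt_div_mul_add (a := r) hRn
    rw [add_mul, one_mul]; omega
  · have e1 := pow_le_Num2Q h h0.le h1 (w + 1)
    have e2 : (1 + h) ^ (w + 1) ≤ 1 + 1 / (2 * x) := by
      have : (2 : ℝ) ^ (w + 1) * h = 1 / (2 * x) := by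
        rw [hh, hpw, hpw1]; field_simp; ring
      nlinarith only [this, e1, h0]
    have e3 : 0 ≤ 1 - 1 / x := by
      rw [sub_nonneg, div_le_one hx0]; exact hx1
    have e4 : (1 - 1 / x) * (1 + 1 / (2 * x)) ≤ 1 - 1 / X := by
      have f1 : 1 / X ≤ 1 / x ^ 2 := one_div_le_one_div_of_le (by positivity) hX2
      have f2 : 1 / x ^ 2 ≤ 1 / (2 * x) := one_div_le_one_div_of_le (by positivity) (by nlinarith only [hx])
      have f3 : (1 - 1 / x) * (1 + 1 / (2 * x)) = 1 - 1 / (2 * x) - 1 / (2 * x ^ 2) := by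
        field_simp; ring
      have f4 : 0 ≤ 1 / (2 * x ^ 2) := by positivity
      linarith
    rw [hσ, mul_pow, ← mul_assoc]
    refine mul_le_mul_of_nonneg_right ?_ (by positivity)
    exact le_trans (mul_le_mul_of_nonneg_left e2 e3) e4
  · obtain ⟨m, hm⟩ : ∃ m, n = w + (m + 1) := ⟨n - (w + 1), by omega⟩
    have e1 : (1 + h) * τ ^ (m + 1) ≤ σ ^ (m + 1) := by
      rw [hσ, mul_pow]
      exact mul_le_mul_of_nonneg_right (le_self_pow₀ (by linarith) (by omega)) (by positivity)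
    have e2 : (r : ℝ) ≤ τ ^ w * τ * τ ^ (m + 1) := by
      refine le_trans hr (le_of_eq ?_)
      rw [hm]; ring
    have e3 : σ ^ w * σ ^ (m + 1) ≤ (r' : ℝ) * (1 + h / 3) := by
      rw [← pow_add, ← hm]; exact hRl
    have e4 := main_Num2Q h τ (τ ^ w) (τ ^ (m + 1)) r' r h0 h1 hτw hR0
      (σ ^ w) (σ ^ (m + 1)) (by positivity) e1 e2 hτ0 e3
    have e5 : σ ^ w ≤ 2 * τ ^ w := by
      have f1 := pow_le_Num2Q h h0.le h1 w
      have f2 : (2 : ℝ) ^ w * h ≤ 1 := by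
        rw [hpw] at hhx
        have : 0 ≤ 2 ^ w * h := by positivity
        nlinarith only [this, hhx, hx1]
      rw [hσ, mul_pow]
      exact mul_le_mul_of_nonneg_right (by nlinarith only [f1, f2, h0]) hτw.le
    have e6 : 2 * τ ^ w ≤ h / 6 * (τ ^ w * τ) := by
      have f1 : (2 : ℝ) ≤ 2 ^ n := le_self_pow₀ (by norm_num) (by omega)
      have f2 : τ ^ w * 12 ≤ τ ^ w * (τ * h) := mul_le_mul_of_nonneg_left (by linarith) hτw.le
      nlinarith only [f2]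
    have e7 : ((r / r' + 1 : ℕ) : ℝ) ≤ (r : ℝ) / r' + 1 := by
      push_cast
      have := Nat.cast_div_le (α := ℝ) (m := r) (n := r')
      linarith
    have e8 : ((r / r' + 1 : ℕ) : ℝ) * σ ^ w ≤ ((r : ℝ) / r' + 1) * σ ^ w :=
      mul_le_mul_of_nonneg_right e7 (by positivity)
    have e9 : (1 - h / 6) * (τ ^ w * τ) ≤ (1 - 1 / X) * (τ ^ w * τ) :=
      mul_le_mul_of_nonneg_right (by linarith) (by positivity)
    have e10 : ((r : ℝ) / r' + 1) * σ ^ w = (r : ℝ) / r' * σ ^ w + σ ^ w := by ring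
    have e11 : (1 - h / 6) * (τ ^ w * τ) =
        (1 - h / 3) * (τ ^ w * τ) + h / 6 * (τ ^ w * τ) := by ring
    rw [pow_succ]
    linarith only [e4, e5, e6, e8, e9, e10, e11]

end Pool.Agent.MP_5499e5_ag.W
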