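import Pool.Agent.Mg.F5499e5ap.G658e11
import Pool.Agent.Mg.F5499e5ap.G6fdc2b
import Pool.Agent.Mg.F5499e5ap.G97719f
import Pool.Agent.Mg.F5499e5ap.G2efd38
import Pool.Agent.Mg.F5499e5ap.Gadb18a

set_option linter.all false

section

set_option autoImplicit false
namespace Pool.Agent.MP_5499e5_ag.W
open Filter MvPolynomial

/-- The defect of the bound on multiplicities. -/
noncomputable def D_Bez {N : ℕ} {K : Type} [Field K] {ι : Type} (T : Finset ι)
    (p : ι → Fin N → K) (τ : ℝ) (k : ℕ) (J : Ideal (A N K)) : ℝ :=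
  τ ^ k * dg k J - ∑ i ∈ T, mu (p i) k J

theorem es_Bez {N : ℕ} {K : Type} [Field K] {ι : Type} (T : Finset ι)
    (p : ι → Fin N → K) {τ : ℝ} (hτ : 0 ≤ τ) {k : ℕ} {J : Ideal (A N K)} (h : Dim J k)
    (g : A N K) :
    D_Bez T p τ k (J ⊔ Ideal.span {g}) + D_Bez T p τ k (col J g) ≤ D_Bez T p τ k J := by
  have h1 := mul_le_mul_of_nonneg_left (h.dg_es g) (pow_nonneg hτ k)
  have h2 := Finset.sum_le_sum fun i (_ : i ∈ T) => h.mu_es (p i) g
  rw [Finset.sum_add_distrib] at h2
  unfold D_Bez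
  linarith

theorem slice_Bez {N : ℕ} {K : Type} [Field K] {ι : Type} (T : Finset ι)
    (p : ι → Fin N → K) {τ : ℝ} (hτ : 0 ≤ τ) {k m : ℕ} {q : Ideal (A N K)} (h : Dim q (k + 1))
    (hq : q.IsPrime) {g : A N K} (hg : g ∉ q) (hd : (g.totalDegree : ℝ) ≤ τ * m)
    (hm : ∀ i ∈ T, g ∈ mx (p i) ^ m) :
    D_Bez T p τ k (q ⊔ Ideal.span {g}) ≤ m * D_Bez T p τ (k + 1) q := by
  have h1 := (h.dg_slice hq hg le_rfl).trans
    (mul_le_mul_of_nonneg_right hd (dg_nonneg (k + 1) q))
  have h1' := mul_le_mul_of_nonneg_left h1 (pow_nonneg hτ k)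
  have h2 := Finset.sum_le_sum fun i (hi : i ∈ T) =>
    mu_slice (p i) (Ideal.mem_sup_right (hm i hi)) (h.slice hq hg)
  rw [← Finset.mul_sum] at h2
  unfold D_Bez
  rw [pow_succ]
  nlinarith

theorem one_Bez {f : ℕ → ℕ} (h : ∀ s, f s ≤ 1) : UB f 0 1 := fun ε hε =>
  Eventually.of_forall fun s => by
    have : (f s : ℝ) ≤ 1 := by exact_mod_cast h s
    simp only [Nat.factorial_zero, Nat.cast_one, mul_one, pow_zero]
    linarith

theorem s_bez : S_bez := by
  intro N K _ ι T p τ P F lam G w c m a hτ hKL hP hF0 hL hLB hwc hw hPw hdg ha hG hcut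
  have hD : ∀ k J, Dim J k → 0 ≤ D_Bez T p τ k J := fun k J h => sub_nonneg.2 (hKL k J h)
  have hbot : D_Bez T p τ N (⊥ : Ideal (A N K)) = τ ^ N - T.card := by
    simp [D_Bez, dg_bot, mu_bot]
  change (a : ℝ) ^ c * D_Bez T p τ w P ≤ _
  rw [← hbot]
  have ha' : (0 : ℝ) < a := by exact_mod_cast ha
  rcases (hD w P hPw).eq_or_lt with h0 | h0
  · rw [← h0, mul_zero]
    exact mul_nonneg (by positivity) (hD _ _ (dim_all _))
  have hzero : ∀ (J : Ideal (A N K)) (k : ℕ) (E : ℝ), ¬ J ≤ P → 0 ≤ E → UB (lam J) k E :=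
    fun J k E hJ hE =>
      ((UB_zero k).of_le (Eventually.of_forall fun s => (hL.zero J s hJ).le)).mono hE
  have red : ∀ k : ℕ, (∀ q : Ideal (A N K), q.IsPrime → q ≤ P → Dim q (w + k) →
      UB (lam q) k ((m : ℝ) ^ k * D_Bez T p τ (w + k) q / (a ^ k * D_Bez T p τ w P))) →
      ∀ J : Ideal (A N K), Dim J (w + k) →
      UB (lam J) k ((m : ℝ) ^ k * D_Bez T p τ (w + k) J / (a ^ k * D_Bez T p τ w P)) := by
    intro k hk J
    have hnn : ∀ J : Ideal (A N K), Dim J (w + k) →
        0 ≤ (m : ℝ) ^ k * D_Bez T p τ (w + k) J / (a ^ k * D_Bez T p τ w P) := fun J hJ =>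
      div_nonneg (mul_nonneg (by positivity) (hD _ _ hJ)) (by positivity)
    refine ideal_ind (fun J => Dim J (w + k) →
      UB (lam J) k ((m : ℝ) ^ k * D_Bez T p τ (w + k) J / (a ^ k * D_Bez T p τ w P))) J
      (fun h => hzero _ _ _ (fun h' => hP.ne_top (top_le_iff.1 h')) (hnn _ h))
      (fun q hq _ h => ?_) fun J g _ h1 h2 h => ?_
    · by_cases hqP : q ≤ P
      · exact hk q hq hqP h
      · exact hzero _ _ _ hqP (hnn _ h)
    · refine (((h1 (h.anti le_sup_left)).add (h2 (h.anti (le_col J g)))).of_le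
        (Eventually.of_forall fun s => hL.es J g 0 s (by rw [hF0]; trivial))).mono ?_
      rw [← add_div, ← mul_add]
      exact div_le_div_of_nonneg_right
        (mul_le_mul_of_nonneg_left (es_Bez T p hτ h g) (by positivity)) (by positivity)
  have claim : ∀ k : ℕ, ∀ J : Ideal (A N K), Dim J (w + k) →
      UB (lam J) k ((m : ℝ) ^ k * D_Bez T p τ (w + k) J / (a ^ k * D_Bez T p τ w P)) := by
    intro k
    induction k with
    | zero =>
      refine red 0 fun q hq hqP h => ?_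
      rcases hqP.eq_or_lt with rfl | hlt
      · refine (one_Bez hL.one).mono (le_of_eq ?_)
        simp only [pow_zero, one_mul, add_zero]
        rw [div_self h0.ne']
      · obtain ⟨v, rfl⟩ : ∃ v, w = v + 1 := ⟨w - 1, by omega⟩
        exact absurd (Dim.of_lt h hq hlt).dg_succ hdg.ne'
    | succ k ih =>
      refine red (k + 1) fun q hq hqP h => ?_
      rcases hqP.eq_or_lt with rfl | hlt
      · have hb : Bdd (lam q) 0 := ⟨1, one_Bez hL.one⟩
        exact (hb.mono (Nat.zero_le k)).succ_zero.mono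
          (div_nonneg (mul_nonneg (by positivity) (hD _ _ h)) (by positivity))
      · obtain ⟨g, hgG, hgq⟩ := hcut q hq hlt
        obtain ⟨hg1, hg2, hg3⟩ := hG g hgG
        have h' : Dim q (w + k + 1) := h
        refine ((ih _ (h'.slice hq hgq)).slice ha fun s => (hL.es q g a s hg2).trans
          (Nat.add_le_add_left (hL.anti _ _ s (le_col q g)) _)).mono ?_
        have h3 := slice_Bez T p hτ h' hq hgq hg1 hg3
        rw [div_div, show (a : ℝ) ^ k * D_Bez T p τ w P * a = a ^ (k + 1) * D_Bez T p τ w P by ring]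
        refine div_le_div_of_nonneg_right ?_ (by positivity)
        rw [pow_succ, mul_assoc]
        exact mul_le_mul_of_nonneg_left h3 (by positivity)
  have h1 := hLB.le_of_UB (claim c ⊥ (by rw [hwc]; exact dim_all _))
  rw [hwc, le_div_iff₀ (by positivity), one_mul] at h1
  exact h1

end Pool.Agent.MP_5499e5_ag.W

end

section

set_option autoImplicit false
namespace Pool.Agent.MP_5499e5_ag.W
open Filter MvPolynomial

theorem choose_ge_Hyp (n t d : ℕ) :
    (t + (n + 1)).choose (n + 1) + d * t.choose n ≤ (t + d + (n + 1)).choose (n + 1) := by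
  induction d with
  | zero => simp
  | succ d ih =>
    have h : t.choose n ≤ (t + d + (n + 1)).choose n := Nat.choose_le_choose _ (by omega)
    rw [show t + (d + 1) + (n + 1) = t + d + (n + 1) + 1 by ring, Nat.choose_succ_succ',
      Nat.succ_mul]
    omega

theorem choose_le_Hyp (n t d : ℕ) :
    (t + d + (n + 1)).choose (n + 1) ≤ (t + (n + 1)).choose (n + 1) + d * (t + d + n).choose n := by
  induction d with
  | zero => simp
  | succ d ih =>
    have h : d * (t + d + n).choose n ≤ d * (t + (d + 1) + n).choose n :=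
      Nat.mul_le_mul_left _ (Nat.choose_le_choose _ (by omega))
    rw [show t + d + (n + 1) = t + (d + 1) + n by ring] at ih
    rw [show t + (d + 1) + (n + 1) = t + (d + 1) + n + 1 by ring, Nat.choose_succ_succ',
      Nat.succ_mul]
    omega

variable {N : ℕ} {K : Type} [Field K]

theorem finrank_inf_Hyp {f : A N K} (hf0 : f ≠ 0) (t : ℕ) :
    Module.finrank K (Le N K (t + f.totalDegree) ⊓ (Ideal.span {f}).restrictScalars K :
      Submodule K (A N K)) ≤ Module.finrank K (Le N K t) := by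
  refine (Submodule.finrank_mono fun g hg => ?_).trans
    (Submodule.finrank_map_le (LinearMap.mulRight K f) _)
  have h1 : g ∈ Ideal.span {f} := hg.2
  obtain ⟨c, rfl⟩ := Ideal.mem_span_singleton'.1 h1
  refine ⟨c, ?_, rfl⟩
  rcases eq_or_ne c 0 with rfl | hc
  · exact zero_mem _
  · have h2 := mem_Le.1 hg.1
    rw [totalDegree_mul_of_isDomain hc hf0] at h2
    exact mem_Le.2 (by omega)

theorem s_hypd : S_hypd := by
  intro n K _ f hf0
  have hD : Dim (Ideal.span {f}) n := by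
    have := (dim_all (⊥ : Ideal (A (n + 1) K))).slice Ideal.isPrime_bot (g := f) (by simpa using hf0)
    rwa [bot_sup_eq] at this
  have h := ((LB_choose n).const_mul f.totalDegree).shift f.totalDegree
  rw [mul_one] at h
  refine Bdd.le_lo hD (h.of_le ((eventually_ge_atTop f.totalDegree).mono fun s hs => ?_))
  obtain ⟨t, rfl⟩ := Nat.exists_eq_add_of_le' hs
  have h1 := hf_add_finrank (Ideal.span {f}) (t + f.totalDegree)
  have h2 := finrank_inf_Hyp hf0 t
  have h3 := choose_ge_Hyp n t f.totalDegree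
  rw [finrank_Le] at h1 h2
  simp only [Nat.add_sub_cancel]
  omega

theorem ord_Hyp {p : Fin N → K} {f : A N K} {k : ℕ} (h : f ∉ mx p ^ (k + 1)) :
    ∃ a ≤ k, f ∈ mx p ^ a ∧ f ∉ mx p ^ (a + 1) := by
  induction k with
  | zero => exact ⟨0, le_rfl, by simp, h⟩
  | succ k ih =>
    by_cases h1 : f ∈ mx p ^ (k + 1)
    · exact ⟨k + 1, le_rfl, h1, h⟩
    · obtain ⟨a, h2, h3⟩ := ih h1
      exact ⟨a, h2.trans (Nat.le_succ k), h3⟩

theorem mul_ord_Hyp {p : Fin N → K} {f g : A N K} {a b : ℕ} (hf : f ∈ mx p ^ a)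
    (hf' : f ∉ mx p ^ (a + 1)) (hg : g ∈ mx p ^ b) (hg' : g ∉ mx p ^ (b + 1)) :
    g * f ∉ mx p ^ (b + a + 1) := by
  intro h
  obtain ⟨F, hF, hF'⟩ := exists_Le_sub_mem p (a + 1) f
  obtain ⟨G, hG, hG'⟩ := exists_Le_sub_mem p (b + 1) g
  have h1 : F ∈ mx p ^ a := by
    have := sub_mem hf (Ideal.pow_le_pow_right (Nat.le_succ a) hF')
    rwa [sub_sub_cancel] at this
  have h2 : (g - G) * F ∈ mx p ^ (b + a + 1) := by
    rw [show b + a + 1 = b + 1 + a by ring, pow_add]
    exact Ideal.mul_mem_mul hG' h1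
  have h3 : g * (f - F) ∈ mx p ^ (b + a + 1) := by
    rw [add_assoc, pow_add]
    exact Ideal.mul_mem_mul hg hF'
  have h4 : G * F ∈ mx p ^ (b + a + 1) := by
    have := sub_mem (sub_mem h h3) h2
    rwa [show g * f - g * (f - F) - (g - G) * F = G * F by ring] at this
  have h5 := eq_zero_of_mem_pow ((totalDegree_mul G F).trans
    (add_le_add (mem_Le.1 hG) (mem_Le.1 hF))) h4
  rcases mul_eq_zero.1 h5 with rfl | rfl
  · exact hg' (by simpa using hG')
  · exact hf' (by simpa using hF')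

theorem lf_le_Hyp {p : Fin N → K} {f : A N K} {a : ℕ} (hf : f ∈ mx p ^ a)
    (hf' : f ∉ mx p ^ (a + 1)) (s : ℕ) :
    lf p (Ideal.span {f}) (s + a + 1) + lf p ⊥ (s + 1) ≤ lf p ⊥ (s + a + 1) := by
  have h1 := hf_es (⊥ ⊔ mx p ^ (s + a + 1)) (le_refl f.totalDegree) (s + a)
  have h2 : col (⊥ ⊔ mx p ^ (s + a + 1)) f ≤ ⊥ ⊔ mx p ^ (s + 1) := fun g hg => by
    rw [mem_col, bot_sup_eq] at hg
    rw [bot_sup_eq]
    by_contra h
    obtain ⟨b, h3, h4, h5⟩ := ord_Hyp h
    exact mul_ord_Hyp hf hf' h4 h5 (Ideal.pow_le_pow_right (by omega) hg)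
  have h3 : lf p ⊥ (s + 1) ≤ W.hf (col (⊥ ⊔ mx p ^ (s + a + 1)) f) (s + a) := by
    rw [lf_eq_hf]
    exact (hf_anti h2 _).trans (hf_mono _ (by omega))
  have h4 : lf p (Ideal.span {f}) (s + a + 1) ≤
      W.hf (⊥ ⊔ mx p ^ (s + a + 1) ⊔ Ideal.span {f}) (s + a + f.totalDegree) := by
    rw [lf_eq_hf, bot_sup_eq, sup_comm]
    exact hf_mono _ (by omega)
  have h5 : W.hf (⊥ ⊔ mx p ^ (s + a + 1)) (s + a + f.totalDegree) ≤ lf p ⊥ (s + a + 1) :=
    Submodule.finrank_le _
  omega

theorem s_hypm : S_hypm := by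
  intro n K _ f p k hk
  obtain ⟨a, h1, h2, h3⟩ := ord_Hyp hk
  have h := (UB_choose n n).const_mul a
  rw [mul_one] at h
  refine (h.of_le ((eventually_ge_atTop (a + 1)).mono fun s hs => ?_)).up_le.trans
    (Nat.cast_le.2 h1)
  obtain ⟨t, rfl⟩ : ∃ t, s = t + a + 1 := ⟨s - (a + 1), by omega⟩
  have h4 := lf_le_Hyp h2 h3 t
  have h5 := choose_le_Hyp n t a
  have h6 : a * (t + a + n).choose n ≤ a * (t + a + 1 + n).choose n :=
    Nat.mul_le_mul_left _ (Nat.choose_le_choose _ (by omega))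
  rw [lf_bot, lf_bot] at h4
  omega

end Pool.Agent.MP_5499e5_ag.W

end

section

set_option autoImplicit false
namespace Pool.Agent.MP_5499e5_ag.W
open Filter MvPolynomial

section
variable {k R ι : Type} [CommRing k] [CommRing R] [Algebra k R]

theorem der_prod_Indep (D : Derivation k R R) (V : Finset ι) (f : ι → R)
    (h : ∀ v ∈ V, D (f v) = 0) : D (∏ v ∈ V, f v) = 0 := by
  refine Finset.prod_induction f (fun x => D x = 0) (fun a b ha hb => ?_) (by simp) h
  rw [D.leibniz, ha, hb]; simp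

theorem der_mon_Indep [DecidableEq ι] (D : Derivation k R R) (U : Finset ι) (g : ι → R) {u : ι}
    (hu : u ∈ U) (h : ∀ v ∈ U, v ≠ u → D (g v) = 0) (α : ι →₀ ℕ) :
    D (∏ v ∈ U, g v ^ α v) =
      (α u : R) * D (g u) * (g u ^ (α u - 1) * ∏ v ∈ U.erase u, g v ^ α v) := by
  rw [← Finset.mul_prod_erase U _ hu, D.leibniz, der_prod_Indep D (U.erase u) _ fun v hv => by
    rw [D.leibniz_pow, h v (Finset.mem_of_mem_erase hv) (Finset.ne_of_mem_erase hv)]; simp,
    D.leibniz_pow]
  simp only [smul_eq_mul, nsmul_eq_mul]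
  ring

theorem mon_mem_Indep (P : Ideal R) (U : Finset ι) (g : ι → R) (h : ∀ u ∈ U, g u ∈ P)
    (α : ι →₀ ℕ) : ∏ v ∈ U, g v ^ α v ∈ P ^ (∑ v ∈ U, α v) := by
  rw [← Finset.prod_pow_eq_pow_sum]
  exact Ideal.prod_mem_prod fun v hv => Ideal.pow_mem_pow (h v hv) _

theorem claim_Indep [DecidableEq ι] (D : ι → Derivation k R R) (P : Ideal R) (U : Finset ι)
    (g : ι → R) (hP : P.IsPrime) (hch : ∀ n : ℕ, (n : R) ∈ P → n = 0)
    (hg : ∀ u ∈ U, g u ∈ P ∧ D u (g u) ∉ P ∧ ∀ v ∈ U, v ≠ u → D v (g u) = 0) (s : ℕ)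
    (c : (ι →₀ ℕ) → R)
    (hc : ∑ α ∈ U.finsuppAntidiag s, c α * ∏ v ∈ U, g v ^ α v ∈ Pf D P (s + 1)) :
    ∀ α ∈ U.finsuppAntidiag s, c α ∈ P := by
  induction s generalizing c with
  | zero =>
    intro α hα
    rw [Finset.finsuppAntidiag_zero, Finset.mem_singleton] at hα
    subst hα
    simpa [Pf_one] using hc
  | succ s ih =>
    intro α hα
    obtain ⟨hα1, hα2⟩ := Finset.mem_finsuppAntidiag.1 hα
    obtain ⟨u, hu, hu0⟩ : ∃ u ∈ U, α u ≠ 0 :=
      Finset.exists_ne_zero_of_sum_ne_zero (by rw [hα1]; omega)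
    have pre : ∀ γ ∈ U.finsuppAntidiag (s + 1), γ u ≠ 0 →
        ∃ β ∈ U.finsuppAntidiag s, β + Finsupp.single u 1 = γ := by
      intro γ hγ h0
      obtain ⟨h1, h2⟩ := Finset.mem_finsuppAntidiag.1 hγ
      have e : γ - Finsupp.single u 1 + Finsupp.single u 1 = γ :=
        tsub_add_cancel_of_le (Finsupp.single_le_iff.2 (by omega))
      refine ⟨γ - Finsupp.single u 1, Finset.mem_finsuppAntidiag.2 ⟨?_,
        Finsupp.support_tsub.trans h2⟩, e⟩
      rw [← e] at h1
      simp only [Finsupp.coe_add, Pi.add_apply, Finset.sum_add_distrib, Finsupp.single_apply,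
        Finset.sum_ite_eq, hu, if_true] at h1
      exact Nat.add_right_cancel h1
    have h1 := (mem_Pf_succ.1 hc).2.2 u
    rw [map_sum] at h1
    simp only [Derivation.leibniz, smul_eq_mul, Finset.sum_add_distrib] at h1
    have h2 : ∑ γ ∈ U.finsuppAntidiag (s + 1), (∏ v ∈ U, g v ^ γ v) * D u (c γ) ∈
        Pf D P (s + 1) := by
      refine Ideal.sum_mem _ fun γ hγ => Ideal.mul_mem_right _ _ (pow_le_Pf _ ?_)
      rw [← (Finset.mem_finsuppAntidiag.1 hγ).1]
      exact mon_mem_Indep P U g (fun v hv => (hg v hv).1) γ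
    have h3 := (Ideal.add_mem_iff_left _ h2).1 h1
    have hD := der_mon_Indep (D u) U g hu fun v hv hvu => (hg v hv).2.2 u hu hvu.symm
    have h4 : ∑ β ∈ U.finsuppAntidiag s,
        (c (β + Finsupp.single u 1) * (((β u + 1 : ℕ) : R) * D u (g u))) * ∏ v ∈ U, g v ^ β v =
        ∑ γ ∈ U.finsuppAntidiag (s + 1), c γ * D u (∏ v ∈ U, g v ^ γ v) := by
      refine Finset.sum_of_injOn (fun β => β + Finsupp.single u 1)
        (fun a _ b _ h => add_right_cancel h) (fun β hβ => ?_) (fun γ hγ hγ' => ?_) fun β _ => ?_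
      · obtain ⟨b1, b2⟩ := Finset.mem_finsuppAntidiag.1 (Finset.mem_coe.1 hβ)
        refine Finset.mem_coe.2 (Finset.mem_finsuppAntidiag.2 ⟨?_, ?_⟩)
        · simp only [Finsupp.coe_add, Pi.add_apply, Finset.sum_add_distrib, Finsupp.single_apply,
            Finset.sum_ite_eq, hu, if_true]
          exact congrArg (· + 1) b1
        · exact Finsupp.support_add.trans (Finset.union_subset b2
            (Finsupp.support_single_subset.trans (Finset.singleton_subset_iff.2 hu)))
      · have : γ u = 0 := by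
          by_contra h0
          obtain ⟨β, hβ, e⟩ := pre γ hγ h0
          exact hγ' ⟨β, Finset.mem_coe.2 hβ, e⟩
        rw [hD, this]; simp
      · rw [hD, ← Finset.mul_prod_erase U _ hu]
        have e1 : (β + Finsupp.single u 1 : ι →₀ ℕ) u = β u + 1 := by simp
        have e2 : ∏ v ∈ U.erase u, g v ^ (β + Finsupp.single u 1 : ι →₀ ℕ) v =
            ∏ v ∈ U.erase u, g v ^ β v := Finset.prod_congr rfl fun v hv => by
          simp [(Finset.ne_of_mem_erase hv).symm]
        rw [e1, e2, Nat.add_sub_cancel]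
        ring
    rw [← h4] at h3
    obtain ⟨β, hβ, rfl⟩ := pre α hα hu0
    rcases hP.mem_or_mem (ih _ h3 β hβ) with h | h
    · exact h
    · rcases hP.mem_or_mem h with h | h
      · exact absurd (hch _ h) (Nat.succ_ne_zero _)
      · exact absurd h (hg u hu).2.1

end

theorem s_indep : S_indep := by
  classical
  intro k R ι _ _ _ D P U g lam hP hch hg hl
  have jump : ∀ s, lam ⊥ s + (U.card + s - 1).choose s ≤ lam ⊥ (s + 1) := by
    intro s
    rw [← Finset.card_finsuppAntidiag_nat_eq_choose]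
    refine hl.jump s (ι →₀ ℕ) _ (fun α => ∏ v ∈ U, g v ^ α v) (fun α hα => pow_le_Pf _ ?_)
      fun c hc => claim_Indep D P U g hP hch hg s c hc
    rw [← (Finset.mem_finsuppAntidiag.1 hα).1]
    exact mon_mem_Indep P U g (fun v hv => (hg v hv).1) α
  have key : ∀ s, (s + U.card).choose U.card ≤ lam ⊥ (s + 1) := by
    intro s
    induction s with
    | zero => have := jump 0; simp at this ⊢; omega
    | succ s ih =>
      have h1 := jump (s + 1)
      have h2 := card_antidiag_succ U.card s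
      rw [Finset.card_finsuppAntidiag_nat_eq_choose, Finset.card_univ, Fintype.card_fin] at h2
      omega
  refine ((LB_choose U.card).shift 1).of_le ((eventually_ge_atTop 1).mono fun s hs => ?_)
  obtain ⟨s, rfl⟩ : ∃ t, s = t + 1 := ⟨s - 1, by omega⟩
  exact le_trans (Nat.choose_le_choose _ (by omega)) (key s)

end Pool.Agent.MP_5499e5_ag.W

end

section

set_option autoImplicit false

namespace Pool.Agent.MP_5499e5_ag.W

open Filter MvPolynomial

theorem der_eval_Jac {k R : Type} [CommRing k] [CommRing R] [Algebra k R] (D : Derivation k R R)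
    (q : Polynomial R) (h : ∀ n, D (q.coeff n) = 0) (z : R) :
    D (q.eval z) = q.derivative.eval z * D z := by
  rw [Polynomial.derivative_eval, Polynomial.eval_eq_sum, Polynomial.sum, Polynomial.sum, map_sum,
    Finset.sum_mul]
  refine Finset.sum_congr rfl fun n _ => ?_
  rw [Derivation.leibniz, Derivation.leibniz_pow, h n, smul_zero, add_zero, smul_eq_mul,
    smul_eq_mul, nsmul_eq_mul]
  ring

theorem der_closure_Jac {k R : Type} [CommRing k] [CommRing R] [Algebra k R]
    (D : Derivation k R R) {G : Set R} (h : ∀ x ∈ G, D x = 0) {x : R}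
    (hx : x ∈ Subring.closure G) : D x = 0 := by
  induction hx using Subring.closure_induction with
  | mem x hx => exact h x hx
  | zero => exact map_zero D
  | one => exact D.map_one_eq_zero
  | add x y _ _ hx hy => rw [map_add, hx, hy, add_zero]
  | neg x _ hx => rw [map_neg, hx, neg_zero]
  | mul x y _ _ hx hy => rw [Derivation.leibniz, hx, hy, smul_zero, smul_zero, add_zero]

theorem s_jac (h1 : S_minq) (h2 : S_exch) : S_jac := by
  classical
  intro N K _ _ K₀ y δ P S hy hδ hP hPy hS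
  obtain ⟨T, hT, halg⟩ := h2 N K K₀ y P S hy hP hPy hS
  have hchar : ∀ n : ℕ, (n : A N K) ∈ P → n = 0 := by
    intro n hn
    by_contra h0
    have hu : IsUnit (n : A N K) := by
      have h3 : IsUnit (n : K) := IsUnit.mk0 _ (Nat.cast_ne_zero.2 h0)
      simpa using h3.map (C : K →+* A N K)
    exact hP.ne_top (Ideal.eq_top_of_isUnit_mem _ hn hu)
  choose q hq0 hq1 hq2 using fun u => h1 (A N K) P _ (C (y u)) hP hchar (halg u)
  have hkill : ∀ v, v ∉ T → ∀ u n, cD (δ v) ((q u).coeff n) = 0 := by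
    intro v hv u n
    refine der_closure_Jac _ ?_ (hq0 u n)
    rintro x ((⟨c, hc, rfl⟩ | ⟨w, rfl⟩) | ⟨w, hw, rfl⟩)
    · simp only [cD_C, der_of_mem _ hc, map_zero]
    · exact cD_X _ _
    · have hne : v ≠ w := fun h => hv (h ▸ hw)
      simp only [cD_C, hδ v w, if_neg hne, map_zero]
  refine ⟨Tᶜ, fun u => (q u).eval (C (y u)), ?_, fun u hu => ⟨hq1 u, ?_, fun v hv hvu => ?_⟩⟩
  · rw [← hT, Finset.card_compl, Fintype.card_fin]
    have := Finset.card_le_univ T
    rw [Fintype.card_fin] at this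
    omega
  · rw [der_eval_Jac _ _ (hkill u (Finset.mem_compl.1 hu) u), cD_C, hδ u u, if_pos rfl, map_one,
      mul_one]
    exact hq2 u
  · rw [der_eval_Jac _ _ (hkill v (Finset.mem_compl.1 hv) u), cD_C, hδ v u, if_neg hvu, map_zero,
      mul_zero]

end Pool.Agent.MP_5499e5_ag.W

end

section

set_option autoImplicit false
namespace Pool.Agent.MP_5499e5_ag.W
open Filter MvPolynomial

theorem scale_La {K : Type} [Field K] (O : ValuationSubring K) {ι : Type} [Fintype ι]
    (c : ι → K) (i₀ : ι) (h : c i₀ ≠ 0) : ∃ i, c i ≠ 0 ∧ ∀ j, c j / c i ∈ O := by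
  obtain ⟨i, -, hi⟩ := Finset.exists_max_image Finset.univ (fun j => O.valuation (c j))
    ⟨i₀, Finset.mem_univ _⟩
  have h0 : O.valuation (c i) ≠ 0 := by
    intro e
    have h1 := hi i₀ (Finset.mem_univ _)
    rw [e, le_zero_iff, Valuation.zero_iff] at h1
    exact h h1
  refine ⟨i, fun e => h0 (by rw [e, map_zero]), fun j => ?_⟩
  rw [← O.valuation_le_one_iff, map_div₀]
  exact div_le_one_of_le₀ (hi j (Finset.mem_univ _)) zero_le

theorem le_La {K : Type} [Field K] (O : ValuationSubring K) {σ : Type} [Fintype σ]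
    (W : Submodule K (σ → K)) :
    Module.finrank (IsLocalRing.ResidueField O) (redS O W) ≤ Module.finrank K W := by
  classical
  obtain ⟨b, hb, hs, hl⟩ := exists_linearIndependent (IsLocalRing.ResidueField O)
    {x : σ → IsLocalRing.ResidueField O | ∃ v : σ → O, (fun a => (v a : K)) ∈ W ∧
      x = fun a => IsLocalRing.residue O (v a)}
  have hf : Finite b := hl.finite
  have : Fintype b := Fintype.ofFinite b
  have e1 : Module.finrank (IsLocalRing.ResidueField O) (redS O W) = Fintype.card b := by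
    unfold redS
    rw [← hs, finrank_span_set_eq_card (s := b) hl, Set.toFinset_card]
  choose v hv using fun x : b => hb x.2
  have hu : LinearIndependent K (fun x : b => (⟨fun a => (v x a : K), (hv x).1⟩ : W)) := by
    rw [Fintype.linearIndependent_iff]
    intro g hg i₀
    by_contra h0
    obtain ⟨i, hi, hj⟩ := scale_La O g i₀ h0
    have h1 : ∀ a, ∑ j, (⟨g j / g i, hj j⟩ : O) * v j a = 0 := by
      intro a
      have h2 := congrFun (congrArg Subtype.val hg) a
      simp only [Submodule.coe_sum, Submodule.coe_smul, Finset.sum_apply, Pi.smul_apply,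
        smul_eq_mul, Submodule.coe_zero, Pi.zero_apply] at h2
      apply Subtype.ext
      have h3 : ((∑ j, (⟨g j / g i, hj j⟩ : O) * v j a : O) : K)
          = ∑ j, g j / g i * (v j a : K) := by
        rw [show ((∑ j, (⟨g j / g i, hj j⟩ : O) * v j a : O) : K)
          = O.subtype (∑ j, (⟨g j / g i, hj j⟩ : O) * v j a) from rfl, map_sum]
        rfl
      rw [h3]
      have h4 : ∑ j, g j / g i * (v j a : K) = (∑ j, g j * (v j a : K)) / g i := by
        rw [Finset.sum_div]
        exact Finset.sum_congr rfl fun j _ => by ring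
      rw [h4, h2, zero_div]
      rfl
    have h5 := Fintype.linearIndependent_iff.1 hl
      (fun j => IsLocalRing.residue O (⟨g j / g i, hj j⟩ : O)) (by
        funext a
        have h6 := congrArg (IsLocalRing.residue O) (h1 a)
        rw [map_sum, map_zero] at h6
        simp only [Finset.sum_apply, Pi.smul_apply, smul_eq_mul, Pi.zero_apply]
        rw [← h6]
        refine Finset.sum_congr rfl fun j _ => ?_
        rw [map_mul, congrFun (hv j).2 a]) i
    have h7 : (⟨g i / g i, hj i⟩ : O) = 1 := Subtype.ext (div_self hi)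
    simp only [h7, map_one] at h5
    exact one_ne_zero h5
  rw [e1]
  exact hu.fintype_card_le_finrank

theorem ge_La {K : Type} [Field K] (O : ValuationSubring K) {σ : Type} [Fintype σ] (n : ℕ) :
    ∀ W : Submodule K (σ → K), n ≤ Module.finrank K W →
      n ≤ Module.finrank (IsLocalRing.ResidueField O) (redS O W) := by
  induction n with
  | zero => intro W _; exact Nat.zero_le _
  | succ n ih =>
    intro W hW
    have hne : W ≠ ⊥ := by
      intro e
      rw [e, finrank_bot] at hW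
      omega
    obtain ⟨w, hw, hw0⟩ := Submodule.exists_mem_ne_zero_of_ne_bot hne
    obtain ⟨a₀, ha₀⟩ := Function.ne_iff.1 hw0
    obtain ⟨a, ha, hj⟩ := scale_La O w a₀ ha₀
    let W' : Submodule K (σ → K) := W ⊓ LinearMap.ker (LinearMap.proj (R := K) (φ := fun _ => K) a)
    have h1 : n ≤ Module.finrank K W' := by
      have h2 := LinearMap.finrank_range_add_finrank_ker
        ((LinearMap.proj (R := K) (φ := fun _ : σ => K) a).domRestrict W)
      have h3 : Module.finrank K (LinearMap.range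
          ((LinearMap.proj (R := K) (φ := fun _ : σ => K) a).domRestrict W)) ≤ 1 := by
        simpa using Submodule.finrank_le (LinearMap.range
          ((LinearMap.proj (R := K) (φ := fun _ : σ => K) a).domRestrict W))
      have h4 : Module.finrank K W' = Module.finrank K (LinearMap.ker
          ((LinearMap.proj (R := K) (φ := fun _ : σ => K) a).domRestrict W)) := by
        rw [LinearMap.ker_domRestrict, ← Submodule.finrank_map_subtype_eq W,
          Submodule.map_comap_subtype]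
      omega
    have h5 := ih W' h1
    have h6 : redS O W' ≤ redS O W :=
      Submodule.span_mono fun x ⟨v, hv, hx⟩ => ⟨v, hv.1, hx⟩
    have h7 : redS O W' ≤ LinearMap.ker (LinearMap.proj (R := IsLocalRing.ResidueField O)
        (φ := fun _ : σ => IsLocalRing.ResidueField O) a) := by
      refine Submodule.span_le.2 ?_
      rintro x ⟨v, hv, rfl⟩
      have h8 : (v a : K) = 0 := hv.2
      have h9 : v a = 0 := Subtype.ext h8
      simp [h9]
    have h10 : (fun j => IsLocalRing.residue O (⟨w j / w a, hj j⟩ : O)) ∈ redS O W := by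
      refine Submodule.subset_span ⟨fun j => ⟨w j / w a, hj j⟩, ?_, rfl⟩
      have h11 : (fun j => w j / w a) = (w a)⁻¹ • w := by
        funext j
        simp [div_eq_inv_mul]
      show (fun j => w j / w a) ∈ W
      rw [h11]
      exact W.smul_mem _ hw
    have h12 : redS O W' < redS O W := by
      refine lt_of_le_of_ne h6 fun e => ?_
      have h13 := h7 (e ▸ h10)
      have h14 : (⟨w a / w a, hj a⟩ : O) = 1 := Subtype.ext (div_self ha)
      have h15 : IsLocalRing.residue O (⟨w a / w a, hj a⟩ : O) = 0 := h13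
      rw [h14, map_one] at h15
      exact one_ne_zero h15
    have h16 := Submodule.finrank_lt_finrank_of_lt h12
    omega

theorem s_la : S_la := fun _ _ O _ _ W => le_antisymm (le_La O W) (ge_La O _ W le_rfl)

end Pool.Agent.MP_5499e5_ag.W

end

section

set_option autoImplicit false
namespace Pool.Agent.MP_5499e5_ag.W
open Filter MvPolynomial

section LamAux

variable {S : Type} [CommRing S]

theorem anti_Lam {I I' : Ideal S} (h : I ≤ I') :
    Module.length S (S ⧸ I') ≤ Module.length S (S ⧸ I) :=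
  Module.length_le_of_surjective (Submodule.factor h) (Submodule.factor_surjective h)

theorem add_Lam {I I' : Ideal S} (h : I ≤ I') : Module.length S (S ⧸ I) =
    Module.length S (LinearMap.ker (Submodule.factor h)) + Module.length S (S ⧸ I') :=
  Module.length_eq_add_of_exact (LinearMap.ker (Submodule.factor h)).subtype (Submodule.factor h)
    (Submodule.subtype_injective _) (Submodule.factor_surjective h)
    (LinearMap.exact_subtype_ker_map _)

theorem sub_Lam {M : Type} [AddCommGroup M] [Module S M] {N N' : Submodule S M} (h : N ≤ N') :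
    Module.length S N ≤ Module.length S N' :=
  Module.length_le_of_injective (Submodule.inclusion h) (Submodule.inclusion_injective h)

theorem es_Lam {I C : Ideal S} {g : S} (hC : ∀ c ∈ C, c * g ∈ I) :
    Module.length S (S ⧸ I) ≤
      Module.length S (S ⧸ (I ⊔ Ideal.span {g})) + Module.length S (S ⧸ C) := by
  have hle : I ≤ I ⊔ Ideal.span {g} := le_sup_left
  have hle2 : C ≤ Submodule.comap (LinearMap.toSpanSingleton S S g) I := fun c hc => hC c hc
  let ψ : (S ⧸ C) →ₗ[S] (S ⧸ I) := Submodule.mapQ _ _ (LinearMap.toSpanSingleton S S g) hle2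
  have h3 : LinearMap.ker (Submodule.factor hle) ≤ LinearMap.range ψ := by
    intro x hx
    obtain ⟨f, rfl⟩ := Submodule.mkQ_surjective I x
    rw [LinearMap.mem_ker, Submodule.factor_mk, Submodule.mkQ_apply,
      Submodule.Quotient.mk_eq_zero] at hx
    obtain ⟨j, hj, m, hm, rfl⟩ := Submodule.mem_sup.1 hx
    obtain ⟨c, rfl⟩ := Ideal.mem_span_singleton'.1 hm
    refine ⟨Submodule.mkQ C c, ?_⟩
    change Submodule.mkQ I (c * g) = _
    rw [map_add, Submodule.mkQ_apply I j, (Submodule.Quotient.mk_eq_zero I).2 hj, zero_add]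
  rw [add_Lam hle, add_comm]
  refine add_le_add le_rfl ((sub_Lam h3).trans ?_)
  exact Module.length_le_of_surjective ψ.rangeRestrict ψ.surjective_rangeRestrict

theorem one_Lam (m : Ideal S) (hm : m.IsMaximal) : Module.length S (S ⧸ m) = 1 :=
  Module.length_eq_one_iff.2 (isSimpleModule_iff_isCoatom.2 hm.out)

theorem jump_Lam {m I₀ I₁ : Ideal S} (hm : m.IsMaximal) (h : I₁ ≤ I₀) {κ : Type} (B : Finset κ)
    (e : κ → S) (he : ∀ b ∈ B, e b ∈ I₀)
    (hi : ∀ c : κ → S, ∑ b ∈ B, c b * e b ∈ I₁ → ∀ b ∈ B, c b ∈ m) :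
    Module.length S (S ⧸ I₀) + B.card ≤ Module.length S (S ⧸ I₁) := by
  classical
  let σ : (κ → S) →ₗ[S] S :=
    { toFun := fun c => ∑ b ∈ B, c b * e b
      map_add' := fun c c' => by simp [add_mul, Finset.sum_add_distrib]
      map_smul' := fun r c => by simp [Finset.mul_sum, mul_assoc] }
  let φ : (κ → S) →ₗ[S] (S ⧸ I₁) := (Submodule.mkQ I₁).comp σ
  let π : (κ → S) →ₗ[S] (B → S ⧸ m) :=
    LinearMap.pi fun b : B => (Submodule.mkQ m).comp (LinearMap.proj (b : κ))
  have hπ : Function.Surjective π := by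
    intro y
    choose z hz using fun b : B => Submodule.mkQ_surjective m (y b)
    refine ⟨fun k => if hk : k ∈ B then z ⟨k, hk⟩ else 0, funext fun b => ?_⟩
    change Submodule.mkQ m (if hk : (b : κ) ∈ B then z ⟨b, hk⟩ else 0) = y b
    rw [dif_pos b.2]
    exact hz b
  have hker : LinearMap.ker φ ≤ LinearMap.ker π := by
    intro c hc
    have h1 : ∑ b ∈ B, c b * e b ∈ I₁ := (Submodule.Quotient.mk_eq_zero I₁).1 hc
    rw [LinearMap.mem_ker]
    funext b
    exact (Submodule.Quotient.mk_eq_zero m).2 (hi c h1 b b.2)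
  have hr : LinearMap.range φ ≤ LinearMap.ker (Submodule.factor h) := by
    rintro _ ⟨c, rfl⟩
    rw [LinearMap.mem_ker]
    change Submodule.factor h (Submodule.mkQ I₁ (∑ b ∈ B, c b * e b)) = 0
    rw [Submodule.factor_mk, Submodule.mkQ_apply, Submodule.Quotient.mk_eq_zero]
    exact I₀.sum_mem fun b hb => I₀.mul_mem_left _ (he b hb)
  have h1 : Module.length S (B → S ⧸ m) = B.card := by
    rw [Module.length_pi, one_Lam m hm, mul_one, ENat.card_eq_coe_fintype_card, Fintype.card_coe]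
  have h2 : Module.length S (B → S ⧸ m) ≤ Module.length S ((κ → S) ⧸ LinearMap.ker φ) := by
    refine Module.length_le_of_surjective ((LinearMap.ker φ).liftQ π hker) fun y => ?_
    obtain ⟨c, rfl⟩ := hπ y
    exact ⟨Submodule.mkQ _ c, rfl⟩
  rw [add_Lam h, add_comm, ← h1]
  refine add_le_add (h2.trans ?_) le_rfl
  rw [φ.quotKerEquivRange.length_eq]
  exact sub_Lam hr

theorem fin_Lam [IsNoetherianRing S] {m I : Ideal S} (hm : m.IsMaximal) {s : ℕ} (h : m ^ s ≤ I) :
    Module.length S (S ⧸ I) ≠ ⊤ := by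
  have h1 : IsArtinianRing (S ⧸ I) := by
    rw [isArtinianRing_iff_krullDimLE_zero, Ring.krullDimLE_zero_iff]
    intro Q hQ
    have h2 : (Q.comap (Ideal.Quotient.mk I)).IsPrime := Ideal.comap_isPrime _ _
    have h3 : I ≤ Q.comap (Ideal.Quotient.mk I) := fun x hx => by
      rw [Ideal.mem_comap, Ideal.Quotient.eq_zero_iff_mem.2 hx]; exact Q.zero_mem
    have h4 : m ≤ Q.comap (Ideal.Quotient.mk I) := h2.le_of_pow_le (h.trans h3)
    have h5 : (Q.comap (Ideal.Quotient.mk I)).IsMaximal := by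
      rw [← hm.eq_of_le h2.ne_top h4]; exact hm
    have h6 := Ideal.map_eq_top_or_isMaximal_of_surjective (Ideal.Quotient.mk I)
      Ideal.Quotient.mk_surjective h5
    rw [Ideal.map_comap_of_surjective _ Ideal.Quotient.mk_surjective] at h6
    exact h6.resolve_left hQ.ne_top
  rw [Module.length_eq_of_surjective (S := S) (R := S ⧸ I) (M := S ⧸ I)
    Ideal.Quotient.mk_surjective]
  exact Module.length_ne_top

end LamAux

theorem s_lam : S_lam := by
  intro R _ _ P F hP hF hPF hmul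
  let S := Localization.AtPrime P
  let ι := algebraMap R S
  have hm : (IsLocalRing.maximalIdeal S).IsMaximal := inferInstance
  have hPm : P.map ι = IsLocalRing.maximalIdeal S := Localization.AtPrime.map_eq_maximalIdeal
  have hfin : ∀ (J : Ideal R) (s : ℕ), Module.length S (S ⧸ (J ⊔ F s).map ι) ≠ ⊤ := by
    intro J s
    refine fin_Lam hm (s := s) ?_
    rw [← hPm, ← Ideal.map_pow]
    exact Ideal.map_mono ((hPF s).trans le_sup_right)
  refine ⟨fun J s => (Module.length S (S ⧸ (J ⊔ F s).map ι)).toNat, ?_, ?_, ?_, ?_, ?_⟩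
  · intro J J' s h
    exact ENat.toNat_le_toNat (anti_Lam (Ideal.map_mono (sup_le_sup_right h _))) (hfin J s)
  · intro J g a s hg
    have h1 := es_Lam (I := (J ⊔ F (s + a)).map ι) (C := (col J g ⊔ F s).map ι) (g := ι g) (by
      have h2 : (col J g ⊔ F s).map ι ≤ col ((J ⊔ F (s + a)).map ι) (ι g) := by
        rw [Ideal.map_le_iff_le_comap]
        refine sup_le (fun f hf => ?_) fun f hf => ?_
        · rw [Ideal.mem_comap, mem_col, ← map_mul]
          exact Ideal.mem_map_of_mem _ (Ideal.mem_sup_left (mem_col.1 hf))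
        · rw [Ideal.mem_comap, mem_col, ← map_mul]
          exact Ideal.mem_map_of_mem _ (Ideal.mem_sup_right (hmul s a f g hf hg))
      exact fun c hc => mem_col.1 (h2 hc))
    have h3 : (J ⊔ F (s + a)).map ι ⊔ Ideal.span {ι g} =
        (J ⊔ Ideal.span {g} ⊔ F (s + a)).map ι := by
      rw [sup_right_comm, Ideal.map_sup ι (J ⊔ F (s + a)), Ideal.map_span, Set.image_singleton]
    rw [h3] at h1
    show ENat.toNat _ ≤ ENat.toNat _ + ENat.toNat _
    rw [← ENat.toNat_add (hfin _ _) (hfin _ _)]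
    exact ENat.toNat_le_toNat h1 (WithTop.add_ne_top.2 ⟨hfin _ _, hfin _ _⟩)
  · intro J s h
    obtain ⟨x, hx, hxP⟩ := Set.not_subset.1 h
    have h1 : (J ⊔ F s).map ι = ⊤ :=
      Ideal.eq_top_of_isUnit_mem _ (Ideal.mem_map_of_mem _ (Ideal.mem_sup_left hx))
        ((IsLocalization.AtPrime.isUnit_to_map_iff S P x).2 hxP)
    have h2 : Subsingleton (S ⧸ (J ⊔ F s).map ι) := Ideal.Quotient.subsingleton_iff.2 h1
    show ENat.toNat _ = 0
    rw [Module.length_eq_zero]
    rfl
  · intro s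
    have h1 : IsLocalRing.maximalIdeal S ≤ (P ⊔ F s).map ι := by
      rw [← hPm]; exact Ideal.map_mono le_sup_left
    have h2 := anti_Lam h1
    rw [one_Lam _ hm] at h2
    exact ENat.toNat_le_toNat h2 ENat.one_ne_top
  · intro s κ B e he hi
    have h1 := jump_Lam (I₀ := (⊥ ⊔ F s).map ι) (I₁ := (⊥ ⊔ F (s + 1)).map ι) hm
      (Ideal.map_mono (sup_le_sup_left (hF (Nat.le_succ s)) _)) B (fun b => ι (e b))
      (fun b hb => Ideal.mem_map_of_mem _ (Ideal.mem_sup_right (he b hb))) (by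
        intro c hc b hb
        obtain ⟨d, hd⟩ := IsLocalization.exist_integer_multiples P.primeCompl B c
        choose! c' hc' using hd
        have h2 : ι (∑ b ∈ B, c' b * e b) ∈ (⊥ ⊔ F (s + 1)).map ι := by
          have h3 : ι (∑ b ∈ B, c' b * e b) = ι d * ∑ b ∈ B, c b * ι (e b) := by
            rw [map_sum, Finset.mul_sum]
            refine Finset.sum_congr rfl fun b hb => ?_
            rw [map_mul, ← mul_assoc]
            congr 1
            rw [← Algebra.smul_def]
            exact hc' b hb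
          rw [h3]
          exact Ideal.mul_mem_left _ _ hc
        obtain ⟨u, hu, h4⟩ :=
          (IsLocalization.algebraMap_mem_map_algebraMap_iff P.primeCompl S _ _).1 h2
        rw [bot_sup_eq, Finset.mul_sum] at h4
        have h5 := hi (fun b => u * c' b) (by simpa only [mul_assoc] using h4) b hb
        have h6 : c' b ∈ P := (hP.mem_or_mem h5).resolve_left hu
        have h7 : ι (c' b) ∈ IsLocalRing.maximalIdeal S := by
          rw [← hPm]; exact Ideal.mem_map_of_mem _ h6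
        have h8 : ι (c' b) = ι d * c b := by
          rw [← Algebra.smul_def]; exact hc' b hb
        rw [h8] at h7
        exact (Ideal.unit_mul_mem_iff_mem _ (IsLocalization.map_units S d)).1 h7)
    have h9 := ENat.toNat_le_toNat h1 (hfin _ _)
    rw [ENat.toNat_add (hfin _ _) (ENat.natCast_ne_top _), ENat.toNat_natCast] at h9
    exact h9

end Pool.Agent.MP_5499e5_ag.W

end

section

set_option autoImplicit false

namespace Pool.Agent.MP_5499e5_ag.W

open Filter MvPolynomial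

theorem desc_Minq {R S : Type} [CommRing R] [CommRing S] [IsDomain S] [CharZero S] (f : R →+* S)
    (R₀ : Subring R) (z : R) (d : ℕ) : ∀ q : Polynomial R, (q.map f).natDegree = d →
      (∀ n, q.coeff n ∈ R₀) → q.map f ≠ 0 → (q.map f).eval (f z) = 0 →
      ∃ q : Polynomial R, (∀ n, q.coeff n ∈ R₀) ∧ (q.map f).eval (f z) = 0 ∧
        (q.derivative.map f).eval (f z) ≠ 0 := by
  induction d using Nat.strong_induction_on with
  | _ d ih =>
    intro q hd h1 h2 h3
    by_cases h4 : (q.derivative.map f).eval (f z) = 0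
    · have h5 : (q.map f).natDegree ≠ 0 := by
        intro h
        rw [Polynomial.eq_C_of_natDegree_eq_zero h] at h2 h3
        rw [Polynomial.eval_C] at h3
        exact h2 (by rw [h3, map_zero])
      refine ih _ ?_ q.derivative rfl (fun n => ?_) ?_ h4
      · rw [← Polynomial.derivative_map, ← hd]
        exact Polynomial.natDegree_derivative_lt h5
      · rw [Polynomial.coeff_derivative]
        exact R₀.mul_mem (h1 _) (R₀.add_mem (natCast_mem R₀ n) R₀.one_mem)
      · rw [← Polynomial.derivative_map]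
        exact fun h => h5 (Polynomial.derivative_eq_zero.1 h)
    · exact ⟨q, h1, h3, h4⟩

theorem s_minq : S_minq := by
  intro R _ P R₀ z hP hn ⟨q₀, h0, h1⟩
  have : CharZero (R ⧸ P) := charZero_of_inj_zero fun n h =>
    hn n (Ideal.Quotient.eq_zero_iff_mem.1 ((map_natCast _ n).trans h))
  let g : R₀ →+* R₀.map (Ideal.Quotient.mk P) :=
    ((Ideal.Quotient.mk P).comp R₀.subtype).codRestrict _ fun x => ⟨x, x.2, rfl⟩
  have hg : Function.Surjective g := by
    rintro ⟨_, x, hx, rfl⟩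
    exact ⟨⟨x, hx⟩, rfl⟩
  obtain ⟨q₁, rfl⟩ := Polynomial.map_surjective g hg q₀
  have e : (q₁.map R₀.subtype).map (Ideal.Quotient.mk P) =
      (q₁.map g).map (R₀.map (Ideal.Quotient.mk P)).subtype := by
    rw [Polynomial.map_map, Polynomial.map_map]
    rfl
  obtain ⟨q, a1, a2, a3⟩ := desc_Minq (Ideal.Quotient.mk P) R₀ z _ (q₁.map R₀.subtype) rfl
    (fun n => by rw [Polynomial.coeff_map]; exact (q₁.coeff n).2)
    (by rw [e]; exact (Polynomial.map_ne_zero_iff (Subring.subtype_injective _)).2 h0)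
    (by rw [e, Polynomial.eval_map]; exact h1)
  rw [Polynomial.eval_map_apply] at a2 a3
  exact ⟨q, a1, Ideal.Quotient.eq_zero_iff_mem.1 a2,
    fun h => a3 (Ideal.Quotient.eq_zero_iff_mem.2 h)⟩

end Pool.Agent.MP_5499e5_ag.W

end

section

set_option autoImplicit false

namespace Pool.Agent.MP_5499e5_ag.W

open Filter MvPolynomial

theorem one_le_totalDegree_Base {N : ℕ} {K : Type} [Field K] {f : A N K} (hf : Prime f) :
    1 ≤ f.totalDegree := by
  by_contra h
  have h1 : f = C (coeff 0 f) := totalDegree_eq_zero_iff_eq_C.1 (by omega)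
  have h2 : coeff 0 f ≠ 0 := fun h0 => hf.ne_zero (by rw [h1, h0, map_zero])
  exact hf.not_isUnit (by rw [h1]; exact (IsUnit.mk0 _ h2).map C)

theorem s_base (h1 : S_hypd) (h2 : S_hypm) (h3 : S_down) (h4 : S_num) : S_base := by
  classical
  intro n B hn
  obtain ⟨ε, τ₀, hε, hε1, hτ₀, H⟩ := h4 n B hn
  refine ⟨ε, τ₀, hε, hε1, hτ₀, ?_⟩
  intro K _ _ ι p hp T τ hτ hT J hJ
  have hτ0 : 0 ≤ τ := by linarith
  have hc : 0 ≤ (1 - ε) * τ ^ n := mul_nonneg (by linarith) (pow_nonneg hτ0 n)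
  refine reduce_min T p hc (Nat.cast_nonneg B) hJ fun q hq _ hqd => ?_
  have hq0 : q ≠ ⊥ := fun h => not_dim_bot (Nat.lt_succ_self n) (h ▸ hqd)
  obtain ⟨f, hfq, hf⟩ := hq.exists_mem_prime_of_ne_bot hq0
  have hsp : (Ideal.span {f} : Ideal (A (n + 1) K)).IsPrime :=
    (Ideal.span_singleton_prime hf.ne_zero).2 hf
  have hle : (Ideal.span {f} : Ideal (A (n + 1) K)) ≤ q :=
    (Ideal.span_singleton_le_iff_mem _).2 hfq
  rcases hle.lt_or_eq with hlt | heq
  · obtain ⟨m, rfl⟩ : ∃ m, n = m + 1 := ⟨n - 1, by omega⟩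
    have hd1 : Dim (Ideal.span {f} : Ideal (A (m + 1 + 1) K)) (m + 1) := by
      have := (dim_all (⊥ : Ideal (A (m + 1 + 1) K))).slice Ideal.isPrime_bot
        (g := f) (fun h => hf.ne_zero (Ideal.mem_bot.1 h))
      rwa [bot_sup_eq] at this
    have hd2 : Dim q m := hd1.of_lt hsp hlt
    have hz : ∑ i ∈ T, min (mu (p i) (m + 1) q) (B : ℝ) = 0 :=
      Finset.sum_eq_zero fun i _ => by
        rw [hd2.mu_succ]; exact min_eq_left (Nat.cast_nonneg B)
    rw [hz]
    exact mul_nonneg hc (dg_nonneg _ _)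
  · subst heq
    set k : ι → ℕ := fun i => Nat.findGreatest (fun j => f ∈ mx (p i) ^ j) B with hk
    have hkB : ∀ i ∈ T, k i ≤ B := fun i _ => Nat.findGreatest_le B
    have hkm : ∀ i ∈ T, f ∈ mx (p i) ^ k i := fun i _ =>
      Nat.findGreatest_spec (P := fun j => f ∈ mx (p i) ^ j) (Nat.zero_le B) (by simp)
    have hmin : ∀ i ∈ T, min (mu (p i) n (Ideal.span {f})) (B : ℝ) ≤ (k i : ℝ) := by
      intro i hi
      rcases (hkB i hi).lt_or_eq with hlt | heq
      · refine (min_le_left _ _).trans (h2 n K f (p i) (k i) ?_)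
        exact Nat.findGreatest_is_greatest (P := fun j => f ∈ mx (p i) ^ j)
          (Nat.lt_succ_self _) hlt
      · rw [heq]; exact min_le_right _ _
    have hd := one_le_totalDegree_Base hf
    have h5 := H ι T k f.totalDegree τ hτ hT hd hkB
      (h3 n K ι p hp T k B f.totalDegree f hkB hf.ne_zero le_rfl hkm)
    exact (Finset.sum_le_sum hmin).trans
      (h5.trans (mul_le_mul_of_nonneg_left (h1 n K f hf.ne_zero) hc))

end Pool.Agent.MP_5499e5_ag.W

end

section

set_option autoImplicit false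

namespace Pool.Agent.MP_5499e5_ag.W

open Filter MvPolynomial

theorem blocks_Step {ι : Type} (T : Finset ι) (s r : ℕ) (h : T.card ≤ s * r) :
    ∃ j : ι → ℕ, (∀ i ∈ T, j i < s) ∧ ∀ b, (T.filter fun i => j i = b).card ≤ r := by
  classical
  let e : ι → ℕ := fun i => if hi : i ∈ T then (T.equivFin ⟨i, hi⟩ : ℕ) else 0
  have he : ∀ i ∈ T, e i < s * r := fun i hi => by
    simp only [e, dif_pos hi]
    exact (T.equivFin ⟨i, hi⟩).2.trans_le h
  have hinj : Set.InjOn e T := fun i hi i' hi' hh => by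
    have hi₁ : i ∈ T := hi
    have hi₂ : i' ∈ T := hi'
    simp only [e, dif_pos hi₁, dif_pos hi₂] at hh
    exact congrArg Subtype.val (T.equivFin.injective (Fin.ext hh))
  refine ⟨fun i => e i / r, fun i hi => Nat.div_lt_of_lt_mul (by rw [mul_comm]; exact he i hi),
    fun b => ?_⟩
  refine (Finset.card_le_card_of_injOn (t := Finset.range r) (fun i => e i % r)
    (fun i hi => ?_) fun i hi i' hi' hh => ?_).trans (Finset.card_range r).le
  · have h1 := he i (Finset.mem_filter.1 hi).1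
    exact Finset.mem_range.2 (Nat.mod_lt _ (Nat.pos_of_mul_pos_left (Nat.zero_lt_of_lt h1)))
  · have h1 := Finset.mem_filter.1 hi
    have h2 := Finset.mem_filter.1 hi'
    refine hinj h1.1 h2.1 ?_
    have h3 : e i % r = e i' % r := hh
    have h4 : e i / r = e i' / r := h1.2.trans h2.2.symm
    rw [← Nat.div_add_mod (e i) r, ← Nat.div_add_mod (e i') r, h4, h3]

theorem s_step (h1 : S_num2) (h2 : S_place) (h3 : S_flath) (h4 : S_flatl) (h5 : S_spec) :
    S_step := by
  intro n w B ε' τ' hw hε0 hε1 hτ' hML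
  obtain ⟨ε, τ₀, e0, e1, t1, hn⟩ := h1 n w ε' τ' hw hε0 hε1 hτ'
  refine ⟨ε, τ₀, e0, e1, t1, ?_⟩
  intro K _ _ ι p hp T τ hτ hT J hJ
  obtain ⟨σ, r', s, a1, a2, a3, a4, a5⟩ := hn τ T.card hτ hT
  obtain ⟨j, hj1, hj2⟩ := blocks_Step T s r' a3
  obtain ⟨O, p', hp', hc, hp0, hg⟩ := h2 n K ι p j hp
  have hf0 := Eventually.of_forall (f := atTop) (h3 (n + 1) K O J)
  have hJ0 : Dim (red O J) (w + 1) := Bdd.of_le hJ hf0
  have hd : dg (w + 1) (red O J) ≤ dg (w + 1) J := Bdd.le_lo hJ ((lb_dg _ _).of_le hf0)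
  have hm : ∀ i, mu (p i) (w + 1) J ≤
      mu (fun u => IsLocalRing.residue O (p' i u)) (w + 1) (red O J) := fun i => by
    have e : (fun u => (p' i u : K)) = p i := funext (hp' i)
    refine ((hJ0.ub_mu _).of_le (Eventually.of_forall fun t => ?_)).up_le
    rw [← e]
    exact h4 (n + 1) K O J (p' i) t
  have h6 := h5 n w B ε' τ' (by omega) hML (IsLocalRing.ResidueField O) ι
    (fun i u => IsLocalRing.residue O (p' i u)) j T σ ((1 - ε) * τ ^ (w + 1)) r' s hg hp0 hj1 hj2
    (by linarith) a1 a2 a4 a5 (red O J) hJ0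
  have h7 : 0 ≤ (1 - ε) * τ ^ (w + 1) := mul_nonneg (by linarith) (pow_nonneg (by linarith) _)
  exact (Finset.sum_le_sum fun i _ => min_le_min_right _ (hm i)).trans
    (h6.trans (mul_le_mul_of_nonneg_left hd h7))

theorem mono_Step {N w B : ℕ} {ε τ₀ ε' τ' : ℝ} (h : ML N w B ε τ₀) (hε : ε' ≤ ε) (hτ : τ₀ ≤ τ')
    (h0 : 0 ≤ τ') : ML N w B ε' τ' := by
  intro K _ _ ι p hp T τ h1 hT J hJ
  refine (h K ι p hp T τ (hτ.trans h1) hT J hJ).trans ?_
  exact mul_le_mul_of_nonneg_right
    (mul_le_mul_of_nonneg_right (by linarith) (pow_nonneg (h0.trans h1) _)) (dg_nonneg _ _)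

theorem one_Step (h1 : S_base) (h2 : S_step) (B N : ℕ) : ∀ w, 1 ≤ w → w < N →
    ∃ ε τ₀ : ℝ, 0 < ε ∧ ε < 1 ∧ 1 ≤ τ₀ ∧ ML N w B ε τ₀ := by
  induction N with
  | zero => intro w _ h; omega
  | succ n ih =>
    intro w hw hN
    rcases (Nat.lt_succ_iff.1 hN).eq_or_lt with rfl | hlt
    · exact h1 w B hw
    · obtain ⟨ε, τ, e0, e1, t1, h⟩ := ih w hw hlt
      obtain ⟨w, rfl⟩ : ∃ w', w = w' + 1 := ⟨w - 1, by omega⟩
      exact h2 n w B ε τ hlt.le e0 e1 t1 h

theorem s_ml (h1 : S_base) (h2 : S_step) : S_ml := by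
  intro N B
  have h : ∀ m : ℕ, ∃ ε τ₀ : ℝ, 0 < ε ∧ ε < 1 ∧ 1 ≤ τ₀ ∧
      ∀ w, 1 ≤ w → w < N → w < m → ML N w B ε τ₀ := by
    intro m
    induction m with
    | zero => exact ⟨1 / 2, 1, by norm_num, by norm_num, le_rfl, fun w _ _ h => by omega⟩
    | succ m ih =>
      obtain ⟨ε, τ, e0, e1, t1, h⟩ := ih
      by_cases hm : 1 ≤ m ∧ m < N
      · obtain ⟨ε', τ', e0', -, -, h'⟩ := one_Step h1 h2 B N m hm.1 hm.2
        have t2 : 1 ≤ max τ τ' := t1.trans (le_max_left _ _)
        refine ⟨min ε ε', max τ τ', lt_min e0 e0', (min_le_left _ _).trans_lt e1, t2,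
          fun w hw hN hlt => ?_⟩
        rcases (Nat.lt_succ_iff.1 hlt).eq_or_lt with rfl | hlt
        · exact mono_Step h' (min_le_right _ _) (le_max_right _ _) (by linarith)
        · exact mono_Step (h w hw hN hlt) (min_le_left _ _) (le_max_left _ _) (by linarith)
      · refine ⟨ε, τ, e0, e1, t1, fun w hw hN hlt => ?_⟩
        rcases (Nat.lt_succ_iff.1 hlt).eq_or_lt with rfl | hlt
        · exact absurd ⟨hw, hN⟩ hm
        · exact h w hw hN hlt
  obtain ⟨ε, τ, e0, e1, t1, h⟩ := h N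
  exact ⟨ε, τ, e0, e1, t1, fun w hw hN => h w hw hN hN⟩

end Pool.Agent.MP_5499e5_ag.W

end

section

set_option autoImplicit false

namespace Pool.Agent.MP_5499e5_ag.W

open Filter MvPolynomial

theorem base_MlQ (h1 : S_hypd) (h2 : S_hypm) (h3 : S_down) {n B : ℕ} (hn : 1 ≤ n) {ε τ₀ : ℝ}
    (hε1 : ε ≤ 1) (hτ₀ : 1 ≤ τ₀)
    (H : ∀ (ι : Type) (T : Finset ι) (k : ι → ℕ) (d : ℕ) (τ : ℝ), τ₀ ≤ τ →
      (T.card : ℝ) ≤ τ ^ (n + 1) → 1 ≤ d → (∀ i ∈ T, k i ≤ B) →
      ∑ i ∈ T, (k i + n).choose (n + 1) ≤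
        (d + (n + 1)).choose (n + 1) + (B + n).choose (n + 1) * ((n + 1) * B * (d + 1) ^ n) →
      ∑ i ∈ T, (k i : ℝ) ≤ (1 - ε) * τ ^ n * d) : ML (n + 1) n B ε τ₀ := by
  classical
  intro K _ _ ι p hp T τ hτ hT J hJ
  have hτ0 : 0 ≤ τ := by linarith
  have hc : 0 ≤ (1 - ε) * τ ^ n := mul_nonneg (by linarith) (pow_nonneg hτ0 n)
  refine reduce_min T p hc (Nat.cast_nonneg B) hJ fun q hq _ hqd => ?_
  have hq0 : q ≠ ⊥ := fun h => not_dim_bot (Nat.lt_succ_self n) (h ▸ hqd)
  obtain ⟨f, hfq, hf⟩ := hq.exists_mem_prime_of_ne_bot hq0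
  have hsp : (Ideal.span {f} : Ideal (A (n + 1) K)).IsPrime :=
    (Ideal.span_singleton_prime hf.ne_zero).2 hf
  have hle : (Ideal.span {f} : Ideal (A (n + 1) K)) ≤ q :=
    (Ideal.span_singleton_le_iff_mem _).2 hfq
  rcases hle.lt_or_eq with hlt | heq
  · obtain ⟨m, rfl⟩ : ∃ m, n = m + 1 := ⟨n - 1, by omega⟩
    have hd1 : Dim (Ideal.span {f} : Ideal (A (m + 1 + 1) K)) (m + 1) := by
      have := (dim_all (⊥ : Ideal (A (m + 1 + 1) K))).slice Ideal.isPrime_bot
        (g := f) (fun h => hf.ne_zero (Ideal.mem_bot.1 h))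
      rwa [bot_sup_eq] at this
    have hd2 : Dim q m := hd1.of_lt hsp hlt
    have hz : ∑ i ∈ T, min (mu (p i) (m + 1) q) (B : ℝ) = 0 :=
      Finset.sum_eq_zero fun i _ => by
        rw [hd2.mu_succ]; exact min_eq_left (Nat.cast_nonneg B)
    rw [hz]
    exact mul_nonneg hc (dg_nonneg _ _)
  · subst heq
    set k : ι → ℕ := fun i => Nat.findGreatest (fun j => f ∈ mx (p i) ^ j) B with hk
    have hkB : ∀ i ∈ T, k i ≤ B := fun i _ => Nat.findGreatest_le B
    have hkm : ∀ i ∈ T, f ∈ mx (p i) ^ k i := fun i _ =>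
      Nat.findGreatest_spec (P := fun j => f ∈ mx (p i) ^ j) (Nat.zero_le B) (by simp)
    have hmin : ∀ i ∈ T, min (mu (p i) n (Ideal.span {f})) (B : ℝ) ≤ (k i : ℝ) := by
      intro i hi
      rcases (hkB i hi).lt_or_eq with hlt | heq
      · refine (min_le_left _ _).trans (h2 n K f (p i) (k i) ?_)
        exact Nat.findGreatest_is_greatest (P := fun j => f ∈ mx (p i) ^ j)
          (Nat.lt_succ_self _) hlt
      · rw [heq]; exact min_le_right _ _
    have hd := one_le_totalDegree_Base hf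
    have h5 := H ι T k f.totalDegree τ hτ hT hd hkB
      (h3 n K ι p hp T k B f.totalDegree f hkB hf.ne_zero le_rfl hkm)
    exact (Finset.sum_le_sum hmin).trans
      (h5.trans (mul_le_mul_of_nonneg_left (h1 n K f hf.ne_zero) hc))

theorem step_MlQ (h2 : S_place) (h3 : S_flath) (h4 : S_flatl) (h5 : S_spec) {n w B : ℕ}
    {ε' τ' ε τ₀ : ℝ} (hw : w + 1 ≤ n) (hτ' : 1 ≤ τ') (e1 : ε ≤ 1) (t1 : 1 ≤ τ₀)
    (hML : ML n (w + 1) B ε' τ')
    (hn : ∀ (τ : ℝ) (r : ℕ), τ₀ ≤ τ → (r : ℝ) ≤ τ ^ (n + 1) →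
      ∃ (σ : ℝ) (r' s : ℕ), τ' ≤ σ ∧ (r' : ℝ) + 2 ^ n ≤ σ ^ n ∧ r ≤ s * r' ∧
        (1 - ε') * σ ^ (w + 1) ≤ (1 - ε) * τ ^ (w + 1) ∧ s * σ ^ w ≤ (1 - ε) * τ ^ (w + 1)) :
    ML (n + 1) (w + 1) B ε τ₀ := by
  intro K _ _ ι p hp T τ hτ hT J hJ
  obtain ⟨σ, r', s, a1, a2, a3, a4, a5⟩ := hn τ T.card hτ hT
  obtain ⟨j, hj1, hj2⟩ := blocks_Step T s r' a3
  obtain ⟨O, p', hp', hc, hp0, hg⟩ := h2 n K ι p j hp
  have hf0 := Eventually.of_forall (f := atTop) (h3 (n + 1) K O J)
  have hJ0 : Dim (red O J) (w + 1) := Bdd.of_le hJ hf0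
  have hd : dg (w + 1) (red O J) ≤ dg (w + 1) J := Bdd.le_lo hJ ((lb_dg _ _).of_le hf0)
  have hm : ∀ i, mu (p i) (w + 1) J ≤
      mu (fun u => IsLocalRing.residue O (p' i u)) (w + 1) (red O J) := fun i => by
    have e : (fun u => (p' i u : K)) = p i := funext (hp' i)
    refine ((hJ0.ub_mu _).of_le (Eventually.of_forall fun t => ?_)).up_le
    rw [← e]
    exact h4 (n + 1) K O J (p' i) t
  have h6 := h5 n w B ε' τ' (by omega) hML (IsLocalRing.ResidueField O) ι
    (fun i u => IsLocalRing.residue O (p' i u)) j T σ ((1 - ε) * τ ^ (w + 1)) r' s hg hp0 hj1 hj2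
    (by linarith) a1 a2 a4 a5 (red O J) hJ0
  have h7 : 0 ≤ (1 - ε) * τ ^ (w + 1) := mul_nonneg (by linarith) (pow_nonneg (by linarith) _)
  exact (Finset.sum_le_sum fun i _ => min_le_min_right _ (hm i)).trans
    (h6.trans (mul_le_mul_of_nonneg_left hd h7))

theorem one_le_MlQ (B e : ℕ) : (1 : ℝ) ≤ ((B : ℝ) + 2) ^ e :=
  one_le_pow₀ (by have : (0 : ℝ) ≤ B := Nat.cast_nonneg B; linarith)

theorem mono_MlQ {N w B e e' : ℕ} (h : ML N w B (1 / ((B : ℝ) + 2) ^ e) (((B : ℝ) + 2) ^ e))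
    (he : e ≤ e') : ML N w B (1 / ((B : ℝ) + 2) ^ e') (((B : ℝ) + 2) ^ e') := by
  have h1 : ((B : ℝ) + 2) ^ e ≤ ((B : ℝ) + 2) ^ e' :=
    pow_le_pow_right₀ (by have : (0 : ℝ) ≤ B := Nat.cast_nonneg B; linarith) he
  exact mono_Step h (one_div_le_one_div_of_le (by positivity) h1) h1 (by positivity)

theorem one_MlQ (h1 : S_hypd) (h2 : S_hypm) (h3 : S_down) (h4 : S_numq) (h5 : S_num2q)
    (h6 : S_place) (h7 : S_flath) (h8 : S_flatl) (h9 : S_spec) (N : ℕ) : ∀ w, 1 ≤ w → w < N →
    ∃ e : ℕ, 1 ≤ e ∧ ∀ B : ℕ, ML N w B (1 / ((B : ℝ) + 2) ^ e) (((B : ℝ) + 2) ^ e) := by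
  induction N with
  | zero => intro w _ h; omega
  | succ n ih =>
    intro w hw hN
    rcases (Nat.lt_succ_iff.1 hN).eq_or_lt with rfl | hlt
    · obtain ⟨e, he, H⟩ := h4 w hw
      exact ⟨e, he, fun B => base_MlQ h1 h2 h3 hw
        ((div_le_one (by positivity)).2 (one_le_MlQ B e)) (one_le_MlQ B e) (H B)⟩
    · obtain ⟨e, he, h⟩ := ih w hw hlt
      obtain ⟨w, rfl⟩ : ∃ w', w = w' + 1 := ⟨w - 1, by omega⟩
      obtain ⟨e', he', H⟩ := h5 n w hlt.le
      refine ⟨e * e', Nat.mul_pos he he', fun B => ?_⟩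
      have hx : (2 : ℝ) ≤ ((B : ℝ) + 2) ^ e := by
        have h0 : (0 : ℝ) ≤ B := Nat.cast_nonneg B
        exact le_trans (by linarith) (le_self_pow₀ (by linarith) (by omega))
      refine step_MlQ h6 h7 h8 h9 hlt.le (one_le_MlQ B e)
        ((div_le_one (by positivity)).2 (one_le_MlQ B _)) (one_le_MlQ B _) (h B) ?_
      rw [pow_mul]
      exact H _ hx

theorem s_mlq (h1 : S_hypd) (h2 : S_hypm) (h3 : S_down) (h4 : S_numq) (h5 : S_num2q)
    (h6 : S_place) (h7 : S_flath) (h8 : S_flatl) (h9 : S_spec) : S_mlq := by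
  intro N
  have h : ∀ m : ℕ, ∃ e : ℕ, 1 ≤ e ∧ ∀ B w : ℕ, 1 ≤ w → w < N → w < m →
      ML N w B (1 / ((B : ℝ) + 2) ^ e) (((B : ℝ) + 2) ^ e) := by
    intro m
    induction m with
    | zero => exact ⟨1, le_rfl, fun _ w _ _ h => by omega⟩
    | succ m ih =>
      obtain ⟨e, he, h⟩ := ih
      by_cases hm : 1 ≤ m ∧ m < N
      · obtain ⟨e', -, h'⟩ := one_MlQ h1 h2 h3 h4 h5 h6 h7 h8 h9 N m hm.1 hm.2
        refine ⟨max e e', he.trans (le_max_left _ _), fun B w hw hN hlt => ?_⟩
        rcases (Nat.lt_succ_iff.1 hlt).eq_or_lt with rfl | hlt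
        · exact mono_MlQ (h' B) (le_max_right _ _)
        · exact mono_MlQ (h B w hw hN hlt) (le_max_left _ _)
      · refine ⟨e, he, fun B w hw hN hlt => ?_⟩
        rcases (Nat.lt_succ_iff.1 hlt).eq_or_lt with rfl | hlt
        · exact absurd ⟨hw, hN⟩ hm
        · exact h B w hw hN hlt
  obtain ⟨e, he, h⟩ := h N
  exact ⟨e, he, fun B w hw hN => h B w hw hN hN⟩

end Pool.Agent.MP_5499e5_ag.W

end

section

set_option autoImplicit false

namespace Pool.Agent.MP_5499e5_ag.W

open Filter MvPolynomial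

theorem exists_of_lt_Sec {N : ℕ} {K : Type} [Field K] {ι : Type} (T : Finset ι)
    (p : ι → Fin N → K) (J : Ideal (A N K)) (n t : ℕ) (h : ∑ i ∈ T, lf (p i) J n < hf J t) :
    ∃ g : A N K, g ∉ J ∧ g.totalDegree ≤ t ∧ ∀ i ∈ T, g ∈ J ⊔ mx (p i) ^ n := by
  let φ : ((Le N K t).map (mkL J)) →ₗ[K] (∀ i : T, A N K ⧸ (J ⊔ mx (p i) ^ n)) :=
    LinearMap.pi fun i : T => (facL (le_sup_left : J ≤ J ⊔ mx (p i) ^ n)).domRestrict _
  have h1 : Module.finrank K (∀ i : T, A N K ⧸ (J ⊔ mx (p i) ^ n)) = ∑ i ∈ T, lf (p i) J n := by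
    rw [Module.finrank_pi_fintype]
    exact Finset.sum_coe_sort T fun i => lf (p i) J n
  have h2 : LinearMap.ker φ ≠ ⊥ :=
    LinearMap.ker_ne_bot_of_finrank_lt (by rw [h1]; exact h)
  obtain ⟨⟨_, g, hg, rfl⟩, hx, hx0⟩ := Submodule.exists_mem_ne_zero_of_ne_bot h2
  refine ⟨g, fun hJ => hx0 (Subtype.ext (mkL_eq_zero.2 hJ)), mem_Le.1 hg, fun i hi => ?_⟩
  have h3 := congrFun (LinearMap.mem_ker.1 hx) ⟨i, hi⟩
  exact mkL_eq_zero.1 h3

theorem s_sec : S_sec := by
  intro N K _ ι T p w J ρ hJ hρ hlt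
  have h1 := UB.sum T (fun i => lf (p i) J) (fun i => mu (p i) w J) fun i _ => hJ.ub_mu (p i)
  refine (ev_lt_of_lt (lb_dg J w) h1 hρ hlt).mono fun n hn => ?_
  obtain ⟨g, hg, hd, hm⟩ := exists_of_lt_Sec T p J n _ hn
  refine ⟨g, hg, ?_, hm⟩
  have h2 : (g.totalDegree : ℝ) ≤ (⌊ρ * n⌋₊ : ℕ) := by exact_mod_cast hd
  exact h2.trans (Nat.floor_le (by positivity))

end Pool.Agent.MP_5499e5_ag.W

end

section

set_option autoImplicit false

namespace Pool.Agent.MP_5499e5_ag.W

open Filter MvPolynomial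

theorem res_Spec (h1 : S_res) {n : ℕ} {K : Type} [Field K] {J : Ideal (A (n + 1) K)} {h : K}
    (hh : (X 0 - C h : A (n + 1) K) ∈ J) {k : ℕ} (hJ : Dim J k) :
    ∃ J' : Ideal (A n K), Dim J' k ∧ dg k J' ≤ dg k J ∧
      ∀ p : Fin (n + 1) → K, mu p k J ≤ mu (fun u : Fin n => p u.succ) k J' := by
  obtain ⟨J', a, b⟩ := h1 n K J h hh
  have hd : Dim J' k := Bdd.of_le hJ (Eventually.of_forall a)
  exact ⟨J', hd, Bdd.le_lo hJ ((lb_dg J' k).of_le (Eventually.of_forall a)),
    fun p => ((hd.ub_mu _).of_le (Eventually.of_forall (b p))).up_le⟩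

theorem s_spec (h1 : S_res) (h2 : S_kl) (h3 : S_ku) : S_spec := by
  intro n w B ε' τ' hn hML K _ _ ι p j T σ c r' s hgen hp0 hjs hcard hσ hτ hr hc1 hc2 J hJ
  have hc : 0 ≤ c := le_trans (by positivity) hc2
  have hcard' : ∀ b, ((T.filter fun i => j i = b).card : ℝ) + 2 ^ n ≤ σ ^ n := fun b =>
    le_trans (by gcongr; exact_mod_cast hcard b) hr
  refine reduce_min T p hc (Nat.cast_nonneg B) hJ fun q hq _ hd => ?_
  by_cases hA : ∃ b : ℕ, (X 0 - C (b : K) : A (n + 1) K) ∈ q
  · obtain ⟨b, hb⟩ := hA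
    obtain ⟨J', d1, d2, d3⟩ := res_Spec h1 hb hd
    have e1 : ∑ i ∈ T, min (mu (p i) (w + 1) q) (B : ℝ) =
        ∑ i ∈ T.filter fun i => j i = b, min (mu (p i) (w + 1) q) (B : ℝ) := by
      refine (Finset.sum_filter_of_ne fun i _ hi => ?_).symm
      by_contra hne
      refine hi ?_
      rw [mu_eq_zero fun hle => hne ?_, min_eq_left (Nat.cast_nonneg B)]
      have h4 := mem_mx.1 (hle hb)
      rw [map_sub, eval_X, eval_C, hp0, sub_eq_zero] at h4
      exact_mod_cast h4
    have e2 := hML K ι _ hgen (T.filter fun i => j i = b) σ hτ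
      (le_trans (le_add_of_nonneg_right (by positivity)) (hcard' b)) J' d1
    rw [e1]
    refine le_trans (Finset.sum_le_sum fun i _ => min_le_min_right _ (d3 (p i))) (e2.trans ?_)
    exact (mul_le_mul_of_nonneg_right hc1 (dg_nonneg _ _)).trans (mul_le_mul_of_nonneg_left d2 hc)
  · have hA' : ∀ b : ℕ, (X 0 - C (b : K) : A (n + 1) K) ∉ q := fun b hb => hA ⟨b, hb⟩
    have key : ∀ b : ℕ, ∑ i ∈ T.filter fun i => j i = b, min (mu (p i) (w + 1) q) (B : ℝ) ≤
        σ ^ w * dg (w + 1) q := by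
      intro b
      have hs := hd.slice hq (hA' b)
      obtain ⟨J', d1, d2, d3⟩ := res_Spec h1
        (Ideal.mem_sup_right (Ideal.mem_span_singleton_self _)) hs
      have e2 := h2 n K ι (T.filter fun i => j i = b) _ σ (hgen.injective hn).injOn hσ
        (h3 n K ι _ hn hgen _ σ hσ (hcard' b)) w J' d1
      have e3 := hd.dg_slice hq (hA' b) (d := 1) ((totalDegree_sub _ _).trans
        (max_le (by simp) (by rw [totalDegree_C]; exact Nat.zero_le _)))
      rw [Nat.cast_one, one_mul] at e3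
      refine le_trans (Finset.sum_le_sum fun i hi => (min_le_left _ _).trans
        (le_trans ?_ (d3 (p i)))) (e2.trans ?_)
      · have e4 := mu_slice (p i) (J := q) (g := X 0 - C (b : K)) (a := 1)
          (Ideal.mem_sup_right (by
            rw [pow_one, ← (Finset.mem_filter.1 hi).2, ← hp0]
            exact X_sub_mem_mx _ _)) hs
        rwa [Nat.cast_one, one_mul] at e4
      · exact mul_le_mul_of_nonneg_left (d2.trans e3) (by positivity)
    rw [← Finset.sum_fiberwise_of_maps_to (t := Finset.range s) (g := j)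
      fun i hi => Finset.mem_range.2 (hjs i hi)]
    refine (Finset.sum_le_sum fun b _ => key b).trans ?_
    rw [Finset.sum_const, Finset.card_range, nsmul_eq_mul, ← mul_assoc]
    exact mul_le_mul_of_nonneg_right hc2 (dg_nonneg _ _)

end Pool.Agent.MP_5499e5_ag.W

end

section

set_option autoImplicit false

namespace Pool.Agent.MP_5499e5_ag.W

theorem kl_Main : S_kl := s_kl s_zero (s_mu s_zero) s_sec

theorem ku_Main : S_ku := s_ku s_zero (s_mu s_zero) s_sec s_sub

theorem mlq_Main : S_mlq :=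
  s_mlq s_hypd s_hypm (s_down s_sub s_der (s_pt s_pt0)) s_numq s_num2q s_place (s_flath s_la)
    (s_flatl s_la) (s_spec s_res kl_Main ku_Main)

theorem eklq_Main : S_eklq :=
  s_eklq s_zero s_sec kl_Main s_sub s_der ku_Main s_tb (s_tbdim s_minq) s_tbdeg
    (s_jac s_minq s_exch) s_lam s_indep s_bez s_gap mlq_Main

end Pool.Agent.MP_5499e5_ag.W

end
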